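import Pool.Agent.TH858.GP.Dense2

set_option autoImplicit false

/-! Progressions in `ℤ/N` that contain a dense subset contain proper progressions, and the lift of a
set in `ℤ/N` to the integers. -/

namespace Pool.Agent.R765.BE

open Finset
open scoped Pointwise
open Pool.Agent.TH858.GP

variable {N : ℕ} [NeZero N]

/-- representatives in `[0, N)` -/
def lift (B : Finset (ZMod N)) : Finset ℤ := B.image (fun x => (x.val : ℤ))

lemma card_lift (B : Finset (ZMod N)) : (lift B).card = B.card := by
  unfold lift
  apply Finset.card_image_of_injective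
  intro x y h
  have h0 : (x.val : ℤ) = (y.val : ℤ) := h
  have h' : x.val = y.val := by exact_mod_cast h0
  exact ZMod.val_injective N h'

lemma card_lift_add (B : Finset (ZMod N)) : (lift B + lift B).card ≤ 2 * (B + B).card := by
  classical
  have hN : (0 : ℤ) < N := by exact_mod_cast NeZero.pos N
  have h : (lift B + lift B).card ≤ ((B + B) ×ˢ ({0, 1} : Finset ℤ)).card := by
    apply Finset.card_le_card_of_injOn (fun z : ℤ => ((z : ZMod N), z / (N : ℤ)))
    · intro z hz
      rw [Finset.mem_coe, Finset.mem_add] at hz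
      obtain ⟨x, hx, y, hy, rfl⟩ := hz
      unfold lift at hx hy
      rw [Finset.mem_image] at hx hy
      obtain ⟨x', hx', rfl⟩ := hx
      obtain ⟨y', hy', rfl⟩ := hy
      rw [Finset.mem_coe, Finset.mem_product]
      constructor
      · rw [Finset.mem_add]
        refine ⟨x', hx', y', hy', ?_⟩
        push_cast
        rw [ZMod.natCast_zmod_val, ZMod.natCast_zmod_val]
      · have h1 : (x'.val : ℤ) < N := by exact_mod_cast ZMod.val_lt x'
        have h2 : (y'.val : ℤ) < N := by exact_mod_cast ZMod.val_lt y'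
        have h3 : (0 : ℤ) ≤ x'.val := by positivity
        have h4 : (0 : ℤ) ≤ y'.val := by positivity
        have h5 : 0 ≤ ((x'.val : ℤ) + y'.val) / N := Int.ediv_nonneg (by linarith) hN.le
        have h6 : ((x'.val : ℤ) + y'.val) / N < 2 := by
          apply Int.ediv_lt_of_lt_mul hN
          linarith
        rw [Finset.mem_insert, Finset.mem_singleton]
        show ((x'.val : ℤ) + y'.val) / N = 0 ∨ ((x'.val : ℤ) + y'.val) / N = 1
        omega
    · intro z _ z' _ h
      simp only [Prod.mk.injEq] at h
      obtain ⟨h1, h2⟩ := h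
      rw [ZMod.intCast_eq_intCast_iff_dvd_sub] at h1
      obtain ⟨k, hk⟩ := h1
      have h3 : z' = z + N * k := by linarith
      rw [h3, Int.add_mul_ediv_left _ _ hN.ne'] at h2
      have h4 : k = 0 := by linarith
      rw [h3, h4]
      ring
  rw [Finset.card_product] at h
  have h2 : ({0, 1} : Finset ℤ).card = 2 := rfl
  rw [h2] at h
  linarith

omit [NeZero N] in
lemma ev_add {d : ℕ} (a : Fin d → ZMod N) (m n : Fin d → ℤ) : ev a (m + n) = ev a m + ev a n := by
  unfold ev
  rw [← Finset.sum_add_distrib]
  refine Finset.sum_congr rfl fun i _ => ?_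
  rw [Pi.add_apply]
  push_cast
  ring

omit [NeZero N] in
lemma ev_sub {d : ℕ} (a : Fin d → ZMod N) (m n : Fin d → ℤ) : ev a (m - n) = ev a m - ev a n := by
  unfold ev
  rw [← Finset.sum_sub_distrib]
  refine Finset.sum_congr rfl fun i _ => ?_
  rw [Pi.sub_apply]
  push_cast
  ring

omit [NeZero N] in
lemma ev_smul {d : ℕ} (a : Fin d → ZMod N) (j : ℤ) (n : Fin d → ℤ) : ev a (j • n) = j * ev a n := by
  unfold ev
  rw [Finset.mul_sum]
  refine Finset.sum_congr rfl fun i _ => ?_
  rw [Pi.smul_apply, smul_eq_mul]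
  push_cast
  ring

lemma card_box3 {d : ℕ} (L : Fin d → ℕ) :
    (box (fun i => 3 * L i)).card ≤ 3 ^ d * (box L).card := by
  rw [card_box, card_box]
  calc ∏ i, (2 * (3 * L i) + 1) ≤ ∏ i, (3 * (2 * L i + 1)) :=
        Finset.prod_le_prod' fun i _ => by omega
    _ = 3 ^ d * ∏ i, (2 * L i + 1) := by
        rw [Finset.prod_mul_distrib, Finset.prod_const, Finset.card_univ, Fintype.card_fin]

lemma card_box_div {d : ℕ} (L : Fin d → ℕ) (s : ℕ) (hs : 0 < s) :
    (box L).card ≤ (2 * s) ^ d * (box (fun i => L i / s)).card := by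
  rw [card_box, card_box]
  calc ∏ i, (2 * L i + 1) ≤ ∏ i, (2 * s * (2 * (L i / s) + 1)) := by
        refine Finset.prod_le_prod' fun i _ => ?_
        have h1 := Nat.div_add_mod (L i) s
        have h2 := Nat.mod_lt (L i) hs
        obtain ⟨q, hq⟩ : ∃ q, q = L i / s := ⟨_, rfl⟩
        rw [← hq] at h1 ⊢
        have h3 : 2 * L i + 1 ≤ 2 * (s * q) + 2 * s := by omega
        calc 2 * L i + 1 ≤ 2 * (s * q) + 2 * s := h3
          _ ≤ 2 * s * (2 * q + 1) := by nlinarith [Nat.zero_le (s * q)]
    _ = (2 * s) ^ d * ∏ i, (2 * (L i / s) + 1) := by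
        rw [Finset.prod_mul_distrib, Finset.prod_const, Finset.card_univ, Fintype.card_fin]

/-- The short progression is proper. -/
lemma inj_short {d : ℕ} (a : Fin d → ZMod N) (L : Fin d → ℕ) (s : ℕ) (hs : 0 < s)
    (h : 3 ^ d * (box L).card < s * (XX a L).card) :
    Set.InjOn (ev a) (box (fun i => L i / s)) := by
  classical
  intro m hm m' hm' hmm
  by_contra hne
  rw [Finset.mem_coe, mem_box] at hm hm'
  have hn0 : m - m' ≠ 0 := sub_ne_zero.2 hne
  obtain ⟨n, hn⟩ : ∃ n, n = m - m' := ⟨_, rfl⟩
  rw [← hn] at hn0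
  have hevn : ev a n = 0 := by
    rw [hn, ev_sub, hmm, sub_self]
  have hni : ∀ i, |n i| * s ≤ 2 * L i := by
    intro i
    have h1 : |n i| ≤ 2 * ((L i / s : ℕ) : ℤ) := by
      rw [hn, Pi.sub_apply]
      have h2 := hm i
      have h3 := hm' i
      have h4 := abs_sub (m i) (m' i)
      calc |m i - m' i| ≤ |m i| + |m' i| := h4
        _ ≤ ((L i / s : ℕ) : ℤ) + ((L i / s : ℕ) : ℤ) := add_le_add h2 h3
        _ = 2 * ((L i / s : ℕ) : ℤ) := by ring
    have h5 : (L i / s) * s ≤ L i := Nat.div_mul_le_self _ _
    have h6 : (((L i / s) * s : ℕ) : ℤ) ≤ L i := by exact_mod_cast h5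
    push_cast at h6
    calc |n i| * s ≤ 2 * ((L i / s : ℕ) : ℤ) * s :=
          mul_le_mul_of_nonneg_right h1 (by positivity)
      _ = 2 * (((L i / s : ℕ) : ℤ) * s) := by ring
      _ ≤ 2 * L i := by
          push_cast
          linarith
  -- each point of the image has many preimages
  obtain ⟨i0, hi0⟩ : ∃ i, n i ≠ 0 := by
    by_contra hcon
    push Not at hcon
    exact hn0 (funext hcon)
  have hfib : ∀ x ∈ XX a L, s ≤ ((box (fun i => 3 * L i)).filter (fun u => ev a u = x)).card := by
    intro x hx
    unfold XX at hx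
    rw [Finset.mem_image] at hx
    obtain ⟨c, hc, rfl⟩ := hx
    rw [mem_box] at hc
    have hle : (Finset.range s).card ≤
        ((box (fun i => 3 * L i)).filter (fun u => ev a u = ev a c)).card := by
      apply Finset.card_le_card_of_injOn (fun j : ℕ => c + (j : ℤ) • n)
      · intro j hj
        rw [Finset.mem_coe, Finset.mem_range] at hj
        rw [Finset.mem_coe, Finset.mem_filter, mem_box]
        constructor
        · intro i
          have h1 := hc i
          have h2 := hni i
          show |c i + (j : ℤ) * n i| ≤ ((3 * L i : ℕ) : ℤ)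
          have h3 : |(j : ℤ) * n i| ≤ 2 * L i := by
            rw [abs_mul, Nat.abs_cast]
            have h4 : (j : ℤ) ≤ s := by exact_mod_cast hj.le
            calc (j : ℤ) * |n i| ≤ s * |n i| := mul_le_mul_of_nonneg_right h4 (abs_nonneg _)
              _ = |n i| * s := mul_comm _ _
              _ ≤ 2 * L i := h2
          calc |c i + (j : ℤ) * n i| ≤ |c i| + |(j : ℤ) * n i| := abs_add_le _ _
            _ ≤ L i + 2 * L i := add_le_add h1 h3
            _ = ((3 * L i : ℕ) : ℤ) := by push_cast; ring
        · rw [ev_add, ev_smul, hevn, mul_zero, add_zero]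
      · intro j _ j' _ hjj
        have h1 := congrFun hjj i0
        simp only [Pi.add_apply, Pi.smul_apply, smul_eq_mul] at h1
        have h2 : (j : ℤ) * n i0 = (j' : ℤ) * n i0 := by linarith
        have h3 := mul_right_cancel₀ hi0 h2
        exact_mod_cast h3
    rwa [Finset.card_range] at hle
  have hsum : s * (XX a L).card ≤ (box (fun i => 3 * L i)).card := by
    calc s * (XX a L).card = ∑ _x ∈ XX a L, s := by rw [Finset.sum_const, smul_eq_mul, mul_comm]
      _ ≤ ∑ x ∈ XX a L, ((box (fun i => 3 * L i)).filter (fun u => ev a u = x)).card :=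
          Finset.sum_le_sum hfib
      _ = ((XX a L).biUnion fun x => (box (fun i => 3 * L i)).filter (fun u => ev a u = x)).card := by
          rw [Finset.card_biUnion]
          intro x _ y _ hxy
          rw [Function.onFun, Finset.disjoint_left]
          intro u hu hu'
          rw [Finset.mem_filter] at hu hu'
          exact hxy (hu.2.symm.trans hu'.2)
      _ ≤ (box (fun i => 3 * L i)).card := by
          apply Finset.card_le_card
          intro u hu
          rw [Finset.mem_biUnion] at hu
          obtain ⟨x, _, hx⟩ := hu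
          exact (Finset.mem_filter.1 hx).1
  have := card_box3 L
  omega

/-- A translate of the short progression contains many elements. -/
lemma dens_short {d : ℕ} (a : Fin d → ZMod N) (L : Fin d → ℕ) (s : ℕ) (Q : ℝ)
    (hQ : 0 < Q) (B : Finset (ZMod N)) (hBne : B.Nonempty) (t : ZMod N)
    (hB : ∀ y ∈ B, y - t ∈ XX a L)
    (h : (3 : ℝ) ^ d * (box L).card ≤ Q * B.card) :
    ∃ t' : ZMod N, ((XX a (fun i => L i / s)).card : ℝ) ≤
      Q * ((B.filter fun y => y - t' ∈ XX a (fun i => L i / s)).card : ℝ) := by
  classical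
  obtain ⟨L', hL'⟩ : ∃ L' : Fin d → ℕ, L' = fun i => L i / s := ⟨_, rfl⟩
  rw [← hL']
  obtain ⟨S, hS⟩ : ∃ S, S = (B ×ˢ XX a L').image (fun p => p.1 - p.2) := ⟨_, rfl⟩
  have hScard : (S.card : ℝ) ≤ Q * B.card := by
    refine le_trans ?_ h
    have h1 : S.card ≤ (box (fun i => 3 * L i)).card := by
      have h2 : S ⊆ (XX a (fun i => 3 * L i)).image (fun x => x + t) := by
        intro x hx
        rw [hS, Finset.mem_image] at hx
        obtain ⟨p, hp, rfl⟩ := hx
        rw [Finset.mem_product] at hp
        have h3 := hB _ hp.1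
        have h4 := hp.2
        unfold XX at h3 h4
        rw [Finset.mem_image] at h3 h4
        obtain ⟨c, hc, hc'⟩ := h3
        obtain ⟨c2, hc2, hc2'⟩ := h4
        rw [mem_box] at hc hc2
        rw [Finset.mem_image]
        refine ⟨p.1 - p.2 - t, ?_, by ring⟩
        unfold XX
        rw [Finset.mem_image]
        refine ⟨c - c2, ?_, ?_⟩
        · rw [mem_box]
          intro i
          have h5 := hc i
          have h6 := hc2 i
          rw [hL'] at h6
          have h7 : (((L i / s : ℕ)) : ℤ) ≤ L i := by exact_mod_cast Nat.div_le_self _ _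
          rw [Pi.sub_apply]
          calc |c i - c2 i| ≤ |c i| + |c2 i| := abs_sub _ _
            _ ≤ L i + L i := add_le_add h5 (h6.trans h7)
            _ ≤ ((3 * L i : ℕ) : ℤ) := by push_cast; linarith [Int.natCast_nonneg (L i)]
        · rw [ev_sub, hc', hc2']
          ring
      calc S.card ≤ ((XX a (fun i => 3 * L i)).image (fun x => x + t)).card :=
            Finset.card_le_card h2
        _ ≤ (XX a (fun i => 3 * L i)).card := Finset.card_image_le
        _ ≤ (box (fun i => 3 * L i)).card := by unfold XX; exact Finset.card_image_le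
    have h5 := h1.trans (card_box3 L)
    exact_mod_cast h5
  by_contra hcon
  push Not at hcon
  have hXne : (XX a L').Nonempty := by
    refine ⟨ev a 0, ?_⟩
    unfold XX
    rw [Finset.mem_image]
    refine ⟨0, ?_, rfl⟩
    rw [mem_box]
    intro i
    simp
  have hSne : S.Nonempty := by
    rw [hS]
    exact (hBne.product hXne).image _
  have hfib : ∀ x ∈ S, Q * (((B ×ˢ XX a L').filter (fun p => p.1 - p.2 = x)).card : ℝ) <
      (XX a L').card := by
    intro x _
    refine lt_of_le_of_lt ?_ (hcon x)
    apply mul_le_mul_of_nonneg_left _ hQ.le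
    have h1 : ((B ×ˢ XX a L').filter (fun p => p.1 - p.2 = x)).card ≤
        (B.filter fun y => y - x ∈ XX a L').card := by
      apply Finset.card_le_card_of_injOn (fun p => p.1)
      · intro p hp
        rw [Finset.mem_coe, Finset.mem_filter, Finset.mem_product] at hp
        rw [Finset.mem_coe, Finset.mem_filter]
        refine ⟨hp.1.1, ?_⟩
        have h2 : p.1 - x = p.2 := by rw [← hp.2]; ring
        rw [h2]
        exact hp.1.2
      · intro p hp p' hp' hpp
        rw [Finset.mem_coe, Finset.mem_filter] at hp hp'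
        have h2 : p.1 = p'.1 := hpp
        have h3 : p.2 = p.1 - x := by rw [← hp.2]; ring
        have h4 : p'.2 = p'.1 - x := by rw [← hp'.2]; ring
        exact Prod.ext h2 (by rw [h3, h4, h2])
    exact_mod_cast h1
  have hcount : ((B ×ˢ XX a L').card : ℝ) =
      ∑ x ∈ S, (((B ×ˢ XX a L').filter (fun p => p.1 - p.2 = x)).card : ℝ) := by
    rw [Finset.card_eq_sum_card_fiberwise (f := fun p : ZMod N × ZMod N => p.1 - p.2) (t := S)]
    · push_cast
      rfl
    · intro p hp
      rw [hS]
      exact Finset.mem_coe.2 (Finset.mem_image_of_mem (fun p : ZMod N × ZMod N => p.1 - p.2) hp)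
  have h1 : Q * ((B ×ˢ XX a L').card : ℝ) < S.card * (XX a L').card := by
    rw [hcount, Finset.mul_sum]
    calc ∑ x ∈ S, Q * (((B ×ˢ XX a L').filter (fun p => p.1 - p.2 = x)).card : ℝ)
        < ∑ _x ∈ S, ((XX a L').card : ℝ) := Finset.sum_lt_sum_of_nonempty hSne hfib
      _ = S.card * (XX a L').card := by rw [Finset.sum_const, nsmul_eq_mul]
  rw [Finset.card_product] at h1
  push_cast at h1
  have h2 : (S.card : ℝ) * (XX a L').card ≤ Q * B.card * (XX a L').card :=
    mul_le_mul_of_nonneg_right hScard (Nat.cast_nonneg _)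
  linarith

end Pool.Agent.R765.BE
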