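import Pool.Agent.R765.BEa
import Pool.Agent.Results.MP_626a77_co.GapCover
import Pool.Agent.H217R3.AK.Bsg

set_option autoImplicit false

/-! Bohr sets in `2A - 2A` for sets of small doubling and for sets of large additive energy. -/

namespace Pool.Agent.R765.BE

open Finset
open scoped Pointwise
open Pool.Agent.TH858.GP
open Pool.Agent.TH858 (CB.nn)

variable {N : ℕ} [NeZero N]

/-- The cover by translates of a progression. -/
lemma cover_step (ε : ℝ) (hε0 : 0 < ε) (hε1 : ε ≤ 1) (K : ℝ) (hK : 1 ≤ K) (B₀ : Finset (ZMod N))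
    (hB₀ : B₀.Nonempty) (hK2 : ((B₀ + B₀).card : ℝ) ≤ K * B₀.card) :
    ∃ (d : ℕ) (a : Fin d → ZMod N) (L : Fin d → ℕ) (t : ZMod N) (B : Finset (ZMod N)),
      B ⊆ B₀ ∧ B.Nonempty ∧ (∀ y ∈ B, y - t ∈ XX a L) ∧
      (d : ℝ) ≤ 30000 / ε * Real.log (2 * (2 * K)) ∧
      ((box L).card : ℝ) ≤
        Real.exp (4000000 / ε ^ 2 * Real.log (2 * (2 * K)) ^ (1 + ε)) * B₀.card ∧
      (B₀.card : ℝ) ≤ Real.exp (30000 / ε * Real.log (2 * (2 * K))) * B.card := by
  classical
  have hlne : (lift B₀).Nonempty := by unfold lift; exact hB₀.image _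
  have hl2 : ((lift B₀ + lift B₀).card : ℝ) ≤ 2 * K * (lift B₀).card := by
    have h1 : ((lift B₀ + lift B₀).card : ℝ) ≤ 2 * (B₀ + B₀).card := by
      exact_mod_cast card_lift_add B₀
    rw [card_lift]
    calc ((lift B₀ + lift B₀).card : ℝ) ≤ 2 * (B₀ + B₀).card := h1
      _ ≤ 2 * (K * B₀.card) := by linarith
      _ = 2 * K * B₀.card := by ring
  obtain ⟨d, v, L, T, hd, hvol, hT, hcov⟩ := Pool.Agent.Results.MP_626a77_co.GapCover.result
    (Γ := ℤ) (fun n x hn hx => by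
      rw [nsmul_eq_mul, mul_eq_zero] at hx
      rcases hx with h | h
      · exact absurd (by exact_mod_cast h) hn
      · exact h) ε hε0 hε1 (2 * K) (lift B₀) hlne hl2
  rw [card_lift] at hvol
  obtain ⟨a, ha⟩ : ∃ a : Fin d → ZMod N, a = fun i => ((v i : ℤ) : ZMod N) := ⟨_, rfl⟩
  have hcov' : ∀ y ∈ B₀, ∃ t ∈ T, y - ((t : ℤ) : ZMod N) ∈ XX a L := by
    intro y hy
    obtain ⟨t, ht, c, hc, h⟩ := hcov (y.val : ℤ) (by
      unfold lift
      exact Finset.mem_image_of_mem _ hy)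
    refine ⟨t, ht, ?_⟩
    unfold XX
    rw [Finset.mem_image]
    refine ⟨c, ?_, ?_⟩
    · rw [mem_box]; exact hc
    · simp only [smul_eq_mul] at h
      have h2 := congrArg (fun z : ℤ => (z : ZMod N)) h
      push_cast at h2
      rw [ZMod.natCast_zmod_val] at h2
      rw [h2, ha]
      unfold ev
      ring
  have hTle : (T.card : ℝ) ≤ Real.exp (30000 / ε * Real.log (2 * (2 * K))) := by
    refine hT.trans (le_of_eq ?_)
    rw [Real.rpow_def_of_pos (by linarith), mul_comm]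
  have hsum : (B₀.card : ℝ) ≤
      ∑ t ∈ T, ((B₀.filter fun y => y - ((t : ℤ) : ZMod N) ∈ XX a L).card : ℝ) := by
    have h1 : B₀ ⊆ T.biUnion fun t => B₀.filter fun y => y - ((t : ℤ) : ZMod N) ∈ XX a L := by
      intro y hy
      obtain ⟨t, ht, h⟩ := hcov' y hy
      rw [Finset.mem_biUnion]
      exact ⟨t, ht, Finset.mem_filter.2 ⟨hy, h⟩⟩
    have h2 := (Finset.card_le_card h1).trans Finset.card_biUnion_le
    exact_mod_cast h2
  have hB0pos : (0 : ℝ) < B₀.card := by exact_mod_cast hB₀.card_pos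
  have hTne : T.Nonempty := by
    rw [Finset.nonempty_iff_ne_empty]
    intro hT0
    rw [hT0, Finset.sum_empty] at hsum
    linarith
  have hTpos : (0 : ℝ) < T.card := by exact_mod_cast hTne.card_pos
  obtain ⟨t, ht, hBt⟩ : ∃ t ∈ T, (B₀.card : ℝ) ≤
      T.card * ((B₀.filter fun y => y - ((t : ℤ) : ZMod N) ∈ XX a L).card : ℝ) := by
    by_contra hcon
    push Not at hcon
    have h1 : ∑ t ∈ T, (T.card : ℝ) *
        ((B₀.filter fun y => y - ((t : ℤ) : ZMod N) ∈ XX a L).card : ℝ) <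
        ∑ _t ∈ T, (B₀.card : ℝ) := Finset.sum_lt_sum_of_nonempty hTne hcon
    rw [← Finset.mul_sum, Finset.sum_const, nsmul_eq_mul] at h1
    have h2 := lt_of_mul_lt_mul_left h1 hTpos.le
    linarith
  refine ⟨d, a, L, ((t : ℤ) : ZMod N), B₀.filter fun y => y - ((t : ℤ) : ZMod N) ∈ XX a L,
    Finset.filter_subset _ _, ?_, ?_, hd, ?_, ?_⟩
  · rw [Finset.nonempty_iff_ne_empty]
    intro h0
    rw [h0, Finset.card_empty, Nat.cast_zero, mul_zero] at hBt
    linarith
  · intro y hy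
    exact (Finset.mem_filter.1 hy).2
  · rw [card_box]; exact hvol
  · exact hBt.trans (mul_le_mul_of_nonneg_right hTle (Nat.cast_nonneg _))

/-- Small doubling. -/
theorem of_doubling (ε : ℝ) (hε0 : 0 < ε) (hε1 : ε ≤ 1) (K : ℝ) (hK : 1 ≤ K)
    (B₀ : Finset (ZMod N)) (hB₀ : B₀.Nonempty) (hK2 : ((B₀ + B₀).card : ℝ) ≤ K * B₀.card) :
    ∃ (Γ : Finset (ZMod N)) (R : ℝ), 1 ≤ R ∧
      (Γ.card : ℝ) ≤ 10 * Real.log (N / B₀.card) +
        378 * Real.exp (10000000 / ε ^ 2 * Real.log (4 * K) ^ (1 + ε)) ∧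
      R ≤ Real.log (N / B₀.card) +
        4 * Real.exp (10000000 / ε ^ 2 * Real.log (4 * K) ^ (1 + ε)) ∧
      ∀ x : ZMod N, (∀ g ∈ Γ, CB.nn (g * x) ≤ 1 / (8 * R)) →
        ∃ a₁ ∈ B₀, ∃ a₂ ∈ B₀, ∃ a₃ ∈ B₀, ∃ a₄ ∈ B₀, x = a₁ + a₂ - a₃ - a₄ := by
  classical
  obtain ⟨d, a, L, t, B, hBsub, hBne, hBt, hd, hbox, hB⟩ := cover_step ε hε0 hε1 K hK B₀ hB₀ hK2
  rw [show 2 * (2 * K) = 4 * K by ring] at hd hbox hB
  obtain ⟨l, hl⟩ : ∃ l, l = Real.log (4 * K) := ⟨_, rfl⟩
  rw [← hl] at hd hbox hB ⊢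
  have hl1 : 1 ≤ l := by
    rw [hl, Real.le_log_iff_exp_le (by linarith)]
    have := Real.exp_one_lt_d9
    linarith
  obtain ⟨l', hl'⟩ : ∃ l', l' = l ^ (1 + ε) := ⟨_, rfl⟩
  rw [← hl'] at hbox ⊢
  have hll : l ≤ l' := by
    rw [hl']
    calc l = l ^ (1 : ℝ) := (Real.rpow_one l).symm
      _ ≤ l ^ (1 + ε) := Real.rpow_le_rpow_of_exponent_le hl1 (by linarith)
  have hε2 : 1 / ε ≤ 1 / ε ^ 2 := by
    apply one_div_le_one_div_of_le (by positivity)
    nlinarith
  obtain ⟨e2, he2⟩ : ∃ e2, e2 = 1 / ε ^ 2 := ⟨_, rfl⟩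
  have he2pos : 1 ≤ e2 := by
    rw [he2, le_div_iff₀ (by positivity)]
    nlinarith
  have hel : 1 / ε * l ≤ e2 * l' := by
    rw [he2]
    exact mul_le_mul hε2 hll (by linarith) (by positivity)
  obtain ⟨q, hq⟩ : ∃ q, q = 5000000 * (e2 * l') := ⟨_, rfl⟩
  obtain ⟨Q, hQ⟩ : ∃ Q, Q = Real.exp q := ⟨_, rfl⟩
  have hel1 : 1 ≤ e2 * l' := by nlinarith
  have hq0 : 0 ≤ q := by rw [hq]; linarith
  have hQ1 : 1 + q + q ^ 2 / 2 ≤ Q := by
    rw [hQ]; exact Real.quadratic_le_exp_of_nonneg hq0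
  have hQpos : 0 < Q := by rw [hQ]; exact Real.exp_pos _
  have hQge1 : 1 ≤ Q := by linarith [sq_nonneg q]
  have hQQ : Real.exp (10000000 / ε ^ 2 * l') = Q ^ 2 := by
    rw [hQ, ← Real.exp_nat_mul]
    congr 1
    rw [hq, he2]
    push_cast
    ring
  rw [hQQ]
  have hd' : (d : ℝ) ≤ 30000 * (e2 * l') := by
    calc (d : ℝ) ≤ 30000 / ε * l := hd
      _ = 30000 * (1 / ε * l) := by ring
      _ ≤ 30000 * (e2 * l') := by linarith
  have hdq : (d : ℝ) ≤ q := by rw [hq]; linarith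
  have hBpos : (0 : ℝ) < B.card := by exact_mod_cast hBne.card_pos
  have hB0pos : (0 : ℝ) < B₀.card := by exact_mod_cast hB₀.card_pos
  -- the main density inequality
  have hmain : (3 : ℝ) ^ d * (box L).card ≤ Q * B.card := by
    have h3 : (3 : ℝ) ^ d ≤ Real.exp (2 * (30000 * (e2 * l'))) := by
      have h4 : (3 : ℝ) ≤ Real.exp 2 := by
        have := Real.quadratic_le_exp_of_nonneg (x := 2) (by norm_num)
        linarith
      calc (3 : ℝ) ^ d ≤ (Real.exp 2) ^ d := pow_le_pow_left₀ (by norm_num) h4 d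
        _ = Real.exp (d * 2) := by rw [← Real.exp_nat_mul]
        _ ≤ Real.exp (2 * (30000 * (e2 * l'))) := by
            apply Real.exp_le_exp.2
            linarith
    have h5 : Real.exp (30000 / ε * l) ≤ Real.exp (30000 * (e2 * l')) := by
      apply Real.exp_le_exp.2
      calc 30000 / ε * l = 30000 * (1 / ε * l) := by ring
        _ ≤ 30000 * (e2 * l') := by linarith
    have h6 : Real.exp (4000000 / ε ^ 2 * l') = Real.exp (4000000 * (e2 * l')) := by
      congr 1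
      rw [he2]; ring
    rw [h6] at hbox
    calc (3 : ℝ) ^ d * (box L).card
        ≤ Real.exp (2 * (30000 * (e2 * l'))) * (Real.exp (4000000 * (e2 * l')) *
            (Real.exp (30000 * (e2 * l')) * B.card)) := by
          apply mul_le_mul h3 _ (Nat.cast_nonneg _) (Real.exp_pos _).le
          refine hbox.trans ?_
          apply mul_le_mul_of_nonneg_left _ (Real.exp_pos _).le
          exact hB.trans (mul_le_mul_of_nonneg_right h5 hBpos.le)
      _ = Real.exp (4090000 * (e2 * l')) * B.card := by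
          rw [← mul_assoc, ← mul_assoc, ← Real.exp_add, ← Real.exp_add]
          congr 2
          ring
      _ ≤ Q * B.card := by
          apply mul_le_mul_of_nonneg_right _ hBpos.le
          rw [hQ, hq]
          apply Real.exp_le_exp.2
          linarith
  obtain ⟨s, hs⟩ : ∃ s : ℕ, s = ⌊Q⌋₊ + 1 := ⟨_, rfl⟩
  have hs0 : 0 < s := by rw [hs]; omega
  have hQs : Q < s := by rw [hs]; push_cast; exact Nat.lt_floor_add_one Q
  have hsQ : (s : ℝ) ≤ 2 * Q := by
    rw [hs]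
    push_cast
    have := Nat.floor_le hQpos.le
    linarith
  have hBX : B.card ≤ (XX a L).card := by
    apply Finset.card_le_card_of_injOn (fun y => y - t)
    · intro y hy
      exact hBt y hy
    · intro y _ y' _ h
      exact sub_left_injective h
  have hinj : Set.InjOn (ev a) (box (fun i => L i / s)) := by
    apply inj_short a L s hs0
    have h1 : (3 : ℝ) ^ d * (box L).card < s * (XX a L).card := by
      have h2 : (B.card : ℝ) ≤ (XX a L).card := by exact_mod_cast hBX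
      calc (3 : ℝ) ^ d * (box L).card ≤ Q * B.card := hmain
        _ < s * B.card := mul_lt_mul_of_pos_right hQs hBpos
        _ ≤ s * (XX a L).card := mul_le_mul_of_nonneg_left h2 (by positivity)
    exact_mod_cast h1
  obtain ⟨t', ht'⟩ := dens_short a L s Q hQpos B hBne t hBt hmain
  obtain ⟨L', hL'⟩ : ∃ L' : Fin d → ℕ, L' = fun i => L i / s := ⟨_, rfl⟩
  rw [← hL'] at hinj ht'
  obtain ⟨ℓ, hℓ⟩ : ∃ ℓ, ℓ = Real.log (N / B₀.card) := ⟨_, rfl⟩
  rw [← hℓ]
  have hNpos : (0 : ℝ) < N := by exact_mod_cast NeZero.pos N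
  have hℓ0 : 0 ≤ ℓ := by
    rw [hℓ]
    apply Real.log_nonneg
    rw [le_div_iff₀ hB0pos, one_mul]
    have h1 := Finset.card_le_univ B₀
    rw [ZMod.card] at h1
    exact_mod_cast h1
  obtain ⟨R, hR⟩ : ∃ R : ℝ, R = ℓ + Q + d + 2 := ⟨_, rfl⟩
  have hd0 : (0 : ℝ) ≤ d := Nat.cast_nonneg d
  obtain ⟨Γ, hΓ1, hΓ2⟩ := dense a L' hinj R (1 / Q) (by rw [hR]; linarith) (by positivity)
    (by rw [one_div, ← div_eq_inv_mul, le_div_iff₀ hQpos, hR]; linarith)
    (B.filter fun y => y - t' ∈ XX a L') t' (fun y hy => (Finset.mem_filter.1 hy).2)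
    (by
      rw [one_div, ← div_eq_inv_mul, div_le_iff₀ hQpos, mul_comm]
      exact ht')
  refine ⟨Γ, R, by rw [hR]; linarith, ?_, ?_, ?_⟩
  · refine hΓ1.trans ?_
    have hcardXX : (XX a L').card = (box L').card := by
      unfold XX
      exact Finset.card_image_of_injOn hinj
    have hXpos : (0 : ℝ) < (XX a L').card := by
      rw [hcardXX, card_box]
      push_cast
      exact Finset.prod_pos fun i _ => by positivity
    have h1 : Real.log (N / (XX a L').card) ≤ ℓ + 5 * Q := by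
      have h2 : (B₀.card : ℝ) ≤ Real.exp (30000 / ε * l) * ((2 * s) ^ d * (XX a L').card) := by
        refine hB.trans ?_
        apply mul_le_mul_of_nonneg_left _ (Real.exp_pos _).le
        have h3 : (XX a L).card ≤ (box L).card := by unfold XX; exact Finset.card_image_le
        have h4 := card_box_div L s hs0
        rw [← hL', ← hcardXX] at h4
        have h5 := (hBX.trans h3).trans h4
        exact_mod_cast h5
      have h3 : (N : ℝ) / (XX a L').card ≤
          N / B₀.card * (Real.exp (30000 / ε * l) * (2 * s) ^ d) := by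
        rw [div_mul_eq_mul_div, div_le_div_iff₀ hXpos hB0pos]
        calc (N : ℝ) * B₀.card ≤ N * (Real.exp (30000 / ε * l) * ((2 * s) ^ d * (XX a L').card)) :=
              mul_le_mul_of_nonneg_left h2 hNpos.le
          _ = N * (Real.exp (30000 / ε * l) * (2 * s) ^ d) * (XX a L').card := by ring
      have hs0' : (0 : ℝ) < s := by exact_mod_cast hs0
      have h4 := Real.log_le_log (by positivity) h3
      rw [Real.log_mul (by positivity) (by positivity), Real.log_mul (by positivity)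
        (by positivity), Real.log_exp, Real.log_pow, ← hℓ] at h4
      have h5 : Real.log (2 * s) ≤ 2 + q := by
        calc Real.log (2 * s) ≤ Real.log (Real.exp 2 * Q) := by
              apply Real.log_le_log (by positivity)
              have h6 := Real.quadratic_le_exp_of_nonneg (x := 2) (by norm_num)
              nlinarith
          _ = 2 + q := by
              rw [Real.log_mul (Real.exp_pos _).ne' hQpos.ne', Real.log_exp, hQ, Real.log_exp]
      have h6 : (d : ℝ) * Real.log (2 * s) ≤ q * (2 + q) := by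
        apply mul_le_mul hdq h5 _ hq0
        apply Real.log_nonneg
        have : (1 : ℝ) ≤ s := by exact_mod_cast hs0
        linarith
      have h7 : 30000 / ε * l ≤ q := by
        rw [hq]
        calc 30000 / ε * l = 30000 * (1 / ε * l) := by ring
          _ ≤ 30000 * (e2 * l') := by linarith
          _ ≤ 5000000 * (e2 * l') := by linarith
      nlinarith
    have hlogR : 1 / 2 ≤ Real.log R := by
      have h2 : Real.log 2 ≤ Real.log R := Real.log_le_log (by norm_num) (by rw [hR]; linarith)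
      have := Real.log_two_gt_d9
      linarith
    have h2 : Real.log (N / (XX a L').card) / Real.log R ≤ 2 * (ℓ + 5 * Q) := by
      rw [div_le_iff₀ (by linarith)]
      have h3 : 0 ≤ ℓ + 5 * Q := by linarith
      nlinarith
    have h3 : 32 / (1 / Q) ^ 2 = 32 * Q ^ 2 := by
      field_simp
    rw [h3]
    have h4 : Q ≤ Q ^ 2 := le_self_pow₀ hQge1 two_ne_zero
    have h5 : (d : ℝ) ≤ Q := by linarith [sq_nonneg q]
    linarith
  · rw [hR]
    have h4 : Q ≤ Q ^ 2 := le_self_pow₀ hQge1 two_ne_zero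
    have h5 : (d : ℝ) ≤ Q := by linarith [sq_nonneg q]
    linarith
  · intro x hx
    obtain ⟨a₁, h1, a₂, h2, a₃, h3, a₄, h4, h5⟩ := hΓ2 x hx
    have hsub : ∀ y ∈ (B.filter fun y => y - t' ∈ XX a L'), y ∈ B₀ := fun y hy =>
      hBsub (Finset.mem_filter.1 hy).1
    exact ⟨a₁, hsub _ h1, a₂, hsub _ h2, a₃, hsub _ h3, a₄, hsub _ h4, h5⟩

/-- Large additive energy. -/
theorem of_energy (ε : ℝ) (hε0 : 0 < ε) (hε1 : ε ≤ 1) (K : ℝ) (hK : 1 ≤ K)
    (A : Finset (ZMod N)) (hA : A.Nonempty) (hE : (A.card : ℝ) ^ 3 ≤ K * (A.addEnergy A : ℕ)) :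
    ∃ (Γ : Finset (ZMod N)) (R : ℝ), 1 ≤ R ∧
      (Γ.card : ℝ) ≤ 10 * Real.log (N / A.card) +
        388 * Real.exp (21160000000 / ε ^ 2 * Real.log (2 * K) ^ (1 + ε)) ∧
      R ≤ Real.log (N / A.card) +
        5 * Real.exp (21160000000 / ε ^ 2 * Real.log (2 * K) ^ (1 + ε)) ∧
      ∀ x : ZMod N, (∀ g ∈ Γ, CB.nn (g * x) ≤ 1 / (8 * R)) →
        ∃ a₁ ∈ A, ∃ a₂ ∈ A, ∃ a₃ ∈ A, ∃ a₄ ∈ A, x = a₁ + a₂ - a₃ - a₄ := by
  classical
  obtain ⟨B, hBA, hBne, hB1, hB2⟩ := Pool.Agent.H217R3.AK.bsg A hA K (by linarith) hE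
  have hBpos : (0 : ℝ) < B.card := by exact_mod_cast hBne.card_pos
  have hApos : (0 : ℝ) < A.card := by exact_mod_cast hA.card_pos
  have hNpos : (0 : ℝ) < N := by exact_mod_cast NeZero.pos N
  obtain ⟨K', hK'⟩ : ∃ K' : ℝ, K' = (2 ^ 22 * K ^ 10) ^ 2 := ⟨_, rfl⟩
  have hK10 : 1 ≤ K ^ 10 := one_le_pow₀ hK
  have hK'1 : 1 ≤ K' := by
    rw [hK']
    apply one_le_pow₀
    linarith
  have hdbl : ((B + B).card : ℝ) ≤ K' * B.card := by
    have h1 := Finset.pluennecke_ruzsa_inequality_nsmul_sub (A := B) hBne B 2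
    have h2 : ((B - B).card : ℝ) / (B.card : ℝ) ≤ 2 ^ 22 * K ^ 10 := by
      rw [div_le_iff₀ hBpos]
      exact hB2
    have h3 := (NNRat.cast_le (K := ℝ)).2 h1
    push_cast at h3
    rw [two_nsmul] at h3
    refine h3.trans ?_
    rw [hK']
    apply mul_le_mul_of_nonneg_right _ hBpos.le
    exact pow_le_pow_left₀ (by positivity) h2 2
  obtain ⟨Γ, R, hR1, hΓ, hR, hx⟩ := of_doubling ε hε0 hε1 K' hK'1 B hBne hdbl
  obtain ⟨μ, hμ⟩ : ∃ μ, μ = Real.log (2 * K) := ⟨_, rfl⟩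
  have hμ0 : 0 < μ := by rw [hμ]; exact Real.log_pos (by linarith)
  have hlogK : 0 ≤ Real.log K := Real.log_nonneg hK
  have hμe : μ = Real.log 2 + Real.log K := by
    rw [hμ, Real.log_mul (by norm_num) (by linarith)]
  have hlog2 : 0 < Real.log 2 := Real.log_pos (by norm_num)
  have hl : Real.log (4 * K') = 46 * Real.log 2 + 20 * Real.log K := by
    rw [hK', Real.log_mul (by norm_num) (by positivity), Real.log_pow,
      Real.log_mul (by norm_num) (by positivity), Real.log_pow, Real.log_pow,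
      show (4 : ℝ) = 2 ^ 2 by norm_num, Real.log_pow]
    push_cast
    ring
  obtain ⟨l, hl'⟩ : ∃ l, l = Real.log (4 * K') := ⟨_, rfl⟩
  rw [← hl'] at hΓ hR hl
  have hl46 : l ≤ 46 * μ := by rw [hl, hμe]; linarith
  have hl1 : 1 ≤ l := by
    rw [hl]
    have := Real.log_two_gt_d9
    linarith
  have hle : l ^ (1 + ε) ≤ 2116 * μ ^ (1 + ε) := by
    calc l ^ (1 + ε) ≤ (46 * μ) ^ (1 + ε) :=
          Real.rpow_le_rpow (by linarith) hl46 (by linarith)
      _ = 46 ^ (1 + ε) * μ ^ (1 + ε) := Real.mul_rpow (by norm_num) hμ0.le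
      _ ≤ 46 ^ (2 : ℝ) * μ ^ (1 + ε) := by
          apply mul_le_mul_of_nonneg_right _ (by positivity)
          exact Real.rpow_le_rpow_of_exponent_le (by norm_num) (by linarith)
      _ = 2116 * μ ^ (1 + ε) := by norm_num
  obtain ⟨X, hX⟩ : ∃ X, X = Real.exp (10000000 / ε ^ 2 * l ^ (1 + ε)) := ⟨_, rfl⟩
  rw [← hX] at hΓ hR
  have hXle : X ≤ Real.exp (21160000000 / ε ^ 2 * μ ^ (1 + ε)) := by
    rw [hX]
    apply Real.exp_le_exp.2
    calc 10000000 / ε ^ 2 * l ^ (1 + ε) ≤ 10000000 / ε ^ 2 * (2116 * μ ^ (1 + ε)) :=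
          mul_le_mul_of_nonneg_left hle (by positivity)
      _ = 21160000000 / ε ^ 2 * μ ^ (1 + ε) := by ring
  have hlX : l ≤ X := by
    have h1 : l ≤ l ^ (1 + ε) := by
      calc l = l ^ (1 : ℝ) := (Real.rpow_one l).symm
        _ ≤ l ^ (1 + ε) := Real.rpow_le_rpow_of_exponent_le hl1 (by linarith)
    have h2 : 1 ≤ 10000000 / ε ^ 2 := by
      rw [le_div_iff₀ (by positivity)]
      nlinarith
    have h3 : l ≤ 10000000 / ε ^ 2 * l ^ (1 + ε) := by nlinarith
    have h4 := Real.add_one_le_exp (10000000 / ε ^ 2 * l ^ (1 + ε))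
    rw [hX]
    linarith
  have hlogB : Real.log (N / B.card) ≤ Real.log (N / A.card) + X := by
    have h1 : (N : ℝ) / B.card ≤ N / A.card * (8 * K) := by
      rw [div_mul_eq_mul_div, div_le_div_iff₀ hBpos hApos]
      calc (N : ℝ) * A.card ≤ N * (8 * K * B.card) := mul_le_mul_of_nonneg_left hB1 hNpos.le
        _ = N * (8 * K) * B.card := by ring
    have h2 := Real.log_le_log (by positivity) h1
    rw [Real.log_mul (by positivity) (by positivity)] at h2
    have h3 : Real.log (8 * K) ≤ l := by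
      rw [Real.log_mul (by norm_num) (by linarith), hl, show (8 : ℝ) = 2 ^ 3 by norm_num,
        Real.log_pow]
      push_cast
      linarith
    linarith
  rw [← hμ]
  refine ⟨Γ, R, hR1, by linarith, by linarith, fun x hx' => ?_⟩
  obtain ⟨a₁, h1, a₂, h2, a₃, h3, a₄, h4, h5⟩ := hx x hx'
  exact ⟨a₁, hBA h1, a₂, hBA h2, a₃, hBA h3, a₄, hBA h4, h5⟩

end Pool.Agent.R765.BE
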