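import Mathlib

/-!
Maximal inequality (in mean square) for sums of independent centred bounded real random variables,
by the pathwise form of Doob's inequality.
-/

set_option autoImplicit false

open MeasureTheory ProbabilityTheory Filter Topology

namespace Pool.Agent.R765.BS

/-- partial sums -/
def ps (z : ℕ → ℝ) (k : ℕ) : ℝ := ∑ i ∈ Finset.range k, z i

/-- running maximum of the absolute values of the partial sums -/
noncomputable def rm (z : ℕ → ℝ) : ℕ → ℝ
  | 0 => 0
  | k + 1 => max (rm z k) |ps z (k + 1)|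

lemma ps_succ (z : ℕ → ℝ) (k : ℕ) : ps z (k + 1) = ps z k + z k := by
  unfold ps; rw [Finset.sum_range_succ]

lemma rm_nonneg (z : ℕ → ℝ) (k : ℕ) : 0 ≤ rm z k := by
  induction k with
  | zero => exact le_rfl
  | succ k ih => exact ih.trans (le_max_left _ _)

lemma rm_mono (z : ℕ → ℝ) : Monotone (rm z) :=
  monotone_nat_of_le_succ fun k => le_max_left _ _

lemma abs_le_rm (z : ℕ → ℝ) (k : ℕ) : |ps z k| ≤ rm z k := by
  cases k with
  | zero => simp [ps, rm]
  | succ k => exact le_max_right _ _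

/-- the sign used in the pathwise inequality -/
noncomputable def sg (x : ℝ) : ℝ := if 0 ≤ x then 1 else -1

lemma sg_mul (x : ℝ) : sg x * x = |x| := by
  unfold sg
  split_ifs with h
  · rw [abs_of_nonneg h]; ring
  · rw [abs_of_neg (not_le.1 h)]; ring

lemma sg_le (x y : ℝ) : sg x * y ≤ |y| := by
  unfold sg
  split_ifs with h
  · rw [one_mul]; exact le_abs_self y
  · rw [neg_one_mul]; exact neg_le_abs y

lemma sg_abs (x : ℝ) : |sg x| = 1 := by
  unfold sg
  split_ifs <;> simp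

/-- the compensator -/
noncomputable def cp (z : ℕ → ℝ) (k : ℕ) : ℝ :=
  ∑ i ∈ Finset.range k, rm z i * sg (ps z i) * z i

lemma pathwise_aux (z : ℕ → ℝ) (k : ℕ) :
    cp z k ≤ rm z k * |ps z k| - rm z k ^ 2 / 2 := by
  induction k with
  | zero => simp [cp, rm, ps]
  | succ k ih =>
    have h1 : cp z (k + 1) = cp z k + rm z k * sg (ps z k) * z k := by
      unfold cp; rw [Finset.sum_range_succ]
    have h2 : sg (ps z k) * z k ≤ |ps z (k + 1)| - |ps z k| := by
      have h3 : sg (ps z k) * ps z (k + 1) ≤ |ps z (k + 1)| := sg_le _ _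
      rw [ps_succ, mul_add, sg_mul] at h3
      rw [ps_succ]
      linarith
    have h3 : rm z k * sg (ps z k) * z k ≤ rm z k * (|ps z (k + 1)| - |ps z k|) := by
      rw [mul_assoc]
      exact mul_le_mul_of_nonneg_left h2 (rm_nonneg z k)
    have h4 : rm z (k + 1) = max (rm z k) |ps z (k + 1)| := rfl
    rw [h1]
    rcases le_total |ps z (k + 1)| (rm z k) with h | h
    · rw [h4, max_eq_left h]
      linarith
    · rw [h4, max_eq_right h]
      nlinarith [sq_nonneg (|ps z (k + 1)| - rm z k)]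

lemma pathwise (z : ℕ → ℝ) (k : ℕ) : rm z k ^ 2 ≤ 4 * ps z k ^ 2 - 4 * cp z k := by
  have h := pathwise_aux z k
  rw [← sq_abs (ps z k)]
  nlinarith [sq_nonneg (rm z k - 2 * |ps z k|)]

variable {Ω : Type*} {m0 : MeasurableSpace Ω} {μ : Measure Ω} [IsProbabilityMeasure μ]

lemma ps_meas {m : MeasurableSpace Ω} {Z : ℕ → Ω → ℝ} {k : ℕ}
    (hm : ∀ i < k, Measurable[m] (Z i)) : Measurable[m] fun ω => ps (fun i => Z i ω) k := by
  unfold ps
  exact Finset.measurable_fun_sum _ fun i hi => hm i (Finset.mem_range.1 hi)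

lemma rm_meas {m : MeasurableSpace Ω} {Z : ℕ → Ω → ℝ} {k : ℕ}
    (hm : ∀ i < k, Measurable[m] (Z i)) : Measurable[m] fun ω => rm (fun i => Z i ω) k := by
  induction k with
  | zero => exact measurable_const
  | succ k ih =>
    have h1 := ih fun i hi => hm i (Nat.lt_succ_of_lt hi)
    have h2 : Measurable[m] fun ω => |ps (fun i => Z i ω) (k + 1)| :=
      continuous_abs.measurable.comp (ps_meas hm)
    exact Measurable.max h1 h2

lemma sg_meas : Measurable sg := by
  unfold sg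
  exact Measurable.ite measurableSet_Ici measurable_const measurable_const

lemma ps_bdd {Z : ℕ → Ω → ℝ} (hb : ∀ n, ∃ C : ℝ, ∀ ω, |Z n ω| ≤ C) (k : ℕ) :
    ∃ C : ℝ, ∀ ω, |ps (fun i => Z i ω) k| ≤ C := by
  choose C hC using hb
  refine ⟨∑ i ∈ Finset.range k, C i, fun ω => ?_⟩
  unfold ps
  exact (Finset.abs_sum_le_sum_abs _ _).trans (Finset.sum_le_sum fun i _ => hC i ω)

lemma rm_bdd {Z : ℕ → Ω → ℝ} (hb : ∀ n, ∃ C : ℝ, ∀ ω, |Z n ω| ≤ C) (k : ℕ) :
    ∃ C : ℝ, ∀ ω, |rm (fun i => Z i ω) k| ≤ C := by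
  induction k with
  | zero => exact ⟨0, fun ω => by simp [rm]⟩
  | succ k ih =>
    obtain ⟨C, hC⟩ := ih
    obtain ⟨D, hD⟩ := ps_bdd hb (k + 1)
    refine ⟨max C D, fun ω => ?_⟩
    have h1 := hC ω
    rw [abs_of_nonneg (rm_nonneg _ _)] at h1 ⊢
    exact max_le_max h1 (hD ω)

/-- the increments of the compensator are centred -/
lemma cross (Z : ℕ → Ω → ℝ) (hm : ∀ n, StronglyMeasurable (Z n)) (hind : iIndepFun Z μ)
    (h0 : ∀ n, ∫ ω, Z n ω ∂μ = 0) (k : ℕ) :
    ∫ ω, rm (fun i => Z i ω) k * sg (ps (fun i => Z i ω) k) * Z k ω ∂μ = 0 := by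
  rcases Nat.eq_zero_or_pos k with rfl | hk
  · simp [rm]
  set A : Ω → ℝ := fun ω => rm (fun i => Z i ω) k * sg (ps (fun i => Z i ω) k) with hA
  have hAm : Measurable[Filtration.natural Z hm (k - 1)] A := by
    have h1 : ∀ i < k, Measurable[Filtration.natural Z hm (k - 1)] (Z i) := by
      intro i hi
      have h2 : StronglyMeasurable[Filtration.natural Z hm i] (Z i) :=
        Filtration.stronglyAdapted_natural hm i
      exact (h2.mono ((Filtration.natural Z hm).mono (by omega))).measurable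
    exact (rm_meas h1).mul (sg_meas.comp (ps_meas h1))
  have hI : IndepFun A (Z k) μ := by
    have h1 := iIndepFun.indep_comap_natural_of_lt hm hind (show k - 1 < k by omega)
    have h2 : Indep (MeasurableSpace.comap A inferInstance) (MeasurableSpace.comap (Z k) inferInstance) μ :=
      indep_of_indep_of_le_left h1.symm hAm.comap_le
    exact h2
  have h3 := hI.integral_mul_eq_mul_integral
    (hAm.mono ((Filtration.natural Z hm).le _) le_rfl).aestronglyMeasurable
    (hm k).aestronglyMeasurable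
  have h4 : ∫ ω, A ω * Z k ω ∂μ = (∫ ω, A ω ∂μ) * ∫ ω, Z k ω ∂μ := h3
  rw [h4, h0, mul_zero]

lemma ps_sq (Z : ℕ → Ω → ℝ) (hm : ∀ n, StronglyMeasurable (Z n)) (hind : iIndepFun Z μ)
    (hb : ∀ n, ∃ C : ℝ, ∀ ω, |Z n ω| ≤ C) (h0 : ∀ n, ∫ ω, Z n ω ∂μ = 0) (k : ℕ) :
    ∫ ω, ps (fun i => Z i ω) k ^ 2 ∂μ = ∑ i ∈ Finset.range k, ∫ ω, Z i ω ^ 2 ∂μ := by
  have hL : ∀ n, MemLp (Z n) 2 μ := by
    intro n
    obtain ⟨C, hC⟩ := hb n
    exact MemLp.of_bound (hm n).aestronglyMeasurable C (Eventually.of_forall fun ω => by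
      rw [Real.norm_eq_abs]; exact hC ω)
  have hI : ∀ n, Integrable (Z n) μ := fun n => (hL n).integrable one_le_two
  have h1 : Var[∑ n ∈ Finset.range k, Z n; μ] = ∑ n ∈ Finset.range k, Var[Z n; μ] := by
    refine IndepFun.variance_sum (fun n _ => hL n) ?_
    intro i _ j _ hij
    exact hind.indepFun hij
  have h2 : ∫ ω, (∑ n ∈ Finset.range k, Z n) ω ∂μ = 0 := by
    simp only [Finset.sum_apply]
    rw [integral_finsetSum _ fun n _ => hI n]
    exact Finset.sum_eq_zero fun n _ => h0 n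
  have hSI : Integrable (∑ n ∈ Finset.range k, Z n) μ := integrable_finsetSum' _ fun n _ => hI n
  rw [variance_of_integral_eq_zero hSI.aemeasurable h2] at h1
  have h3 : (fun ω => ps (fun i => Z i ω) k ^ 2) = fun ω => (∑ n ∈ Finset.range k, Z n) ω ^ 2 := by
    funext ω
    simp [ps, Finset.sum_apply]
  rw [h3]
  rw [h1]
  exact Finset.sum_congr rfl fun n _ => variance_of_integral_eq_zero (hI n).aemeasurable (h0 n)

/-- **Maximal inequality in mean square.** -/
theorem max_sq (Z : ℕ → Ω → ℝ) (hm : ∀ n, StronglyMeasurable (Z n)) (hind : iIndepFun Z μ)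
    (hb : ∀ n, ∃ C : ℝ, ∀ ω, |Z n ω| ≤ C) (h0 : ∀ n, ∫ ω, Z n ω ∂μ = 0) (k : ℕ) :
    ∫ ω, rm (fun i => Z i ω) k ^ 2 ∂μ ≤ 4 * ∑ i ∈ Finset.range k, ∫ ω, Z i ω ^ 2 ∂μ := by
  have hZm : ∀ n, Measurable (Z n) := fun n => (hm n).measurable
  have hcI : ∀ i, Integrable
      (fun ω => rm (fun j => Z j ω) i * sg (ps (fun j => Z j ω) i) * Z i ω) μ := by
    intro i
    obtain ⟨C, hC⟩ := rm_bdd hb i
    obtain ⟨D, hD⟩ := hb i
    refine Integrable.of_bound
      (((rm_meas fun j _ => hZm j).mul (sg_meas.comp (ps_meas fun j _ => hZm j))).mul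
        (hZm i)).aestronglyMeasurable (C * D) (Eventually.of_forall fun ω => ?_)
    rw [Real.norm_eq_abs, abs_mul, abs_mul, sg_abs, mul_one]
    exact mul_le_mul (hC ω) (hD ω) (abs_nonneg _) ((abs_nonneg _).trans (hC ω))
  have hpI : Integrable (fun ω => ps (fun i => Z i ω) k ^ 2) μ := by
    obtain ⟨C, hC⟩ := ps_bdd hb k
    refine Integrable.of_bound ((ps_meas fun j _ => hZm j).pow_const 2).aestronglyMeasurable (C ^ 2)
      (Eventually.of_forall fun ω => ?_)
    rw [Real.norm_eq_abs, abs_pow]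
    exact pow_le_pow_left₀ (abs_nonneg _) (hC ω) 2
  have hrI : Integrable (fun ω => rm (fun i => Z i ω) k ^ 2) μ := by
    obtain ⟨C, hC⟩ := rm_bdd hb k
    refine Integrable.of_bound ((rm_meas fun j _ => hZm j).pow_const 2).aestronglyMeasurable (C ^ 2)
      (Eventually.of_forall fun ω => ?_)
    rw [Real.norm_eq_abs, abs_pow]
    exact pow_le_pow_left₀ (abs_nonneg _) (hC ω) 2
  have hc : ∫ ω, cp (fun i => Z i ω) k ∂μ = 0 := by
    unfold cp
    rw [integral_finsetSum _ fun i _ => hcI i]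
    exact Finset.sum_eq_zero fun i _ => cross Z hm hind h0 i
  have hcI' : Integrable (fun ω => cp (fun i => Z i ω) k) μ := by
    unfold cp
    exact integrable_finsetSum _ fun i _ => hcI i
  calc ∫ ω, rm (fun i => Z i ω) k ^ 2 ∂μ
      ≤ ∫ ω, (4 * ps (fun i => Z i ω) k ^ 2 - 4 * cp (fun i => Z i ω) k) ∂μ :=
        integral_mono hrI ((hpI.const_mul 4).sub (hcI'.const_mul 4)) fun ω => pathwise _ k
    _ = 4 * ∑ i ∈ Finset.range k, ∫ ω, Z i ω ^ 2 ∂μ := by
        rw [integral_sub (hpI.const_mul 4) (hcI'.const_mul 4), integral_const_mul,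
          integral_const_mul, hc, ps_sq Z hm hind hb h0]
        ring

end Pool.Agent.R765.BS
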