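import Mathlib
import Pool.Agent.R376.RandA
import Pool.Agent.R765.BSa

/-!
Series of independent centred bounded complex random variables: convergence and the maximal
inequality in mean square.
-/

set_option autoImplicit false
set_option linter.unusedSectionVars false

open MeasureTheory ProbabilityTheory Filter Topology
open scoped ENNReal

namespace Pool.Agent.R765.BS

variable {Ω : Type*} {m0 : MeasurableSpace Ω} {μ : Measure Ω} [IsProbabilityMeasure μ]

/-- the data: independent centred bounded complex random variables -/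
structure Ser (X : ℕ → Ω → ℂ) (μ : Measure Ω) : Prop where
  meas : ∀ n, Measurable (X n)
  ind : iIndepFun X μ
  bdd : ∀ n, ∃ C : ℝ, ∀ ω, ‖X n ω‖ ≤ C
  mean : ∀ n, ∫ ω, X n ω ∂μ = 0

variable {X : ℕ → Ω → ℂ}

lemma Ser.int (h : Ser X μ) (n : ℕ) : Integrable (X n) μ := by
  obtain ⟨C, hC⟩ := h.bdd n
  exact Integrable.of_bound (h.meas n).aestronglyMeasurable C (Eventually.of_forall hC)

lemma Ser.re_smeas (h : Ser X μ) (n : ℕ) : StronglyMeasurable fun ω => (X n ω).re :=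
  (Complex.measurable_re.comp (h.meas n)).stronglyMeasurable

lemma Ser.im_smeas (h : Ser X μ) (n : ℕ) : StronglyMeasurable fun ω => (X n ω).im :=
  (Complex.measurable_im.comp (h.meas n)).stronglyMeasurable

lemma Ser.re_ind (h : Ser X μ) : iIndepFun (fun n ω => (X n ω).re) μ :=
  h.ind.comp (fun _ => Complex.re) fun _ => Complex.measurable_re

lemma Ser.im_ind (h : Ser X μ) : iIndepFun (fun n ω => (X n ω).im) μ :=
  h.ind.comp (fun _ => Complex.im) fun _ => Complex.measurable_im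

lemma Ser.re_bdd (h : Ser X μ) (n : ℕ) : ∃ C : ℝ, ∀ ω, |(X n ω).re| ≤ C := by
  obtain ⟨C, hC⟩ := h.bdd n
  exact ⟨C, fun ω => (Complex.abs_re_le_norm _).trans (hC ω)⟩

lemma Ser.im_bdd (h : Ser X μ) (n : ℕ) : ∃ C : ℝ, ∀ ω, |(X n ω).im| ≤ C := by
  obtain ⟨C, hC⟩ := h.bdd n
  exact ⟨C, fun ω => (Complex.abs_im_le_norm _).trans (hC ω)⟩

lemma Ser.re_mean (h : Ser X μ) (n : ℕ) : ∫ ω, (X n ω).re ∂μ = 0 := by
  have h1 := integral_re (h.int n)
  simp only [RCLike.re_eq_complex_re] at h1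
  rw [h1, h.mean n]
  rfl

lemma Ser.im_mean (h : Ser X μ) (n : ℕ) : ∫ ω, (X n ω).im ∂μ = 0 := by
  have h1 := integral_im (h.int n)
  simp only [RCLike.im_eq_complex_im] at h1
  rw [h1, h.mean n]
  rfl

/-- the mean square as an integral of a nonnegative function -/
lemma Ser.sq (h : Ser X μ) (n : ℕ) :
    ∫⁻ ω, ‖X n ω‖ₑ ^ 2 ∂μ =
      ENNReal.ofReal ((∫ ω, (X n ω).re ^ 2 ∂μ) + ∫ ω, (X n ω).im ^ 2 ∂μ) := by
  have hre : Integrable (fun ω => (X n ω).re ^ 2) μ := by
    obtain ⟨C, hC⟩ := h.re_bdd n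
    refine Integrable.of_bound ((h.re_smeas n).measurable.pow_const 2).aestronglyMeasurable (C ^ 2)
      (Eventually.of_forall fun ω => ?_)
    rw [Real.norm_eq_abs, abs_pow]
    exact pow_le_pow_left₀ (abs_nonneg _) (hC ω) 2
  have him : Integrable (fun ω => (X n ω).im ^ 2) μ := by
    obtain ⟨C, hC⟩ := h.im_bdd n
    refine Integrable.of_bound ((h.im_smeas n).measurable.pow_const 2).aestronglyMeasurable (C ^ 2)
      (Eventually.of_forall fun ω => ?_)
    rw [Real.norm_eq_abs, abs_pow]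
    exact pow_le_pow_left₀ (abs_nonneg _) (hC ω) 2
  have hadd : Integrable (fun ω => (X n ω).re ^ 2 + (X n ω).im ^ 2) μ := hre.add him
  rw [← integral_add hre him, ofReal_integral_eq_lintegral_ofReal hadd
    (Eventually.of_forall fun ω => by positivity)]
  refine lintegral_congr fun ω => ?_
  rw [← ofReal_norm_eq_enorm, ← ENNReal.ofReal_pow (norm_nonneg _), Complex.sq_norm,
    Complex.normSq_apply]
  congr 1
  ring

lemma sq_int_nonneg (f : Ω → ℝ) : 0 ≤ ∫ ω, f ω ^ 2 ∂μ := integral_nonneg fun ω => sq_nonneg (f ω)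

/-- **convergence** -/
theorem Ser.conv (h : Ser X μ) (hs : ∑' n, ∫⁻ ω, ‖X n ω‖ₑ ^ 2 ∂μ ≠ ∞) :
    ∀ᵐ ω ∂μ, ∃ l : ℂ, Tendsto (fun N => ∑ n ∈ Finset.range N, X n ω) atTop (𝓝 l) := by
  have hsum : Summable fun n => (∫ ω, (X n ω).re ^ 2 ∂μ) + ∫ ω, (X n ω).im ^ 2 ∂μ := by
    have h1 := ENNReal.summable_toReal hs
    refine h1.congr fun n => ?_
    rw [h.sq n, ENNReal.toReal_ofReal]
    exact add_nonneg (sq_int_nonneg _) (sq_int_nonneg _)
  have h1 : Summable fun n => ∫ ω, (X n ω).re ^ 2 ∂μ := by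
    refine Summable.of_nonneg_of_le (fun n => sq_int_nonneg _) (fun n => ?_) hsum
    exact le_add_of_nonneg_right (sq_int_nonneg _)
  have h2 : Summable fun n => ∫ ω, (X n ω).im ^ 2 ∂μ := by
    refine Summable.of_nonneg_of_le (fun n => sq_int_nonneg _) (fun n => ?_) hsum
    exact le_add_of_nonneg_left (sq_int_nonneg _)
  filter_upwards [Pool.Agent.R376.Rnd.ae_conv _ h.re_smeas h.re_ind h.re_bdd h.re_mean h1,
    Pool.Agent.R376.Rnd.ae_conv _ h.im_smeas h.im_ind h.im_bdd h.im_mean h2] with ω ⟨a, ha⟩ ⟨b, hb⟩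
  refine ⟨(a : ℂ) + b * Complex.I, ?_⟩
  rw [← tendsto_add_atTop_iff_nat 1]
  have h3 := ((Complex.continuous_ofReal.tendsto a).comp ha).add
    (((Complex.continuous_ofReal.tendsto b).comp hb).mul_const Complex.I)
  refine h3.congr fun N => ?_
  simp only [Function.comp_apply]
  apply Complex.ext <;> simp

/-- the majorant -/
noncomputable def maj (z : ℕ → ℂ) (k : ℕ) : ℝ :=
  rm (fun i => (z i).re) k ^ 2 + rm (fun i => (z i).im) k ^ 2

lemma maj_mono (z : ℕ → ℂ) : Monotone (maj z) := by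
  intro a b hab
  unfold maj
  have h1 := rm_mono (fun i => (z i).re) hab
  have h2 := rm_mono (fun i => (z i).im) hab
  have h3 := rm_nonneg (fun i => (z i).re) a
  have h4 := rm_nonneg (fun i => (z i).im) a
  nlinarith

lemma maj_nonneg (z : ℕ → ℂ) (k : ℕ) : 0 ≤ maj z k := by
  unfold maj; positivity

lemma sum_le_maj (z : ℕ → ℂ) (k : ℕ) : ‖∑ i ∈ Finset.range k, z i‖ ^ 2 ≤ maj z k := by
  rw [Complex.sq_norm, Complex.normSq_apply, Complex.re_sum, Complex.im_sum]
  have h1 := abs_le_rm (fun i => (z i).re) k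
  have h2 := abs_le_rm (fun i => (z i).im) k
  unfold ps at h1 h2
  unfold maj
  rw [← sq, ← sq, ← sq_abs (∑ i ∈ Finset.range k, (z i).re), ← sq_abs (∑ i ∈ Finset.range k, (z i).im)]
  gcongr

lemma Ser.maj_le (h : Ser X μ) (k : ℕ) :
    ∫⁻ ω, ENNReal.ofReal (maj (fun i => X i ω) k) ∂μ ≤ 4 * ∑' n, ∫⁻ ω, ‖X n ω‖ₑ ^ 2 ∂μ := by
  have hI1 : Integrable (fun ω => rm (fun i => (X i ω).re) k ^ 2) μ := by
    obtain ⟨C, hC⟩ := rm_bdd h.re_bdd k
    refine Integrable.of_bound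
      ((rm_meas fun j _ => (h.re_smeas j).measurable).pow_const 2).aestronglyMeasurable (C ^ 2)
      (Eventually.of_forall fun ω => ?_)
    rw [Real.norm_eq_abs, abs_pow]
    exact pow_le_pow_left₀ (abs_nonneg _) (hC ω) 2
  have hI2 : Integrable (fun ω => rm (fun i => (X i ω).im) k ^ 2) μ := by
    obtain ⟨C, hC⟩ := rm_bdd h.im_bdd k
    refine Integrable.of_bound
      ((rm_meas fun j _ => (h.im_smeas j).measurable).pow_const 2).aestronglyMeasurable (C ^ 2)
      (Eventually.of_forall fun ω => ?_)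
    rw [Real.norm_eq_abs, abs_pow]
    exact pow_le_pow_left₀ (abs_nonneg _) (hC ω) 2
  have h1 := max_sq _ h.re_smeas h.re_ind h.re_bdd h.re_mean k
  have h2 := max_sq _ h.im_smeas h.im_ind h.im_bdd h.im_mean k
  calc ∫⁻ ω, ENNReal.ofReal (maj (fun i => X i ω) k) ∂μ
      = ENNReal.ofReal (∫ ω, maj (fun i => X i ω) k ∂μ) :=
        (ofReal_integral_eq_lintegral_ofReal (hI1.add hI2)
          (Eventually.of_forall fun ω => maj_nonneg _ _)).symm
    _ ≤ ENNReal.ofReal (∑ i ∈ Finset.range k,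
          (4 * ((∫ ω, (X i ω).re ^ 2 ∂μ) + ∫ ω, (X i ω).im ^ 2 ∂μ))) := by
        apply ENNReal.ofReal_le_ofReal
        unfold maj
        rw [integral_add hI1 hI2, ← Finset.mul_sum, Finset.sum_add_distrib, mul_add]
        exact add_le_add h1 h2
    _ = ∑ i ∈ Finset.range k, 4 * ∫⁻ ω, ‖X i ω‖ₑ ^ 2 ∂μ := by
        have hn : ∀ i, 0 ≤ (∫ ω, (X i ω).re ^ 2 ∂μ) + ∫ ω, (X i ω).im ^ 2 ∂μ := fun i =>
          add_nonneg (integral_nonneg fun ω => sq_nonneg _) (integral_nonneg fun ω => sq_nonneg _)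
        rw [ENNReal.ofReal_sum_of_nonneg fun i _ => mul_nonneg (by norm_num) (hn i)]
        refine Finset.sum_congr rfl fun i _ => ?_
        rw [ENNReal.ofReal_mul (by norm_num), h.sq i]
        norm_num
    _ ≤ 4 * ∑' n, ∫⁻ ω, ‖X n ω‖ₑ ^ 2 ∂μ := by
        rw [← Finset.mul_sum]
        gcongr
        exact ENNReal.sum_le_tsum _

lemma maj_meas (hm : ∀ n, Measurable (X n)) (k : ℕ) :
    Measurable fun ω => maj (fun i => X i ω) k := by
  unfold maj
  exact ((rm_meas fun j _ => Complex.measurable_re.comp (hm j)).pow_const 2).add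
    ((rm_meas fun j _ => Complex.measurable_im.comp (hm j)).pow_const 2)

/-- **the maximal inequality** -/
theorem Ser.max (h : Ser X μ) :
    ∫⁻ ω, ⨆ k, ENNReal.ofReal (maj (fun i => X i ω) k) ∂μ ≤
      4 * ∑' n, ∫⁻ ω, ‖X n ω‖ₑ ^ 2 ∂μ := by
  rw [lintegral_iSup (fun k => (maj_meas h.meas k).ennreal_ofReal)
    (fun a b hab ω => ENNReal.ofReal_le_ofReal (maj_mono _ hab))]
  exact iSup_le fun k => h.maj_le k

end Pool.Agent.R765.BS
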