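import Mathlib
import Pool.Agent.H153R4.Pl
import Pool.Agent.R765.BSb

/-!
One annular piece of a function with random Fourier transform.
-/

set_option autoImplicit false
set_option linter.unusedSectionVars false

open MeasureTheory ProbabilityTheory Filter Topology FourierTransform
open scoped ENNReal RealInnerProductSpace

namespace Pool.Agent.R765.BS

/-- `ℝⁿ` -/
abbrev E (n : ℕ) := EuclideanSpace ℝ (Fin n)

/-- `exp (2 π i ⟨x, ξ⟩)` -/
noncomputable def ex {n : ℕ} (x ξ : E n) : ℂ :=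
  Complex.exp (2 * Real.pi * Complex.I * ((⟪x, ξ⟫ : ℝ) : ℂ))

variable {n : ℕ}

lemma ex_eq (x ξ : E n) : ex x ξ = Complex.exp (((2 * Real.pi * ⟪x, ξ⟫ : ℝ) : ℂ) * Complex.I) := by
  unfold ex
  congr 1
  push_cast
  ring

lemma ex_norm (x ξ : E n) : ‖ex x ξ‖ = 1 := by
  rw [ex_eq, Complex.norm_exp_ofReal_mul_I]

lemma ex_enorm (x ξ : E n) : ‖ex x ξ‖ₑ = 1 := by
  rw [← ofReal_norm, ex_norm, ENNReal.ofReal_one]

lemma ex_cont : Continuous fun p : E n × E n => ex p.1 p.2 := by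
  unfold ex
  fun_prop

/-- Plancherel -/
theorem plan (h : E n → ℂ) (h1 : Integrable h) (h2 : MemLp h 2) :
    ∫⁻ x, ‖∫ ξ, h ξ * ex x ξ‖ₑ ^ 2 = ∫⁻ ξ, ‖h ξ‖ₑ ^ 2 := by
  rw [← Pool.Agent.H153R4.plancherel h h1 h2]
  have h3 : ∀ x : E n, ∫ ξ, h ξ * ex x ξ = 𝓕 h (-x) := by
    intro x
    rw [Real.fourier_eq']
    refine integral_congr_ae (Eventually.of_forall fun ξ => ?_)
    simp only
    rw [ex_eq, smul_eq_mul, mul_comm]
    have h4 : -2 * Real.pi * ⟪ξ, -x⟫ = 2 * Real.pi * ⟪x, ξ⟫ := by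
      rw [inner_neg_right, real_inner_comm]
      ring
    rw [h4]
  simp_rw [h3]
  exact lintegral_neg_eq_self (μ := (volume : Measure (E n))) (f := fun x => ‖𝓕 h x‖ₑ ^ 2)

/-- Cauchy-Schwarz -/
theorem cauchy {α : Type*} [MeasurableSpace α] (ν : Measure α) (f : α → ℝ≥0∞) (hf : AEMeasurable f ν) :
    (∫⁻ a, f a ∂ν) ^ 2 ≤ ν Set.univ * ∫⁻ a, f a ^ 2 ∂ν := by
  have h1 := ENNReal.lintegral_mul_le_Lp_mul_Lq ν Real.HolderConjugate.two_two hf
    (aemeasurable_const (b := (1 : ℝ≥0∞)))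
  have h2 : (f * fun _ => (1 : ℝ≥0∞)) = f := by
    funext a; simp
  rw [h2] at h1
  simp only [ENNReal.rpow_ofNat, one_pow, lintegral_const, one_mul] at h1
  calc (∫⁻ a, f a ∂ν) ^ 2 ≤ ((∫⁻ a, f a ^ 2 ∂ν) ^ ((1 : ℝ) / 2) * (ν Set.univ) ^ ((1 : ℝ) / 2)) ^ 2 := by
        gcongr
    _ = ν Set.univ * ∫⁻ a, f a ^ 2 ∂ν := by
        rw [mul_pow, ← ENNReal.rpow_natCast, ← ENNReal.rpow_natCast, ← ENNReal.rpow_mul,
          ← ENNReal.rpow_mul]
        norm_num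
        rw [mul_comm]

section block

variable {Ω : Type*} {m0 : MeasurableSpace Ω} {P : Measure Ω} [IsProbabilityMeasure P]
  {Θ : Type*} [MeasurableSpace Θ]

/-- one block -/
structure Blk (P : Measure Ω) (A : Set (E n)) (V : ℝ) (τ : Ω → Θ) (G : Θ → E n → ℂ) (c : ℝ) :
    Prop where
  Am : MeasurableSet A
  vol : volume A ≤ ENNReal.ofReal V
  τm : Measurable τ
  Gm : Measurable (Function.uncurry G)
  c0 : 0 ≤ c
  bd : ∀ ω, ∫⁻ ξ in A, ‖G (τ ω) ξ‖ₑ ^ 2 ≤ ENNReal.ofReal c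

/-- the mean -/
noncomputable def mn (P : Measure Ω) (τ : Ω → Θ) (G : Θ → E n → ℂ) (ξ : E n) : ℂ :=
  ∫ ω, G (τ ω) ξ ∂P

/-- the centred Fourier transform -/
noncomputable def ce (P : Measure Ω) (τ : Ω → Θ) (G : Θ → E n → ℂ) (θ : Θ) (ξ : E n) : ℂ :=
  G θ ξ - mn P τ G ξ

variable {A : Set (E n)} {V : ℝ} {τ : Ω → Θ} {G : Θ → E n → ℂ} {c : ℝ}

lemma Blk.comp_meas (h : Blk P A V τ G c) : Measurable fun p : Ω × E n => G (τ p.1) p.2 :=
  h.Gm.comp ((h.τm.comp measurable_fst).prodMk measurable_snd)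

lemma Blk.mn_meas (h : Blk P A V τ G c) : Measurable (mn P τ G) := by
  have h1 : StronglyMeasurable fun p : E n × Ω => G (τ p.2) p.1 :=
    (h.comp_meas.comp (measurable_snd.prodMk measurable_fst)).stronglyMeasurable
  exact h1.integral_prod_right.measurable

lemma Blk.ce_meas (h : Blk P A V τ G c) : Measurable fun p : Θ × E n => ce P τ G p.1 p.2 := by
  unfold ce
  exact h.Gm.sub (h.mn_meas.comp measurable_snd)

lemma Blk.mn_sq (h : Blk P A V τ G c) : ∫⁻ ξ in A, ‖mn P τ G ξ‖ₑ ^ 2 ≤ ENNReal.ofReal c := by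
  have h1 : ∀ ξ, ‖mn P τ G ξ‖ₑ ^ 2 ≤ ∫⁻ ω, ‖G (τ ω) ξ‖ₑ ^ 2 ∂P := by
    intro ξ
    calc ‖mn P τ G ξ‖ₑ ^ 2 ≤ (∫⁻ ω, ‖G (τ ω) ξ‖ₑ ∂P) ^ 2 := by
          gcongr
          exact enorm_integral_le_lintegral_enorm _
      _ ≤ P Set.univ * ∫⁻ ω, ‖G (τ ω) ξ‖ₑ ^ 2 ∂P :=
          cauchy P _ (h.comp_meas.comp (measurable_id.prodMk measurable_const)).enorm.aemeasurable
      _ = _ := by rw [measure_univ, one_mul]
  calc ∫⁻ ξ in A, ‖mn P τ G ξ‖ₑ ^ 2 ≤ ∫⁻ ξ in A, ∫⁻ ω, ‖G (τ ω) ξ‖ₑ ^ 2 ∂P :=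
        lintegral_mono fun ξ => h1 ξ
    _ = ∫⁻ ω, (∫⁻ ξ in A, ‖G (τ ω) ξ‖ₑ ^ 2) ∂P := by
        rw [lintegral_lintegral_swap]
        exact ((h.comp_meas.comp (measurable_snd.prodMk measurable_fst)).enorm.pow_const 2).aemeasurable
    _ ≤ ∫⁻ _ω, ENNReal.ofReal c ∂P := lintegral_mono fun ω => h.bd ω
    _ = ENNReal.ofReal c := by rw [lintegral_const, measure_univ, mul_one]

lemma sq_sub_le (a b : ℂ) : ‖a - b‖ₑ ^ 2 ≤ 2 * ‖a‖ₑ ^ 2 + 2 * ‖b‖ₑ ^ 2 := by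
  rw [← ofReal_norm, ← ofReal_norm, ← ofReal_norm, ← ENNReal.ofReal_pow (norm_nonneg _),
    ← ENNReal.ofReal_pow (norm_nonneg _), ← ENNReal.ofReal_pow (norm_nonneg _)]
  have h2 : (2 : ℝ≥0∞) = ENNReal.ofReal 2 := by norm_num
  rw [h2, ← ENNReal.ofReal_mul (by norm_num), ← ENNReal.ofReal_mul (by norm_num),
    ← ENNReal.ofReal_add (by positivity) (by positivity)]
  apply ENNReal.ofReal_le_ofReal
  have h3 := norm_sub_le a b
  nlinarith [norm_nonneg (a - b), norm_nonneg a, norm_nonneg b, sq_nonneg (‖a‖ - ‖b‖)]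

lemma Blk.ce_sq (h : Blk P A V τ G c) (ω : Ω) :
    ∫⁻ ξ in A, ‖ce P τ G (τ ω) ξ‖ₑ ^ 2 ≤ ENNReal.ofReal (4 * c) := by
  have hG : Measurable fun ξ => G (τ ω) ξ :=
    h.Gm.comp (measurable_const.prodMk measurable_id)
  calc ∫⁻ ξ in A, ‖ce P τ G (τ ω) ξ‖ₑ ^ 2
      ≤ ∫⁻ ξ in A, (2 * ‖G (τ ω) ξ‖ₑ ^ 2 + 2 * ‖mn P τ G ξ‖ₑ ^ 2) :=
        lintegral_mono fun ξ => sq_sub_le _ _
    _ = 2 * (∫⁻ ξ in A, ‖G (τ ω) ξ‖ₑ ^ 2) + 2 * ∫⁻ ξ in A, ‖mn P τ G ξ‖ₑ ^ 2 := by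
        rw [lintegral_add_left ((hG.enorm.pow_const 2).const_mul 2),
          lintegral_const_mul _ (hG.enorm.pow_const 2),
          lintegral_const_mul _ (h.mn_meas.enorm.pow_const 2)]
    _ ≤ 2 * ENNReal.ofReal c + 2 * ENNReal.ofReal c := by
        gcongr
        · exact h.bd ω
        · exact h.mn_sq
    _ = ENNReal.ofReal (4 * c) := by
        rw [ENNReal.ofReal_mul (by norm_num : (0 : ℝ) ≤ 4), ← two_mul, ← mul_assoc]
        norm_num

/-- the bound for the integral of the absolute value -/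
lemma Blk.ce_one (h : Blk P A V τ G c) (ω : Ω) :
    (∫⁻ ξ in A, ‖ce P τ G (τ ω) ξ‖ₑ) ^ 2 ≤ ENNReal.ofReal (4 * V * c) := by
  have hm : Measurable fun ξ => ce P τ G (τ ω) ξ :=
    h.ce_meas.comp (measurable_const.prodMk measurable_id)
  refine (cauchy (volume.restrict A) _ hm.enorm.aemeasurable).trans ?_
  rw [Measure.restrict_apply_univ]
  rcases le_total 0 V with hV | hV
  · calc volume A * ∫⁻ ξ in A, ‖ce P τ G (τ ω) ξ‖ₑ ^ 2 ≤
        ENNReal.ofReal V * ENNReal.ofReal (4 * c) := mul_le_mul' h.vol (h.ce_sq ω)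
      _ = ENNReal.ofReal (4 * V * c) := by
        rw [← ENNReal.ofReal_mul hV]; congr 1; ring
  · have h0 : volume A = 0 := by
      have := h.vol
      rw [ENNReal.ofReal_of_nonpos hV] at this
      exact le_antisymm this bot_le
    rw [h0, zero_mul]
    exact bot_le

lemma Blk.ce_int (h : Blk P A V τ G c) (ω : Ω) : IntegrableOn (ce P τ G (τ ω)) A := by
  have hm : Measurable fun ξ => ce P τ G (τ ω) ξ :=
    h.ce_meas.comp (measurable_const.prodMk measurable_id)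
  refine ⟨hm.aestronglyMeasurable, ?_⟩
  rw [HasFiniteIntegral]
  have h1 := (h.ce_one ω).trans_lt ENNReal.ofReal_lt_top
  exact (ENNReal.pow_lt_top_iff.1 h1).resolve_right (by norm_num)

/-- the piece of the inverse Fourier transform -/
noncomputable def pc (P : Measure Ω) (A : Set (E n)) (τ : Ω → Θ) (G : Θ → E n → ℂ) (x : E n)
    (θ : Θ) : ℂ := ∫ ξ in A, ce P τ G θ ξ * ex x ξ

lemma Blk.part_le (h : Blk P A V τ G c) {B : Set (E n)} (hB : B ⊆ A) (x : E n) (ω : Ω) :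
    ‖∫ ξ in B, ce P τ G (τ ω) ξ * ex x ξ‖ₑ ^ 2 ≤ ENNReal.ofReal (4 * V * c) := by
  refine le_trans ?_ (h.ce_one ω)
  gcongr
  refine (enorm_integral_le_lintegral_enorm _).trans ?_
  calc ∫⁻ ξ in B, ‖ce P τ G (τ ω) ξ * ex x ξ‖ₑ = ∫⁻ ξ in B, ‖ce P τ G (τ ω) ξ‖ₑ := by
        refine lintegral_congr fun ξ => ?_
        rw [enorm_mul, ex_enorm, mul_one]
    _ ≤ ∫⁻ ξ in A, ‖ce P τ G (τ ω) ξ‖ₑ := lintegral_mono_set hB

lemma Blk.pc_meas (h : Blk P A V τ G c) : Measurable fun p : E n × Θ => pc P A τ G p.1 p.2 := by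
  unfold pc
  have h1 : StronglyMeasurable fun q : (E n × Θ) × E n => ce P τ G q.1.2 q.2 * ex q.1.1 q.2 :=
    ((h.ce_meas.comp ((measurable_snd.comp measurable_fst).prodMk measurable_snd)).mul
      (ex_cont.measurable.comp ((measurable_fst.comp measurable_fst).prodMk
        measurable_snd))).stronglyMeasurable
  exact h1.integral_prod_right.measurable

lemma Blk.pc_sq (h : Blk P A V τ G c) (ω : Ω) :
    ∫⁻ x, ‖pc P A τ G x (τ ω)‖ₑ ^ 2 ≤ ENNReal.ofReal (4 * c) := by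
  have hm : Measurable fun ξ => ce P τ G (τ ω) ξ :=
    h.ce_meas.comp (measurable_const.prodMk measurable_id)
  set u : E n → ℂ := A.indicator (ce P τ G (τ ω)) with hu
  have hu1 : Integrable u := (integrable_indicator_iff h.Am).2 (h.ce_int ω)
  have hsq : ∫⁻ ξ, ‖u ξ‖ₑ ^ 2 = ∫⁻ ξ in A, ‖ce P τ G (τ ω) ξ‖ₑ ^ 2 := by
    rw [← lintegral_indicator h.Am]
    refine lintegral_congr fun ξ => ?_
    rw [hu]
    by_cases hξ : ξ ∈ A
    · rw [Set.indicator_of_mem hξ, Set.indicator_of_mem hξ]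
    · rw [Set.indicator_of_notMem hξ, Set.indicator_of_notMem hξ]
      simp
  have hu2 : MemLp u 2 := by
    refine ⟨(hm.indicator h.Am).aestronglyMeasurable, ?_⟩
    rw [eLpNorm_lt_top_iff_lintegral_rpow_enorm_lt_top (by norm_num) (by norm_num)]
    simp only [ENNReal.toReal_ofNat, ENNReal.rpow_ofNat]
    rw [hsq]
    exact (h.ce_sq ω).trans_lt ENNReal.ofReal_lt_top
  have h1 := plan u hu1 hu2
  rw [hsq] at h1
  refine le_trans (le_of_eq ?_) (h.ce_sq ω)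
  rw [← h1]
  refine lintegral_congr fun x => ?_
  congr 2
  unfold pc
  rw [← integral_indicator h.Am]
  refine integral_congr_ae (Eventually.of_forall fun ξ => ?_)
  simp only [hu]
  by_cases hξ : ξ ∈ A
  · rw [Set.indicator_of_mem hξ, Set.indicator_of_mem hξ]
  · rw [Set.indicator_of_notMem hξ, Set.indicator_of_notMem hξ, zero_mul]

lemma mean_zero {f : Ω → ℂ} : ∫ ω, (f ω - ∫ ω', f ω' ∂P) ∂P = 0 := by
  by_cases hf : Integrable f P
  · rw [integral_sub hf (integrable_const _), integral_const]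
    simp
  · have h1 : ∫ ω', f ω' ∂P = 0 := integral_undef hf
    simp_rw [h1, sub_zero]
    exact h1

lemma Blk.pc_mean (h : Blk P A V τ G c) (x : E n) : ∫ ω, pc P A τ G x (τ ω) ∂P = 0 := by
  unfold pc
  have hmeas1 : Measurable fun p : Ω × E n => ce P τ G (τ p.1) p.2 :=
    h.ce_meas.comp ((h.τm.comp measurable_fst).prodMk measurable_snd)
  have hmeas2 : Measurable fun p : Ω × E n => ex x p.2 :=
    (ex_cont.comp (continuous_const.prodMk continuous_id)).measurable.comp measurable_snd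
  have hmeas : Measurable fun p : Ω × E n => ce P τ G (τ p.1) p.2 * ex x p.2 :=
    hmeas1.mul hmeas2
  have hint : Integrable (fun p : Ω × E n => ce P τ G (τ p.1) p.2 * ex x p.2)
      (P.prod (volume.restrict A)) := by
    have : IsFiniteMeasure ((volume : Measure (E n)).restrict A) :=
      ⟨by rw [Measure.restrict_apply_univ]; exact h.vol.trans_lt ENNReal.ofReal_lt_top⟩
    refine ⟨hmeas.aestronglyMeasurable, ?_⟩
    rw [HasFiniteIntegral, lintegral_prod _ hmeas.enorm.aemeasurable]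
    obtain ⟨K, hK⟩ : ∃ K : ℝ≥0∞, K = ENNReal.ofReal (4 * V * c) ^ ((1 : ℝ) / 2) := ⟨_, rfl⟩
    have h1 : ∀ ω, ∫⁻ ξ in A, ‖ce P τ G (τ ω) ξ * ex x ξ‖ₑ ≤ K := by
      intro ω
      have h2 : ∫⁻ ξ in A, ‖ce P τ G (τ ω) ξ * ex x ξ‖ₑ = ∫⁻ ξ in A, ‖ce P τ G (τ ω) ξ‖ₑ := by
        refine lintegral_congr fun ξ => ?_
        rw [enorm_mul, ex_enorm, mul_one]
      rw [h2, hK]
      have h3 := h.ce_one ω
      calc ∫⁻ ξ in A, ‖ce P τ G (τ ω) ξ‖ₑ
          = ((∫⁻ ξ in A, ‖ce P τ G (τ ω) ξ‖ₑ) ^ 2) ^ ((1 : ℝ) / 2) := by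
            rw [← ENNReal.rpow_natCast, ← ENNReal.rpow_mul]; norm_num
        _ ≤ _ := ENNReal.rpow_le_rpow h3 (by norm_num)
    calc ∫⁻ ω, (∫⁻ ξ in A, ‖ce P τ G (τ ω) ξ * ex x ξ‖ₑ) ∂P ≤ ∫⁻ _ω, K ∂P :=
          lintegral_mono h1
      _ = K := by rw [lintegral_const, measure_univ, mul_one]
      _ < ∞ := by
          rw [hK]
          exact ENNReal.rpow_lt_top_of_nonneg (by norm_num) ENNReal.ofReal_ne_top
  rw [integral_integral_swap hint]
  have h1 : ∀ ξ, ∫ ω, ce P τ G (τ ω) ξ * ex x ξ ∂P = 0 := by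
    intro ξ
    rw [integral_mul_const]
    have : ∫ ω, ce P τ G (τ ω) ξ ∂P = 0 := mean_zero
    rw [this, zero_mul]
  simp_rw [h1]
  simp

end block

end Pool.Agent.R765.BS
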