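import Mathlib
import Pool.Agent.R765.BSc

/-!
Ball partial sums of a function whose annular pieces are random and independent.
-/

set_option autoImplicit false
set_option linter.unusedSectionVars false

open MeasureTheory ProbabilityTheory Filter Topology
open scoped ENNReal RealInnerProductSpace

namespace Pool.Agent.R765.BS

variable {n : ℕ} {Ω : Type*} {m0 : MeasurableSpace Ω} {P : Measure Ω} [IsProbabilityMeasure P]
  {Θ : Type*} [MeasurableSpace Θ]

/-- the ball partial sum `S_R` at the point `x` of the function with Fourier transform `h` -/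
noncomputable def ballSum (h : E n → ℂ) (R : ℝ) (x : E n) : ℂ :=
  ∫ ξ in Metric.closedBall (0 : E n) R, h ξ * ex x ξ

/-- the `m`-th ring -/
def ring (n : ℕ) (N : ℝ → ℕ) (m : ℕ) : Set (E n) := {ξ | N ‖ξ‖ = m}

/-- the random Fourier transform: on the `m`-th ring it is `G` with the random parameter `t m ω` -/
noncomputable def rnd (N : ℝ → ℕ) (t : ℕ → Ω → Θ) (G : Θ → E n → ℂ) (ω : Ω) (ξ : E n) : ℂ := G (t (N ‖ξ‖) ω) ξ

/-- its mean -/
noncomputable def mean (P : Measure Ω) (N : ℝ → ℕ) (t : ℕ → Ω → Θ) (G : Θ → E n → ℂ) (ξ : E n) : ℂ :=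
  ∫ ω, rnd N t G ω ξ ∂P

/-- the data -/
structure Dat (P : Measure Ω) (N : ℝ → ℕ) (V : ℝ) (t : ℕ → Ω → Θ) (G : Θ → E n → ℂ) (c : ℕ → ℝ) :
    Prop where
  mono : Monotone N
  top : Tendsto N atTop atTop
  vol : ∀ m, volume (ring n N m) ≤ ENNReal.ofReal V
  tm : ∀ m, Measurable (t m)
  ind : iIndepFun t P
  Gm : Measurable (Function.uncurry G)
  c0 : ∀ m, 0 ≤ c m
  cs : Summable c
  bd : ∀ m ω, ∫⁻ ξ in ring n N m, ‖G (t m ω) ξ‖ₑ ^ 2 ≤ ENNReal.ofReal (c m)

variable {N : ℝ → ℕ} {V : ℝ} {t : ℕ → Ω → Θ} {G : Θ → E n → ℂ} {c : ℕ → ℝ}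

lemma ring_meas (hN : Monotone N) (m : ℕ) : MeasurableSet (ring n N m) :=
  (hN.measurable.comp measurable_norm) (measurableSet_singleton m)

lemma Dat.blk (h : Dat P N V t G c) (m : ℕ) : Blk P (ring n N m) V (t m) G (c m) where
  Am := ring_meas h.mono m
  vol := h.vol m
  τm := h.tm m
  Gm := h.Gm
  c0 := h.c0 m
  bd := h.bd m

/-- the pieces -/
noncomputable def X (P : Measure Ω) (N : ℝ → ℕ) (t : ℕ → Ω → Θ) (G : Θ → E n → ℂ) (x : E n) (m : ℕ)
    (ω : Ω) : ℂ := pc P (ring n N m) (t m) G x (t m ω)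

lemma norm_le_of_sq {z : ℂ} {K : ℝ} (h : ‖z‖ₑ ^ 2 ≤ ENNReal.ofReal K) : ‖z‖ ≤ √K := by
  rw [← ofReal_norm, ← ENNReal.ofReal_pow (norm_nonneg _), ENNReal.ofReal_le_ofReal_iff'] at h
  rcases h with h | h
  · exact Real.le_sqrt_of_sq_le h
  · have : ‖z‖ = 0 := by
      have := sq_nonneg ‖z‖
      exact pow_eq_zero_iff (by norm_num) |>.1 (le_antisymm h this)
    rw [this]
    exact Real.sqrt_nonneg _

lemma Dat.X_meas (h : Dat P N V t G c) (m : ℕ) :
    Measurable fun p : E n × Ω => X P N t G p.1 m p.2 := by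
  unfold X
  exact (h.blk m).pc_meas.comp (measurable_fst.prodMk ((h.tm m).comp measurable_snd))

lemma Dat.ser (h : Dat P N V t G c) (x : E n) : Ser (X P N t G x) P where
  meas m := (h.X_meas m).comp (measurable_const.prodMk measurable_id)
  ind := h.ind.comp (fun m θ => pc P (ring n N m) (t m) G x θ)
    fun m => (h.blk m).pc_meas.comp (measurable_const.prodMk measurable_id)
  bdd m := ⟨√(4 * V * c m), fun ω => norm_le_of_sq ((h.blk m).part_le le_rfl x ω)⟩
  mean m := (h.blk m).pc_mean x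

/-- the sum of the mean squares, integrated over `x` -/
lemma Dat.total (h : Dat P N V t G c) (B : Set (E n)) :
    ∫⁻ x in B, ∑' m, ∫⁻ ω, ‖X P N t G x m ω‖ₑ ^ 2 ∂P ≤ ENNReal.ofReal (4 * ∑' m, c m) := by
  have hm : ∀ m, Measurable fun p : E n × Ω => ‖X P N t G p.1 m p.2‖ₑ ^ 2 := fun m =>
    (h.X_meas m).enorm.pow_const 2
  rw [lintegral_tsum fun m => ((hm m).lintegral_prod_right').aemeasurable]
  have h1 : ∀ m, ∫⁻ x in B, (∫⁻ ω, ‖X P N t G x m ω‖ₑ ^ 2 ∂P) ≤ ENNReal.ofReal (4 * c m) := by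
    intro m
    rw [lintegral_lintegral_swap (hm m).aemeasurable]
    calc ∫⁻ ω, (∫⁻ x in B, ‖X P N t G x m ω‖ₑ ^ 2) ∂P ≤ ∫⁻ _ω, ENNReal.ofReal (4 * c m) ∂P := by
          refine lintegral_mono fun ω => ?_
          exact (setLIntegral_le_lintegral _ _).trans ((h.blk m).pc_sq ω)
      _ = ENNReal.ofReal (4 * c m) := by rw [lintegral_const, measure_univ, mul_one]
  refine (ENNReal.tsum_le_tsum h1).trans (le_of_eq ?_)
  rw [← ENNReal.ofReal_tsum_of_nonneg (fun m => mul_nonneg (by norm_num) (h.c0 m))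
    (h.cs.mul_left 4), tsum_mul_left]

/-- **almost sure convergence almost everywhere of the series of the pieces** -/
theorem Dat.ae_conv (h : Dat P N V t G c) :
    ∀ᵐ ω ∂P, ∀ᵐ x : E n, ∃ l : ℂ,
      Tendsto (fun k => ∑ m ∈ Finset.range k, X P N t G x m ω) atTop (𝓝 l) := by
  have hms : MeasurableSet {p : E n × Ω | ∃ l : ℂ,
      Tendsto (fun k => ∑ m ∈ Finset.range k, X P N t G p.1 m p.2) atTop (𝓝 l)} :=
    measurableSet_exists_tendsto fun k => Finset.measurable_fun_sum _ fun m _ => h.X_meas m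
  rw [← Measure.ae_ae_comm (μ := volume) (ν := P) (p := fun x ω => ∃ l : ℂ,
      Tendsto (fun k => ∑ m ∈ Finset.range k, X P N t G x m ω) atTop (𝓝 l)) hms]
  have h1 := h.total Set.univ
  rw [Measure.restrict_univ] at h1
  have hmm : Measurable fun x => ∑' m, ∫⁻ ω, ‖X P N t G x m ω‖ₑ ^ 2 ∂P := by
    refine Measurable.tsum fun m => ?_
    exact ((h.X_meas m).enorm.pow_const 2).lintegral_prod_right'
  have h2 := ae_lt_top hmm (h1.trans_lt ENNReal.ofReal_lt_top).ne
  filter_upwards [h2] with x hx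
  exact (h.ser x).conv hx.ne

end Pool.Agent.R765.BS
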