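import Mathlib
import Pool.Agent.R765.BSd

/-!
Ball partial sums of a function whose annular pieces are random and independent: decomposition of
the ball partial sums, the limit, and the maximal inequality.
-/

set_option autoImplicit false
set_option linter.unusedSectionVars false

open MeasureTheory ProbabilityTheory Filter Topology
open scoped ENNReal RealInnerProductSpace

namespace Pool.Agent.R765.BS

variable {n : ℕ} {Ω : Type*} {m0 : MeasurableSpace Ω} {P : Measure Ω} [IsProbabilityMeasure P]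
  {Θ : Type*} [MeasurableSpace Θ]
  {N : ℝ → ℕ} {V : ℝ} {t : ℕ → Ω → Θ} {G : Θ → E n → ℂ} {c : ℕ → ℝ}

/-- the centred random Fourier transform -/
noncomputable def dif (P : Measure Ω) (N : ℝ → ℕ) (t : ℕ → Ω → Θ) (G : Θ → E n → ℂ) (ω : Ω)
    (ξ : E n) : ℂ := rnd N t G ω ξ - mean P N t G ξ

lemma dif_ring {m : ℕ} {ξ : E n} (hξ : ξ ∈ ring n N m) (ω : Ω) :
    dif P N t G ω ξ = ce P (t m) G (t m ω) ξ := by
  have h1 : N ‖ξ‖ = m := hξ
  unfold dif ce mean mn rnd
  rw [h1]

/-- the last, incomplete, piece -/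
noncomputable def last (P : Measure Ω) (N : ℝ → ℕ) (t : ℕ → Ω → Θ) (G : Θ → E n → ℂ) (ω : Ω)
    (R : ℝ) (x : E n) : ℂ :=
  ∫ ξ in ring n N (N R) ∩ Metric.closedBall 0 R, ce P (t (N R)) G (t (N R) ω) ξ * ex x ξ

lemma closedBall_eq (hN : Monotone N) (R : ℝ) :
    Metric.closedBall (0 : E n) R =
      (⋃ j ∈ Finset.range (N R), ring n N j) ∪ (ring n N (N R) ∩ Metric.closedBall 0 R) := by
  ext ξ
  simp only [Metric.mem_closedBall, dist_zero_right, Set.mem_union, Set.mem_iUnion,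
    Finset.mem_range, Set.mem_inter_iff, ring, Set.mem_ofPred_eq, exists_prop]
  constructor
  · intro h
    rcases (hN h).lt_or_eq with h1 | h1
    · exact Or.inl ⟨N ‖ξ‖, h1, rfl⟩
    · exact Or.inr ⟨h1, h⟩
  · rintro (⟨j, hj, h⟩ | ⟨_, h⟩)
    · by_contra hcon
      push Not at hcon
      have := hN hcon.le
      omega
    · exact h

lemma Dat.ce_ex_int (h : Dat P N V t G c) (m : ℕ) (ω : Ω) (x : E n) :
    IntegrableOn (fun ξ => ce P (t m) G (t m ω) ξ * ex x ξ) (ring n N m) := by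
  have hm : Measurable fun ξ => ex x ξ :=
    (ex_cont.comp (continuous_const.prodMk continuous_id)).measurable
  refine ((h.blk m).ce_int ω).mul_bdd (c := 1) hm.aestronglyMeasurable
    (Eventually.of_forall fun ξ => (ex_norm x ξ).le)

lemma Dat.decomp (h : Dat P N V t G c) (ω : Ω) (R : ℝ) (x : E n) :
    ballSum (dif P N t G ω) R x =
      (∑ m ∈ Finset.range (N R), X P N t G x m ω) + last P N t G ω R x := by
  have hcongr : ∀ m, ∀ B ⊆ ring n N m,
      MeasurableSet B → (∫ ξ in B, dif P N t G ω ξ * ex x ξ) =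
      ∫ ξ in B, ce P (t m) G (t m ω) ξ * ex x ξ := by
    intro m B hB hBm
    refine setIntegral_congr_fun hBm fun ξ hξ => ?_
    rw [dif_ring (hB hξ)]
  have hint : ∀ m, IntegrableOn (fun ξ => dif P N t G ω ξ * ex x ξ) (ring n N m) := by
    intro m
    refine (h.ce_ex_int m ω x).congr_fun (fun ξ hξ => ?_) (ring_meas h.mono m)
    rw [dif_ring hξ]
  have hpd : Pairwise (Function.onFun Disjoint fun j => ring n N j) := by
    intro i j hij
    rw [Function.onFun, Set.disjoint_left]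
    intro ξ h1 h2
    have e1 : N ‖ξ‖ = i := h1
    have e2 : N ‖ξ‖ = j := h2
    exact hij (e1.symm.trans e2)
  unfold ballSum
  rw [closedBall_eq h.mono R, setIntegral_union]
  · rw [integral_biUnion_finset _ (fun i _ => ring_meas h.mono i)
      (fun i _ j _ hij => hpd hij) (fun i _ => hint i)]
    unfold last X pc
    rw [hcongr _ _ Set.inter_subset_left ((ring_meas h.mono _).inter measurableSet_closedBall)]
    congr 1
    refine Finset.sum_congr rfl fun m _ => ?_
    exact hcongr m _ le_rfl (ring_meas h.mono m)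
  · rw [Set.disjoint_left]
    intro ξ h1 h2
    simp only [Set.mem_iUnion, Finset.mem_range, exists_prop] at h1
    obtain ⟨j, hj, h3⟩ := h1
    have e1 : N ‖ξ‖ = j := h3
    have e2 : N ‖ξ‖ = N R := h2.1
    omega
  · exact (ring_meas h.mono _).inter measurableSet_closedBall
  · rw [integrableOn_finset_iUnion]
    exact fun i _ => hint i
  · exact (hint _).mono_set Set.inter_subset_left

lemma Dat.last_le (h : Dat P N V t G c) (ω : Ω) (R : ℝ) (x : E n) :
    ‖last P N t G ω R x‖ₑ ^ 2 ≤ ENNReal.ofReal (4 * V * c (N R)) :=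
  (h.blk (N R)).part_le Set.inter_subset_left x ω

/-- **almost sure convergence almost everywhere of the ball partial sums** -/
theorem Dat.ball_conv (h : Dat P N V t G c) :
    ∀ᵐ ω ∂P, ∀ᵐ x : E n, ∃ l : ℂ,
      Tendsto (fun R => ballSum (dif P N t G ω) R x) atTop (𝓝 l) := by
  filter_upwards [h.ae_conv] with ω hω
  filter_upwards [hω] with x hx
  obtain ⟨l, hl⟩ := hx
  refine ⟨l, ?_⟩
  have h1 : Tendsto (fun R => last P N t G ω R x) atTop (𝓝 0) := by
    have h2 : Tendsto (fun R => √(4 * V * c (N R))) atTop (𝓝 0) := by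
      have h3 : Tendsto (fun m => √(4 * V * c m)) atTop (𝓝 0) := by
        have h4 := (h.cs.tendsto_atTop_zero.const_mul (4 * V)).sqrt
        simpa using h4
      exact h3.comp h.top
    exact squeeze_zero_norm (fun R => norm_le_of_sq (h.last_le ω R x)) h2
  have h2 := (hl.comp h.top).add h1
  rw [add_zero] at h2
  refine h2.congr fun R => ?_
  rw [h.decomp ω R x]
  rfl

/-- the majorant -/
noncomputable def Mj (P : Measure Ω) (N : ℝ → ℕ) (V : ℝ) (t : ℕ → Ω → Θ) (G : Θ → E n → ℂ)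
    (c : ℕ → ℝ) (ω : Ω) (x : E n) : ℝ≥0∞ :=
  2 * (⨆ k, ENNReal.ofReal (maj (fun i => X P N t G x i ω) k)) +
    2 * ENNReal.ofReal (4 * V * ∑' m, c m)

lemma sq_add_le (a b : ℂ) : ‖a + b‖ₑ ^ 2 ≤ 2 * ‖a‖ₑ ^ 2 + 2 * ‖b‖ₑ ^ 2 := by
  have h := sq_sub_le a (-b)
  rwa [sub_neg_eq_add, enorm_neg] at h

lemma Dat.le_Mj (h : Dat P N V t G c) (hV : 0 ≤ V) (ω : Ω) (x : E n) (R : ℝ) :
    ‖ballSum (dif P N t G ω) R x‖ₑ ^ 2 ≤ Mj P N V t G c ω x := by
  rw [h.decomp ω R x]
  refine (sq_add_le _ _).trans ?_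
  unfold Mj
  gcongr
  · refine le_trans ?_ (le_iSup (fun k => ENNReal.ofReal (maj (fun i => X P N t G x i ω) k)) (N R))
    rw [← ofReal_norm, ← ENNReal.ofReal_pow (norm_nonneg _)]
    exact ENNReal.ofReal_le_ofReal (sum_le_maj _ _)
  · refine (h.last_le ω R x).trans (ENNReal.ofReal_le_ofReal ?_)
    exact mul_le_mul_of_nonneg_left (h.cs.le_tsum _ fun m _ => h.c0 m) (by positivity)

lemma Dat.Mj_meas (h : Dat P N V t G c) :
    Measurable fun p : Ω × E n => Mj P N V t G c p.1 p.2 := by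
  unfold Mj
  refine Measurable.add_const (Measurable.const_mul ?_ _) _
  refine Measurable.iSup fun k => ?_
  refine Measurable.ennreal_ofReal ?_
  exact maj_meas (X := fun m (p : Ω × E n) => X P N t G p.2 m p.1)
    (fun m => (h.X_meas m).comp (measurable_snd.prodMk measurable_fst)) k

theorem Dat.Mj_le (h : Dat P N V t G c) (hV : 0 ≤ V) (B : Set (E n)) :
    ∫⁻ ω, (∫⁻ x in B, Mj P N V t G c ω x) ∂P ≤
      (32 + 8 * ENNReal.ofReal V * volume B) * ENNReal.ofReal (∑' m, c m) := by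
  rw [lintegral_lintegral_swap h.Mj_meas.aemeasurable]
  have h0 : 0 ≤ ∑' m, c m := tsum_nonneg h.c0
  have hmeas : ∀ x : E n, Measurable fun ω =>
      ⨆ k, ENNReal.ofReal (maj (fun i => X P N t G x i ω) k) := fun x =>
    Measurable.iSup fun k => (maj_meas (h.ser x).meas k).ennreal_ofReal
  have h1 : ∀ x : E n, ∫⁻ ω, Mj P N V t G c ω x ∂P ≤
      8 * (∑' m, ∫⁻ ω, ‖X P N t G x m ω‖ₑ ^ 2 ∂P) + 2 * ENNReal.ofReal (4 * V * ∑' m, c m) := by
    intro x
    unfold Mj
    rw [lintegral_add_right _ measurable_const, lintegral_const, measure_univ, mul_one,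
      lintegral_const_mul _ (hmeas x)]
    refine add_le_add ?_ le_rfl
    calc 2 * ∫⁻ ω, (⨆ k, ENNReal.ofReal (maj (fun i => X P N t G x i ω) k)) ∂P ≤
        2 * (4 * ∑' m, ∫⁻ ω, ‖X P N t G x m ω‖ₑ ^ 2 ∂P) := by
          gcongr
          exact (h.ser x).max
      _ = 8 * ∑' m, ∫⁻ ω, ‖X P N t G x m ω‖ₑ ^ 2 ∂P := by
          rw [← mul_assoc]; norm_num
  have hmm : Measurable fun x => ∑' m, ∫⁻ ω, ‖X P N t G x m ω‖ₑ ^ 2 ∂P := by
    refine Measurable.tsum fun m => ?_
    exact ((h.X_meas m).enorm.pow_const 2).lintegral_prod_right'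
  calc ∫⁻ x in B, (∫⁻ ω, Mj P N V t G c ω x ∂P) ≤
      ∫⁻ x in B, (8 * (∑' m, ∫⁻ ω, ‖X P N t G x m ω‖ₑ ^ 2 ∂P) +
        2 * ENNReal.ofReal (4 * V * ∑' m, c m)) := lintegral_mono fun x => h1 x
    _ = 8 * (∫⁻ x in B, ∑' m, ∫⁻ ω, ‖X P N t G x m ω‖ₑ ^ 2 ∂P) +
        2 * ENNReal.ofReal (4 * V * ∑' m, c m) * volume B := by
        rw [lintegral_add_right _ measurable_const, lintegral_const_mul _ hmm, lintegral_const,
          Measure.restrict_apply_univ]
    _ ≤ 8 * ENNReal.ofReal (4 * ∑' m, c m) + 2 * ENNReal.ofReal (4 * V * ∑' m, c m) * volume B := by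
        gcongr
        exact h.total B
    _ = (32 + 8 * ENNReal.ofReal V * volume B) * ENNReal.ofReal (∑' m, c m) := by
        rw [ENNReal.ofReal_mul (by norm_num : (0 : ℝ) ≤ 4), mul_assoc 4 V,
          ENNReal.ofReal_mul (by norm_num : (0 : ℝ) ≤ 4), ENNReal.ofReal_mul hV]
        have h4 : ENNReal.ofReal 4 = 4 := by norm_num
        rw [h4]
        ring

end Pool.Agent.R765.BS
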