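import Mathlib
import Pool.Agent.R765.BSe

/-!
Random motions of the annular pieces of a square integrable function: signs, translations, rotations.
-/

set_option autoImplicit false
set_option linter.unusedSectionVars false

open MeasureTheory ProbabilityTheory Filter Topology FourierTransform
open scoped ENNReal RealInnerProductSpace

namespace Pool.Agent.R765.BS

variable {n : ℕ} {Ω : Type*} {m0 : MeasurableSpace Ω} {P : Measure Ω} [IsProbabilityMeasure P]
  {Θ : Type*} [MeasurableSpace Θ]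
  {N : ℝ → ℕ} {V : ℝ} {t : ℕ → Ω → Θ} {G : Θ → E n → ℂ} {c : ℕ → ℝ}

lemma Dat.dif_int (h : Dat P N V t G c) (ω : Ω) (R : ℝ) (x : E n) :
    IntegrableOn (fun ξ => dif P N t G ω ξ * ex x ξ) (Metric.closedBall 0 R) := by
  have hint : ∀ m, IntegrableOn (fun ξ => dif P N t G ω ξ * ex x ξ) (ring n N m) := by
    intro m
    refine (h.ce_ex_int m ω x).congr_fun (fun ξ hξ => ?_) (ring_meas h.mono m)
    rw [dif_ring hξ]
  rw [closedBall_eq h.mono R]
  refine IntegrableOn.union ?_ ((hint _).mono_set Set.inter_subset_left)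
  rw [integrableOn_finset_iUnion]
  exact fun i _ => hint i

/-- if the mean is integrable, the ball partial sums themselves converge -/
theorem Dat.full_conv (h : Dat P N V t G c) (hm : Integrable (mean P N t G)) :
    ∀ᵐ ω ∂P, ∀ᵐ x : E n, ∃ l : ℂ,
      Tendsto (fun R => ballSum (rnd N t G ω) R x) atTop (𝓝 l) := by
  filter_upwards [h.ball_conv] with ω hω
  filter_upwards [hω] with x hx
  obtain ⟨l, hl⟩ := hx
  have hem : Measurable fun ξ => ex x ξ :=
    (ex_cont.comp (continuous_const.prodMk continuous_id)).measurable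
  have h1 : Integrable (fun ξ => mean P N t G ξ * ex x ξ) :=
    hm.mul_bdd (c := 1) hem.aestronglyMeasurable (Eventually.of_forall fun ξ => (ex_norm x ξ).le)
  have h2 := (aecover_closedBall (μ := (volume : Measure (E n))) (x := (0 : E n))
    (r := fun R : ℝ => R) tendsto_id).integral_tendsto_of_countably_generated h1
  refine ⟨l + ∫ ξ, mean P N t G ξ * ex x ξ, (hl.add h2).congr fun R => ?_⟩
  unfold ballSum
  rw [← integral_add (h.dif_int ω R x) h1.integrableOn]
  refine integral_congr_ae (Eventually.of_forall fun ξ => ?_)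
  simp only [dif]
  ring

/-- if the mean vanishes identically the random function and the centred one agree -/
lemma dif_eq_rnd (h0 : ∀ ξ, mean P N t G ξ = 0) (ω : Ω) : dif P N t G ω = rnd N t G ω := by
  funext ξ
  unfold dif
  rw [h0, sub_zero]

/-- `a (θ, ξ) g (T (θ, ξ))` -/
def mot (a : Θ → E n → ℂ) (T : Θ → E n → E n) (g : E n → ℂ) (θ : Θ) (ξ : E n) : ℂ :=
  a θ ξ * g (T θ ξ)

/-- the rings -/
structure Rings (n : ℕ) (N : ℝ → ℕ) (V : ℝ) : Prop where
  mono : Monotone N
  top : Tendsto N atTop atTop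
  nonneg : 0 ≤ V
  vol : ∀ m, volume {ξ : E n | N ‖ξ‖ = m} ≤ ENNReal.ofReal V

/-- the motions -/
structure Motions (a : Θ → E n → ℂ) (T : Θ → E n → E n) : Prop where
  am : Measurable (Function.uncurry a)
  Tm : Measurable (Function.uncurry T)
  le : ∀ θ ξ, ‖a θ ξ‖ ≤ 1
  mp : ∀ θ, MeasurePreserving (T θ)
  norm : ∀ θ ξ, ‖T θ ξ‖ = ‖ξ‖

lemma ring_disj : Pairwise (Function.onFun Disjoint fun j => ring n N j) := by
  intro i j hij
  rw [Function.onFun, Set.disjoint_left]
  intro ξ h1 h2
  have e1 : N ‖ξ‖ = i := h1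
  have e2 : N ‖ξ‖ = j := h2
  exact hij (e1.symm.trans e2)

lemma ring_union : ⋃ j, ring n N j = Set.univ := by
  ext ξ
  simp only [Set.mem_iUnion, Set.mem_univ, iff_true]
  exact ⟨N ‖ξ‖, rfl⟩

theorem ring_sum (hN : Monotone N) {g : E n → ℂ} (hg : MemLp g 2) :
    HasSum (fun m => ∫ ξ in ring n N m, ‖g ξ‖ ^ 2) (∫ ξ, ‖g ξ‖ ^ 2) := by
  have h1 : Integrable fun ξ => ‖g ξ‖ ^ 2 := hg.integrable_norm_pow (by norm_num)
  have h2 := hasSum_integral_iUnion (fun m => ring_meas hN m) ring_disj
    (f := fun ξ : E n => ‖g ξ‖ ^ 2) (μ := volume) h1.integrableOn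
  rwa [ring_union, Measure.restrict_univ] at h2

theorem dat_mot (hr : Rings n N V) {a : Θ → E n → ℂ} {T : Θ → E n → E n} (hM : Motions a T)
    {g : E n → ℂ} (hgm : Measurable g) (hg : MemLp g 2) (ht : ∀ m, Measurable (t m))
    (hind : iIndepFun t P) :
    Dat P N V t (mot a T g) fun m => ∫ ξ in ring n N m, ‖g ξ‖ ^ 2 where
  mono := hr.mono
  top := hr.top
  vol := hr.vol
  tm := ht
  ind := hind
  Gm := by
    have h1 : Measurable fun p : Θ × E n => a p.1 p.2 := hM.am
    have h2 : Measurable fun p : Θ × E n => T p.1 p.2 := hM.Tm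
    exact h1.mul (hgm.comp h2)
  c0 m := integral_nonneg fun ξ => by positivity
  cs := (ring_sum hr.mono hg).summable
  bd m ω := by
    have h1 : Integrable fun ξ => ‖g ξ‖ ^ 2 := hg.integrable_norm_pow (by norm_num)
    have hpre : T (t m ω) ⁻¹' ring n N m = ring n N m := by
      ext ξ
      simp only [ring, Set.mem_preimage, Set.mem_ofPred_eq, hM.norm]
    calc ∫⁻ ξ in ring n N m, ‖mot a T g (t m ω) ξ‖ₑ ^ 2 ≤
        ∫⁻ ξ in T (t m ω) ⁻¹' ring n N m, ‖g (T (t m ω) ξ)‖ₑ ^ 2 := by
          rw [hpre]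
          refine lintegral_mono fun ξ => ?_
          unfold mot
          rw [enorm_mul]
          have h2 : ‖a (t m ω) ξ‖ₑ ≤ 1 := by
            rw [← ofReal_norm, ← ENNReal.ofReal_one]
            exact ENNReal.ofReal_le_ofReal (hM.le _ _)
          calc (‖a (t m ω) ξ‖ₑ * ‖g (T (t m ω) ξ)‖ₑ) ^ 2 ≤ (1 * ‖g (T (t m ω) ξ)‖ₑ) ^ 2 := by
                gcongr
            _ = _ := by rw [one_mul]
      _ = ∫⁻ ξ in ring n N m, ‖g ξ‖ₑ ^ 2 :=
          (hM.mp (t m ω)).setLIntegral_comp_preimage (ring_meas hr.mono m)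
            (f := fun ξ => ‖g ξ‖ₑ ^ 2) (hgm.enorm.pow_const 2)
      _ = ENNReal.ofReal (∫ ξ in ring n N m, ‖g ξ‖ ^ 2) := by
          rw [ofReal_integral_eq_lintegral_ofReal h1.integrableOn
            (Eventually.of_forall fun ξ => by positivity)]
          refine lintegral_congr fun ξ => ?_
          rw [ENNReal.ofReal_pow (norm_nonneg _), ofReal_norm]
      _ ≤ _ := le_rfl

/-- the characteristic function of a law with a square integrable density is square integrable -/
theorem char_memLp {y : Ω → E n} (hy : Measurable y) {ρ : E n → ℝ} (h0 : ∀ v, 0 ≤ ρ v)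
    (hρ1 : Integrable ρ) (hρm : Measurable ρ) (hρ2 : MemLp ρ 2)
    (hlaw : P.map y = volume.withDensity fun v => ENNReal.ofReal (ρ v)) :
    MemLp (fun ξ : E n => ∫ ω, ex (-(y ω)) ξ ∂P) 2 := by
  have h1 : ∀ ξ : E n, ∫ ω, ex (-(y ω)) ξ ∂P = ∫ v, (ρ v : ℂ) * ex ξ (-v) := by
    intro ξ
    have hc0 : Continuous fun v : E n => ((-v, ξ) : E n × E n) := continuous_neg.prodMk continuous_const
    have hc : Continuous fun v : E n => ex (-v) ξ := ex_cont.comp hc0
    have e1 : ∫ ω, ex (-(y ω)) ξ ∂P = ∫ v, ex (-v) ξ ∂(P.map y) :=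
      (integral_map hy.aemeasurable hc.aestronglyMeasurable).symm
    rw [e1, hlaw, integral_withDensity_eq_integral_toReal_smul hρm.ennreal_ofReal
      (Eventually.of_forall fun v => ENNReal.ofReal_lt_top)]
    refine integral_congr_ae (Eventually.of_forall fun v => ?_)
    simp only
    rw [ENNReal.toReal_ofReal (h0 v), Complex.real_smul]
    congr 1
    unfold ex
    rw [inner_neg_left, inner_neg_right, real_inner_comm]
  have hρc1 : Integrable fun v => (ρ v : ℂ) := hρ1.ofReal
  have hρc2 : MemLp (fun v => (ρ v : ℂ)) 2 := hρ2.ofReal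
  set u : E n → ℂ := fun v => (ρ (-v) : ℂ) with hu
  have hu1 : Integrable u := hρc1.comp_neg
  have hu2 : MemLp u 2 := by
    have := hρc2.comp_measurePreserving (Measure.measurePreserving_neg (volume : Measure (E n)))
    exact this
  have h2 : ∀ ξ : E n, ∫ v, (ρ v : ℂ) * ex ξ (-v) = ∫ v, u v * ex ξ v := by
    intro ξ
    have := integral_neg_eq_self (fun v => u v * ex ξ v) (volume : Measure (E n))
    rw [← this]
    simp only [hu, neg_neg]
  have h3 := plan u hu1 hu2
  have hcont : Continuous fun ξ : E n => ∫ v, u v * ex ξ v := by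
    refine continuous_of_dominated (bound := fun v => ‖u v‖) (fun ξ => ?_) (fun ξ => ?_)
      hu1.norm ?_
    · have hc0 : Continuous fun v : E n => ((ξ, v) : E n × E n) := continuous_const.prodMk continuous_id
      have hc : Continuous fun v : E n => ex ξ v := ex_cont.comp hc0
      exact hu1.aestronglyMeasurable.mul hc.aestronglyMeasurable
    · refine Eventually.of_forall fun v => ?_
      rw [norm_mul, ex_norm, mul_one]
    · refine Eventually.of_forall fun v => ?_
      have hc0 : Continuous fun ξ : E n => ((ξ, v) : E n × E n) := continuous_id.prodMk continuous_const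
      have hc : Continuous fun ξ : E n => ex ξ v := ex_cont.comp hc0
      exact continuous_const.mul hc
  have h4 : (fun ξ : E n => ∫ ω, ex (-(y ω)) ξ ∂P) = fun ξ => ∫ v, u v * ex ξ v := by
    funext ξ
    rw [h1, h2]
  rw [h4]
  refine ⟨hcont.aestronglyMeasurable, ?_⟩
  rw [eLpNorm_lt_top_iff_lintegral_rpow_enorm_lt_top (by norm_num) (by norm_num)]
  simp only [ENNReal.toReal_ofNat, ENNReal.rpow_ofNat]
  rw [h3]
  have h5 := hu2.2
  rw [eLpNorm_lt_top_iff_lintegral_rpow_enorm_lt_top (by norm_num) (by norm_num)] at h5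
  simpa only [ENNReal.toReal_ofNat, ENNReal.rpow_ofNat] using h5

end Pool.Agent.R765.BS
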