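import Pool.Agent.Y674.SH.Final3
import Pool.Agent.Y522.Tools

/-!
# Homeomorphisms of manifolds with boundary and their restrictions to the interiors
-/

set_option autoImplicit false

open Set Filter Topology Metric Function
open scoped Manifold ContDiff

noncomputable section

namespace Pool.Agent.R765

open Pool.Agent.Y522 Pool.Agent.Y833.SH Pool.Agent.Y674.SH

section

variable {m : ℕ} {M N X Y : Type} [TopologicalSpace M] [TopologicalSpace N]
    [TopologicalSpace X] [TopologicalSpace Y]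
    [ChartedSpace (EuclideanHalfSpace (m + 1)) M] [ChartedSpace (EuclideanHalfSpace (m + 1)) N]
    [ChartedSpace (E (m + 1)) X] [ChartedSpace (E (m + 1)) Y]

/-- the restriction to the interiors -/
theorem exists_restr (ι : X → M) (hι : Injective ι) (hιr : range ι = (𝓡∂ (m + 1)).interior M)
    (hιd : ∀ x, IsLocalDiffeomorphAt (𝓡 (m + 1)) (𝓡∂ (m + 1)) ∞ ι x)
    (κ : Y → N) (hκ : Injective κ) (hκr : range κ = (𝓡∂ (m + 1)).interior N)
    (hκd : ∀ x, IsLocalDiffeomorphAt (𝓡 (m + 1)) (𝓡∂ (m + 1)) ∞ κ x)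
    (f : M ≃ₜ N) (hf : ∀ x, x ∈ (𝓡∂ (m + 1)).interior M ↔ f x ∈ (𝓡∂ (m + 1)).interior N) :
    ∃ F : X ≃ₜ Y, ∀ x, κ (F x) = f (ι x) := by
  have hιc : Continuous ι := continuous_iff_continuousAt.2 fun x => (hιd x).contMDiffAt.continuousAt
  have hκc : Continuous κ := continuous_iff_continuousAt.2 fun x => (hκd x).contMDiffAt.continuousAt
  have hιo : IsOpenMap ι := IsLocalDiffeomorph.isOpenMap (I := 𝓡 (m + 1)) (J := 𝓡∂ (m + 1))
    (n := ∞) hιd
  have hκo : IsOpenMap κ := IsLocalDiffeomorph.isOpenMap (I := 𝓡 (m + 1)) (J := 𝓡∂ (m + 1))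
    (n := ∞) hκd
  have h1 : ∀ x, ∃ y, κ y = f (ι x) := by
    intro x
    have h2 : f (ι x) ∈ range κ := by
      rw [hκr, ← hf, ← hιr]
      exact mem_range_self x
    exact h2
  choose F hF using h1
  have h2 : ∀ y, ∃ x, f (ι x) = κ y := by
    intro y
    have h3 : f.symm (κ y) ∈ range ι := by
      rw [hιr, hf, f.apply_symm_apply, ← hκr]
      exact mem_range_self y
    obtain ⟨x, hx⟩ := h3
    exact ⟨x, by rw [hx, f.apply_symm_apply]⟩
  choose G hG using h2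
  have hle : LeftInverse G F := by
    intro x
    apply hι
    apply f.injective
    rw [hG, hF]
  have hri : RightInverse G F := by
    intro y
    apply hκ
    rw [hF, hG]
  have hFc : Continuous F := by
    rw [(IsOpenEmbedding.of_continuous_injective_isOpenMap hκc hκ hκo).isInducing.continuous_iff]
    have : κ ∘ F = fun x => f (ι x) := funext hF
    rw [this]
    exact f.continuous.comp hιc
  have hGc : Continuous G := by
    rw [(IsOpenEmbedding.of_continuous_injective_isOpenMap hιc hι hιo).isInducing.continuous_iff]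
    have : ι ∘ G = fun y => f.symm (κ y) := by
      funext y
      have := hG y
      rw [comp_apply, ← this, f.symm_apply_apply]
    rw [this]
    exact f.symm.continuous.comp hκc
  exact ⟨⟨⟨F, G, hle, hri⟩, hFc, hGc⟩, hF⟩

/-- the restriction is a local diffeomorphism where the map is one -/
theorem ld_restr (ι : X → M) (hιd : ∀ x, IsLocalDiffeomorphAt (𝓡 (m + 1)) (𝓡∂ (m + 1)) ∞ ι x)
    (κ : Y → N) (hκ : Injective κ)
    (hκd : ∀ x, IsLocalDiffeomorphAt (𝓡 (m + 1)) (𝓡∂ (m + 1)) ∞ κ x)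
    (f : M → N) (F : X → Y) (hF : ∀ x, κ (F x) = f (ι x)) {x : X}
    (h : IsLocalDiffeomorphAt (𝓡∂ (m + 1)) (𝓡∂ (m + 1)) ∞ f (ι x)) : LD (m + 1) F x := by
  have h1 := IsLocalDiffeomorphAt.comp (𝓡∂ (m + 1)) N (hιd x) h
  have h3 := (hκd (F x)).localInverse_isLocalDiffeomorphAt
  have h4 : κ (F x) = (f ∘ ι) x := hF x
  rw [h4] at h3
  have h5 : LD (m + 1) ((hκd (F x)).localInverse ∘ (f ∘ ι)) x :=
    IsLocalDiffeomorphAt.comp (𝓡 (m + 1)) Y h1 h3
  refine LD.congr h5 ?_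
  have hco : ContinuousAt (f ∘ ι) x := h1.contMDiffAt.continuousAt
  have h6 : (f ∘ ι) x ∈ (hκd (F x)).localInverse.source := by
    rw [← h4]
    exact (hκd (F x)).localInverse_mem_source
  filter_upwards [hco ((hκd (F x)).localInverse.open_source.mem_nhds h6)] with y hy
  have h7 := (hκd (F x)).localInverse_right_inv hy
  apply hκ
  rw [hF]
  exact h7.symm

/-- ... and conversely -/
theorem ld_of_restr (ι : X → M) (hι : Injective ι)
    (hιd : ∀ x, IsLocalDiffeomorphAt (𝓡 (m + 1)) (𝓡∂ (m + 1)) ∞ ι x)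
    (κ : Y → N)
    (hκd : ∀ x, IsLocalDiffeomorphAt (𝓡 (m + 1)) (𝓡∂ (m + 1)) ∞ κ x)
    (f : M → N) (F : X → Y) (hF : ∀ x, κ (F x) = f (ι x)) {x : X}
    (h : LD (m + 1) F x) : IsLocalDiffeomorphAt (𝓡∂ (m + 1)) (𝓡∂ (m + 1)) ∞ f (ι x) := by
  have ha := (hιd x).localInverse_isLocalDiffeomorphAt
  have hax : (hιd x).localInverse (ι x) = x :=
    (hιd x).localInverse_left_inv (hιd x).localInverse_mem_target
  have h1 : LD (m + 1) F ((hιd x).localInverse (ι x)) := by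
    rw [hax]
    exact h
  have h2 : IsLocalDiffeomorphAt (𝓡∂ (m + 1)) (𝓡 (m + 1)) ∞ (F ∘ (hιd x).localInverse) (ι x) :=
    IsLocalDiffeomorphAt.comp (𝓡 (m + 1)) Y ha h1
  have h3 : IsLocalDiffeomorphAt (𝓡∂ (m + 1)) (𝓡∂ (m + 1)) ∞
      (κ ∘ (F ∘ (hιd x).localInverse)) (ι x) :=
    IsLocalDiffeomorphAt.comp (𝓡∂ (m + 1)) N h2 (hκd _)
  refine ld_congr h3 ?_
  filter_upwards [(hιd x).localInverse.open_source.mem_nhds (hιd x).localInverse_mem_source]
    with y' g1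
  have g3 : ι ((hιd x).localInverse y') = y' := (hιd x).localInverse_right_inv g1
  change f y' = κ (F ((hιd x).localInverse y'))
  rw [hF, g3]

/-- The set of the bad points of the restriction is compact. -/
theorem bad_compact [T2Space M] [CompactSpace M]
    (ι : X → M) (hι : Injective ι) (hιr : range ι = (𝓡∂ (m + 1)).interior M)
    (hιd : ∀ x, IsLocalDiffeomorphAt (𝓡 (m + 1)) (𝓡∂ (m + 1)) ∞ ι x)
    (κ : Y → N) (hκ : Injective κ)
    (hκd : ∀ x, IsLocalDiffeomorphAt (𝓡 (m + 1)) (𝓡∂ (m + 1)) ∞ κ x)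
    (f : M → N) (F : X → Y) (hF : ∀ x, κ (F x) = f (ι x))
    (hb : ∀ x ∉ (𝓡∂ (m + 1)).interior M,
      IsLocalDiffeomorphAt (𝓡∂ (m + 1)) (𝓡∂ (m + 1)) ∞ f x) :
    IsCompact {x | ¬ LD (m + 1) F x} := by
  have hιc : Continuous ι := continuous_iff_continuousAt.2 fun x => (hιd x).contMDiffAt.continuousAt
  have hιo : IsOpenMap ι := IsLocalDiffeomorph.isOpenMap (I := 𝓡 (m + 1)) (J := 𝓡∂ (m + 1))
    (n := ∞) hιd
  have hemb : IsOpenEmbedding ι := IsOpenEmbedding.of_continuous_injective_isOpenMap hιc hι hιo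
  rw [hemb.isInducing.isCompact_iff]
  refine IsClosed.isCompact ?_
  rw [← isOpen_compl_iff, isOpen_iff_mem_nhds]
  intro x₀ hx₀
  by_cases hi : x₀ ∈ (𝓡∂ (m + 1)).interior M
  · rw [← hιr] at hi
    obtain ⟨x, rfl⟩ := hi
    have h1 : LD (m + 1) F x := by
      by_contra h1
      exact hx₀ ⟨x, h1, rfl⟩
    refine mem_of_superset (hιo.image_mem_nhds h1.eventually) ?_
    rintro _ ⟨y, hy, rfl⟩ ⟨y', hy', hyy⟩
    rw [hι hyy] at hy'
    exact hy' hy
  · filter_upwards [ld_eventually (hb x₀ hi)] with y hy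
    rintro ⟨x, hx, rfl⟩
    exact hx (ld_restr ι hιd κ hκ hκd f F hF hy)

/-- A modification of the restriction to the interior on a compact set which is a bijective local
diffeomorphism gives a diffeomorphism. -/
theorem glueB [T2Space M]
    (ι : X → M) (hι : Injective ι) (hιr : range ι = (𝓡∂ (m + 1)).interior M)
    (hιd : ∀ x, IsLocalDiffeomorphAt (𝓡 (m + 1)) (𝓡∂ (m + 1)) ∞ ι x)
    (κ : Y → N) (hκ : Injective κ) (hκr : range κ = (𝓡∂ (m + 1)).interior N)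
    (hκd : ∀ x, IsLocalDiffeomorphAt (𝓡 (m + 1)) (𝓡∂ (m + 1)) ∞ κ x)
    (f : M ≃ₜ N) (hf : ∀ x, x ∈ (𝓡∂ (m + 1)).interior M ↔ f x ∈ (𝓡∂ (m + 1)).interior N)
    (hb : ∀ x ∉ (𝓡∂ (m + 1)).interior M,
      IsLocalDiffeomorphAt (𝓡∂ (m + 1)) (𝓡∂ (m + 1)) ∞ f x)
    (F' : X → Y) (C : Set X) (hC : IsCompact C) (hF'b : Bijective F')
    (hF'C : ∀ x ∉ C, κ (F' x) = f (ι x)) (hF'd : ∀ x, LD (m + 1) F' x) :
    Nonempty (Diffeomorph (𝓡∂ (m + 1)) (𝓡∂ (m + 1)) M N ∞) := by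
  classical
  have hιc : Continuous ι := continuous_iff_continuousAt.2 fun x => (hιd x).contMDiffAt.continuousAt
  obtain ⟨G, hG1, hG2⟩ : ∃ G : M → N, (∀ x, G (ι x) = κ (F' x)) ∧ ∀ y, y ∉ range ι → G y = f y := by
    refine ⟨fun y => if hy : ∃ x, ι x = y then κ (F' hy.choose) else f y, ?_, ?_⟩
    · intro x
      have hx : ∃ x', ι x' = ι x := ⟨x, rfl⟩
      simp only [dif_pos hx]
      rw [hι hx.choose_spec]
    · intro y hy
      have : ¬ ∃ x, ι x = y := hy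
      simp only [dif_neg this]
  have hbn : ∀ y, y ∉ range ι → f y ∉ range κ := by
    intro y hy h1
    rw [hκr, ← hf, ← hιr] at h1
    exact hy h1
  have hGi : Injective G := by
    intro a b hab
    by_cases ha : a ∈ range ι
    · by_cases hb' : b ∈ range ι
      · obtain ⟨x, rfl⟩ := ha
        obtain ⟨y, rfl⟩ := hb'
        rw [hG1, hG1] at hab
        rw [hF'b.1 (hκ hab)]
      · exfalso
        obtain ⟨x, rfl⟩ := ha
        rw [hG1, hG2 b hb'] at hab
        exact hbn b hb' (hab ▸ mem_range_self _)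
    · by_cases hb' : b ∈ range ι
      · exfalso
        obtain ⟨x, rfl⟩ := hb'
        rw [hG1, hG2 a ha] at hab
        exact hbn a ha (hab.symm ▸ mem_range_self _)
      · rw [hG2 a ha, hG2 b hb'] at hab
        exact f.injective hab
  have hGs : Surjective G := by
    intro y
    by_cases hy : y ∈ range κ
    · obtain ⟨y', rfl⟩ := hy
      obtain ⟨x, rfl⟩ := hF'b.2 y'
      exact ⟨ι x, hG1 x⟩
    · refine ⟨f.symm y, ?_⟩
      rw [hG2, f.apply_symm_apply]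
      intro h1
      rw [hιr, hf, f.apply_symm_apply, ← hκr] at h1
      exact hy h1
  have hloc : IsLocalDiffeomorph (𝓡∂ (m + 1)) (𝓡∂ (m + 1)) ∞ G := by
    intro y
    by_cases hy : y ∈ range ι
    · obtain ⟨x, rfl⟩ := hy
      exact ld_of_restr ι hι hιd κ hκd G F' (fun x => (hG1 x).symm) (hF'd x)
    · have hyi : y ∉ (𝓡∂ (m + 1)).interior M := by rwa [← hιr]
      refine ld_congr (hb y hyi) ?_
      have h1 : IsClosed (ι '' C) := (hC.image hιc).isClosed
      have h2 : y ∉ ι '' C := fun h2 => hy (image_subset_range _ _ h2)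
      filter_upwards [h1.isOpen_compl.mem_nhds h2] with y' hy'
      by_cases g1 : y' ∈ range ι
      · obtain ⟨x', rfl⟩ := g1
        have g2 : x' ∉ C := fun g2 => hy' ⟨x', g2, rfl⟩
        rw [hG1, hF'C x' g2]
      · rw [hG2 y' g1]
  exact ⟨hloc.diffeomorphOfBijective ⟨hGi, hGs⟩⟩

end

section rank

variable {m : ℕ} {M N X Y : Type} [TopologicalSpace M] [TopologicalSpace N]
    [TopologicalSpace X] [TopologicalSpace Y]
    [ChartedSpace (EuclideanHalfSpace (m + 1)) M] [ChartedSpace (EuclideanHalfSpace (m + 1)) N]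
    [ChartedSpace (E (m + 1)) X] [ChartedSpace (E (m + 1)) Y]

/-- the restriction is smooth where the map is -/
theorem smooth_restr (ι : X → M)
    (hιd : ∀ x, IsLocalDiffeomorphAt (𝓡 (m + 1)) (𝓡∂ (m + 1)) ∞ ι x)
    (κ : Y → N) (hκ : Injective κ)
    (hκd : ∀ x, IsLocalDiffeomorphAt (𝓡 (m + 1)) (𝓡∂ (m + 1)) ∞ κ x)
    (f : M → N) (F : X → Y) (hF : ∀ x, κ (F x) = f (ι x)) {x : X}
    (h : ContMDiffAt (𝓡∂ (m + 1)) (𝓡∂ (m + 1)) ∞ f (ι x)) :
    ContMDiffAt (𝓡 (m + 1)) (𝓡 (m + 1)) ∞ F x := by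
  have h1 : ContMDiffAt (𝓡 (m + 1)) (𝓡∂ (m + 1)) ∞ (f ∘ ι) x :=
    ContMDiffAt.comp x h (hιd x).contMDiffAt
  have h3 := (hκd (F x)).localInverse_contMDiffAt
  have h4 : κ (F x) = (f ∘ ι) x := hF x
  rw [h4] at h3
  have h5 : ContMDiffAt (𝓡 (m + 1)) (𝓡 (m + 1)) ∞ ((hκd (F x)).localInverse ∘ (f ∘ ι)) x :=
    ContMDiffAt.comp x h3 h1
  refine h5.congr_of_eventuallyEq ?_
  have hco : ContinuousAt (f ∘ ι) x := h1.continuousAt
  have h6 : (f ∘ ι) x ∈ (hκd (F x)).localInverse.source := by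
    rw [← h4]
    exact (hκd (F x)).localInverse_mem_source
  filter_upwards [hco ((hκd (F x)).localInverse.open_source.mem_nhds h6)] with y hy
  have h7 := (hκd (F x)).localInverse_right_inv hy
  apply hκ
  rw [hF]
  exact h7.symm

/-- the rank of the restriction -/
theorem rank_restr [IsManifold (𝓡∂ (m + 1)) ∞ M] [IsManifold (𝓡∂ (m + 1)) ∞ N]
    [IsManifold (𝓡 (m + 1)) ∞ X] [IsManifold (𝓡 (m + 1)) ∞ Y] (ι : X → M)
    (hιd : ∀ x, IsLocalDiffeomorphAt (𝓡 (m + 1)) (𝓡∂ (m + 1)) ∞ ι x)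
    (κ : Y → N) (hκ : Injective κ)
    (hκd : ∀ x, IsLocalDiffeomorphAt (𝓡 (m + 1)) (𝓡∂ (m + 1)) ∞ κ x)
    (f : M → N) (F : X → Y) (hF : ∀ x, κ (F x) = f (ι x)) {x : X}
    (h : ContMDiffAt (𝓡∂ (m + 1)) (𝓡∂ (m + 1)) ∞ f (ι x)) :
    Module.finrank ℝ (LinearMap.range
      (mfderiv (𝓡 (m + 1)) (𝓡 (m + 1)) F x).toLinearMap) =
    Module.finrank ℝ (LinearMap.range
      (mfderiv (𝓡∂ (m + 1)) (𝓡∂ (m + 1)) f (ι x)).toLinearMap) := by
  have hFs := smooth_restr ι hιd κ hκ hκd f F hF h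
  let Df : E (m + 1) →L[ℝ] E (m + 1) := mfderiv (𝓡∂ (m + 1)) (𝓡∂ (m + 1)) f (ι x)
  let DF : E (m + 1) →L[ℝ] E (m + 1) := mfderiv (𝓡 (m + 1)) (𝓡 (m + 1)) F x
  let Di : E (m + 1) →L[ℝ] E (m + 1) := mfderiv (𝓡 (m + 1)) (𝓡∂ (m + 1)) ι x
  let Dk : E (m + 1) →L[ℝ] E (m + 1) := mfderiv (𝓡 (m + 1)) (𝓡∂ (m + 1)) κ (F x)
  have hn : (∞ : WithTop ℕ∞) ≠ 0 := by simp
  have hDi : Bijective Di := by
    have h1 := (hιd x).mfderivToContinuousLinearEquiv_coe hn
    change Bijective (mfderiv (𝓡 (m + 1)) (𝓡∂ (m + 1)) ι x)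
    rw [← h1]
    exact ((hιd x).mfderivToContinuousLinearEquiv hn).bijective
  have hDk : Bijective Dk := by
    have h1 := (hκd (F x)).mfderivToContinuousLinearEquiv_coe hn
    change Bijective (mfderiv (𝓡 (m + 1)) (𝓡∂ (m + 1)) κ (F x))
    rw [← h1]
    exact ((hκd (F x)).mfderivToContinuousLinearEquiv hn).bijective
  have c1 : HasMFDerivAt (𝓡 (m + 1)) (𝓡∂ (m + 1)) (f ∘ ι) x (Df ∘L Di) :=
    HasMFDerivAt.comp x (h.mdifferentiableAt hn).hasMFDerivAt
      ((hιd x).contMDiffAt.mdifferentiableAt hn).hasMFDerivAt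
  have c2 : HasMFDerivAt (𝓡 (m + 1)) (𝓡∂ (m + 1)) (κ ∘ F) x (Dk ∘L DF) :=
    HasMFDerivAt.comp x ((hκd (F x)).contMDiffAt.mdifferentiableAt hn).hasMFDerivAt
      (hFs.mdifferentiableAt hn).hasMFDerivAt
  have e1 : κ ∘ F = f ∘ ι := funext hF
  rw [e1] at c2
  have e2 : Dk ∘L DF = Df ∘L Di := hasMFDerivAt_unique c2 c1
  change Module.finrank ℝ (LinearMap.range DF.toLinearMap) =
    Module.finrank ℝ (LinearMap.range Df.toLinearMap)
  have e3 : LinearMap.range (Dk.toLinearMap ∘ₗ DF.toLinearMap) =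
      LinearMap.range (Df.toLinearMap ∘ₗ Di.toLinearMap) := by
    have := congrArg (fun L : E (m + 1) →L[ℝ] E (m + 1) => LinearMap.range L.toLinearMap) e2
    exact this
  rw [LinearMap.range_comp, LinearMap.range_comp_of_range_eq_top _
    (LinearMap.range_eq_top.2 hDi.2)] at e3
  rw [← e3]
  exact LinearEquiv.finrank_eq (Submodule.equivMapOfInjective Dk.toLinearMap hDk.1 _)

end rank

end Pool.Agent.R765
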