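import Pool.Agent.R765.CAll
import Pool.Agent.R765.GlueB

/-!
# Cone monotone homeomorphisms between manifolds with boundary, and between closed manifolds
-/

set_option autoImplicit false

open Set Filter Topology Metric Function
open scoped Manifold ContDiff

noncomputable section

namespace Pool.Agent.R765

open Pool.Agent.Y522 Pool.Agent.Y833.SH Pool.Agent.Y674.SH Pool.Agent.Y66.CM

/-- `f` is cone monotone at the interior point `x` of a manifold with boundary -/
def CMonB (m : ℕ) {M N : Type} [TopologicalSpace M] [TopologicalSpace N]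
    [ChartedSpace (EuclideanHalfSpace (m + 1)) M] [ChartedSpace (EuclideanHalfSpace (m + 1)) N]
    (f : M → N) (x : M) : Prop :=
  ∃ (A : E (m + 1) → M) (B : N → E (m + 1)), A 0 = x ∧
    IsLocalDiffeomorphAt (𝓡 (m + 1)) (𝓡∂ (m + 1)) ∞ A 0 ∧
    IsLocalDiffeomorphAt (𝓡∂ (m + 1)) (𝓡 (m + 1)) ∞ B (f x) ∧
    ∀ v : E (m + 1), v ≠ 0 → ∃ (r : ℝ) (ℓ : E (m + 1) →L[ℝ] ℝ), 0 < r ∧
      ∀ p q : E (m + 1), ‖p‖ ≤ r → ‖q‖ ≤ r → ∀ t : ℝ, 0 < t → ‖q - p - t • v‖ ≤ r * t →
        r * ‖B (f (A q)) - B (f (A p))‖ < ℓ (B (f (A q)) - B (f (A p)))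

/-- Cone monotone homeomorphisms between manifolds with boundary, local diffeomorphisms at the
boundary points. -/
theorem coneMonotoneB (m : ℕ) (M N : Type) [TopologicalSpace M] [TopologicalSpace N]
    [T2Space M] [CompactSpace M]
    [ChartedSpace (EuclideanHalfSpace (m + 1)) M] [ChartedSpace (EuclideanHalfSpace (m + 1)) N]
    [IsManifold (𝓡∂ (m + 1)) ∞ M] [IsManifold (𝓡∂ (m + 1)) ∞ N]
    (f : M ≃ₜ N) (hfi : ∀ x, x ∈ (𝓡∂ (m + 1)).interior M ↔ f x ∈ (𝓡∂ (m + 1)).interior N)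
    (hb : ∀ x ∉ (𝓡∂ (m + 1)).interior M,
      IsLocalDiffeomorphAt (𝓡∂ (m + 1)) (𝓡∂ (m + 1)) ∞ f x)
    (hc : ∀ x ∈ (𝓡∂ (m + 1)).interior M,
      IsLocalDiffeomorphAt (𝓡∂ (m + 1)) (𝓡∂ (m + 1)) ∞ f x ∨ CMonB m f x) :
    Nonempty (Diffeomorph (𝓡∂ (m + 1)) (𝓡∂ (m + 1)) M N ∞) := by
  let := csI (M := M) (𝓡∂ (m + 1))
  have := mfI (M := M) (𝓡∂ (m + 1))
  let := csI (M := N) (𝓡∂ (m + 1))
  have := mfI (M := N) (𝓡∂ (m + 1))
  let X := (𝓡∂ (m + 1)).interior M
  let Y := (𝓡∂ (m + 1)).interior N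
  let ι : X → M := Subtype.val
  let κ : Y → N := Subtype.val
  have hι : Injective ι := Subtype.val_injective
  have hκ : Injective κ := Subtype.val_injective
  have hιr : range ι = (𝓡∂ (m + 1)).interior M := Subtype.range_val
  have hκr : range κ = (𝓡∂ (m + 1)).interior N := Subtype.range_val
  have hιd : ∀ x : X, IsLocalDiffeomorphAt (𝓡 (m + 1)) (𝓡∂ (m + 1)) ∞ ι x :=
    fun x => ldiff_val (𝓡∂ (m + 1)) x
  have hκd : ∀ x : Y, IsLocalDiffeomorphAt (𝓡 (m + 1)) (𝓡∂ (m + 1)) ∞ κ x :=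
    fun x => ldiff_val (𝓡∂ (m + 1)) x
  have hιm : ∀ x : X, ι x ∈ (𝓡∂ (m + 1)).interior M := fun x => x.2
  obtain ⟨F, hF⟩ := exists_restr ι hι hιr hιd κ hκ hκr hκd f hfi
  have hK := bad_compact ι hι hιr hιd κ hκ hκd f F hF hb
  have hX2 : T2Space X := inferInstance
  have hcm : ∀ x, LD (m + 1) F x ∨ CMon (m + 1) F x := by
    intro x
    rcases hc (ι x) (hιm x) with h | ⟨A, B, hA0, hAd, hBd, hm⟩
    · exact Or.inl (ld_restr ι hιd κ hκ hκd f F hF h)
    · right
      have ha := (hιd x).localInverse_isLocalDiffeomorphAt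
      have hax : (hιd x).localInverse (ι x) = x :=
        (hιd x).localInverse_left_inv (hιd x).localInverse_mem_target
      have hA' : LD (m + 1) ((hιd x).localInverse ∘ A) 0 := by
        rw [← hA0] at ha
        exact IsLocalDiffeomorphAt.comp (𝓡 (m + 1)) X hAd ha
      have hev : ∀ᶠ z in 𝓝 (0 : E (m + 1)), ι ((hιd x).localInverse (A z)) = A z := by
        have h1 : A 0 ∈ (hιd x).localInverse.source := by
          rw [hA0]
          exact (hιd x).localInverse_mem_source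
        filter_upwards [hAd.contMDiffAt.continuousAt
          ((hιd x).localInverse.open_source.mem_nhds h1)] with z hz
        exact (hιd x).localInverse_right_inv hz
      obtain ⟨δ, hδ, hδe⟩ := Metric.eventually_nhds_iff_ball.1 hev
      have hB' : LD (m + 1) (B ∘ κ) (F x) := by
        have h2 : IsLocalDiffeomorphAt (𝓡∂ (m + 1)) (𝓡 (m + 1)) ∞ B (κ (F x)) := by
          rw [hF]
          exact hBd
        exact IsLocalDiffeomorphAt.comp (𝓡 (m + 1)) (E (m + 1)) (hκd (F x)) h2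
      refine ⟨B ∘ κ, hB', (hιd x).localInverse ∘ A, ?_, hA', ?_⟩
      · rw [comp_apply, hA0, hax]
      · intro v hv
        obtain ⟨r, ℓ, hr, hℓ⟩ := hm v hv
        refine ⟨min r (δ / 2), ℓ, lt_min hr (by linarith), ?_⟩
        intro p q hp hq t ht hpq
        have e1 : ∀ z : E (m + 1), ‖z‖ ≤ min r (δ / 2) →
            (B ∘ κ) (F (((hιd x).localInverse ∘ A) z)) = B (f (A z)) := by
          intro z hz
          rw [comp_apply, hF, comp_apply, hδe z]
          rw [mem_ball_zero_iff]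
          have := hz.trans (min_le_right _ _)
          linarith
        beta_reduce
        rw [e1 p hp, e1 q hq]
        refine lt_of_le_of_lt (mul_le_mul_of_nonneg_right (min_le_left _ _) (norm_nonneg _)) ?_
        refine hℓ p q (hp.trans (min_le_left _ _)) (hq.trans (min_le_left _ _)) t ht (hpq.trans ?_)
        exact mul_le_mul_of_nonneg_right (min_le_left _ _) ht.le
  obtain ⟨F', C, hC, hb', hd', -, hF'⟩ := coneMonotone (m + 1) X Y F univ hcm hK isOpen_univ
    (fun _ => mem_univ _)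
  refine glueB ι hι hιr hιd κ hκ hκr hκd f hfi hb F' C hC hb' (fun x hx => ?_) hd'
  rw [hF' x hx, hF]

/-- Cone monotone homeomorphisms between closed manifolds are approximated by diffeomorphisms. -/
theorem coneMonotoneClosed (n : ℕ) (X Y : Type) [TopologicalSpace X] [T2Space X] [CompactSpace X]
    [ChartedSpace (E n) X] [IsManifold (𝓡 n) ∞ X] [TopologicalSpace Y]
    [ChartedSpace (E n) Y] [IsManifold (𝓡 n) ∞ Y]
    (f : X ≃ₜ Y) (hx : ∀ x, LD n f x ∨ CMon n f x)
    (O : Set (X × Y)) (hO : IsOpen O) (hfO : ∀ x, (x, f x) ∈ O) :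
    ∃ Φ : Diffeomorph (𝓡 n) (𝓡 n) X Y ∞, ∀ x, (x, Φ x) ∈ O := by
  have hK : IsCompact {x | ¬ LD n f x} := by
    refine IsClosed.isCompact ?_
    rw [← isOpen_compl_iff, isOpen_iff_mem_nhds]
    intro x hx
    have h1 : LD n f x := by
      by_contra h
      exact hx h
    filter_upwards [h1.eventually] with y hy h2
    exact h2 hy
  obtain ⟨F, C, -, hb, hd, hg, -⟩ := coneMonotone n X Y f O hx hK hO hfO
  have hl : IsLocalDiffeomorph (𝓡 n) (𝓡 n) ∞ F := hd
  exact ⟨hl.diffeomorphOfBijective hb, hg⟩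

end Pool.Agent.R765
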