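import Pool.Agent.Y66.CM.Stage
import Pool.Agent.Y73.SH.Glob

/-!
# Cone monotone maps: smoothing near a compact set (proof of `StCPhase`)
-/

set_option autoImplicit false

open Set Filter Topology Metric Function MeasureTheory
open scoped Manifold ContDiff

noncomputable section

namespace Pool.Agent.R765

open Pool.Agent.Y522 Pool.Agent.Y66.CM

theorem cphase (hS : StCStep) : StCPhase := by
  intro n X _ _ _ _ F W K hWo hF hx hK hKW
  classical
  -- the bad points of `K`
  obtain ⟨K₁, hK₁d⟩ : ∃ K₁ : Set X, K₁ = K ∩ {x | ¬ LD n F x} := ⟨_, rfl⟩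
  have hK₁m : ∀ x, x ∈ K₁ ↔ x ∈ K ∧ ¬ LD n F x := fun x => by rw [hK₁d]; rfl
  have hK₁ : IsCompact K₁ := by
    rw [hK₁d]
    refine hK.inter_right ?_
    rw [← isOpen_compl_iff, isOpen_iff_mem_nhds]
    intro x hx'
    have h1 : LD n F x := by
      by_contra h
      exact hx' h
    filter_upwards [h1.eventually] with y hy h2
    exact h2 hy
  have h1 : ∀ x ∈ K₁, ∃ (B : E n → X) (κ : ℝ), 0 < κ ∧ B 0 = x ∧ InjOn B (closedBall 0 2) ∧
      (∀ z ∈ closedBall 0 2, LD n B z) ∧ (∀ z ∈ closedBall 0 2, B z ∈ W) ∧ CBox n F B 2 κ := by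
    intro x hxK
    obtain ⟨h2, h3⟩ := (hK₁m x).1 hxK
    refine cbox_exists hWo (hKW h2) ?_
    rcases hx x (hKW h2) with h4 | h4
    · exact absurd h4 h3
    · exact h4
  choose! B κ hκ hB0 hBi hBd hBW hBm using h1
  have hU : ∀ x (hx : x ∈ K₁), B x '' ball 0 (1 / 2) ∈ 𝓝 x := by
    intro x hx
    have h2 : LD n (B x) 0 := hBd x hx 0 (by simp)
    have h3 := h2.image_mem_nhds (ball_mem_nhds (0 : E n) (by norm_num : (0 : ℝ) < 1 / 2))
    rwa [hB0 x hx] at h3
  obtain ⟨t, ht⟩ := hK₁.elim_nhds_subcover' (fun x _ => B x '' ball 0 (1 / 2)) hU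
  set N := t.card with hN
  set A : Fin N → E n → X := fun j => B ((t.equivFin.symm j).1 : X) with hA
  have hAK : ∀ j : Fin N, ((t.equivFin.symm j).1 : X) ∈ K₁ := fun j =>
    (t.equivFin.symm j).1.2
  obtain ⟨κ₀, hκ0, hκ1⟩ := Pool.Agent.Y73.SH.exists_lower
    (fun j : Fin N => κ ((t.equivFin.symm j).1 : X)) (fun j => hκ _ (hAK j))
  have hAi : ∀ j, InjOn (A j) (closedBall 0 2) := fun j => hBi _ (hAK j)
  have hAd : ∀ j, ∀ z ∈ closedBall (0 : E n) 2, LD n (A j) z := fun j => hBd _ (hAK j)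
  have hAW : ∀ j, ∀ z ∈ closedBall (0 : E n) 2, A j z ∈ W := fun j => hBW _ (hAK j)
  have hcov : ∀ x ∈ K₁, ∃ j z, ‖z‖ ≤ 1 / 2 ∧ A j z = x := by
    intro x hx
    have h2 := ht hx
    rw [mem_iUnion₂] at h2
    obtain ⟨y, hy, z, hz, hzx⟩ := h2
    refine ⟨t.equivFin ⟨y, hy⟩, z, ?_, ?_⟩
    · rw [mem_ball_zero_iff] at hz
      exact hz.le
    · simp only [hA, Equiv.symm_apply_apply]
      exact hzx
  set C : Set X := ⋃ j, A j '' closedBall 0 1 with hCdef
  have hCc : IsCompact C := by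
    apply isCompact_iUnion
    intro j
    apply (isCompact_closedBall _ _).image_of_continuousOn
    intro z hz
    exact (hAd j z (closedBall_subset_closedBall (by norm_num) hz)).continuousAt.continuousWithinAt
  have hCW : C ⊆ W := by
    intro x hxC
    obtain ⟨j, z, hz, rfl⟩ := mem_iUnion.1 hxC
    exact hAW j z (closedBall_subset_closedBall (by norm_num) hz)
  refine ⟨C, hCc, hCW, fun e he => ?_⟩
  obtain ⟨e', he', hNe⟩ : ∃ e' : ℝ, 0 < e' ∧ N * e' ≤ e := by
    refine ⟨e / (N + 1), by positivity, ?_⟩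
    rw [mul_div_assoc', div_le_iff₀ (by positivity)]
    nlinarith
  -- the induction
  have key : ∀ i : ℕ, i ≤ N → ∃ F' : X → E n, ContinuousOn F' W ∧ (∀ p, ‖F' p - F p‖ ≤ i * e') ∧
      (∀ p, (∀ j, p ∉ A j '' closedBall 0 1) → F' p = F p) ∧ (∀ p, LD n F p → LD n F' p) ∧
      (∀ j : Fin N, (j : ℕ) < i → ∀ z, ‖z‖ ≤ 1 / 2 → LD n F' (A j z)) ∧
      ∀ j, CBox n F' (A j) (2 - i / (2 * N)) (κ₀ * (1 - i / (2 * N))) := by
    intro i
    induction i with
    | zero =>
      intro _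
      refine ⟨F, hF, fun p => by simp, fun _ _ => rfl, fun _ h => h,
        fun j hj => absurd hj (by omega), fun j => ?_⟩
      refine CBox.mono (hBm _ (hAK j)) (by simp) ?_
      have := hκ1 j
      simpa using this
    | succ i ih =>
      intro hi
      obtain ⟨F', h2, h3, h4, h5, h6, h7⟩ := ih (by omega)
      have hN0 : (0 : ℝ) < N := by exact_mod_cast (by omega : 0 < N)
      have hiN : ((i : ℝ) + 1) ≤ N := by exact_mod_cast hi
      have hi0 : (0 : ℝ) ≤ i := by positivity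
      have e1 : ((i : ℝ) + 1) / (2 * N) ≤ 1 / 2 := by
        rw [div_le_iff₀ (by positivity)]
        linarith
      have e2 : (i : ℝ) / (2 * N) < ((i : ℝ) + 1) / (2 * N) := by
        apply div_lt_div_of_pos_right _ (by positivity)
        linarith
      have e3 : 0 ≤ (i : ℝ) / (2 * N) := by positivity
      obtain ⟨F'', g1, g2, g3, g4, g5, g6⟩ := hS n X F' W N A ⟨i, by omega⟩ (2 - i / (2 * N))
        (2 - ((i : ℝ) + 1) / (2 * N)) (κ₀ * (1 - i / (2 * N)))
        (κ₀ * (1 - ((i : ℝ) + 1) / (2 * N))) e' hWo h2 hAi hAd hAW (by linarith) (by linarith)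
        (by linarith)
        (mul_pos hκ0 (by linarith)) (mul_lt_mul_of_pos_left (by linarith) hκ0) he'
        (h7 ⟨i, by omega⟩).mbox
      refine ⟨F'', g1, ?_, ?_, fun p hp => g4 p (h5 p hp), ?_, ?_⟩
      · intro p
        have e4 : F'' p - F p = (F'' p - F' p) + (F' p - F p) := by abel
        rw [e4]
        push_cast
        calc _ ≤ ‖F'' p - F' p‖ + ‖F' p - F p‖ := norm_add_le _ _
          _ ≤ e' + i * e' := add_le_add (g3 p) (h3 p)
          _ = (i + 1) * e' := by ring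
      · intro p hp
        rw [g2 p (hp _), h4 p hp]
      · intro j hj z hz
        rcases Nat.lt_succ_iff_lt_or_eq.1 hj with h8 | h8
        · exact g4 _ (h6 j h8 z hz)
        · have h9 : j = ⟨i, by omega⟩ := Fin.ext h8
          rw [h9]
          exact g5 z hz
      · intro j u hu
        obtain ⟨c, ℓ, hc, hℓ⟩ := h7 j u hu
        refine ⟨c, ℓ, hc, CDir_of_dir hc.le fun m hm => ?_⟩
        push_cast
        exact g6 j u (ℓ - m) hu (hℓ.dir hm)
  obtain ⟨F', h2, h3, h4, h5, h6, h7⟩ := key N le_rfl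
  have h8 : ∀ p, p ∉ C → F' p = F p := by
    intro p hp
    apply h4
    intro j hj
    exact hp (mem_iUnion.2 ⟨j, hj⟩)
  refine ⟨F', h2, h8, fun p => (h3 p).trans hNe, h5, ?_, ?_⟩
  · intro x hxK
    by_cases hxL : LD n F x
    · exact h5 x hxL
    · obtain ⟨j, z, hz, rfl⟩ := hcov x ((hK₁m x).2 ⟨hxK, hxL⟩)
      exact h6 j j.2 z hz
  · intro x hxW
    by_cases hxC : x ∈ C
    · obtain ⟨j, z, hz, rfl⟩ := mem_iUnion.1 hxC
      rw [mem_closedBall_zero_iff] at hz
      right
      have hN0 : (0 : ℝ) < N := by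
        have : 0 < N := lt_of_le_of_lt (Nat.zero_le _) j.2
        exact_mod_cast this
      have e1 : (N : ℝ) / (2 * N) = 1 / 2 := by
        field_simp
      have h9 := h7 j
      rw [e1] at h9
      have e2 : (2 - 1 / 2 : ℝ) = 3 / 2 := by norm_num
      rw [e2] at h9
      refine CMonE_of_CBox (κ := κ₀ * (1 - 1 / 2)) (by positivity) h9 hz
        (hAd j z (by rw [mem_closedBall_zero_iff]; linarith))
    · have he : F' =ᶠ[𝓝 x] F := by
        filter_upwards [hCc.isClosed.isOpen_compl.mem_nhds hxC] with y hy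
        exact h8 y hy
      rcases hx x hxW with h9 | h9
      · exact Or.inl (LD.congr h9 he)
      · exact Or.inr (CMonE.congr h9 he)

end Pool.Agent.R765
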