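import Pool.Agent.R765.CStageR
import Pool.Agent.R765.CPhase
import Pool.Agent.R765.CStep
import Pool.Agent.Y522.DMono

/-!
# Cone monotone maps with a compact set of bad points are approximated by local diffeomorphisms
-/

set_option autoImplicit false

open Set Filter Topology Metric Function MeasureTheory
open scoped Manifold ContDiff

noncomputable section

namespace Pool.Agent.R765

open Pool.Agent.Y522 Pool.Agent.Y66.CM

theorem cphase' : StCPhase :=
  cphase (cstep Pool.Agent.Y954.SH.mollS (Pool.Agent.Y270.SH.mollP Pool.Agent.Y954.SH.mollS)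
    Pool.Agent.Y977.SH.disp)

theorem callR (n : ℕ) (X Y : Type) [TopologicalSpace X] [T2Space X] [ChartedSpace (E n) X]
    [IsManifold (𝓡 n) ∞ X] [TopologicalSpace Y] [ChartedSpace (E n) Y]
    [IsManifold (𝓡 n) ∞ Y] (f : C(X, Y)) (O : Set (X × Y))
    (hx : ∀ x, LD n f x ∨ CMon n f x) (hB : IsCompact {x | ¬ LD n f x}) (hO : IsOpen O)
    (hfO : ∀ x, (x, f x) ∈ O) :
    ∃ (f' : C(X, Y)) (C : Set X), IsCompact C ∧ HomRel O C f f' ∧ ∀ x, LD n f' x := by
  classical
  have hf : Continuous f := f.continuous
  have hD : ∀ x : X, ∃ D : Set X, IsCompact D ∧ x ∈ interior D ∧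
      D ⊆ f ⁻¹' (chartAt (E n) (f x)).source := by
    intro x
    have : LocallyCompactSpace X := ChartedSpace.locallyCompactSpace (E n) X
    exact exists_compact_subset ((chartAt (E n) (f x)).open_source.preimage hf)
      (mem_chart_source (E n) (f x))
  choose D hDc hDx hDV using hD
  obtain ⟨t, -, ht⟩ := hB.elim_nhds_subcover (fun x => interior (D x))
    (fun x _ => isOpen_interior.mem_nhds (hDx x))
  obtain ⟨O', hO'd⟩ : ∃ O' : Set (X × Y), O' = O ∩ ⋂ x ∈ t, {p : X × Y | p.1 ∉ D x ∨
    p.2 ∈ (chartAt (E n) (f x)).source} := ⟨_, rfl⟩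
  have hO'm : ∀ p : X × Y, p ∈ O' ↔ p ∈ O ∧ ∀ x ∈ t, p.1 ∉ D x ∨
      p.2 ∈ (chartAt (E n) (f x)).source := by
    intro p
    rw [hO'd]
    simp
  have hO'o : IsOpen O' := by
    rw [hO'd]
    refine hO.inter (isOpen_biInter_finset fun x _ => ?_)
    have h1 : IsOpen {p : X × Y | p.1 ∉ D x} :=
      (hDc x).isClosed.isOpen_compl.preimage continuous_fst
    have h2 : IsOpen {p : X × Y | p.2 ∈ (chartAt (E n) (f x)).source} :=
      (chartAt (E n) (f x)).open_source.preimage continuous_snd
    exact h1.union h2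
  have hfO' : ∀ x, (x, f x) ∈ O' := by
    intro x
    rw [hO'm]
    refine ⟨hfO x, fun z _ => ?_⟩
    by_cases hz : x ∈ D z
    · exact Or.inr (hDV z hz)
    · exact Or.inl hz
  have hind : ∀ s : Finset X, s ⊆ t → ∃ (f' : C(X, Y)) (C : Set X), IsCompact C ∧
      (∀ x, LD n f' x ∨ CMon n f' x) ∧ HomRel O' C f f' ∧ (∀ x, LD n f x → LD n f' x) ∧
      ∀ z ∈ s, ∀ x ∈ D z, LD n f' x := by
    intro s
    induction s using Finset.induction_on with
    | empty =>
      intro _
      exact ⟨f, ∅, isCompact_empty, hx, HomRel.refl hfO', fun _ h => h,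
        fun z hz => absurd hz (Finset.notMem_empty z)⟩
    | insert a s ha ih =>
      intro hst
      obtain ⟨f1, C1, hC1, h2, h0, h5, h4⟩ := ih ((Finset.subset_insert a s).trans hst)
      have h3 : ∀ x, (x, f1 x) ∈ O' := fun x => (h0.off x).1
      have hat : a ∈ t := hst (Finset.mem_insert_self a s)
      obtain ⟨f2, C2, hC2, h6, h7, h8, h9⟩ := cstageR cphase' n X Y f1 (D a)
        (chartAt (E n) (f a)).source
        (chartAt (E n) (f a)) O' h2 (hDc a) (chartAt (E n) (f a)).open_source
        (chartAt (E n) (f a)).injOn (fun y hy => LD_chart (f a) y hy)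
        (by
          intro x hxa
          rcases ((hO'm _).1 (h3 x)).2 a hat with h10 | h10
          · exact absurd hxa h10
          · exact h10)
        hO'o h3
      refine ⟨f2, C1 ∪ C2, hC1.union hC2, h6, h0.trans h7, fun x hxl => h8 x (h5 x hxl),
        fun z hz x hxz => ?_⟩
      rcases Finset.mem_insert.1 hz with h10 | h10
      · subst h10
        exact h9 x hxz
      · exact h8 x (h4 z h10 x hxz)
  obtain ⟨f', C, hC, h1, h2, h5, h4⟩ := hind t (Finset.Subset.refl t)
  refine ⟨f', C, hC, h2.mono (fun p hp => ((hO'm p).1 hp).1), fun x => ?_⟩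
  by_cases hxl : LD n f x
  · exact h5 x hxl
  · obtain ⟨z, hz, hxz⟩ := mem_iUnion₂.1 (ht hxl)
    exact h4 z hz x (interior_subset hxz)

/-! ### Bijectivity -/

section bij

open unitInterval

variable {X Y : Type} [TopologicalSpace X] [TopologicalSpace Y] [T2Space Y]

/-- A local homeomorphism of a space into itself which is homotopic to the identity relative to the
complement of a compact set is bijective. -/
theorem bijective_of_homotopic (g : C(Y, Y)) (hl : IsLocalHomeomorph g) (C : Set Y)
    (hC : IsCompact C) (hg : ∀ y, y ∉ C → g y = y) (H : C(I × Y, Y))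
    (h0 : ∀ y, H (0, y) = g y) (h1 : ∀ y, H (1, y) = y) : Bijective g := by
  -- `g` is a closed map
  have hcl : IsClosedMap g := by
    intro S hS
    have hid : ∀ y ∈ closure Cᶜ, g y = y := by
      have h2 : IsClosed {y | g y = y} := isClosed_eq g.continuous continuous_id
      exact fun y hy => closure_minimal (fun z hz => hg z hz) h2 hy
    have h3 : g '' S = g '' (C ∩ S) ∪ (closure Cᶜ ∩ S) := by
      ext y
      constructor
      · rintro ⟨z, hz, rfl⟩
        by_cases hzC : z ∈ C
        · exact Or.inl ⟨z, ⟨hzC, hz⟩, rfl⟩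
        · right
          rw [hg z hzC]
          exact ⟨subset_closure hzC, hz⟩
      · rintro (⟨z, ⟨-, hz⟩, rfl⟩ | ⟨hy, hyS⟩)
        · exact ⟨z, hz, rfl⟩
        · exact ⟨y, hyS, hid y hy⟩
    rw [h3]
    exact ((hC.inter_right hS).image g.continuous).isClosed.union (isClosed_closure.inter hS)
  -- finite fibres
  have hfin : ∀ y ∈ (univ : Set Y), (g ⁻¹' {y}).Finite := by
    intro y _
    have h2 : IsCompact (g ⁻¹' {y}) := by
      refine (hC.union (isCompact_singleton (x := y))).of_isClosed_subset
        (isClosed_singleton.preimage g.continuous) ?_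
      intro z hz
      by_cases hzC : z ∈ C
      · exact Or.inl hzC
      · right
        have h4 : g z = y := hz
        rw [hg z hzC] at h4
        exact h4
    refine h2.finite (.of_openPartialHomeomorph g subset_rfl fun z _ => ?_)
    obtain ⟨φ, hφ, hφg⟩ := hl z
    exact ⟨φ, hφ, hφg.symm⟩
  have hcov : IsCoveringMap g := by
    rw [isCoveringMap_iff_isCoveringMapOn_univ]
    refine hcl.isCoveringMapOn_of_isLocalHomeomorphOn hfin ?_
    rw [preimage_univ]
    exact isLocalHomeomorph_iff_isLocalHomeomorphOn_univ.1 hl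
  let K : C(I × Y, Y) := hcov.liftHomotopy H (ContinuousMap.id Y) h0
  have hK : ∀ p, g (K p) = H p := fun p => congr_fun (hcov.liftHomotopy_lifts H _ h0) p
  have hK0 : ∀ y, K (0, y) = y := fun y => hcov.liftHomotopy_zero H _ h0 y
  let k : Y → Y := fun y => K (1, y)
  have hkc : Continuous k := K.continuous.comp (by fun_prop)
  have hgk : ∀ y, g (k y) = y := fun y => (hK (1, y)).trans (h1 y)
  have hki : Injective k := LeftInverse.injective hgk
  have hkl : IsLocalHomeomorph k := by
    have h2 : (g : Y → Y) ∘ k = id := funext hgk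
    have h3 : IsLocalHomeomorph ((g : Y → Y) ∘ k) := by
      rw [h2]
      exact (Homeomorph.refl Y).isLocalHomeomorph
    exact IsLocalHomeomorph.of_comp h3 hl hkc
  have hko : IsOpen (range k) := hkl.isOpenMap.isOpen_range
  have hkcl : IsClosed (range k) := by
    have h2 : range k = {y | k (g y) = y} := by
      ext y
      constructor
      · rintro ⟨z, rfl⟩
        change k (g (k z)) = k z
        rw [hgk]
      · intro hy
        exact ⟨g y, hy⟩
    rw [h2]
    exact isClosed_eq (hkc.comp g.continuous) continuous_id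
  have hks : Surjective k := by
    intro y
    have h2 : k y ∈ connectedComponent y := by
      have h3 : IsPreconnected ((fun t : I => K (t, y)) '' univ) :=
        isPreconnected_univ.image _ (by fun_prop)
      refine h3.subset_connectedComponent ⟨0, mem_univ _, hK0 y⟩ ⟨1, mem_univ _, rfl⟩
    have h3 : connectedComponent y ⊆ range k :=
      isPreconnected_connectedComponent.subset_isClopen ⟨hkcl, hko⟩ ⟨k y, h2, ⟨y, rfl⟩⟩
    exact h3 mem_connectedComponent
  refine ⟨fun a b hab => ?_, fun y => ⟨k y, hgk y⟩⟩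
  obtain ⟨a', rfl⟩ := hks a
  obtain ⟨b', rfl⟩ := hks b
  rw [hgk, hgk] at hab
  rw [hab]

/-- A local homeomorphism which is homotopic to a homeomorphism relative to the complement of a
compact set is bijective. -/
theorem bijective_of_homRel (f : X ≃ₜ Y) (f' : C(X, Y)) (hl : IsLocalHomeomorph f')
    (O : Set (X × Y)) (C : Set X)
    (hC : IsCompact C) (h : HomRel O C (⟨f, f.continuous⟩ : C(X, Y)) f') : Bijective f' := by
  have hoff := fun x => (h.off x).2
  obtain ⟨H⟩ := h
  let g : C(Y, Y) := f'.comp ⟨f.symm, f.symm.continuous⟩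
  have hgl : IsLocalHomeomorph g := hl.comp f.symm.isLocalHomeomorph
  let H' : C(I × Y, Y) :=
    ⟨fun p => H.toHomotopy (unitInterval.symm p.1, f.symm p.2), by
      refine H.toHomotopy.continuous.comp ?_
      exact (unitInterval.continuous_symm.comp continuous_fst).prodMk
        (f.symm.continuous.comp continuous_snd)⟩
  have hg := bijective_of_homotopic g hgl (f '' C) (hC.image f.continuous)
    (by
      intro y hy
      have h1 : f.symm y ∉ C := fun h1 => hy ⟨f.symm y, h1, f.apply_symm_apply y⟩
      have h2 : f' (f.symm y) = f (f.symm y) := hoff _ h1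
      change f' (f.symm y) = y
      rw [h2, f.apply_symm_apply]) H'
    (by
      intro y
      change H.toHomotopy (unitInterval.symm 0, f.symm y) = f' (f.symm y)
      rw [unitInterval.symm_zero]
      exact H.apply_one _)
    (by
      intro y
      change H.toHomotopy (unitInterval.symm 1, f.symm y) = y
      rw [unitInterval.symm_one]
      have h3 : H.toHomotopy (0, f.symm y) = f (f.symm y) := H.apply_zero _
      rw [h3, f.apply_symm_apply])
  have h4 : (f' : X → Y) = g ∘ f := by
    funext x
    change f' x = f' (f.symm (f x))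
    rw [f.symm_apply_apply]
  rw [h4]
  exact hg.comp f.bijective

end bij

/-- **Cone monotone homeomorphisms** with a compact set of bad points are approximated by
diffeomorphisms which agree with them off a compact set. -/
theorem coneMonotone (n : ℕ) (X Y : Type) [TopologicalSpace X] [T2Space X] [ChartedSpace (E n) X]
    [IsManifold (𝓡 n) ∞ X] [TopologicalSpace Y] [ChartedSpace (E n) Y]
    [IsManifold (𝓡 n) ∞ Y] (f : X ≃ₜ Y) (O : Set (X × Y))
    (hx : ∀ x, LD n f x ∨ CMon n f x) (hB : IsCompact {x | ¬ LD n f x}) (hO : IsOpen O)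
    (hfO : ∀ x, (x, f x) ∈ O) :
    ∃ (f' : X → Y) (C : Set X), IsCompact C ∧ Bijective f' ∧ (∀ x, LD n f' x) ∧
      (∀ x, (x, f' x) ∈ O) ∧ ∀ x, x ∉ C → f' x = f x := by
  obtain ⟨f', C, hC, hH, hL⟩ := callR n X Y ⟨f, f.continuous⟩ O hx hB hO hfO
  have : T2Space Y := f.t2Space
  have hl : IsLocalDiffeomorph (𝓡 n) (𝓡 n) ∞ f' := hL
  refine ⟨f', C, hC, ?_, hL, fun x => (hH.off x).1, fun x hx' => (hH.off x).2 hx'⟩
  exact bijective_of_homRel f f' hl.isLocalHomeomorph O C hC hH

end Pool.Agent.R765
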