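import Pool.Agent.Y66.CM.All

/-!
# One stage of the smoothing of a cone monotone map between manifolds, relative version

Adapted from `Pool.Agent.Y66.CM.cstage`: the source need not be compact, and the homotopy is
relative to the complement of a compact set.
-/

set_option autoImplicit false

open Set Filter Topology Metric Function MeasureTheory
open scoped Manifold ContDiff

noncomputable section

namespace Pool.Agent.R765

open Pool.Agent.Y522 Pool.Agent.Y66.CM

section hom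

variable {X Y : Type} [TopologicalSpace X] [TopologicalSpace Y] {O : Set (X × Y)}

/-- `f` and `f'` are homotopic by a homotopy whose graph stays in `O` and which is constant
outside `C` -/
def HomRel (O : Set (X × Y)) (C : Set X) (f f' : C(X, Y)) : Prop :=
  ContinuousMap.HomotopicWith f f' (fun g => ∀ x, (x, g x) ∈ O ∧ (x ∉ C → g x = f x))

theorem HomRel.refl {C : Set X} {f : C(X, Y)} (h : ∀ x, (x, f x) ∈ O) : HomRel O C f f :=
  ⟨ContinuousMap.HomotopyWith.refl f fun x => ⟨h x, fun _ => rfl⟩⟩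

theorem HomRel.off {C : Set X} {f g : C(X, Y)} (h1 : HomRel O C f g) (x : X) :
    (x, g x) ∈ O ∧ (x ∉ C → g x = f x) := by
  obtain ⟨H1⟩ := h1
  have h2 := H1.prop' 1 x
  have h3 : H1.toHomotopy (1, x) = g x := H1.apply_one x
  change (x, H1.toHomotopy (1, x)) ∈ O ∧ (x ∉ C → H1.toHomotopy (1, x) = f x) at h2
  rwa [h3] at h2

theorem HomRel.trans {C C' : Set X} {f g h : C(X, Y)} (h1 : HomRel O C f g)
    (h2 : HomRel O C' g h) : HomRel O (C ∪ C') f h := by
  have h3 := h1.off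
  obtain ⟨H1⟩ := h1
  obtain ⟨H2⟩ := h2
  have K1 : ContinuousMap.HomotopyWith f g
      (fun k => ∀ x, (x, k x) ∈ O ∧ (x ∉ C ∪ C' → k x = f x)) :=
    { H1.toHomotopy with
      prop' := fun t x => ⟨(H1.prop' t x).1, fun hx => (H1.prop' t x).2 fun hc => hx (Or.inl hc)⟩ }
  have K2 : ContinuousMap.HomotopyWith g h
      (fun k => ∀ x, (x, k x) ∈ O ∧ (x ∉ C ∪ C' → k x = f x)) :=
    { H2.toHomotopy with
      prop' := fun t x => ⟨(H2.prop' t x).1, fun hx =>
        ((H2.prop' t x).2 fun hc => hx (Or.inr hc)).trans ((h3 x).2 fun hc => hx (Or.inl hc))⟩ }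
  exact ⟨K1.trans K2⟩

theorem HomRel.mono {O' : Set (X × Y)} {C : Set X} {f g : C(X, Y)} (h1 : HomRel O C f g)
    (hO : O ⊆ O') : HomRel O' C f g := by
  obtain ⟨H1⟩ := h1
  exact ⟨{ H1.toHomotopy with prop' := fun t x => ⟨hO (H1.prop' t x).1, (H1.prop' t x).2⟩ }⟩

theorem HomRel.of_fun {C : Set X} {f g : C(X, Y)} (H : unitInterval × X → Y) (hc : Continuous H)
    (h0 : ∀ x, H (0, x) = f x) (h1 : ∀ x, H (1, x) = g x) (hO : ∀ s x, (x, H (s, x)) ∈ O)
    (hC : ∀ s x, x ∉ C → H (s, x) = f x) :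
    HomRel O C f g :=
  ⟨{ toFun := H
     continuous_toFun := hc
     map_zero_left := h0
     map_one_left := h1
     prop' := fun t x => ⟨hO t x, hC t x⟩ }⟩

end hom

/-- one stage of the smoothing, relative version -/
theorem cstageR (hP : StCPhase) (n : ℕ) (X Y : Type) [TopologicalSpace X] [T2Space X]
    [ChartedSpace (E n) X]
    [IsManifold (𝓡 n) ∞ X] [TopologicalSpace Y] [ChartedSpace (E n) Y]
    (f₀ : C(X, Y)) (D : Set X) (V : Set Y) (B : Y → E n)
    (O : Set (X × Y)) (hx : ∀ x, LD n f₀ x ∨ CMon n f₀ x) (hD : IsCompact D) (hV : IsOpen V)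
    (hBi : InjOn B V) (hBd : ∀ y ∈ V, LD n B y) (hDV : ∀ x ∈ D, f₀ x ∈ V) (hO : IsOpen O)
    (hfO : ∀ x, (x, f₀ x) ∈ O) :
    ∃ (f' : C(X, Y)) (C : Set X), IsCompact C ∧ (∀ x, LD n f' x ∨ CMon n f' x) ∧
      HomRel O C f₀ f' ∧ (∀ x, LD n f₀ x → LD n f' x) ∧ ∀ x ∈ D, LD n f' x := by
  classical
  rcases isEmpty_or_nonempty Y with hY | hY
  · have hX : IsEmpty X := ⟨fun x => hY.elim (f₀ x)⟩
    exact ⟨f₀, ∅, isCompact_empty, hx, HomRel.refl hfO, fun _ h => h, fun x => hX.elim x⟩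
  obtain ⟨f, hff⟩ : ∃ f : X → Y, f = f₀ := ⟨_, rfl⟩
  have hf : Continuous f := by rw [hff]; exact f₀.continuous
  rw [← hff] at hx hDV hfO
  obtain ⟨W, hWd⟩ : ∃ W : Set X, W = f ⁻¹' V := ⟨_, rfl⟩
  have hmW : ∀ x, x ∈ W ↔ f x ∈ V := fun x => by rw [hWd]; rfl
  have hWo : IsOpen W := by rw [hWd]; exact hV.preimage hf
  obtain ⟨F, hFd⟩ : ∃ F : X → E n, F = fun x => B (f x) := ⟨_, rfl⟩
  have hFx : ∀ x, F x = B (f x) := fun x => by rw [hFd]
  have hFca : ∀ x ∈ W, ContinuousAt F x := by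
    intro x hxW
    rw [hFd]
    exact ContinuousAt.comp (hBd _ ((hmW x).1 hxW)).continuousAt hf.continuousAt
  obtain ⟨β, hβd⟩ : ∃ β : E n → Y, β = invFunOn B V := ⟨_, rfl⟩
  have hβ : ∀ y ∈ V, β (B y) = y := by
    intro y hy
    rw [hβd]
    exact hBi.leftInvOn_invFunOn hy
  have hβL : ∀ y ∈ V, LD n β (B y) := fun y hy => LD.inverse hV hBd hβ hy
  have hU : IsOpen (B '' V) := isOpen_image_of_LD hV hBd
  obtain ⟨C, hC, hCW, hPh⟩ := hP n X F W D hWo
    (fun x hxW => (hFca x hxW).continuousWithinAt)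
    (by
      intro x hxW
      rcases hx x with h1 | ⟨B1, hB1, h1⟩
      · left
        rw [hFd]
        exact LD.comp_fun (hBd _ ((hmW x).1 hxW)) h1
      · right
        rw [hFd]
        exact CMonE.change hf.continuousAt hB1 (hBd _ ((hmW x).1 hxW)) h1)
    hD (fun x hxD => (hmW x).2 (hDV x hxD))
  -- the margin
  have hG : ∀ x ∈ C, ∀ᶠ q : X × E n in 𝓝 (x, F x), q.2 ∈ B '' V ∧ (q.1, β q.2) ∈ O := by
    intro x hxC
    have hxV := (hmW x).1 (hCW hxC)
    have h1 : ∀ᶠ q : X × E n in 𝓝 (x, F x), q.2 ∈ B '' V :=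
      continuousAt_snd.eventually (hU.mem_nhds (by rw [hFx]; exact ⟨f x, hxV, rfl⟩))
    have h2 : ContinuousAt (fun q : X × E n => (q.1, β q.2)) (x, F x) := by
      refine ContinuousAt.prodMk continuousAt_fst ?_
      refine ContinuousAt.comp (g := β) ?_ continuousAt_snd
      change ContinuousAt β (F x)
      rw [hFx]
      exact (hβL _ hxV).continuousAt
    have h3 : (x, β (F x)) ∈ O := by
      rw [hFx, hβ _ hxV]
      exact hfO x
    exact h1.and (h2.eventually (hO.mem_nhds h3))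
  have hmar : ∃ e : ℝ, 0 < e ∧ ∀ x ∈ C, ∀ w : E n, ‖w - F x‖ ≤ e → w ∈ B '' V ∧ (x, β w) ∈ O := by
    refine hC.induction_on (p := fun s => ∃ e : ℝ, 0 < e ∧ ∀ x ∈ s, ∀ w : E n, ‖w - F x‖ ≤ e →
      w ∈ B '' V ∧ (x, β w) ∈ O) ?_ ?_ ?_ ?_
    · exact ⟨1, one_pos, fun x hx => absurd hx (notMem_empty x)⟩
    · rintro s t hst ⟨e, he, h⟩
      exact ⟨e, he, fun x hx => h x (hst hx)⟩
    · rintro s t ⟨e, he, h⟩ ⟨e', he', h'⟩
      refine ⟨min e e', lt_min he he', fun x hx w hw => ?_⟩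
      rcases hx with hx | hx
      · exact h x hx w (hw.trans (min_le_left _ _))
      · exact h' x hx w (hw.trans (min_le_right _ _))
    · intro x hxC
      have h1 := hG x hxC
      rw [nhds_prod_eq] at h1
      obtain ⟨P1, hP1, P2, hP2, hP⟩ := eventually_prod_iff.1 h1
      obtain ⟨e, he, h2⟩ := Metric.eventually_nhds_iff_ball.1 hP2
      have h3 : ∀ᶠ x' in 𝓝 x, P1 x' ∧ F x' ∈ ball (F x) (e / 2) :=
        hP1.and ((hFca x (hCW hxC)).eventually (ball_mem_nhds _ (by linarith)))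
      refine ⟨{x' | P1 x' ∧ F x' ∈ ball (F x) (e / 2)}, mem_nhdsWithin_of_mem_nhds h3, e / 3,
        by linarith, ?_⟩
      rintro x' ⟨h4, h5⟩ w hw
      refine hP h4 (h2 w ?_)
      rw [mem_ball, dist_eq_norm] at h5 ⊢
      have h6 : w - F x = (w - F x') + (F x' - F x) := by abel
      rw [h6]
      refine (norm_add_le _ _).trans_lt ?_
      linarith
  obtain ⟨e, he, hmar⟩ := hmar
  obtain ⟨F', hF'c, hF'C, hF'e, hF'L, hF'D, hF'm⟩ := hPh e he
  obtain ⟨f', hf'd⟩ : ∃ f' : X → Y, f' = fun x => if x ∈ C then β (F' x) else f x := ⟨_, rfl⟩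
  have h'C : ∀ x, x ∉ C → f' x = f x := fun x hx => by rw [hf'd]; exact if_neg hx
  have h'C' : ∀ x, x ∈ C → f' x = β (F' x) := fun x hx => by rw [hf'd]; exact if_pos hx
  have hF'V : ∀ x ∈ W, ∃ y ∈ V, F' x = B y ∧ f' x = y := by
    intro x hxW
    by_cases hxC : x ∈ C
    · obtain ⟨⟨y, hy, hyF⟩, -⟩ := hmar x hxC (F' x) (hF'e x)
      refine ⟨y, hy, hyF.symm, ?_⟩
      rw [h'C' x hxC, ← hyF, hβ y hy]
    · exact ⟨f x, (hmW x).1 hxW, by rw [hF'C x hxC, hFx], h'C x hxC⟩
  have hF'B : ∀ x ∈ W, B (f' x) = F' x := by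
    intro x hxW
    obtain ⟨y, hy, h1, h2⟩ := hF'V x hxW
    rw [h2, h1]
  have hF'β : ∀ x ∈ W, f' x = β (F' x) := by
    intro x hxW
    obtain ⟨y, hy, h1, h2⟩ := hF'V x hxW
    rw [h2, h1, hβ y hy]
  have hf'V : ∀ x ∈ W, f' x ∈ V := by
    intro x hxW
    obtain ⟨y, hy, h1, h2⟩ := hF'V x hxW
    rw [h2]
    exact hy
  have hβF : ∀ x ∈ W, LD n β (F' x) := by
    intro x hxW
    rw [← hF'B x hxW]
    exact hβL _ (hf'V x hxW)
  have hevW : ∀ x ∈ W, f' =ᶠ[𝓝 x] fun y => β (F' y) := by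
    intro x hxW
    filter_upwards [hWo.mem_nhds hxW] with y hy
    exact hF'β y hy
  have hevC : ∀ x, x ∉ C → f' =ᶠ[𝓝 x] f := by
    intro x hxC
    filter_upwards [hC.isClosed.isOpen_compl.mem_nhds hxC] with y hy
    exact h'C y hy
  have hLW : ∀ x ∈ W, LD n F' x → LD n f' x := fun x hxW h =>
    LD.congr (LD.comp_fun (hβF x hxW) h) (hevW x hxW)
  have hnC : ∀ x, x ∉ W → x ∉ C := fun x hxW hxC => hxW (hCW hxC)
  have hmid : ∀ (s : unitInterval) (x : X), ‖(F x + (s : ℝ) • (F' x - F x)) - F x‖ ≤ e := by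
    intro s x
    rw [add_sub_cancel_left, norm_smul, Real.norm_eq_abs, abs_of_nonneg s.2.1]
    calc (s : ℝ) * ‖F' x - F x‖ ≤ 1 * ‖F' x - F x‖ :=
          mul_le_mul_of_nonneg_right s.2.2 (norm_nonneg _)
      _ ≤ e := by rw [one_mul]; exact hF'e x
  obtain ⟨H, hHd⟩ : ∃ H : unitInterval × X → Y, H = fun q =>
      if q.2 ∈ C then β (F q.2 + (q.1 : ℝ) • (F' q.2 - F q.2)) else f q.2 := ⟨_, rfl⟩
  have hHC : ∀ q : unitInterval × X, q.2 ∈ C →
      H q = β (F q.2 + (q.1 : ℝ) • (F' q.2 - F q.2)) := fun q hq => by rw [hHd]; exact if_pos hq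
  have hHn : ∀ q : unitInterval × X, q.2 ∉ C → H q = f q.2 :=
    fun q hq => by rw [hHd]; exact if_neg hq
  have hHW : ∀ q : unitInterval × X, q.2 ∈ W →
      H q = β (F q.2 + (q.1 : ℝ) • (F' q.2 - F q.2)) := by
    intro q hq
    by_cases hqC : q.2 ∈ C
    · exact hHC q hqC
    · rw [hHn q hqC, hF'C q.2 hqC, sub_self, smul_zero, add_zero, hFx, hβ _ ((hmW _).1 hq)]
  have hHV : ∀ q : unitInterval × X, q.2 ∈ W →
      F q.2 + (q.1 : ℝ) • (F' q.2 - F q.2) ∈ B '' V := by
    intro q hq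
    by_cases hqC : q.2 ∈ C
    · exact (hmar q.2 hqC _ (hmid q.1 q.2)).1
    · rw [hF'C q.2 hqC, sub_self, smul_zero, add_zero, hFx]
      exact ⟨f q.2, (hmW _).1 hq, rfl⟩
  have hHc : Continuous H := by
    rw [continuous_iff_continuousAt]
    rintro ⟨s, x⟩
    by_cases hxW : x ∈ W
    · have h1 : H =ᶠ[𝓝 (s, x)] fun q => β (F q.2 + (q.1 : ℝ) • (F' q.2 - F q.2)) := by
        filter_upwards [(hWo.preimage continuous_snd).mem_nhds
          (show (s, x) ∈ Prod.snd ⁻¹' W from hxW)] with q hq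
        exact hHW q hq
      rw [continuousAt_congr h1]
      obtain ⟨y, hy, hyF⟩ := hHV (s, x) hxW
      have h2 : ContinuousAt β (F x + (s : ℝ) • (F' x - F x)) := by
        change B y = F x + (s : ℝ) • (F' x - F x) at hyF
        rw [← hyF]
        exact (hβL y hy).continuousAt
      have h3 : ContinuousAt (fun q : unitInterval × X => F q.2) (s, x) :=
        ContinuousAt.comp (g := F) (hFca x hxW) continuousAt_snd
      have h4 : ContinuousAt (fun q : unitInterval × X => F' q.2) (s, x) :=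
        ContinuousAt.comp (g := F') (hF'c.continuousAt (hWo.mem_nhds hxW)) continuousAt_snd
      have h5 : ContinuousAt (fun q : unitInterval × X => (q.1 : ℝ)) (s, x) :=
        (continuous_subtype_val.comp continuous_fst).continuousAt
      exact ContinuousAt.comp (g := β)
        (f := fun q : unitInterval × X => F q.2 + (q.1 : ℝ) • (F' q.2 - F q.2)) h2
        (h3.add (h5.smul (h4.sub h3)))
    · have h1 : H =ᶠ[𝓝 (s, x)] fun q => f q.2 := by
        filter_upwards [(hC.isClosed.isOpen_compl.preimage continuous_snd).mem_nhds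
          (show (s, x) ∈ Prod.snd ⁻¹' Cᶜ from hnC x hxW)] with q hq
        exact hHn q hq
      rw [continuousAt_congr h1]
      exact (hf.comp continuous_snd).continuousAt
  have hf'c : Continuous f' := by
    rw [continuous_iff_continuousAt]
    intro x
    by_cases hxW : x ∈ W
    · rw [continuousAt_congr (hevW x hxW)]
      exact ContinuousAt.comp (g := β) (hβF x hxW).continuousAt
        (hF'c.continuousAt (hWo.mem_nhds hxW))
    · rw [continuousAt_congr (hevC x (hnC x hxW))]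
      exact hf.continuousAt
  refine ⟨⟨f', hf'c⟩, C, hC, ?_, ?_, ?_, ?_⟩
  · intro x
    change LD n f' x ∨ CMon n f' x
    by_cases hxW : x ∈ W
    · rcases hF'm x hxW with h1 | h1
      · exact Or.inl (hLW x hxW h1)
      · refine Or.inr ⟨B, hBd _ (hf'V x hxW), CMonE.congr h1 ?_⟩
        filter_upwards [hWo.mem_nhds hxW] with y hy
        exact hF'B y hy
    · rcases hx x with h1 | h1
      · exact Or.inl (LD.congr h1 (hevC x (hnC x hxW)))
      · exact Or.inr (CMon.congr h1 (hevC x (hnC x hxW)))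
  · refine HomRel.of_fun H hHc (fun x => ?_) (fun x => ?_) (fun s x => ?_)
      (fun s x hxC => by rw [← hff]; exact hHn (s, x) hxC)
    · rw [← hff]
      by_cases hxC : x ∈ C
      · rw [hHC (0, x) hxC]
        change β (F x + (((0 : unitInterval) : ℝ)) • (F' x - F x)) = f x
        have e0 : ((0 : unitInterval) : ℝ) = 0 := rfl
        rw [e0, zero_smul, add_zero, hFx, hβ _ ((hmW x).1 (hCW hxC))]
      · exact hHn (0, x) hxC
    · change H (1, x) = f' x
      by_cases hxC : x ∈ C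
      · rw [hHC (1, x) hxC, h'C' x hxC]
        change β (F x + (((1 : unitInterval) : ℝ)) • (F' x - F x)) = β (F' x)
        have e1 : ((1 : unitInterval) : ℝ) = 1 := rfl
        rw [e1, one_smul, add_sub_cancel]
      · rw [hHn (1, x) hxC, h'C x hxC]
    · by_cases hxC : x ∈ C
      · rw [hHC (s, x) hxC]
        exact (hmar x hxC _ (hmid s x)).2
      · rw [hHn (s, x) hxC]
        exact hfO x
  · intro x h1
    change LD n f' x
    rw [← hff] at h1
    by_cases hxW : x ∈ W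
    · apply hLW x hxW
      apply hF'L
      rw [hFd]
      exact LD.comp_fun (hBd _ ((hmW x).1 hxW)) h1
    · exact LD.congr h1 (hevC x (hnC x hxW))
  · intro x hxD
    exact hLW x ((hmW x).2 (hDV x hxD)) (hF'D x hxD)

end Pool.Agent.R765
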