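import Pool.Agent.R765.CO

/-!
# Smooth homeomorphisms of corank at most one between closed manifolds
-/

set_option autoImplicit false

open Set Filter Topology Metric Function
open scoped Manifold ContDiff

noncomputable section

namespace Pool.Agent.R765

open Pool.Agent.Y522

/-- Smooth homeomorphisms of corank at most one between closed manifolds are approximated by
diffeomorphisms. -/
theorem corankOneClosed (m : ℕ) (X Y : Type) [TopologicalSpace X] [T2Space X] [CompactSpace X]
    [ChartedSpace (E (m + 1)) X] [IsManifold (𝓡 (m + 1)) ∞ X] [TopologicalSpace Y]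
    [ChartedSpace (E (m + 1)) Y] [IsManifold (𝓡 (m + 1)) ∞ Y]
    (f : X ≃ₜ Y) (hf : ContMDiff (𝓡 (m + 1)) (𝓡 (m + 1)) ∞ f)
    (hrk : ∀ x, m ≤ Module.finrank ℝ
      (LinearMap.range (mfderiv (𝓡 (m + 1)) (𝓡 (m + 1)) f x).toLinearMap))
    (O : Set (X × Y)) (hO : IsOpen O) (hfO : ∀ x, (x, f x) ∈ O) :
    ∃ Φ : Diffeomorph (𝓡 (m + 1)) (𝓡 (m + 1)) X Y ∞, ∀ x, (x, Φ x) ∈ O := by
  have hK : IsCompact {x | ¬ LD (m + 1) f x} := by
    refine IsClosed.isCompact ?_
    rw [← isOpen_compl_iff, isOpen_iff_mem_nhds]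
    intro x hx
    have h1 : LD (m + 1) f x := by
      by_contra h
      exact hx h
    filter_upwards [h1.eventually] with y hy h2
    exact h2 hy
  obtain ⟨F, C, -, hb, hd, hg, -⟩ := corankOne f hf (fun x _ => hrk x) hK O hO hfO
  have hl : IsLocalDiffeomorph (𝓡 (m + 1)) (𝓡 (m + 1)) ∞ F := hd
  exact ⟨hl.diffeomorphOfBijective hb, hg⟩

end Pool.Agent.R765
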