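import Pool.Agent.R765.Mer2
import Pool.Agent.W334.BSD.Ker

/-!
# Gaussian sums of Dirichlet series and their Laplace transforms
-/

set_option autoImplicit false

open MeasureTheory Filter Topology Set Complex

namespace Pool.Agent.R765.Ga

open Pool.Agent.W334.BSD Pool.Agent.R765.Mer

/-- `exp (-l²/(8v)) ≤ (2/l) √(π v)` -/
lemma exp_le_sqrt {l v : ℝ} (hl : 0 < l) (hv : 0 < v) :
    Real.exp (-(l ^ 2 / (8 * v))) ≤ 2 / l * Real.sqrt (Real.pi * v) := by
  have h1 : 0 ≤ 2 / l * Real.sqrt (Real.pi * v) := by positivity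
  refine (sq_le_sq₀ (Real.exp_pos _).le h1).1 ?_
  rw [mul_pow, Real.sq_sqrt (by positivity), ← Real.exp_nat_mul]
  set x : ℝ := l ^ 2 / (4 * v) with hx
  have hx0 : 0 < x := by positivity
  have e1 : ((2 : ℕ) : ℝ) * -(l ^ 2 / (8 * v)) = -x := by
    rw [hx]
    push_cast
    field_simp
    ring
  rw [e1]
  have h2 : x ≤ Real.exp x := by linarith [Real.add_one_le_exp x]
  have h3 : Real.exp (-x) ≤ x⁻¹ := by
    rw [Real.exp_neg]
    exact inv_anti₀ hx0 h2
  refine h3.trans ?_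
  have e2 : x⁻¹ = 4 * v / l ^ 2 := by rw [hx, inv_div]
  rw [e2]
  have e3 : (2 / l) ^ 2 * (Real.pi * v) = 4 * v / l ^ 2 * Real.pi := by
    field_simp
    ring
  rw [e3]
  have h4 : 1 ≤ Real.pi := by linarith [Real.pi_gt_three]
  exact le_mul_of_one_le_right (by positivity) h4

/-- the bound for the kernel -/
lemma gker_le {l t v a : ℝ} (hl : 0 < l) (ht : l ≤ t) (hv : 0 < v) :
    gker t v ≤ 2 / l * (Real.exp (-(a * t)) * Real.exp (2 * a ^ 2 * v)) := by
  unfold gker
  have h0 : 0 < Real.sqrt (Real.pi * v) := Real.sqrt_pos.2 (by positivity)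
  rw [div_le_iff₀ h0]
  have h1 : -(t ^ 2 / (4 * v)) ≤ (-(a * t) + 2 * a ^ 2 * v) + -(l ^ 2 / (8 * v)) := by
    have e1 : t ^ 2 / (4 * v) = t ^ 2 / (8 * v) + t ^ 2 / (8 * v) := by
      field_simp
      ring
    have e2 : t ^ 2 / (8 * v) - a * t + 2 * a ^ 2 * v = (t - 4 * a * v) ^ 2 / (8 * v) := by
      field_simp
      ring
    have e3 : 0 ≤ (t - 4 * a * v) ^ 2 / (8 * v) := by positivity
    have e4 : l ^ 2 / (8 * v) ≤ t ^ 2 / (8 * v) := by gcongr
    linarith
  calc Real.exp (-(t ^ 2 / (4 * v))) ≤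
        Real.exp ((-(a * t) + 2 * a ^ 2 * v) + -(l ^ 2 / (8 * v))) := Real.exp_le_exp.2 h1
    _ = Real.exp (-(a * t)) * Real.exp (2 * a ^ 2 * v) * Real.exp (-(l ^ 2 / (8 * v))) := by
        rw [Real.exp_add, Real.exp_add]
    _ ≤ Real.exp (-(a * t)) * Real.exp (2 * a ^ 2 * v) * (2 / l * Real.sqrt (Real.pi * v)) :=
        mul_le_mul_of_nonneg_left (exp_le_sqrt hl hv) (by positivity)
    _ = _ := by ring

lemma gker_nonpos {t v : ℝ} (hv : v ≤ 0) : gker t v = 0 := by
  unfold gker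
  rw [Real.sqrt_eq_zero_of_nonpos (mul_nonpos_of_nonneg_of_nonpos Real.pi_pos.le hv), div_zero]

lemma gker_le' {t v : ℝ} (ht : 0 < t) : |gker t v| ≤ 16 / t ^ 3 * |v| := by
  rcases le_or_gt v 0 with hv | hv
  · rw [gker_nonpos hv, abs_zero]
    positivity
  · rw [abs_of_nonneg (gker_nonneg t v), abs_of_pos hv]
    unfold gker
    have h0 : 0 < Real.sqrt (Real.pi * v) := Real.sqrt_pos.2 (by positivity)
    rw [div_le_iff₀ h0]
    have e1 : -(t ^ 2 / (4 * v)) = -(t ^ 2 / (8 * v)) + -(t ^ 2 / (8 * v)) := by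
      field_simp
      ring
    rw [e1, Real.exp_add]
    have h2 : Real.exp (-(t ^ 2 / (8 * v))) ≤ 8 * v / t ^ 2 := by
      have hx0 : 0 < t ^ 2 / (8 * v) := by positivity
      have hx1 : t ^ 2 / (8 * v) ≤ Real.exp (t ^ 2 / (8 * v)) := by
        linarith [Real.add_one_le_exp (t ^ 2 / (8 * v))]
      have hx2 := inv_anti₀ hx0 hx1
      rw [inv_div] at hx2
      rwa [Real.exp_neg]
    calc Real.exp (-(t ^ 2 / (8 * v))) * Real.exp (-(t ^ 2 / (8 * v))) ≤
          8 * v / t ^ 2 * (2 / t * Real.sqrt (Real.pi * v)) :=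
          mul_le_mul h2 (exp_le_sqrt ht hv) (Real.exp_pos _).le (by positivity)
      _ = _ := by
        field_simp
        ring

lemma gker_cont {t : ℝ} (ht : 0 < t) : Continuous (gker t) := by
  rw [continuous_iff_continuousAt]
  intro v
  rcases lt_trichotomy v 0 with hv | rfl | hv
  · have h : (fun _ => (0 : ℝ)) =ᶠ[𝓝 v] gker t := by
      filter_upwards [Iio_mem_nhds hv] with w hw
      exact (gker_nonpos (le_of_lt hw)).symm
    exact (continuousAt_const (y := (0 : ℝ))).congr h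
  · rw [ContinuousAt, gker_nonpos le_rfl]
    refine squeeze_zero_norm (a := fun v : ℝ => 16 / t ^ 3 * |v|) (fun v => gker_le' ht) ?_
    have : Tendsto (fun v : ℝ => 16 / t ^ 3 * |v|) (𝓝 0) (𝓝 (16 / t ^ 3 * |(0 : ℝ)|)) :=
      (continuous_const.mul continuous_abs).tendsto 0
    simpa using this
  · unfold gker
    refine ContinuousAt.div ?_ ?_ ?_
    · refine (Real.continuous_exp.continuousAt).comp ?_
      refine (ContinuousAt.div continuousAt_const (by fun_prop) ?_).neg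
      positivity
    · fun_prop
    · have : 0 < Real.sqrt (Real.pi * v) := Real.sqrt_pos.2 (by positivity)
      exact this.ne'

/-- the data of a Dirichlet series -/
structure DD {ι : Type*} (lam : ι → ℝ) (c : ι → ℂ) (l₀ σ : ℝ) : Prop where
  pos : 0 < l₀
  low : ∀ i, l₀ ≤ lam i
  sum : ∀ a : ℝ, σ < a → Summable fun i => ‖c i‖ * Real.exp (-(a * lam i))

variable {ι : Type*} {lam : ι → ℝ} {c : ι → ℂ} {l₀ σ : ℝ}

/-- the Dirichlet series -/
noncomputable def ser (lam : ι → ℝ) (c : ι → ℂ) (z : ℂ) : ℂ := ∑' i, c i * exp (-(z * lam i))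

/-- the Gaussian sum -/
noncomputable def kG (lam : ι → ℝ) (c : ι → ℂ) (T : ℝ) : ℂ := ∑' i, c i * (gker (lam i) T : ℂ)

lemma DD.lam_pos (D : DD lam c l₀ σ) (i : ι) : 0 < lam i := D.pos.trans_le (D.low i)

lemma kG_nonpos {T : ℝ} (hT : T ≤ 0) : kG lam c T = 0 := by
  unfold kG
  simp only [gker_nonpos hT, Complex.ofReal_zero, mul_zero, tsum_zero]

/-- the sum of the absolute values -/
noncomputable def SA (lam : ι → ℝ) (c : ι → ℂ) (a : ℝ) : ℝ :=
  ∑' i, ‖c i‖ * Real.exp (-(a * lam i))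

lemma SA_nonneg (a : ℝ) : 0 ≤ SA lam c a := tsum_nonneg fun i => by positivity

lemma term_le (D : DD lam c l₀ σ) (a T : ℝ) (i : ι) :
    ‖c i * (gker (lam i) T : ℂ)‖ ≤ ‖c i‖ * Real.exp (-(a * lam i)) * (2 / l₀ * Real.exp (2 * a ^ 2 * T)) := by
  rw [norm_mul, Complex.norm_real, Real.norm_of_nonneg (gker_nonneg _ _), mul_assoc]
  refine mul_le_mul_of_nonneg_left ?_ (norm_nonneg _)
  have hl := D.pos
  rcases le_or_gt T 0 with hT | hT
  · rw [gker_nonpos hT]
    positivity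
  · refine (gker_le hl (D.low i) hT (a := a)).trans (le_of_eq ?_)
    ring

lemma kG_norm (D : DD lam c l₀ σ) {a : ℝ} (ha : σ < a) (T : ℝ) :
    ‖kG lam c T‖ ≤ SA lam c a * (2 / l₀) * Real.exp (2 * a ^ 2 * T) := by
  have h1 := (D.sum a ha).mul_right (2 / l₀ * Real.exp (2 * a ^ 2 * T))
  unfold kG
  refine (tsum_of_norm_bounded h1.hasSum (term_le D a T)).trans (le_of_eq ?_)
  rw [tsum_mul_right]
  unfold SA
  ring

lemma kG_cont (D : DD lam c l₀ σ) : Continuous (kG lam c) := by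
  rw [continuous_iff_continuousAt]
  intro T₀
  have h := continuousOn_tsum (f := fun i (T : ℝ) => c i * (gker (lam i) T : ℂ)) (s := Iio (T₀ + 1))
    (u := fun i => ‖c i‖ * Real.exp (-((σ + 1) * lam i)) *
      (2 / l₀ * Real.exp (2 * (σ + 1) ^ 2 * (T₀ + 1))))
    (fun i => (continuous_const.mul (Complex.continuous_ofReal.comp
      (gker_cont (D.lam_pos i)))).continuousOn)
    ((D.sum (σ + 1) (by linarith)).mul_right _) (fun i T hT => ?_)
  · exact h.continuousAt (Iio_mem_nhds (by linarith))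
  · refine (term_le D (σ + 1) T i).trans ?_
    have hl := D.pos
    have h1 : T ≤ T₀ + 1 := le_of_lt hT
    gcongr

lemma csq_of {z : ℂ} (hz : 0 < z.re) : csq (z ^ 2) = z := by
  unfold csq
  have := Complex.sq_cpow_two_inv hz
  rwa [show (1 / 2 : ℂ) = 2⁻¹ by norm_num]

lemma csq_diff {q : ℂ} (hq : 0 < q.re) : DifferentiableAt ℂ csq q := by
  unfold csq
  refine DifferentiableAt.cpow differentiableAt_id (differentiableAt_const _) ?_
  exact Or.inl hq

/-- the Laplace transform of the Gaussian sum -/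
lemma lap_kG [Countable ι] (D : DD lam c l₀ σ) {q : ℂ} (hq : 0 < q.re) (hσ : σ < Real.sqrt q.re) :
    ∫ T : ℝ, exp (-(q * T)) * kG lam c T = ser lam c (csq q) / csq q := by
  have h0 : ∫ T : ℝ, exp (-(q * T)) * kG lam c T =
      ∫ T in Ioi (0 : ℝ), exp (-(q * T)) * kG lam c T := by
    rw [setIntegral_eq_integral_of_forall_compl_eq_zero]
    intro T hT
    rw [kG_nonpos (by simpa using hT), mul_zero]
  rw [h0]
  set f : ι → ℝ → ℂ := fun i T => c i * ((gker (lam i) T : ℂ) * exp (-(q * T))) with hf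
  have e1 : ∀ T : ℝ, exp (-(q * T)) * kG lam c T = ∑' i, f i T := fun T => by
    unfold kG
    rw [← tsum_mul_left]
    refine tsum_congr fun i => ?_
    rw [hf]
    ring
  simp only [e1]
  have hint : ∀ i, IntegrableOn (f i) (Ioi 0) := fun i =>
    (lap_gker (D.lam_pos i) hq).1.const_mul (c i)
  have hn : ∀ i, ∫ T in Ioi (0 : ℝ), ‖f i T‖ =
      ‖c i‖ * Real.exp (-(Real.sqrt q.re * lam i)) / Real.sqrt q.re := fun i => by
    have := (lap_gker_real (D.lam_pos i) hq).2
    rw [mul_div_assoc, ← this, ← integral_const_mul]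
    refine setIntegral_congr_fun measurableSet_Ioi fun T _ => ?_
    rw [hf]
    simp only
    rw [norm_mul, norm_exp_ker]
  have hsum : Summable fun i => ∫ T in Ioi (0 : ℝ), ‖f i T‖ := by
    simp only [hn]
    exact (D.sum _ hσ).div_const _
  rw [← integral_tsum_of_summable_integral_norm hint hsum]
  unfold ser
  rw [← tsum_div_const]
  refine tsum_congr fun i => ?_
  rw [hf]
  simp only
  rw [integral_const_mul, (lap_gker (D.lam_pos i) hq).2, mul_div_assoc]

end Pool.Agent.R765.Ga
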