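import Pool.Agent.R765.Ga1

/-!
# The comparison functions
-/

set_option autoImplicit false

open MeasureTheory Filter Topology Set Complex

namespace Pool.Agent.R765.Ga

open Pool.Agent.W334.BSD Pool.Agent.R765.Mer

/-- `e^{wT} - e^{-T}(1 + (w+1)T)` -/
noncomputable def Ew (w : ℂ) (T : ℝ) : ℂ :=
  exp (w * (max T 0 : ℝ)) - exp (-((max T 0 : ℝ) : ℂ)) * (1 + (w + 1) * (max T 0 : ℝ))

lemma Ew_cont (w : ℂ) : Continuous (Ew w) := by
  unfold Ew
  have h : Continuous fun T : ℝ => ((max T 0 : ℝ) : ℂ) :=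
    Complex.continuous_ofReal.comp (by fun_prop)
  fun_prop

lemma Ew_pos (w : ℂ) {T : ℝ} (hT : 0 ≤ T) :
    Ew w T = exp (w * T) - exp (-(T : ℂ)) * (1 + (w + 1) * T) := by
  unfold Ew
  rw [max_eq_left hT]

lemma Ew_neg (w : ℂ) {T : ℝ} (hT : T ≤ 0) : Ew w T = 0 := by
  unfold Ew
  rw [max_eq_right hT]
  simp

lemma Ew_sub (w : ℂ) {T : ℝ} (hT : 0 ≤ T) : ‖Ew w T - exp (w * T)‖ ≤ 1 + ‖w + 1‖ := by
  rw [Ew_pos w hT, sub_sub_cancel_left, norm_neg, norm_mul, Complex.norm_exp, Complex.neg_re,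
    Complex.ofReal_re]
  have h1 : Real.exp (-T) ≤ 1 := Real.exp_le_one_iff.2 (by linarith)
  have h2 : Real.exp (-T) * T ≤ 1 := by
    rw [Real.exp_neg, inv_mul_le_iff₀ (Real.exp_pos T), mul_one]
    linarith [Real.add_one_le_exp T]
  have h3 : ‖1 + (w + 1) * (T : ℂ)‖ ≤ 1 + ‖w + 1‖ * T := by
    refine (norm_add_le _ _).trans (le_of_eq ?_)
    rw [norm_one, norm_mul, Complex.norm_real, Real.norm_of_nonneg hT]
  have h4 := norm_nonneg (w + 1)
  calc Real.exp (-T) * ‖1 + (w + 1) * (T : ℂ)‖ ≤ Real.exp (-T) * (1 + ‖w + 1‖ * T) :=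
        mul_le_mul_of_nonneg_left h3 (Real.exp_pos _).le
    _ = Real.exp (-T) + ‖w + 1‖ * (Real.exp (-T) * T) := by ring
    _ ≤ 1 + ‖w + 1‖ * 1 := by gcongr
    _ = _ := by ring

lemma Ew_norm (w : ℂ) {T : ℝ} (hT : 0 ≤ T) : ‖Ew w T‖ ≤ (2 + ‖w + 1‖) * Real.exp (‖w‖ * T) := by
  have h1 := Ew_sub w hT
  have h2 : ‖exp (w * T)‖ ≤ Real.exp (‖w‖ * T) := by
    rw [Complex.norm_exp, Complex.re_mul_ofReal]
    exact Real.exp_le_exp.2 (mul_le_mul_of_nonneg_right (Complex.re_le_norm w) hT)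
  have h3 : 1 ≤ Real.exp (‖w‖ * T) := Real.one_le_exp (by positivity)
  have h4 : ‖Ew w T‖ ≤ ‖Ew w T - exp (w * T)‖ + ‖exp (w * T)‖ := by
    have := norm_add_le (Ew w T - exp (w * T)) (exp (w * T))
    rwa [sub_add_cancel] at this
  have h5 := norm_nonneg (w + 1)
  nlinarith

/-- `∫ e^{-zT} dT = 1/z` -/
lemma lap_one {z : ℂ} (hz : 0 < z.re) :
    IntegrableOn (fun y : ℝ => exp (-(z * y))) (Ioi 0) ∧
      ∫ y in Ioi (0 : ℝ), exp (-(z * y)) = z⁻¹ := by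
  have hz' : (-z).re < 0 := by
    rw [Complex.neg_re]
    linarith
  have h1 := integrableOn_exp_mul_complex_Ioi hz' 0
  have h2 := integral_exp_mul_complex_Ioi hz' 0
  have e : (fun y : ℝ => exp (-z * y)) = fun y : ℝ => exp (-(z * y)) := by
    funext y
    rw [neg_mul]
  rw [e] at h1 h2
  refine ⟨h1, ?_⟩
  rw [h2]
  simp

lemma lap_Ew {w q : ℂ} (hq : ‖w‖ < q.re) :
    Integrable (fun T : ℝ => exp (-(q * T)) * Ew w T) ∧
    ∫ T : ℝ, exp (-(q * T)) * Ew w T = (q - w)⁻¹ - (q + 1)⁻¹ - (w + 1) * ((q + 1) ^ 2)⁻¹ := by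
  have h0 : 0 < q.re := (norm_nonneg w).trans_lt hq
  have h1 : 0 < (q - w).re := by
    rw [Complex.sub_re]
    linarith [Complex.re_le_norm w]
  have h2 : 0 < (q + 1).re := by
    rw [Complex.add_re, Complex.one_re]
    linarith
  obtain ⟨i1, e1⟩ := lap_one h1
  obtain ⟨i2, e2⟩ := lap_one h2
  obtain ⟨i3, e3⟩ := lap_id h2
  have hz : ∀ T : ℝ, T ∉ Ioi (0 : ℝ) → exp (-(q * T)) * Ew w T = 0 := fun T hT => by
    rw [Ew_neg w (by simpa using hT), mul_zero]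
  have he : ∀ T ∈ Ioi (0 : ℝ), exp (-((q - w) * T)) - exp (-((q + 1) * T)) -
      (w + 1) * ((T : ℂ) * exp (-((q + 1) * T))) = exp (-(q * T)) * Ew w T := by
    intro T hT
    have hT' : (0 : ℝ) < T := hT
    rw [Ew_pos w hT'.le]
    have k1 : exp (-((q - w) * T)) = exp (-(q * T)) * exp (w * T) := by
      rw [← Complex.exp_add]
      congr 1
      ring
    have k2 : exp (-((q + 1) * T)) = exp (-(q * T)) * exp (-(T : ℂ)) := by
      rw [← Complex.exp_add]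
      congr 1
      ring
    rw [k1, k2]
    ring
  have i4 : IntegrableOn (fun T : ℝ => exp (-(q * T)) * Ew w T) (Ioi 0) :=
    IntegrableOn.congr_fun ((i1.sub i2).sub (i3.const_mul (w + 1))) he measurableSet_Ioi
  constructor
  · rw [← integrableOn_univ]
    have h5 := (integrable_indicator_iff measurableSet_Ioi).2 i4
    rw [integrableOn_univ]
    refine h5.congr (ae_of_all _ fun T => ?_)
    by_cases hT : T ∈ Ioi (0 : ℝ)
    · rw [indicator_of_mem hT]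
    · rw [indicator_of_notMem hT]
      exact (hz T hT).symm
  · have i5 : IntegrableOn (fun T : ℝ => exp (-((q - w) * T)) - exp (-((q + 1) * T))) (Ioi 0) :=
      i1.sub i2
    have i6 : IntegrableOn (fun T : ℝ => (w + 1) * ((T : ℂ) * exp (-((q + 1) * T)))) (Ioi 0) :=
      i3.const_mul _
    rw [← setIntegral_eq_integral_of_forall_compl_eq_zero hz,
      ← setIntegral_congr_fun measurableSet_Ioi he, integral_sub i5 i6,
      integral_sub i1 i2, integral_const_mul, e1, e2, e3]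

/-- the sum of the comparison functions -/
noncomputable def gS (J : Finset ℂ) (r : ℂ → ℂ) (T : ℝ) : ℂ := ∑ β ∈ J, r β * Ew (β ^ 2) T

/-- its Laplace transform -/
noncomputable def hS (J : Finset ℂ) (r : ℂ → ℂ) (q : ℂ) : ℂ :=
  ∑ β ∈ J, r β * ((q - β ^ 2)⁻¹ - (q + 1)⁻¹ - (β ^ 2 + 1) * ((q + 1) ^ 2)⁻¹)

variable {J : Finset ℂ} {r : ℂ → ℂ}

lemma gS_cont : Continuous (gS J r) := by
  unfold gS
  exact continuous_finsetSum _ fun β _ => continuous_const.mul (Ew_cont _)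

lemma gS_neg {T : ℝ} (hT : T ≤ 0) : gS J r T = 0 := by
  unfold gS
  simp only [Ew_neg _ hT, mul_zero, Finset.sum_const_zero]

/-- a bound for the exponents -/
noncomputable def nJ (J : Finset ℂ) : ℝ := ∑ β ∈ J, ‖β ^ 2‖

lemma nJ_le {β : ℂ} (hβ : β ∈ J) : ‖β ^ 2‖ ≤ nJ J :=
  Finset.single_le_sum (f := fun β : ℂ => ‖β ^ 2‖) (fun β _ => norm_nonneg _) hβ

lemma nJ_nonneg : 0 ≤ nJ J := Finset.sum_nonneg fun β _ => norm_nonneg _

lemma gS_norm : ∃ K : ℝ, ∀ T : ℝ, 0 ≤ T → ‖gS J r T‖ ≤ K * Real.exp (nJ J * T) := by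
  refine ⟨∑ β ∈ J, ‖r β‖ * (2 + ‖β ^ 2 + 1‖), fun T hT => ?_⟩
  unfold gS
  rw [Finset.sum_mul]
  refine (norm_sum_le _ _).trans (Finset.sum_le_sum fun β hβ => ?_)
  rw [norm_mul, mul_assoc]
  refine mul_le_mul_of_nonneg_left ((Ew_norm _ hT).trans ?_) (norm_nonneg _)
  have h1 := nJ_le hβ
  gcongr

lemma gS_sub : ∃ K : ℝ, 0 ≤ K ∧
    ∀ T : ℝ, 0 ≤ T → ‖gS J r T - ∑ β ∈ J, r β * exp (β ^ 2 * T)‖ ≤ K := by
  refine ⟨∑ β ∈ J, ‖r β‖ * (1 + ‖β ^ 2 + 1‖), Finset.sum_nonneg fun β _ => by positivity,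
    fun T hT => ?_⟩
  unfold gS
  rw [← Finset.sum_sub_distrib]
  refine (norm_sum_le _ _).trans (Finset.sum_le_sum fun β hβ => ?_)
  rw [← mul_sub, norm_mul]
  exact mul_le_mul_of_nonneg_left (Ew_sub _ hT) (norm_nonneg _)

lemma lap_gS {q : ℂ} (hq : nJ J < q.re) :
    Integrable (fun T : ℝ => exp (-(q * T)) * gS J r T) ∧
    ∫ T : ℝ, exp (-(q * T)) * gS J r T = hS J r q := by
  have h : ∀ β ∈ J, ‖β ^ 2‖ < q.re := fun β hβ => (nJ_le hβ).trans_lt hq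
  have e : (fun T : ℝ => exp (-(q * T)) * gS J r T) =
      fun T : ℝ => ∑ β ∈ J, r β * (exp (-(q * T)) * Ew (β ^ 2) T) := by
    funext T
    unfold gS
    rw [Finset.mul_sum]
    exact Finset.sum_congr rfl fun β _ => by ring
  rw [e]
  constructor
  · exact integrable_finsetSum _ fun β hβ => (lap_Ew (h β hβ)).1.const_mul _
  · rw [integral_finsetSum _ fun β hβ => (lap_Ew (h β hβ)).1.const_mul _]
    unfold hS
    refine Finset.sum_congr rfl fun β hβ => ?_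
    rw [integral_const_mul, (lap_Ew (h β hβ)).2]

end Pool.Agent.R765.Ga
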