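import Pool.Agent.R765.Ga2

/-!
# Gaussian sums: growth and continuation
-/

set_option autoImplicit false

open MeasureTheory Filter Topology Set Complex

namespace Pool.Agent.R765.Ga

open Pool.Agent.W334.BSD Pool.Agent.R765.Mer

/-- the region `Re z > 0`, `Re z² > c₀` -/
def Rg (c₀ : ℝ) : Set ℂ := {z | 0 < z.re ∧ c₀ < (z ^ 2).re}

lemma sq_re (z : ℂ) : (z ^ 2).re = z.re ^ 2 - z.im ^ 2 := by
  rw [sq, Complex.mul_re]
  ring

lemma Rg_open (c₀ : ℝ) : IsOpen (Rg c₀) :=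
  (isOpen_lt continuous_const Complex.continuous_re).inter
    (isOpen_lt continuous_const (Complex.continuous_re.comp (continuous_pow 2)))

lemma Rg_convex {c₀ : ℝ} (hc₀ : 0 ≤ c₀) : Convex ℝ (Rg c₀) := by
  rintro a ⟨ha1, ha2⟩ b ⟨hb1, hb2⟩ p q hp hq hpq
  rw [sq_re] at ha2 hb2
  have hre : (p • a + q • b).re = p * a.re + q * b.re := by simp
  have him : (p • a + q • b).im = p * a.im + q * b.im := by simp
  have key : c₀ + a.im * b.im < a.re * b.re := by
    refine lt_of_pow_lt_pow_left₀ 2 (by positivity) ?_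
    have h1 : (c₀ + a.im ^ 2) * (c₀ + b.im ^ 2) < a.re ^ 2 * b.re ^ 2 := by
      have e1 : 0 ≤ c₀ + a.im ^ 2 := by positivity
      have e2 : 0 ≤ c₀ + b.im ^ 2 := by positivity
      have e3 : c₀ + a.im ^ 2 < a.re ^ 2 := by linarith
      have e4 : c₀ + b.im ^ 2 < b.re ^ 2 := by linarith
      exact mul_lt_mul'' e3 e4 e1 e2
    have h2 : 0 ≤ c₀ * (a.im - b.im) ^ 2 := by positivity
    nlinarith
  constructor
  · rw [hre]
    rcases hp.eq_or_lt with h | h
    · have : q = 1 := by linarith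
      rw [← h, this]
      linarith
    · have h2 : 0 ≤ q * b.re := by positivity
      have h3 : 0 < p * a.re := by positivity
      linarith
  · rw [sq_re, hre, him]
    have h1 : (p * a.re + q * b.re) ^ 2 - (p * a.im + q * b.im) ^ 2 =
        p ^ 2 * (a.re ^ 2 - a.im ^ 2) + q ^ 2 * (b.re ^ 2 - b.im ^ 2) +
          2 * (p * q) * (a.re * b.re - a.im * b.im) := by ring
    have h2 : c₀ = p ^ 2 * c₀ + q ^ 2 * c₀ + 2 * (p * q) * c₀ := by
      have : (p + q) ^ 2 = 1 := by rw [hpq]; norm_num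
      linear_combination -c₀ * this
    rw [h1]
    have h3 : 0 ≤ 2 * (p * q) := by positivity
    have h4 : 2 * (p * q) * c₀ ≤ 2 * (p * q) * (a.re * b.re - a.im * b.im) :=
      mul_le_mul_of_nonneg_left (by linarith) h3
    rcases hp.eq_or_lt with h | h
    · have h5 : q = 1 := by linarith
      rw [← h, h5] at *
      linarith
    · have h5 : p ^ 2 * c₀ < p ^ 2 * (a.re ^ 2 - a.im ^ 2) := by gcongr
      have h6 : q ^ 2 * c₀ ≤ q ^ 2 * (b.re ^ 2 - b.im ^ 2) := by gcongr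
      linarith

lemma Rg_sq {c₀ : ℝ} {q : ℂ} (hc₀ : 0 ≤ c₀) (hq : c₀ < q.re) : csq q ∈ Rg c₀ :=
  ⟨csq_re_pos (hc₀.trans_lt hq), by rwa [csq_sq]⟩

/-- the real part of the root -/
lemma csq_re_lb {q : ℂ} (hq : 0 < q.re) : Real.sqrt (‖q‖ / 2) ≤ (csq q).re := by
  have h1 := csq_re_pos hq
  rw [Real.sqrt_le_left h1.le]
  have h2 := csq_re_sq (q := q)
  have h3 : ‖q‖ = ‖csq q‖ ^ 2 := by rw [← norm_pow, csq_sq]
  have h4 : ‖csq q‖ ^ 2 = (csq q).re ^ 2 + (csq q).im ^ 2 := by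
    rw [← Complex.normSq_eq_norm_sq, Complex.normSq_apply]
    ring
  nlinarith

variable {ι : Type*} {lam : ι → ℝ} {c : ι → ℂ} {l₀ σ : ℝ}

/-- the series is differentiable -/
lemma ser_diff (D : DD lam c l₀ σ) {z : ℂ} (hz : σ < z.re) : DifferentiableAt ℂ (ser lam c) z := by
  set U : Set ℂ := {w | (σ + z.re) / 2 < w.re} with hU
  have hUo : IsOpen U := isOpen_lt continuous_const Complex.continuous_re
  have h := differentiableOn_tsum_of_summable_norm (F := fun i (w : ℂ) => c i * exp (-(w * lam i)))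
    (D.sum ((σ + z.re) / 2) (by linarith)) (fun i => by fun_prop) hUo (fun i w hw => by
      have hw' : (σ + z.re) / 2 < w.re := hw
      rw [norm_mul, Complex.norm_exp, Complex.neg_re, Complex.re_mul_ofReal]
      have := D.lam_pos i
      gcongr)
  exact h.differentiableAt (hUo.mem_nhds (show (σ + z.re) / 2 < z.re by linarith))

lemma ser_norm (D : DD lam c l₀ σ) {a : ℝ} (ha : σ < a) {z : ℂ} (hz : a ≤ z.re) :
    ‖ser lam c z‖ ≤ SA lam c a * Real.exp (-(l₀ * (z.re - a))) := by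
  unfold ser SA
  have h1 := (D.sum a ha).mul_right (Real.exp (-(l₀ * (z.re - a))))
  rw [← tsum_mul_right]
  refine tsum_of_norm_bounded h1.hasSum fun i => ?_
  rw [norm_mul, Complex.norm_exp, Complex.neg_re, Complex.re_mul_ofReal, mul_assoc, ← Real.exp_add]
  refine mul_le_mul_of_nonneg_left (Real.exp_le_exp.2 ?_) (norm_nonneg _)
  have := D.low i
  nlinarith

/-- global form of the growth condition -/
lemma growth_all {g : ℝ → ℂ} (hg : Continuous g) {a C : ℝ}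
    (h : ∀ᶠ T : ℝ in atTop, ‖g T‖ ≤ C * Real.exp (a * T)) :
    ∃ C' : ℝ, ∀ T : ℝ, 0 ≤ T → ‖g T‖ ≤ C' * Real.exp (a * T) := by
  obtain ⟨T₀, hT₀⟩ := eventually_atTop.1 h
  obtain ⟨M, hM⟩ := (isCompact_Icc (a := (0 : ℝ)) (b := max T₀ 0)).exists_bound_of_continuousOn
    (f := fun T => g T * (Real.exp (-(a * T)) : ℂ))
    (Continuous.continuousOn (by fun_prop))
  refine ⟨max C M, fun T hT => ?_⟩
  have hp := Real.exp_pos (a * T)
  rcases le_total T (max T₀ 0) with h1 | h1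
  · have h2 := hM T ⟨hT, h1⟩
    rw [norm_mul, Complex.norm_real, Real.norm_of_nonneg (Real.exp_pos _).le, Real.exp_neg,
      ← div_eq_mul_inv, div_le_iff₀ hp] at h2
    exact h2.trans (mul_le_mul_of_nonneg_right (le_max_right _ _) hp.le)
  · exact (hT₀ T ((le_max_left _ _).trans h1)).trans
      (mul_le_mul_of_nonneg_right (le_max_left _ _) hp.le)

variable {J : Finset ℂ} {r : ℂ → ℂ}

/-- the correction -/
noncomputable def cJ (J : Finset ℂ) (r : ℂ → ℂ) (z : ℂ) : ℂ :=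
  ∑ β ∈ J, r β * ((z + β)⁻¹ - 2 * z * ((z ^ 2 + 1)⁻¹ + (β ^ 2 + 1) * ((z ^ 2 + 1) ^ 2)⁻¹))

lemma cJ_diff (hJ : ∀ β ∈ J, 0 < β.re) {z : ℂ} (hz : 0 < z.re) (hz2 : 0 < (z ^ 2).re) :
    DifferentiableAt ℂ (cJ J r) z := by
  unfold cJ
  refine DifferentiableAt.fun_sum fun β hβ => ?_
  have h1 : z + β ≠ 0 := fun h => by
    have := congrArg Complex.re h
    rw [Complex.add_re, Complex.zero_re] at this
    linarith [hJ β hβ]
  have h2 : z ^ 2 + 1 ≠ 0 := fun h => by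
    have := congrArg Complex.re h
    rw [Complex.add_re, Complex.zero_re, Complex.one_re] at this
    linarith
  have h3 : (z ^ 2 + 1) ^ 2 ≠ 0 := pow_ne_zero 2 h2
  have d1 : DifferentiableAt ℂ (fun z : ℂ => (z + β)⁻¹) z := by
    refine DifferentiableAt.inv (by fun_prop) h1
  have d2 : DifferentiableAt ℂ (fun z : ℂ => (z ^ 2 + 1)⁻¹) z :=
    DifferentiableAt.inv (by fun_prop) h2
  have d3 : DifferentiableAt ℂ (fun z : ℂ => ((z ^ 2 + 1) ^ 2)⁻¹) z :=
    DifferentiableAt.inv (by fun_prop) h3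
  fun_prop

lemma cJ_eq (hJ : ∀ β ∈ J, 0 < β.re) {z : ℂ} (hz : 0 < z.re) (hzJ : ∀ β ∈ J, z ≠ β) :
    2 * z * hS J r (z ^ 2) = cJ J r z + ∑ β ∈ J, r β / (z - β) := by
  unfold hS cJ
  rw [Finset.mul_sum, ← Finset.sum_add_distrib]
  refine Finset.sum_congr rfl fun β hβ => ?_
  have h1 : z + β ≠ 0 := fun h => by
    have := congrArg Complex.re h
    rw [Complex.add_re, Complex.zero_re] at this
    linarith [hJ β hβ]
  have h2 : z - β ≠ 0 := sub_ne_zero.2 (hzJ β hβ)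
  have h3 : z ^ 2 - β ^ 2 ≠ 0 := by
    have : z ^ 2 - β ^ 2 = (z - β) * (z + β) := by ring
    rw [this]
    exact mul_ne_zero h2 h1
  have e1 : 2 * z * (z ^ 2 - β ^ 2)⁻¹ = (z - β)⁻¹ + (z + β)⁻¹ := by
    have : z ^ 2 - β ^ 2 = (z - β) * (z + β) := by ring
    rw [this]
    field_simp
    ring
  have e2 : 2 * z * (r β * ((z ^ 2 - β ^ 2)⁻¹ - (z ^ 2 + 1)⁻¹ - (β ^ 2 + 1) * ((z ^ 2 + 1) ^ 2)⁻¹)) =
      r β * (2 * z * (z ^ 2 - β ^ 2)⁻¹) -
        r β * (2 * z * ((z ^ 2 + 1)⁻¹ + (β ^ 2 + 1) * ((z ^ 2 + 1) ^ 2)⁻¹)) := by ring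
  rw [e2, e1]
  ring

/-- **growth to continuation** -/
theorem down [Countable ι] (D : DD lam c l₀ σ) {c₀ : ℝ} (hc₀ : 0 ≤ c₀) (hJ : ∀ β ∈ J, 0 < β.re)
    (hg : ∀ ε : ℝ, 0 < ε → ∃ C : ℝ, ∀ᶠ T : ℝ in atTop,
      ‖kG lam c T - 2 * ∑ β ∈ J, r β * exp (β ^ 2 * T)‖ ≤ C * Real.exp ((c₀ + ε) * T)) :
    ∃ G : ℂ → ℂ, (∀ z ∈ Rg c₀, DifferentiableAt ℂ G z) ∧
      ∀ z ∈ Rg c₀, σ < z.re → z ∉ J → ser lam c z = G z + ∑ β ∈ J, r β / (z - β) := by
  set k₂ : ℝ → ℂ := fun T => kG lam c T - 2 * gS J r T with hk₂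
  have hk₂c : Continuous k₂ := (kG_cont D).sub (continuous_const.mul gS_cont)
  have hneg : ∀ T : ℝ, T < 0 → k₂ T = 0 := fun T hT => by
    rw [hk₂]
    simp only
    rw [kG_nonpos hT.le, gS_neg hT.le]
    simp
  have hb : ∀ ε : ℝ, 0 < ε → ∃ C : ℝ, ∀ T : ℝ, ‖k₂ T‖ ≤ C * Real.exp ((c₀ + ε) * T) := by
    intro ε hε
    obtain ⟨C, hC⟩ := hg ε hε
    obtain ⟨K, hK0, hK⟩ := gS_sub (J := J) (r := r)
    obtain ⟨C', hC'⟩ := growth_all hk₂c (a := c₀ + ε) (C := C + 2 * K) (by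
      filter_upwards [hC, eventually_ge_atTop 0] with T h1 h2
      have h3 := hK T h2
      have e1 : k₂ T = (kG lam c T - 2 * ∑ β ∈ J, r β * exp (β ^ 2 * T)) -
          2 * (gS J r T - ∑ β ∈ J, r β * exp (β ^ 2 * T)) := by
        rw [hk₂]
        ring
      have h4 : 1 ≤ Real.exp ((c₀ + ε) * T) := Real.one_le_exp (by positivity)
      rw [e1]
      refine (norm_sub_le _ _).trans ?_
      rw [norm_mul 2, show ‖(2 : ℂ)‖ = 2 by norm_num]
      nlinarith)
    refine ⟨C', fun T => ?_⟩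
    rcases lt_or_ge T 0 with hT | hT
    · rw [hneg T hT, norm_zero]
      have h0 := (norm_nonneg _).trans (hC' 0 le_rfl)
      rw [mul_zero, Real.exp_zero, mul_one] at h0
      positivity
    · exact hC' T hT
  obtain ⟨Φ, hΦ⟩ : ∃ Φ : ℂ → ℂ, Φ = Pool.Agent.H295R2.Lap k₂ := ⟨_, rfl⟩
  have hΦd : ∀ q : ℂ, c₀ < q.re → DifferentiableAt ℂ Φ q := by
    intro q hq
    obtain ⟨C, hC⟩ := hb ((q.re - c₀) / 2) (by linarith)
    have hN : Pool.Agent.H295R2.Nice k₂ C (c₀ + (q.re - c₀) / 2) 0 :=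
      ⟨hk₂c.measurable, hC, hneg⟩
    rw [hΦ]
    exact hN.Lap_differentiableAt (by linarith)
  set a : ℝ := max σ 0 + 1 with ha
  have ha1 : σ < a := by
    have := le_max_left σ 0
    linarith
  have ha0 : 0 < a := by
    have := le_max_right σ 0
    linarith
  set x₁ : ℝ := 2 * a ^ 2 + nJ J with hx₁
  have hnJ := nJ_nonneg (J := J)
  have hx1a : a ^ 2 ≤ x₁ := by nlinarith
  have hkI : ∀ q : ℂ, x₁ < q.re → Integrable fun T : ℝ => exp (-(q * T)) * kG lam c T := by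
    intro q hq
    have hN : Pool.Agent.H295R2.Nice (kG lam c) (SA lam c a * (2 / l₀)) (2 * a ^ 2) 0 :=
      ⟨(kG_cont D).measurable, kG_norm D ha1, fun T hT => kG_nonpos hT.le⟩
    refine (hN.integrable (s := q) (by linarith)).congr (ae_of_all _ fun T => ?_)
    simp only
    ring
  have hlap : ∀ q : ℂ, x₁ < q.re → Φ q = ser lam c (csq q) / csq q - 2 * hS J r q := by
    intro q hq
    have h1 : 0 < q.re := by nlinarith
    have h2 : σ < Real.sqrt q.re := ha1.trans (by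
      rw [Real.lt_sqrt ha0.le]
      linarith)
    obtain ⟨i1, e1⟩ := lap_gS (J := J) (r := r) (q := q) (by nlinarith)
    have e2 := lap_kG D h1 h2
    rw [← e1, ← e2, ← integral_const_mul, ← integral_sub (hkI q hq) (i1.const_mul 2), hΦ]
    unfold Pool.Agent.H295R2.Lap
    refine integral_congr_ae (ae_of_all _ fun T => ?_)
    rw [hk₂]
    simp only
    ring
  set G : ℂ → ℂ := fun z => z * Φ (z ^ 2) + cJ J r z with hG
  have hGd : ∀ z ∈ Rg c₀, DifferentiableAt ℂ G z := by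
    rintro z ⟨hz1, hz2⟩
    have d1 : DifferentiableAt ℂ (fun z : ℂ => Φ (z ^ 2)) z :=
      (hΦd (z ^ 2) hz2).comp z (by fun_prop)
    have d2 := cJ_diff (r := r) hJ hz1 (hc₀.trans_lt hz2)
    rw [hG]
    exact (differentiableAt_id.mul d1).add d2
  refine ⟨G, hGd, ?_⟩
  set W : Set ℂ := Rg c₀ ∩ {z | σ < z.re} with hW
  have hWo : IsOpen W := (Rg_open c₀).inter (isOpen_lt continuous_const Complex.continuous_re)
  have hWc : Convex ℝ W := (Rg_convex hc₀).inter (convex_halfSpace_re_gt σ)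
  classical
  set P : ℂ → ℂ := fun z => ∏ β ∈ J, (z - β) with hP
  set Q : ℂ → ℂ := fun z => ∑ β ∈ J, r β * ∏ β' ∈ J.erase β, (z - β') with hQ
  have hPd : Differentiable ℂ P := by
    rw [hP]
    fun_prop
  have hQd : Differentiable ℂ Q := by
    rw [hQ]
    refine Differentiable.fun_sum fun β _ => ?_
    fun_prop
  have hPQ : ∀ z : ℂ, z ∉ J → P z * ∑ β ∈ J, r β / (z - β) = Q z := by
    intro z hz
    rw [hQ, Finset.mul_sum]
    refine Finset.sum_congr rfl fun β hβ => ?_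
    have h1 : z - β ≠ 0 := sub_ne_zero.2 fun h => hz (h ▸ hβ)
    rw [hP]
    simp only
    rw [← Finset.mul_prod_erase J _ hβ]
    field_simp
  have hPne : ∀ z : ℂ, z ∉ J → P z ≠ 0 := fun z hz =>
    Finset.prod_ne_zero_iff.2 fun β hβ => sub_ne_zero.2 fun h => hz (h ▸ hβ)
  set f₁ : ℂ → ℂ := fun z => P z * (ser lam c z - G z) - Q z with hf₁
  have hf₁d : DifferentiableOn ℂ f₁ W := fun z hz => by
    have d1 := ser_diff D (show σ < z.re from hz.2)
    have d2 := hGd z hz.1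
    exact (((hPd z).mul (d1.sub d2)).sub (hQd z)).differentiableWithinAt
  have hf₁a : AnalyticOnNhd ℂ f₁ W := hf₁d.analyticOnNhd hWo
  -- equality far out
  have hfar : ∀ z ∈ W, x₁ < (z ^ 2).re → f₁ z = 0 := by
    intro z hz hz2
    have hz1 : 0 < z.re := hz.1.1
    have hzJ : z ∉ J := fun h => by
      have h1 := nJ_le h
      have h2 := Complex.re_le_norm (z ^ 2)
      nlinarith
    have h1 := hlap (z ^ 2) hz2
    rw [csq_of hz1] at h1
    have h2 := cJ_eq (r := r) hJ hz1 fun β hβ h => hzJ (h ▸ hβ)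
    have hz0 : z ≠ 0 := fun h => by rw [h] at hz1; simp at hz1
    have h3 : ser lam c z = G z + ∑ β ∈ J, r β / (z - β) := by
      rw [hG]
      simp only
      rw [h1, mul_sub, mul_div_cancel₀ _ hz0]
      linear_combination h2
    rw [hf₁]
    simp only
    rw [h3, add_sub_cancel_left, hPQ z hzJ, sub_self]
  set X : ℝ := 1 + x₁ + |σ| + c₀ with hX
  have hx₁0 : 0 ≤ x₁ := by positivity
  have hσ0 := abs_nonneg σ
  have hσ1 := le_abs_self σ
  have hX1 : 1 ≤ X := by linarith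
  have h1 : ((X : ℂ) ^ 2).re = X ^ 2 := by
    rw [← Complex.ofReal_pow, Complex.ofReal_re]
  have h4 : X ≤ X ^ 2 := by nlinarith
  have hXW : (X : ℂ) ∈ W := by
    refine ⟨⟨?_, ?_⟩, ?_⟩
    · rw [Complex.ofReal_re]
      linarith
    · rw [h1]
      linarith
    · change σ < (X : ℂ).re
      rw [Complex.ofReal_re]
      linarith
  have hXo : {z : ℂ | x₁ < (z ^ 2).re} ∈ 𝓝 (X : ℂ) :=
    (isOpen_lt continuous_const (Complex.continuous_re.comp (continuous_pow 2))).mem_nhds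
      (show x₁ < ((X : ℂ) ^ 2).re by rw [h1]; linarith)
  have hzero := hf₁a.eqOn_zero_of_preconnected_of_eventuallyEq_zero hWc.isPreconnected hXW (by
    filter_upwards [hWo.mem_nhds hXW, hXo] with z k1 k2
    exact hfar z k1 k2)
  intro z hz hzσ hzJ
  have k1 : f₁ z = 0 := hzero ⟨hz, hzσ⟩
  have k2 := hPQ z hzJ
  have k3 := hPne z hzJ
  have k4 : P z * (ser lam c z - G z - ∑ β ∈ J, r β / (z - β)) = 0 := by
    rw [mul_sub, k2]
    exact k1
  have k5 := (mul_eq_zero.1 k4).resolve_left k3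
  linear_combination k5

end Pool.Agent.R765.Ga
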