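import Pool.Agent.R765.Ga3

/-!
# Gaussian sums: continuation to growth
-/

set_option autoImplicit false

open MeasureTheory Filter Topology Set Complex

namespace Pool.Agent.R765.Ga

open Pool.Agent.W334.BSD Pool.Agent.R765.Mer

variable {ι : Type*} {lam : ι → ℝ} {c : ι → ℂ} {l₀ σ : ℝ} {J : Finset ℂ} {r : ℂ → ℂ}

/-- the Laplace transform of the difference -/
lemma lap_diff [Countable ι] (D : DD lam c l₀ σ) {a : ℝ} (ha : σ < a) (ha0 : 0 < a) {q : ℂ}
    (hq : 2 * a ^ 2 + nJ J < q.re) :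
    ∫ T : ℝ, exp (-(q * T)) * (kG lam c T - 2 * gS J r T) =
      ser lam c (csq q) / csq q - 2 * hS J r q := by
  have hnJ := nJ_nonneg (J := J)
  have h1 : 0 < q.re := by nlinarith
  have h2 : σ < Real.sqrt q.re := ha.trans (by
    rw [Real.lt_sqrt ha0.le]
    nlinarith)
  have hN : Pool.Agent.H295R2.Nice (kG lam c) (SA lam c a * (2 / l₀)) (2 * a ^ 2) 0 :=
    ⟨(kG_cont D).measurable, kG_norm D ha, fun T hT => kG_nonpos hT.le⟩
  have hkI : Integrable fun T : ℝ => exp (-(q * T)) * kG lam c T := by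
    refine (hN.integrable (s := q) (by linarith)).congr (ae_of_all _ fun T => ?_)
    simp only
    ring
  obtain ⟨i1, e1⟩ := lap_gS (J := J) (r := r) (q := q) (by nlinarith)
  have e2 := lap_kG D h1 h2
  rw [← e1, ← e2, ← integral_const_mul, ← integral_sub hkI (i1.const_mul 2)]
  refine integral_congr_ae (ae_of_all _ fun T => ?_)
  simp only
  ring

/-- decay of the transforms of the comparison functions -/
lemma hS_norm : ∃ B : ℝ, ∀ q : ℂ, 0 < q.re → nJ J + 1 ≤ ‖q‖ → ‖hS J r q‖ ≤ B * ‖q‖ ^ (-(2 : ℝ)) := by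
  refine ⟨∑ β ∈ J, ‖r β‖ * ‖β ^ 2 + 1‖ ^ 2, fun q hq hn => ?_⟩
  have hnJ := nJ_nonneg (J := J)
  have hq0 : 0 < ‖q‖ := by linarith
  have e0 : ‖q‖ ^ (-(2 : ℝ)) = (‖q‖ ^ 2)⁻¹ := by
    rw [Real.rpow_neg hq0.le]
    norm_cast
  rw [e0]
  unfold hS
  rw [Finset.sum_mul]
  refine (norm_sum_le _ _).trans (Finset.sum_le_sum fun β hβ => ?_)
  have h1 : 1 ≤ ‖q - β ^ 2‖ := by
    have := norm_sub_norm_le q (β ^ 2)
    have := nJ_le hβ
    linarith
  have h2 : ‖q‖ ≤ ‖q + 1‖ := by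
    rw [← sq_le_sq₀ (norm_nonneg _) (norm_nonneg _), ← Complex.normSq_eq_norm_sq,
      ← Complex.normSq_eq_norm_sq, Complex.normSq_apply, Complex.normSq_apply, Complex.add_re,
      Complex.add_im, Complex.one_re, Complex.one_im]
    nlinarith
  have k1 : q - β ^ 2 ≠ 0 := norm_pos_iff.1 (by linarith)
  have k2 : q + 1 ≠ 0 := norm_pos_iff.1 (by linarith)
  have e1 : (q - β ^ 2)⁻¹ - (q + 1)⁻¹ - (β ^ 2 + 1) * ((q + 1) ^ 2)⁻¹ =
      (β ^ 2 + 1) ^ 2 * (q - β ^ 2)⁻¹ * ((q + 1) ^ 2)⁻¹ := by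
    field_simp
    ring
  rw [e1, norm_mul, norm_mul, norm_mul, norm_inv, norm_inv, norm_pow, norm_pow, ← mul_assoc,
    ← mul_assoc]
  have h3 : ‖q - β ^ 2‖⁻¹ ≤ 1 := inv_le_one_of_one_le₀ h1
  have h4 : (‖q + 1‖ ^ 2)⁻¹ ≤ (‖q‖ ^ 2)⁻¹ := by
    apply inv_anti₀ (by positivity)
    gcongr
  calc _ ≤ ‖r β‖ * ‖β ^ 2 + 1‖ ^ 2 * 1 * (‖q‖ ^ 2)⁻¹ := by gcongr
    _ = _ := by ring

/-- **continuation to growth** -/
theorem up [Countable ι] (D : DD lam c l₀ σ) {c₀ : ℝ} (hc₀ : 0 ≤ c₀) (hJ : ∀ β ∈ J, 0 < β.re)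
    {G : ℂ → ℂ} (hG : ∀ z ∈ Rg c₀, DifferentiableAt ℂ G z)
    (hF : ∀ z ∈ Rg c₀, σ < z.re → z ∉ J → ser lam c z = G z + ∑ β ∈ J, r β / (z - β))
    {ε : ℝ} (hε : 0 < ε) :
    ∃ C : ℝ, ∀ T : ℝ, 0 ≤ T →
      ‖kG lam c T - 2 * ∑ β ∈ J, r β * exp (β ^ 2 * T)‖ ≤ C * Real.exp ((c₀ + ε) * T) := by
  set k₂ : ℝ → ℂ := fun T => kG lam c T - 2 * gS J r T with hk₂
  have hk₂c : Continuous k₂ := (kG_cont D).sub (continuous_const.mul gS_cont)
  have hneg : ∀ T : ℝ, T < 0 → k₂ T = 0 := fun T hT => by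
    rw [hk₂]
    simp only
    rw [kG_nonpos hT.le, gS_neg hT.le]
    simp
  set a : ℝ := max σ 0 + 1 with ha
  have ha1 : σ < a := by
    have := le_max_left σ 0
    linarith
  have ha0 : 0 < a := by
    have := le_max_right σ 0
    linarith
  have hnJ := nJ_nonneg (J := J)
  have hl := D.pos
  set x₁ : ℝ := 2 * a ^ 2 + nJ J + c₀ with hx₁
  have hc1 : 0 < c₀ + ε := by linarith
  -- h
  set h : ℂ → ℂ := fun q => (G (csq q) - cJ J r (csq q)) / csq q with hh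
  have hgen : ∀ q : ℂ, c₀ < q.re → σ < (csq q).re → csq q ∉ J →
      h q = ser lam c (csq q) / csq q - 2 * hS J r q := by
    intro q hq h1 h2
    have hq0 : 0 < q.re := hc₀.trans_lt hq
    have h3 := csq_re_pos hq0
    have h4 : csq q ≠ 0 := fun h => by rw [h] at h3; simp at h3
    have h5 := cJ_eq (r := r) hJ h3 fun β hβ h => h2 (h ▸ hβ)
    rw [csq_sq] at h5
    rw [hh]
    simp only
    rw [hF _ (Rg_sq hc₀ hq) h1 h2]
    field_simp
    linear_combination h5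
  have hd : ∀ q : ℂ, c₀ + ε ≤ q.re → DifferentiableAt ℂ h q := by
    intro q hq
    have hq0 : 0 < q.re := by linarith
    have h3 := csq_re_pos hq0
    have h4 : csq q ≠ 0 := fun h => by rw [h] at h3; simp at h3
    have h5 := csq_diff hq0
    have h6 : DifferentiableAt ℂ (fun q => G (csq q)) q :=
      (hG _ (Rg_sq hc₀ (by linarith))).comp q h5
    have h7 : DifferentiableAt ℂ (fun q => cJ J r (csq q)) q :=
      (cJ_diff (r := r) hJ h3 (by rwa [csq_sq])).comp q h5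
    exact (h6.sub h7).div h5 h4
  have hnot : ∀ q : ℂ, nJ J < ‖q‖ → csq q ∉ J := fun q hq h1 => by
    have h2 := nJ_le h1
    rw [csq_sq] at h2
    linarith
  obtain ⟨B₁, hB₁⟩ := hS_norm (J := J) (r := r)
  set x₂ : ℝ := 2 * a ^ 2 + nJ J + 1 with hx₂
  have hB : ∀ q : ℂ, c₀ + ε ≤ q.re → x₂ ≤ ‖q‖ →
      ‖h q‖ ≤ (SA lam c a * Real.exp (l₀ * a) * (96 / l₀ ^ 4) + 2 * B₁) * ‖q‖ ^ (-(2 : ℝ)) := by
    intro q hq hn
    have hq0 : 0 < q.re := by linarith
    have hn0 : 0 < ‖q‖ := by nlinarith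
    have h1 := csq_re_lb hq0
    have h2 : a ≤ Real.sqrt (‖q‖ / 2) := by
      rw [Real.le_sqrt' ha0]
      nlinarith
    have h3 : csq q ∉ J := hnot q (by nlinarith)
    rw [hgen q (by linarith) (by linarith) h3]
    have h4 := ser_norm D ha1 (z := csq q) (by linarith)
    have h5 := hB₁ q hq0 (by nlinarith)
    have e0 : ‖q‖ ^ (-(2 : ℝ)) = (‖q‖ ^ 2)⁻¹ := by
      rw [Real.rpow_neg hn0.le]
      norm_cast
    set y : ℝ := Real.sqrt (‖q‖ / 2) with hy
    have hy0 : 0 < y := by linarith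
    have hy2 : y ^ 2 = ‖q‖ / 2 := Real.sq_sqrt (by positivity)
    have hy4 : y ^ 4 = ‖q‖ ^ 2 / 4 := by
      have : y ^ 4 = (y ^ 2) ^ 2 := by ring
      rw [this, hy2]
      ring
    have h6 : Real.exp (-(l₀ * y)) ≤ 96 / l₀ ^ 4 * (‖q‖ ^ 2)⁻¹ := by
      have k1 := Real.pow_div_factorial_le_exp (l₀ * y) (by positivity) 4
      have k2 : 0 < (l₀ * y) ^ 4 / (Nat.factorial 4 : ℝ) := by positivity
      have k3 := inv_anti₀ k2 k1
      rw [← Real.exp_neg] at k3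
      refine k3.trans (le_of_eq ?_)
      rw [mul_pow, hy4]
      have : ((Nat.factorial 4 : ℕ) : ℝ) = 24 := by norm_num [Nat.factorial]
      rw [this]
      field_simp
      norm_num
    have h7 : Real.exp (-(l₀ * ((csq q).re - a))) ≤ Real.exp (l₀ * a) * Real.exp (-(l₀ * y)) := by
      rw [← Real.exp_add]
      refine Real.exp_le_exp.2 ?_
      nlinarith
    have h8 : 1 ≤ ‖csq q‖ := by
      have k1 : ‖csq q‖ ^ 2 = ‖q‖ := by rw [← norm_pow, csq_sq]
      have k2 : 1 ≤ ‖csq q‖ ^ 2 := by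
        rw [k1]
        nlinarith
      exact (one_le_sq_iff₀ (norm_nonneg _)).1 k2
    have h9 : ‖ser lam c (csq q) / csq q‖ ≤ ‖ser lam c (csq q)‖ := by
      rw [norm_div]
      exact div_le_self (norm_nonneg _) h8
    have h10 := SA_nonneg (lam := lam) (c := c) a
    rw [e0] at h5 ⊢
    calc ‖ser lam c (csq q) / csq q - 2 * hS J r q‖ ≤
          ‖ser lam c (csq q) / csq q‖ + ‖2 * hS J r q‖ := norm_sub_le _ _
      _ ≤ SA lam c a * (Real.exp (l₀ * a) * (96 / l₀ ^ 4 * (‖q‖ ^ 2)⁻¹)) +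
          2 * (B₁ * (‖q‖ ^ 2)⁻¹) := by
        refine add_le_add ?_ ?_
        · refine h9.trans (h4.trans ?_)
          refine mul_le_mul_of_nonneg_left (h7.trans ?_) h10
          exact mul_le_mul_of_nonneg_left h6 (Real.exp_pos _).le
        · rw [norm_mul, show ‖(2 : ℂ)‖ = 2 by norm_num]
          linarith
      _ = _ := by ring
  obtain ⟨K₁, hK₁⟩ := gS_norm (J := J) (r := r)
  have hgK : ∀ T : ℝ, 0 ≤ T →
      ‖k₂ T‖ ≤ (SA lam c a * (2 / l₀) + 2 * |K₁|) * Real.exp (x₁ * T) := by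
    intro T hT
    have k1 := kG_norm D ha1 T
    have k2 := hK₁ T hT
    have k3 : Real.exp (2 * a ^ 2 * T) ≤ Real.exp (x₁ * T) := by
      refine Real.exp_le_exp.2 (mul_le_mul_of_nonneg_right ?_ hT)
      linarith
    have k4 : Real.exp (nJ J * T) ≤ Real.exp (x₁ * T) := by
      refine Real.exp_le_exp.2 (mul_le_mul_of_nonneg_right ?_ hT)
      nlinarith
    have h10 := SA_nonneg (lam := lam) (c := c) a
    rw [hk₂]
    simp only
    refine (norm_sub_le _ _).trans ?_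
    rw [norm_mul, show ‖(2 : ℂ)‖ = 2 by norm_num, add_mul]
    refine add_le_add (k1.trans (mul_le_mul_of_nonneg_left k3 (by positivity))) ?_
    calc 2 * ‖gS J r T‖ ≤ 2 * (K₁ * Real.exp (nJ J * T)) := by linarith
      _ ≤ 2 * (|K₁| * Real.exp (x₁ * T)) := by
        have := le_abs_self K₁
        have := Real.exp_pos (nJ J * T)
        gcongr
      _ = _ := by ring
  have hL : ∀ x : ℝ, x₁ < x → ∀ t : ℝ, ∫ y : ℝ, exp (-((x + t * I) * y)) * k₂ y = h (x + t * I) := by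
    intro x hx t
    have hre : ((x : ℂ) + t * I).re = x := by simp
    have k1 : nJ J < ‖(x : ℂ) + t * I‖ := by
      have := Complex.re_le_norm ((x : ℂ) + t * I)
      rw [hre] at this
      nlinarith
    have k2 : 0 < ((x : ℂ) + t * I).re := by
      rw [hre]
      nlinarith
    have k3 := csq_re_sq (q := (x : ℂ) + t * I)
    have k4 := csq_re_pos k2
    rw [hre] at k3
    have k5 : a < (csq (x + t * I)).re := by
      refine lt_of_pow_lt_pow_left₀ 2 k4.le ?_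
      nlinarith [sq_nonneg (csq (x + t * I)).im]
    rw [hgen _ (by rw [hre]; nlinarith) (by linarith) (hnot _ k1)]
    exact lap_diff D ha1 ha0 (by rw [hre]; linarith)
  obtain ⟨C, hC⟩ := up_abs hk₂c (x₁ := x₁) hneg hgK (by norm_num : (1 : ℝ) < 2) hc1 hd hB hL
  obtain ⟨K, hK0, hK⟩ := gS_sub (J := J) (r := r)
  refine ⟨C + 2 * K, fun T hT => ?_⟩
  have h3 := hK T hT
  have e1 : kG lam c T - 2 * ∑ β ∈ J, r β * exp (β ^ 2 * T) = k₂ T +
      2 * (gS J r T - ∑ β ∈ J, r β * exp (β ^ 2 * T)) := by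
    rw [hk₂]
    ring
  have h4 : 1 ≤ Real.exp ((c₀ + ε) * T) := Real.one_le_exp (by positivity)
  rw [e1]
  refine (norm_add_le _ _).trans ?_
  rw [norm_mul 2, show ‖(2 : ℂ)‖ = 2 by norm_num]
  have h5 := hC T
  nlinarith

end Pool.Agent.R765.Ga
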