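import Pool.Agent.R765.Mer4
import Pool.Agent.TH942.ES.Ext

/-!
# Regions in the sector, and products with given zeros and poles
-/

set_option autoImplicit false

open MeasureTheory Filter Topology Set Complex

namespace Pool.Agent.R765.Mer

open Pool.Agent.TH942.SL

variable {J : Finset ℂ} {m : ℂ → ℤ} {ρ a : ℝ}

/-- the region -/
def Reg (ρ a : ℝ) : Set ℂ := {s | s ∈ Sect ρ ∧ a < (s ^ (ρ : ℂ)).re}

lemma pow_cont (hρ : 1 < ρ) {s : ℂ} (hs : s ∈ Sect ρ) :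
    AnalyticAt ℂ (fun s : ℂ => s ^ (ρ : ℂ)) s := by
  have h := slit (sect_re hρ hs)
  exact AnalyticAt.cpow analyticAt_id analyticAt_const h

lemma reg_open (hρ : 1 < ρ) : IsOpen (Reg ρ a) := by
  have h : ContinuousOn (fun s : ℂ => (s ^ (ρ : ℂ)).re) (Sect ρ) := fun s hs =>
    (Complex.continuous_re.continuousAt.comp
      (pow_cont hρ hs).continuousAt).continuousWithinAt
  exact h.isOpen_inter_preimage (sect_open hρ) isOpen_Ioi

lemma sect_add (hρ : 1 < ρ) {s : ℂ} (hs : s ∈ Sect ρ) {t : ℝ} (ht : 0 ≤ t) :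
    s + t ∈ Sect ρ := by
  rw [sect_iff hρ] at hs ⊢
  obtain ⟨h1, h2⟩ := hs
  have h3 : (s + t).re = s.re + t := by simp
  have h4 : (s + t).im = s.im := by simp
  rw [h3, h4]
  have hpi := Real.pi_pos
  have h5 : 0 < Real.tan (Real.pi / (2 * ρ)) :=
    Real.tan_pos_of_pos_of_lt_pi_div_two (by positivity) (half_lt hρ)
  refine ⟨by linarith, ?_⟩
  have : 0 ≤ Real.tan (Real.pi / (2 * ρ)) * t := by positivity
  rw [mul_add]
  linarith

lemma arg_add {s : ℂ} (hs : 0 < s.re) {t : ℝ} (ht : 0 ≤ t) : |arg (s + t)| ≤ |arg s| := by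
  by_contra hlt
  push Not at hlt
  have hpi := Real.pi_pos
  have h1 : 0 < (s + t).re := by
    rw [Complex.add_re, Complex.ofReal_re]
    linarith
  have h2 : |arg (s + t)| < Real.pi / 2 := Complex.abs_arg_lt_pi_div_two_iff.2 (Or.inl h1)
  have h0 : 0 < |arg (s + t)| := (abs_nonneg _).trans_lt hlt
  set r : ℝ := Real.pi / (2 * |arg (s + t)|) with hr
  have hr1 : 1 < r := by
    rw [hr, lt_div_iff₀ (by positivity)]
    linarith
  have h3 : Real.pi / (2 * r) = |arg (s + t)| := by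
    rw [hr]
    field_simp
  have h4 : s ∈ Sect r := ⟨ne_zero' hs, by rw [h3]; exact hlt⟩
  have h5 := (sect_add hr1 h4 ht).2
  rw [h3] at h5
  exact lt_irrefl _ h5

lemma re_pow_add (hρ : 1 < ρ) {s : ℂ} (hs : s ∈ Sect ρ) {t : ℝ} (ht : 0 ≤ t) :
    (s ^ (ρ : ℂ)).re ≤ ((s + t) ^ (ρ : ℂ)).re := by
  have hρ0 : 0 < ρ := by linarith
  have hpi := Real.pi_pos
  have h1 := sect_re hρ hs
  have h2 := arg_add h1 ht
  have h3 := (sect_add hρ hs ht).2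
  have h4 : ‖s‖ ≤ ‖s + t‖ := norm_add_real h1 ht
  have h6 := hs.2
  have key : Real.pi / (2 * ρ) * ρ = Real.pi / 2 := by field_simp
  have h7 : |arg s| * ρ < Real.pi / 2 := by
    rw [← key]
    exact mul_lt_mul_of_pos_right h6 hρ0
  rw [re_pow, re_pow]
  have e1 : ∀ x : ℝ, Real.cos (x * ρ) = Real.cos (|x| * ρ) := fun x => by
    rw [← Real.cos_abs, abs_mul, abs_of_pos hρ0]
  rw [e1 (arg s), e1 (arg (s + t))]
  have h8 : Real.cos (|arg s| * ρ) ≤ Real.cos (|arg (s + t)| * ρ) := by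
    refine Real.cos_le_cos_of_nonneg_of_le_pi (by positivity) (by linarith) ?_
    exact mul_le_mul_of_nonneg_right h2 hρ0.le
  have h9 : 0 ≤ Real.cos (|arg s| * ρ) := by
    refine Real.cos_nonneg_of_mem_Icc ⟨?_, h7.le⟩
    have : 0 ≤ |arg s| * ρ := by positivity
    linarith
  exact mul_le_mul (Real.rpow_le_rpow (norm_nonneg _) h4 hρ0.le) h8 h9 (by positivity)

lemma reg_add (hρ : 1 < ρ) {s : ℂ} (hs : s ∈ Reg ρ a) {t : ℝ} (ht : 0 ≤ t) : s + t ∈ Reg ρ a :=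
  ⟨sect_add hρ hs.1 ht, hs.2.trans_le (re_pow_add hρ hs.1 ht)⟩

/-- the real part of the power tends to infinity along rays -/
lemma re_pow_tendsto (hρ : 1 < ρ) {s : ℂ} (hs : s ∈ Sect ρ) :
    Tendsto (fun t : ℝ => ((s + t) ^ (ρ : ℂ)).re) atTop atTop := by
  have hρ0 : 0 < ρ := by linarith
  have hpi := Real.pi_pos
  have h1 := sect_re hρ hs
  have h6 := hs.2
  have key : Real.pi / (2 * ρ) * ρ = Real.pi / 2 := by field_simp
  have h7 : |arg s| * ρ < Real.pi / 2 := by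
    rw [← key]
    exact mul_lt_mul_of_pos_right h6 hρ0
  have h9 : 0 < Real.cos (|arg s| * ρ) := by
    refine Real.cos_pos_of_mem_Ioo ⟨?_, h7⟩
    have : 0 ≤ |arg s| * ρ := by positivity
    linarith
  have h10 : Tendsto (fun t : ℝ => t ^ ρ * Real.cos (|arg s| * ρ)) atTop atTop :=
    (tendsto_rpow_atTop hρ0).atTop_mul_const h9
  refine tendsto_atTop_mono' atTop ?_ h10
  filter_upwards [eventually_ge_atTop 0] with t ht
  have h2 := arg_add h1 ht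
  have e1 : ∀ x : ℝ, Real.cos (x * ρ) = Real.cos (|x| * ρ) := fun x => by
    rw [← Real.cos_abs, abs_mul, abs_of_pos hρ0]
  rw [re_pow, e1 (arg (s + t))]
  have h8 : Real.cos (|arg s| * ρ) ≤ Real.cos (|arg (s + t)| * ρ) := by
    refine Real.cos_le_cos_of_nonneg_of_le_pi (by positivity) (by linarith) ?_
    exact mul_le_mul_of_nonneg_right h2 hρ0.le
  have h4 : t ≤ ‖s + t‖ := by
    have := Complex.re_le_norm (s + t)
    rw [Complex.add_re, Complex.ofReal_re] at this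
    linarith
  exact mul_le_mul (Real.rpow_le_rpow ht h4 hρ0.le) h8 h9.le (by positivity)

/-- the identity theorem along a ray -/
lemma ray_id {f g : ℂ → ℂ} {s : ℂ} (hf : ∀ t : ℝ, 0 ≤ t → AnalyticAt ℂ f (s + t))
    (hg : ∀ t : ℝ, 0 ≤ t → AnalyticAt ℂ g (s + t)) {t₀ : ℝ} (ht₀ : 0 ≤ t₀)
    (h : f =ᶠ[𝓝 (s + t₀)] g) : f s = g s := by
  set U : Set ℂ := (fun t : ℝ => s + (t : ℂ)) '' Ici 0 with hU
  have hUc : IsPreconnected U := by
    refine isPreconnected_Ici.image _ ?_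
    fun_prop
  have a1 : AnalyticOnNhd ℂ f U := by
    rintro _ ⟨t, ht, rfl⟩
    exact hf t ht
  have a2 : AnalyticOnNhd ℂ g U := by
    rintro _ ⟨t, ht, rfl⟩
    exact hg t ht
  have h3 := a1.eqOn_of_preconnected_of_eventuallyEq a2 hUc (z₀ := s + t₀) ⟨t₀, ht₀, rfl⟩ h
  exact h3 ⟨0, by simp, by simp⟩

/-- the product with given zeros and poles -/
noncomputable def PP (ρ : ℝ) (J : Finset ℂ) (m : ℂ → ℤ) (s : ℂ) : ℂ :=
  ∏ β ∈ J, (1 - β ^ (ρ : ℂ) / s ^ (ρ : ℂ)) ^ (m β)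

lemma pow_inj (hρ : 1 < ρ) {s z : ℂ} (hs : s ∈ Sect ρ) (hz : z ∈ Sect ρ)
    (h : s ^ (ρ : ℂ) = z ^ (ρ : ℂ)) : s = z := by
  rw [← (exists_root hρ hs.1 hs.2).2, ← (exists_root hρ hz.1 hz.2).2, h]

lemma pow_ne (hρ : 1 < ρ) {s : ℂ} (hs : s ∈ Sect ρ) : s ^ (ρ : ℂ) ≠ 0 :=
  ne_zero' (exists_root hρ hs.1 hs.2).1

lemma fac_analytic (hρ : 1 < ρ) (β : ℂ) {s : ℂ} (hs : s ∈ Sect ρ) :
    AnalyticAt ℂ (fun s : ℂ => 1 - β ^ (ρ : ℂ) / s ^ (ρ : ℂ)) s :=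
  analyticAt_const.sub (analyticAt_const.div (pow_cont hρ hs) (pow_ne hρ hs))

lemma fac_ne (hρ : 1 < ρ) {β : ℂ} (hβ : β ∈ Sect ρ) {s : ℂ} (hs : s ∈ Sect ρ) (h : s ≠ β) :
    1 - β ^ (ρ : ℂ) / s ^ (ρ : ℂ) ≠ 0 := by
  intro h0
  have h1 := pow_ne hρ hs
  rw [sub_eq_zero, eq_div_iff h1, one_mul] at h0
  exact h (pow_inj hρ hs hβ h0)

lemma fac_order (hρ : 1 < ρ) {β : ℂ} (hβ : β ∈ Sect ρ) :
    meromorphicOrderAt (fun s : ℂ => 1 - β ^ (ρ : ℂ) / s ^ (ρ : ℂ)) β = 1 := by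
  have hρ0 : 0 < ρ := by linarith
  have h1 : AnalyticAt ℂ (fun s : ℂ => s ^ (ρ : ℂ)) β := pow_cont hρ hβ
  have h2 : deriv (fun s : ℂ => s ^ (ρ : ℂ)) β ≠ 0 := by
    rw [(pow_deriv (slit (sect_re hρ hβ))).deriv]
    refine mul_ne_zero (by exact_mod_cast hρ0.ne') ?_
    rw [Complex.cpow_def_of_ne_zero hβ.1]
    exact Complex.exp_ne_zero _
  have h3 := h1.analyticOrderAt_sub_eq_one_of_deriv_ne_zero h2
  have h4 : AnalyticAt ℂ (fun s : ℂ => s ^ (ρ : ℂ) - β ^ (ρ : ℂ)) β := h1.sub analyticAt_const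
  have h5 : AnalyticAt ℂ (fun s : ℂ => (s ^ (ρ : ℂ))⁻¹) β := h1.inv (pow_ne hρ hβ)
  have h6 : (fun s : ℂ => 1 - β ^ (ρ : ℂ) / s ^ (ρ : ℂ)) =ᶠ[𝓝 β]
      (fun s : ℂ => (s ^ (ρ : ℂ))⁻¹) * (fun s : ℂ => s ^ (ρ : ℂ) - β ^ (ρ : ℂ)) := by
    filter_upwards [(sect_open hρ).mem_nhds hβ] with z hz
    have := pow_ne hρ hz
    simp only [Pi.mul_apply]
    field_simp
  rw [meromorphicOrderAt_congr (h6.filter_mono nhdsWithin_le_nhds),
    meromorphicOrderAt_mul_of_ne_zero h5 (inv_ne_zero (pow_ne hρ hβ)), h4.meromorphicOrderAt_eq, h3]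
  rfl

lemma fac_zpow_order (hρ : 1 < ρ) {β : ℂ} (hβ : β ∈ Sect ρ) {s : ℂ} (hs : s ∈ Sect ρ) (n : ℤ) :
    MeromorphicAt (fun s : ℂ => (1 - β ^ (ρ : ℂ) / s ^ (ρ : ℂ)) ^ n) s ∧
    meromorphicOrderAt (fun s : ℂ => (1 - β ^ (ρ : ℂ) / s ^ (ρ : ℂ)) ^ n) s =
      if s = β then (n : WithTop ℤ) else 0 := by
  have h1 := (fac_analytic hρ β hs).meromorphicAt
  refine ⟨h1.zpow n, ?_⟩
  have h2 := fun_meromorphicOrderAt_zpow h1 (n := n)
  rw [h2]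
  split_ifs with h
  · subst h
    rw [fac_order hρ hβ, mul_one]
  · have h3 : meromorphicOrderAt (fun s : ℂ => 1 - β ^ (ρ : ℂ) / s ^ (ρ : ℂ)) s = 0 := by
      rw [(fac_analytic hρ β hs).meromorphicOrderAt_eq,
        (fac_analytic hρ β hs).analyticOrderAt_eq_zero.2 (fac_ne hρ hβ hs h)]
      rfl
    rw [h3, mul_zero]

lemma PP_order (hρ : 1 < ρ) (hJ : ∀ β ∈ J, β ∈ Sect ρ) {s : ℂ} (hs : s ∈ Sect ρ) :
    MeromorphicAt (PP ρ J m) s ∧
    meromorphicOrderAt (PP ρ J m) s = if s ∈ J then (m s : WithTop ℤ) else 0 := by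
  have h1 : ∀ β ∈ J, MeromorphicAt (fun s : ℂ => (1 - β ^ (ρ : ℂ) / s ^ (ρ : ℂ)) ^ (m β)) s :=
    fun β hβ => (fac_zpow_order hρ (hJ β hβ) hs _).1
  have h0 : MeromorphicAt (PP ρ J m) s := by
    unfold PP
    exact MeromorphicAt.fun_prod h1
  refine ⟨h0, ?_⟩
  unfold PP
  rw [meromorphicOrderAt_fun_prod h1]
  rw [Finset.sum_congr rfl fun β hβ => (fac_zpow_order hρ (hJ β hβ) hs (m β)).2,
    Finset.sum_ite_eq]

end Pool.Agent.R765.Mer
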