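import Pool.Agent.R765.Ga4
import Pool.Agent.R765.Mer5

/-!
# Logarithmic derivatives with integral residues and meromorphic functions
-/

set_option autoImplicit false

open MeasureTheory Filter Topology Set Complex

namespace Pool.Agent.R765.Ga

open Pool.Agent.R765.Mer Pool.Agent.TH942.SL

variable {J : Finset ℂ} {m : ℂ → ℤ}

/-- the product with given zeros and poles -/
noncomputable def PJ (J : Finset ℂ) (m : ℂ → ℤ) (s : ℂ) : ℂ := ∏ β ∈ J, (s - β) ^ (m β)

lemma fac_zpow (β s : ℂ) (n : ℤ) : MeromorphicAt (fun s : ℂ => (s - β) ^ n) s ∧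
    meromorphicOrderAt (fun s : ℂ => (s - β) ^ n) s = if s = β then (n : WithTop ℤ) else 0 := by
  have h0 : AnalyticAt ℂ (fun s : ℂ => s - β) s := by fun_prop
  have h1 := h0.meromorphicAt
  refine ⟨h1.zpow n, ?_⟩
  have h2 := fun_meromorphicOrderAt_zpow h1 (n := n)
  rw [h2]
  split_ifs with h
  · subst h
    have h3 : meromorphicOrderAt (fun z : ℂ => z - s) s = 1 := by
      have k1 : deriv (fun z : ℂ => z) s ≠ 0 := by simp
      have k2 := (analyticAt_id (𝕜 := ℂ) (z := s)).analyticOrderAt_sub_eq_one_of_deriv_ne_zero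
        (by simpa using k1)
      have k3 : analyticOrderAt (fun z : ℂ => z - s) s = 1 := by simpa using k2
      rw [h0.meromorphicOrderAt_eq, k3]
      rfl
    rw [h3, mul_one]
  · have h3 : meromorphicOrderAt (fun z : ℂ => z - β) s = 0 := by
      rw [h0.meromorphicOrderAt_eq, h0.analyticOrderAt_eq_zero.2 (sub_ne_zero.2 h)]
      rfl
    rw [h3, mul_zero]

lemma PJ_order (s : ℂ) : MeromorphicAt (PJ J m) s ∧
    meromorphicOrderAt (PJ J m) s = if s ∈ J then (m s : WithTop ℤ) else 0 := by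
  have h1 : ∀ β ∈ J, MeromorphicAt (fun s : ℂ => (s - β) ^ (m β)) s :=
    fun β _ => (fac_zpow β s _).1
  have h0 : MeromorphicAt (PJ J m) s := by
    unfold PJ
    exact MeromorphicAt.fun_prod h1
  refine ⟨h0, ?_⟩
  unfold PJ
  rw [meromorphicOrderAt_fun_prod h1]
  rw [Finset.sum_congr rfl fun β _ => (fac_zpow β s (m β)).2, Finset.sum_ite_eq]

lemma PJ_ne {s : ℂ} (hs : s ∉ J) : PJ J m s ≠ 0 :=
  Finset.prod_ne_zero_iff.2 fun β hβ => zpow_ne_zero _ (sub_ne_zero.2 fun h => hs (h ▸ hβ))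

lemma PJ_analytic {s : ℂ} (hs : s ∉ J) : AnalyticAt ℂ (PJ J m) s := by
  unfold PJ
  refine Finset.analyticAt_fun_prod J fun β hβ => ?_
  exact AnalyticAt.fun_zpow (by fun_prop) (sub_ne_zero.2 fun h => hs (h ▸ hβ))

lemma PJ_log {s : ℂ} (hs : s ∉ J) : logDeriv (PJ J m) s = ∑ β ∈ J, (m β : ℂ) / (s - β) := by
  have hne : ∀ β ∈ J, s - β ≠ 0 := fun β hβ => sub_ne_zero.2 fun h => hs (h ▸ hβ)
  unfold PJ
  rw [logDeriv_prod (f := fun (β : ℂ) (s : ℂ) => (s - β) ^ m β) (x := s) (s := J)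
    (fun β hβ => zpow_ne_zero _ (hne β hβ)) (fun β hβ => ?_)]
  · refine Finset.sum_congr rfl fun β hβ => ?_
    rw [logDeriv_fun_zpow (by fun_prop), logDeriv_apply, deriv_sub_const, deriv_id'']
    ring
  · have : AnalyticAt ℂ (fun s : ℂ => (s - β) ^ m β) s :=
      AnalyticAt.fun_zpow (by fun_prop) (hne β hβ)
    exact this.differentiableAt

/-- numerator -/
noncomputable def NJ (J : Finset ℂ) (m : ℂ → ℤ) (s : ℂ) : ℂ := ∏ β ∈ J, (s - β) ^ (m β).toNat

/-- denominator -/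
noncomputable def QJ (J : Finset ℂ) (m : ℂ → ℤ) (s : ℂ) : ℂ := ∏ β ∈ J, (s - β) ^ (-(m β)).toNat

lemma PJ_eq (s : ℂ) : PJ J m s = NJ J m s / QJ J m s := by
  unfold PJ NJ QJ
  rw [← Finset.prod_div_distrib]
  refine Finset.prod_congr rfl fun β _ => ?_
  rcases le_total 0 (m β) with h | h
  · rw [Int.toNat_eq_zero.2 (show -(m β) ≤ 0 by omega), pow_zero, div_one, ← zpow_natCast,
      Int.toNat_of_nonneg h]
  · rw [Int.toNat_eq_zero.2 h, pow_zero, one_div, ← zpow_natCast,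
      Int.toNat_of_nonneg (show 0 ≤ -(m β) by omega), zpow_neg, inv_inv]

lemma NJ_diff : Differentiable ℂ (NJ J m) := by
  unfold NJ
  fun_prop

lemma QJ_diff : Differentiable ℂ (QJ J m) := by
  unfold QJ
  fun_prop

lemma NJ_zero {s : ℂ} (h : NJ J m s = 0) : s ∈ J ∧ 0 < m s := by
  unfold NJ at h
  obtain ⟨β, hβ, h1⟩ := Finset.prod_eq_zero_iff.1 h
  by_cases h2 : (m β).toNat = 0
  · rw [h2, pow_zero] at h1
    exact absurd h1 one_ne_zero
  · have h3 : s = β := sub_eq_zero.1 ((pow_eq_zero_iff h2).1 h1)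
    subst h3
    exact ⟨hβ, by omega⟩

lemma QJ_zero {s : ℂ} (h : QJ J m s = 0) : s ∈ J ∧ m s < 0 := by
  unfold QJ at h
  obtain ⟨β, hβ, h1⟩ := Finset.prod_eq_zero_iff.1 h
  by_cases h2 : (-(m β)).toNat = 0
  · rw [h2, pow_zero] at h1
    exact absurd h1 one_ne_zero
  · have h3 : s = β := sub_eq_zero.1 ((pow_eq_zero_iff h2).1 h1)
    subst h3
    exact ⟨hβ, by omega⟩

variable {U : Set ℂ} {L F : ℂ → ℂ} {σ : ℝ}

lemma L_analytic (hL : ∀ s : ℂ, σ < s.re → HasDerivAt L (-(F s * L s)) s ∧ L s ≠ 0) {s : ℂ}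
    (hs : σ < s.re) : AnalyticAt ℂ L s := by
  have ho : IsOpen {z : ℂ | σ < z.re} := isOpen_lt continuous_const Complex.continuous_re
  have h1 : DifferentiableOn ℂ L {z : ℂ | σ < z.re} := fun z hz =>
    (hL z hz).1.differentiableAt.differentiableWithinAt
  exact h1.analyticAt (ho.mem_nhds hs)

/-- **From the logarithmic derivative to the meromorphic function.** -/
theorem mer_of_log (hUo : IsOpen U) (hUc : Convex ℝ U) (hUn : U.Nonempty)
    (hUa : ∀ z ∈ U, ∀ t : ℝ, 0 ≤ t → z + t ∈ U)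
    (hL : ∀ s : ℂ, σ < s.re → HasDerivAt L (-(F s * L s)) s ∧ L s ≠ 0) {G₀ : ℂ → ℂ}
    (hG₀ : ∀ s ∈ U, DifferentiableAt ℂ G₀ s)
    (hF : ∀ s ∈ U, σ < s.re → s ∉ J → F s = G₀ s - ∑ β ∈ J, (m β : ℂ) / (s - β)) :
    ∃ G : ℂ → ℂ, (∀ s : ℂ, s ∈ U ∨ σ < s.re → MeromorphicAt G s) ∧
      (∀ s : ℂ, σ < s.re → G s = L s) ∧
      ∀ s ∈ U, meromorphicOrderAt G s = if s ∈ J then (m s : WithTop ℤ) else 0 := by
  obtain ⟨Γ, hΓ⟩ := convex_primitive hUo hUc fun s hs => (hG₀ s hs).differentiableWithinAt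
  set τ : ℝ := max σ (∑ β ∈ J, ‖β‖) with hτ
  have hτσ : σ ≤ τ := le_max_left _ _
  have hτJ : ∀ s : ℂ, τ < s.re → s ∉ J := fun s hs h => by
    have h1 : ‖s‖ ≤ ∑ β ∈ J, ‖β‖ :=
      Finset.single_le_sum (f := fun β : ℂ => ‖β‖) (fun β _ => norm_nonneg _) h
    have h2 := Complex.re_le_norm s
    have h3 : (∑ β ∈ J, ‖β‖) ≤ τ := le_max_right _ _
    linarith
  set W : Set ℂ := U ∩ {s | τ < s.re} with hW
  have hto : IsOpen {s : ℂ | τ < s.re} := isOpen_lt continuous_const Complex.continuous_re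
  have hWo : IsOpen W := hUo.inter hto
  have hWc : Convex ℝ W := hUc.inter (convex_halfSpace_re_gt τ)
  obtain ⟨z₀, hz₀⟩ := hUn
  have hray : ∀ z ∈ U, ∃ t : ℝ, 0 ≤ t ∧ z + t ∈ W := fun z hz => by
    refine ⟨|τ| + |z.re| + 1, by positivity, hUa z hz _ (by positivity), ?_⟩
    change τ < (z + ((|τ| + |z.re| + 1 : ℝ) : ℂ)).re
    rw [Complex.add_re, Complex.ofReal_re]
    have h1 := neg_abs_le z.re
    have h2 := le_abs_self τ
    linarith
  obtain ⟨t₀, ht₀, hw₀⟩ := hray z₀ hz₀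
  set w₀ : ℂ := z₀ + t₀ with hw₀'
  -- the constant
  set k : ℂ → ℂ := fun s => L s * exp (Γ s) / PJ J m s with hk
  have hkd : ∀ s ∈ W, HasDerivAt k 0 s := by
    intro s hs
    have hsσ : σ < s.re := hτσ.trans_lt hs.2
    have hsJ := hτJ s hs.2
    have d1 := (hL s hsσ).1
    have d2 := (hΓ s hs.1).cexp
    have d3 : HasDerivAt (PJ J m) (deriv (PJ J m) s) s :=
      (PJ_analytic (m := m) hsJ).differentiableAt.hasDerivAt
    have e3 : deriv (PJ J m) s = (∑ β ∈ J, (m β : ℂ) / (s - β)) * PJ J m s := by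
      rw [← PJ_log (m := m) hsJ, logDeriv_apply, div_mul_cancel₀ _ (PJ_ne hsJ)]
    have e4 := hF s hs.1 hsσ hsJ
    have hne := PJ_ne (m := m) hsJ
    refine ((d1.mul d2).div d3 hne).congr_deriv ?_
    rw [e3, e4]
    simp only [Pi.mul_apply]
    field_simp
    ring
  have hkc : ∀ s ∈ W, k s = k w₀ := by
    intro s hs
    refine hWc.is_const_of_fderivWithin_eq_zero (𝕜 := ℂ)
      (fun z hz => (hkd z hz).differentiableAt.differentiableWithinAt) (fun z hz => ?_) hs hw₀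
    rw [fderivWithin_of_isOpen hWo hz]
    ext
    simp [(hkd z hz).deriv]
  set K : ℂ := k w₀ with hK
  have hK0 : K ≠ 0 := by
    rw [hK, hk]
    exact div_ne_zero (mul_ne_zero (hL _ (hτσ.trans_lt hw₀.2)).2 (Complex.exp_ne_zero _))
      (PJ_ne (hτJ _ hw₀.2))
  set G₁ : ℂ → ℂ := fun s => K * exp (-Γ s) * PJ J m s with hG₁
  have hpre : ∀ s ∈ U, AnalyticAt ℂ (fun s => K * exp (-Γ s)) s := by
    intro s hs
    have h2 : DifferentiableOn ℂ Γ U := fun z hz =>
      (hΓ z hz).differentiableAt.differentiableWithinAt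
    exact analyticAt_const.mul (h2.analyticAt (hUo.mem_nhds hs)).neg.cexp
  have hfar : ∀ s ∈ W, L s * QJ J m s = K * exp (-Γ s) * NJ J m s := by
    intro s hs
    have h1 := hkc s hs
    have hsJ := hτJ s hs.2
    have h2 : QJ J m s ≠ 0 := fun h => hsJ (QJ_zero h).1
    have h3 : NJ J m s ≠ 0 := fun h => hsJ (NJ_zero h).1
    rw [hk] at h1
    simp only at h1
    rw [← h1, PJ_eq, Complex.exp_neg]
    have h4 := Complex.exp_ne_zero (Γ s)
    field_simp
  have heq : ∀ s ∈ U, σ < s.re → G₁ s = L s := by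
    intro s hs hsσ
    have hre : ∀ t : ℝ, 0 ≤ t → σ < (s + t).re := fun t ht => by
      rw [Complex.add_re, Complex.ofReal_re]
      linarith
    obtain ⟨t, ht, hw⟩ := hray s hs
    have key : L s * QJ J m s = K * exp (-Γ s) * NJ J m s := by
      refine ray_id (f := fun s => L s * QJ J m s)
        (g := fun s => K * exp (-Γ s) * NJ J m s) (t₀ := t)
        (fun t ht => (L_analytic hL (hre t ht)).mul (QJ_diff.analyticAt _))
        (fun t ht => (hpre _ (hUa s hs t ht)).mul (NJ_diff.analyticAt _)) ht ?_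
      filter_upwards [hWo.mem_nhds hw] with z hz
      exact hfar z hz
    have hB : QJ J m s ≠ 0 := fun hB => by
      rw [hB, mul_zero] at key
      have h5 := (mul_eq_zero.1 key.symm).resolve_left (mul_ne_zero hK0 (Complex.exp_ne_zero _))
      have h6 := NJ_zero h5
      have h7 := QJ_zero hB
      omega
    rw [hG₁]
    simp only
    rw [PJ_eq, ← mul_div_assoc, ← key]
    field_simp
  set G : ℂ → ℂ := fun s => if σ < s.re then L s else G₁ s with hG
  have hG1 : ∀ s : ℂ, σ < s.re → G s = L s := fun s hs => by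
    rw [hG]
    simp only
    rw [if_pos hs]
  have hG2 : ∀ s ∈ U, G s = G₁ s := fun s hs => by
    by_cases h2 : σ < s.re
    · rw [hG1 s h2, heq s hs h2]
    · rw [hG]
      simp only
      rw [if_neg h2]
  have hG3 : ∀ s ∈ U, G =ᶠ[𝓝 s] G₁ := fun s hs => by
    filter_upwards [hUo.mem_nhds hs] with z hz
    exact hG2 z hz
  have hG4 : ∀ s ∈ U, MeromorphicAt G₁ s ∧
      meromorphicOrderAt G₁ s = if s ∈ J then (m s : WithTop ℤ) else 0 := fun s hs => by
    obtain ⟨k1, k2⟩ := PJ_order (J := J) (m := m) s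
    refine ⟨(hpre s hs).meromorphicAt.fun_mul k1, ?_⟩
    rw [← k2]
    exact meromorphicOrderAt_mul_of_ne_zero (hpre s hs) (mul_ne_zero hK0 (Complex.exp_ne_zero _))
  refine ⟨G, fun s hs => ?_, hG1, fun s hs => ?_⟩
  · rcases hs with hs | hs
    · exact (hG4 s hs).1.congr ((hG3 s hs).symm.filter_mono nhdsWithin_le_nhds)
    · have ho : IsOpen {z : ℂ | σ < z.re} := isOpen_lt continuous_const Complex.continuous_re
      have h2 : L =ᶠ[𝓝 s] G := by
        filter_upwards [ho.mem_nhds hs] with z hz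
        exact (hG1 z hz).symm
      exact (L_analytic hL hs).meromorphicAt.congr (h2.filter_mono nhdsWithin_le_nhds)
  · rw [meromorphicOrderAt_congr ((hG3 s hs).filter_mono nhdsWithin_le_nhds)]
    exact (hG4 s hs).2

/-- **From the meromorphic function to the logarithmic derivative.** -/
theorem log_of_mer (hUo : IsOpen U)
    (hL : ∀ s : ℂ, σ < s.re → HasDerivAt L (-(F s * L s)) s ∧ L s ≠ 0) {G : ℂ → ℂ}
    (hG : ∀ s ∈ U, MeromorphicAt G s) (hGL : ∀ s ∈ U, σ < s.re → G s = L s)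
    (ho : ∀ s ∈ U, meromorphicOrderAt G s = if s ∈ J then (m s : WithTop ℤ) else 0) :
    ∃ G₀ : ℂ → ℂ, (∀ s ∈ U, DifferentiableAt ℂ G₀ s) ∧
      ∀ s ∈ U, σ < s.re → s ∉ J → F s = G₀ s - ∑ β ∈ J, (m β : ℂ) / (s - β) := by
  set H₀ : ℂ → ℂ := fun s => G s * (PJ J m s)⁻¹ with hH₀
  have hH₀m : MeromorphicOn H₀ U := fun s hs =>
    (hG s hs).fun_mul (PJ_order (J := J) (m := m) s).1.fun_inv
  have hH₀o : ∀ s ∈ U, meromorphicOrderAt H₀ s = 0 := by
    intro s hs
    obtain ⟨k1, k2⟩ := PJ_order (J := J) (m := m) s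
    have k3 : meromorphicOrderAt H₀ s = meromorphicOrderAt G s +
        meromorphicOrderAt (PJ J m)⁻¹ s := meromorphicOrderAt_mul (hG s hs) k1.inv
    rw [k3, meromorphicOrderAt_inv, k2, ho s hs]
    split_ifs
    · norm_cast
      omega
    · simp
  set H : ℂ → ℂ := toMeromorphicNFOn H₀ U with hH
  have hHan : ∀ s ∈ U, AnalyticAt ℂ H s ∧ H s ≠ 0 := by
    intro s hs
    have k1 : MeromorphicNFAt H s := meromorphicNFOn_toMeromorphicNFOn H₀ U hs
    have k2 : meromorphicOrderAt H s = 0 := by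
      rw [hH, meromorphicOrderAt_toMeromorphicNFOn hH₀m hs, hH₀o s hs]
    exact ⟨k1.meromorphicOrderAt_nonneg_iff_analyticAt.1 k2.ge,
      k1.meromorphicOrderAt_eq_zero_iff.1 k2⟩
  refine ⟨fun s => -(deriv H s / H s), fun s hs => ?_, fun s hs hsσ hsJ => ?_⟩
  · obtain ⟨k1, k2⟩ := hHan s hs
    exact ((k1.deriv.differentiableAt).div k1.differentiableAt k2).neg
  · obtain ⟨k1, k2⟩ := hHan s hs
    have hso : IsOpen {z : ℂ | σ < z.re} := isOpen_lt continuous_const Complex.continuous_re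
    have a1 : AnalyticAt ℂ (fun z => L z * (PJ J m z)⁻¹) s :=
      (L_analytic hL hsσ).mul ((PJ_analytic (m := m) hsJ).inv (PJ_ne hsJ))
    have e1 : H =ᶠ[𝓝[≠] s] fun z => L z * (PJ J m z)⁻¹ := by
      refine (hH₀m.toMeromorphicNFOn_eq_self_on_nhdsNE hs).trans ?_
      filter_upwards [(hUo.mem_nhds hs |> mem_nhdsWithin_of_mem_nhds),
        (hso.mem_nhds hsσ |> mem_nhdsWithin_of_mem_nhds)] with z h1 h2
      rw [hH₀]
      simp only
      rw [hGL z h1 h2]
    have e2 : H =ᶠ[𝓝 s] fun z => L z * (PJ J m z)⁻¹ := by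
      have := (k1.frequently_eq_iff_eventually_eq a1).1 e1.frequently
      exact this
    have e3 : L =ᶠ[𝓝 s] fun z => H z * PJ J m z := by
      have h3 : ∀ᶠ z in 𝓝 s, PJ J m z ≠ 0 :=
        (PJ_analytic (m := m) hsJ).continuousAt.eventually_ne (PJ_ne hsJ)
      filter_upwards [e2, h3] with z h4 h5
      rw [h4]
      field_simp
    have e4 := (logDeriv_congr_nhds e3).eq_of_nhds
    rw [logDeriv_mul s k2 (PJ_ne hsJ) k1.differentiableAt
      (PJ_analytic (m := m) hsJ).differentiableAt, PJ_log hsJ, logDeriv_apply,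
      logDeriv_apply, (hL s hsσ).1.deriv] at e4
    have h6 := (hL s hsσ).2
    have e5 : -(F s * L s) / L s = -F s := by
      field_simp
    rw [e5] at e4
    linear_combination -e4

end Pool.Agent.R765.Ga
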