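import Pool.Agent.R765.Ga5

/-!
# Gaussian sums and meromorphic continuation
-/

set_option autoImplicit false

open MeasureTheory Filter Topology Set Complex

namespace Pool.Agent.R765.Ga

open Pool.Agent.R765.Mer Pool.Agent.TH942.SL

/-- the region `Re (s + b) > 0`, `Re (s + b)² > c` -/
def Rb (b c : ℝ) : Set ℂ := {s | s + (b : ℂ) ∈ Rg c}

lemma Rb_open (b c : ℝ) : IsOpen (Rb b c) := (Rg_open c).preimage (by fun_prop)

lemma Rb_convex (b : ℝ) {c : ℝ} (hc : 0 ≤ c) : Convex ℝ (Rb b c) := by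
  intro x hx y hy p q hp hq hpq
  have h := Rg_convex hc hx hy hp hq hpq
  change p • x + q • y + (b : ℂ) ∈ Rg c
  have e : p • x + q • y + (b : ℂ) = p • (x + (b : ℂ)) + q • (y + (b : ℂ)) := by
    rw [smul_add, smul_add, add_add_add_comm, ← add_smul, hpq, one_smul]
  rwa [e]

lemma Rg_add {c : ℝ} {z : ℂ} (hz : z ∈ Rg c) {t : ℝ} (ht : 0 ≤ t) : z + t ∈ Rg c := by
  obtain ⟨h1, h2⟩ := hz
  rw [sq_re] at h2
  refine ⟨?_, ?_⟩
  · rw [Complex.add_re, Complex.ofReal_re]
    linarith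
  · rw [sq_re, Complex.add_re, Complex.add_im, Complex.ofReal_re, Complex.ofReal_im, add_zero]
    nlinarith

lemma Rb_add (b : ℝ) {c : ℝ} {z : ℂ} (hz : z ∈ Rb b c) {t : ℝ} (ht : 0 ≤ t) : z + t ∈ Rb b c := by
  change z + t + (b : ℂ) ∈ Rg c
  rw [add_right_comm]
  exact Rg_add hz ht

lemma Rb_nonempty (b c : ℝ) : (Rb b c).Nonempty := by
  refine ⟨((1 + |c| - b : ℝ) : ℂ), ?_⟩
  change ((1 + |c| - b : ℝ) : ℂ) + (b : ℂ) ∈ Rg c
  have e : ((1 + |c| - b : ℝ) : ℂ) + (b : ℂ) = ((1 + |c| : ℝ) : ℂ) := by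
    push_cast
    ring
  rw [e]
  have h1 := abs_nonneg c
  have h2 := le_abs_self c
  refine ⟨?_, ?_⟩
  · rw [Complex.ofReal_re]
    positivity
  · rw [sq_re, Complex.ofReal_re, Complex.ofReal_im]
    nlinarith

variable {ι : Type*} {lam : ι → ℝ} {c : ι → ℂ} {l₀ σ : ℝ}

/-- the twisted coefficients -/
noncomputable def tw (lam : ι → ℝ) (c : ι → ℂ) (b : ℝ) (i : ι) : ℂ :=
  c i * (Real.exp (b * lam i) : ℂ)

lemma DD.shift (D : DD lam c l₀ σ) (b : ℝ) : DD lam (tw lam c b) l₀ (σ + b) where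
  pos := D.pos
  low := D.low
  sum := fun a ha => by
    refine (D.sum (a - b) (by linarith)).congr fun i => ?_
    unfold tw
    rw [norm_mul, Complex.norm_real, Real.norm_of_nonneg (Real.exp_pos _).le, mul_assoc,
      ← Real.exp_add]
    congr 2
    ring

lemma ser_shift (b : ℝ) (s : ℂ) : ser lam (tw lam c b) (s + b) = ser lam c s := by
  unfold ser tw
  refine tsum_congr fun i => ?_
  rw [mul_assoc, Complex.ofReal_exp, ← Complex.exp_add]
  congr 2
  push_cast
  ring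

variable {J : Finset ℂ} {m : ℂ → ℤ}

/-- translation of the set -/
noncomputable def Jb (J : Finset ℂ) (b : ℝ) : Finset ℂ := by
  classical
  exact J.image fun β => β + (b : ℂ)

lemma mem_Jb {b : ℝ} {s : ℂ} : s + (b : ℂ) ∈ Jb J b ↔ s ∈ J := by
  classical
  unfold Jb
  rw [Finset.mem_image]
  constructor
  · rintro ⟨β, hβ, h⟩
    rwa [← add_right_cancel h]
  · intro h
    exact ⟨s, h, rfl⟩

lemma sum_Jb (b : ℝ) (f : ℂ → ℂ → ℂ) :
    ∑ β ∈ Jb J b, f (β - b) β = ∑ β ∈ J, f β (β + b) := by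
  classical
  unfold Jb
  rw [Finset.sum_image fun x _ y _ h => add_right_cancel h]
  exact Finset.sum_congr rfl fun β _ => by rw [add_sub_cancel_right]

/-- **The Gaussian criterion for meromorphic continuation.** -/
theorem gauss_iff [Countable ι] (D : DD lam c l₀ σ) {L : ℂ → ℂ}
    (hL : ∀ s : ℂ, σ < s.re → HasDerivAt L (-(ser lam c s * L s)) s ∧ L s ≠ 0) (b : ℝ) {c₀ : ℝ}
    (hc₀ : 0 ≤ c₀) (hJ : ∀ β ∈ J, 0 < (β + b).re) :
    (∃ G : ℂ → ℂ, (∀ s : ℂ, s ∈ Rb b c₀ ∨ σ < s.re → MeromorphicAt G s) ∧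
      (∀ s : ℂ, σ < s.re → G s = L s) ∧
      ∀ s ∈ Rb b c₀, meromorphicOrderAt G s = if s ∈ J then (m s : WithTop ℤ) else 0) ↔
    ∀ ε : ℝ, 0 < ε → ∃ C : ℝ, ∀ᶠ T : ℝ in atTop,
      ‖kG lam (tw lam c b) T + 2 * ∑ β ∈ J, (m β : ℂ) * exp ((β + b) ^ 2 * T)‖ ≤
        C * Real.exp ((c₀ + ε) * T) := by
  set r : ℂ → ℂ := fun β => -(m (β - b) : ℂ) with hr
  have hJb : ∀ β ∈ Jb J b, 0 < β.re := by
    intro β hβ
    have e : β = (β - b) + b := by ring
    rw [e] at hβ ⊢
    exact hJ _ (mem_Jb.1 hβ)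
  have e1 : ∀ T : ℝ, kG lam (tw lam c b) T - 2 * ∑ β ∈ Jb J b, r β * exp (β ^ 2 * T) =
      kG lam (tw lam c b) T + 2 * ∑ β ∈ J, (m β : ℂ) * exp ((β + b) ^ 2 * T) := by
    intro T
    have := sum_Jb (J := J) b fun β β' => -(m β : ℂ) * exp (β' ^ 2 * T)
    rw [hr]
    simp only
    rw [this]
    simp only [neg_mul, Finset.sum_neg_distrib]
    ring
  have e2 : ∀ z : ℂ, ∑ β ∈ Jb J b, r β / (z - β) = -∑ β ∈ J, (m β : ℂ) / (z - b - β) := by
    intro z
    have := sum_Jb (J := J) b fun β β' => -(m β : ℂ) / (z - β')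
    rw [hr]
    simp only
    rw [this, ← Finset.sum_neg_distrib]
    refine Finset.sum_congr rfl fun β _ => ?_
    rw [neg_div]
    congr 2
    ring
  have hsh := D.shift b
  have hb : ∀ z : ℂ, z ∈ Rg c₀ ↔ z - b ∈ Rb b c₀ := fun z => by
    change _ ↔ z - b + b ∈ Rg c₀
    rw [sub_add_cancel]
  constructor
  · rintro ⟨G, hG1, hG2, hG3⟩ ε hε
    obtain ⟨G₀, k1, k2⟩ := log_of_mer (J := J) (m := m) (Rb_open b c₀) hL
      (fun s hs => hG1 s (Or.inl hs)) (fun s _ hs => hG2 s hs) hG3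
    obtain ⟨C, hC⟩ := up (J := Jb J b) (r := r) hsh hc₀ hJb (G := fun z => G₀ (z - b))
      (fun z hz => (k1 _ ((hb z).1 hz)).comp z (by fun_prop)) (fun z hz hzσ hzJ => by
        have h1 : σ < (z - b).re := by
          rw [Complex.sub_re, Complex.ofReal_re]
          linarith
        have h2 : z - b ∉ J := fun h => hzJ (by
          have := (mem_Jb (J := J) (b := b)).2 h
          rwa [sub_add_cancel] at this)
        have h3 := k2 (z - b) ((hb z).1 hz) h1 h2
        have h4 := ser_shift (lam := lam) (c := c) b (z - b)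
        rw [sub_add_cancel] at h4
        rw [h4, h3, e2]
        ring) hε
    refine ⟨C, ?_⟩
    filter_upwards [eventually_ge_atTop 0] with T hT
    rw [← e1]
    exact hC T hT
  · intro h
    obtain ⟨G, k1, k2⟩ := down (J := Jb J b) (r := r) hsh hc₀ hJb (fun ε hε => by
      obtain ⟨C, hC⟩ := h ε hε
      refine ⟨C, ?_⟩
      filter_upwards [hC] with T hT
      rwa [e1])
    refine mer_of_log (Rb_open b c₀) (Rb_convex b hc₀) (Rb_nonempty b c₀)
      (fun z hz t ht => Rb_add b hz ht) hL (G₀ := fun s => G (s + b))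
      (fun s hs => (k1 (s + b) hs).comp s (by fun_prop)) (fun s hs hsσ hsJ => ?_)
    have h1 : σ + b < (s + b).re := by
      rw [Complex.add_re, Complex.ofReal_re]
      linarith
    have h2 : s + b ∉ Jb J b := fun h => hsJ (mem_Jb.1 h)
    have h3 := k2 (s + b) hs h1 h2
    rw [ser_shift, e2] at h3
    rw [h3]
    have e3 : ∀ β : ℂ, s + b - b - β = s - β := fun β => by ring
    simp only [e3]
    ring

/-- **Gluing.** -/
theorem glue {L : ℂ → ℂ} (hL : ∀ s : ℂ, σ < s.re → AnalyticAt ℂ L s)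
    (h : ∀ s : ℂ, ∃ V : Set ℂ, IsOpen V ∧ s ∈ V ∧ (∀ z ∈ V, ∀ t : ℝ, 0 ≤ t → z + t ∈ V) ∧
      ∃ G : ℂ → ℂ, (∀ z ∈ V, MeromorphicAt G z) ∧ ∀ z ∈ V, σ < z.re → G z = L z) :
    ∃ G : ℂ → ℂ, (∀ s : ℂ, MeromorphicAt G s) ∧ ∀ s : ℂ, σ < s.re → G s = L s := by
  classical
  have ho : IsOpen {z : ℂ | σ < z.re} := isOpen_lt continuous_const Complex.continuous_re
  choose V hVo hsV hVa F hF1 hF2 using h
  set G : ℂ → ℂ → ℂ := fun s => toMeromorphicNFOn (F s) (V s) with hG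
  have hFm : ∀ s, MeromorphicOn (F s) (V s) := fun s z hz => hF1 s z hz
  have hNF : ∀ s, ∀ z ∈ V s, MeromorphicNFAt (G s) z := fun s z hz =>
    meromorphicNFOn_toMeromorphicNFOn (F s) (V s) hz
  have hGL : ∀ s, ∀ z ∈ V s, σ < z.re → G s =ᶠ[𝓝 z] L := by
    intro s z hzV hz
    have k1 := (hFm s).toMeromorphicNFOn_eq_self_on_nhdsNE hzV
    have k2 : F s =ᶠ[𝓝[≠] z] L := by
      have : F s =ᶠ[𝓝 z] L := by
        filter_upwards [(hVo s).mem_nhds hzV, ho.mem_nhds hz] with x hx hx2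
        exact hF2 s x hx hx2
      exact this.filter_mono nhdsWithin_le_nhds
    exact ((hNF s z hzV).eventuallyEq_nhdsNE_iff_eventuallyEq_nhds
      (hL z hz).meromorphicNFAt).1 (k1.trans k2)
  have hcomp : ∀ s s' z : ℂ, z ∈ V s → z ∈ V s' → G s z = G s' z := by
    intro s s' z hz hz'
    set U : Set ℂ := (fun t : ℝ => z + (t : ℂ)) '' Ici 0 with hU
    have hUc : IsPreconnected U := by
      refine isPreconnected_Ici.image _ ?_
      fun_prop
    have hUV : ∀ w ∈ U, w ∈ V s ∧ w ∈ V s' := by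
      rintro _ ⟨t, ht, rfl⟩
      exact ⟨hVa s z hz t ht, hVa s' z hz' t ht⟩
    have hzU : z ∈ U := ⟨0, by simp, by simp⟩
    have hm : MeromorphicOn (fun w => G s w - G s' w) U := fun w hw =>
      (hNF s w (hUV w hw).1).meromorphicAt.fun_sub (hNF s' w (hUV w hw).2).meromorphicAt
    set t₀ : ℝ := |z.re| + |σ| + 1 with ht₀
    have ht₀0 : 0 ≤ t₀ := by positivity
    have hw₀ : z + t₀ ∈ U := ⟨t₀, ht₀0, rfl⟩
    have hw₀re : σ < (z + t₀).re := by
      rw [Complex.add_re, Complex.ofReal_re, ht₀]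
      have := neg_abs_le z.re
      have := le_abs_self σ
      linarith
    have htop : meromorphicOrderAt (fun w => G s w - G s' w) (z + t₀) = ⊤ := by
      rw [meromorphicOrderAt_eq_top_iff]
      have k1 : ∀ᶠ w in 𝓝 (z + t₀), G s w - G s' w = 0 := by
        filter_upwards [hGL s _ (hUV _ hw₀).1 hw₀re, hGL s' _ (hUV _ hw₀).2 hw₀re] with w l1 l2
        rw [l1, l2, sub_self]
      exact k1.filter_mono nhdsWithin_le_nhds
    have hztop : meromorphicOrderAt (fun w => G s w - G s' w) z = ⊤ := by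
      by_contra hne
      exact hm.meromorphicOrderAt_ne_top_of_isPreconnected hUc hzU hw₀ hne htop
    rw [meromorphicOrderAt_eq_top_iff] at hztop
    have k2 : G s =ᶠ[𝓝[≠] z] G s' := by
      filter_upwards [hztop] with w hw
      exact sub_eq_zero.1 hw
    exact (((hNF s z hz).eventuallyEq_nhdsNE_iff_eventuallyEq_nhds (hNF s' z hz')).1 k2).eq_of_nhds
  refine ⟨fun z => G z z, fun s => ?_, fun s hs => (hGL s s (hsV s) hs).eq_of_nhds⟩
  have k1 : G s =ᶠ[𝓝 s] fun z => G z z := by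
    filter_upwards [(hVo s).mem_nhds (hsV s)] with z hz
    exact hcomp s z z hz (hsV z)
  exact (hNF s s (hsV s)).meromorphicAt.congr (k1.filter_mono nhdsWithin_le_nhds)

/-- **Finitely many zeros and poles.** -/
theorem fin_mer {L : ℂ → ℂ} (hL : ∀ s : ℂ, σ < s.re → AnalyticAt ℂ L s ∧ L s ≠ 0) (b : ℝ) {c₀ : ℝ}
    (hc : 0 < c₀) {G : ℂ → ℂ} (hG : ∀ s : ℂ, MeromorphicAt G s)
    (hGL : ∀ s : ℂ, σ < s.re → G s = L s) :
    ∃ (J : Finset ℂ) (m : ℂ → ℤ), (∀ β ∈ J, β ∈ Rb b c₀) ∧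
      ∀ s ∈ Rb b c₀, meromorphicOrderAt G s = if s ∈ J then (m s : WithTop ℤ) else 0 := by
  classical
  have ho : IsOpen {z : ℂ | σ < z.re} := isOpen_lt continuous_const Complex.continuous_re
  set K : Set ℂ := {z : ℂ | -b ≤ z.re ∧ z.re ≤ σ ∧ |z.im| ≤ |σ| + |b|} with hK
  have hKc : IsCompact K := by
    have hcl : IsClosed K := by
      have e1 : IsClosed {v : ℂ | -b ≤ v.re} := isClosed_le continuous_const Complex.continuous_re
      have e2 : IsClosed {v : ℂ | v.re ≤ σ} := isClosed_le Complex.continuous_re continuous_const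
      have e3 : IsClosed {v : ℂ | |v.im| ≤ |σ| + |b|} :=
        isClosed_le Complex.continuous_im.abs continuous_const
      exact e1.inter (e2.inter e3)
    refine (isCompact_closedBall (0 : ℂ) (2 * (|σ| + |b|))).of_isClosed_subset hcl ?_
    rintro v ⟨h1, h2, h3⟩
    rw [Metric.mem_closedBall, dist_zero_right]
    have h4 : |v.re| ≤ |σ| + |b| := by
      rw [abs_le]
      have := le_abs_self σ
      have := le_abs_self b
      have := neg_abs_le b
      have := abs_nonneg σ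
      have := abs_nonneg b
      constructor <;> linarith
    have := Complex.norm_le_abs_re_add_abs_im v
    linarith
  have hKm : MeromorphicOn G K := fun z _ => hG z
  have hmem : ∀ s ∈ Rb b c₀, ¬ σ < s.re → s ∈ K := by
    rintro s ⟨h1, h2⟩ hs
    push Not at hs
    rw [sq_re, Complex.add_re, Complex.add_im, Complex.ofReal_re, Complex.ofReal_im, add_zero] at h2
    rw [Complex.add_re, Complex.ofReal_re] at h1
    refine ⟨by linarith, hs, ?_⟩
    refine abs_le_of_sq_le_sq ?_ (by positivity)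
    have h3 : (s.re + b) ^ 2 ≤ (|σ| + |b|) ^ 2 := by
      have := le_abs_self σ
      have := le_abs_self b
      have h4 : s.re + b ≤ |σ| + |b| := by linarith
      exact pow_le_pow_left₀ h1.le h4 2
    linarith
  have hfin := (MeromorphicOn.divisor G K).finiteSupport hKc
  have h0 : ∀ s : ℂ, σ < s.re → meromorphicOrderAt G s = 0 := by
    intro s hs
    have k1 : G =ᶠ[𝓝 s] L := by
      filter_upwards [ho.mem_nhds hs] with z hz
      exact hGL z hz
    rw [meromorphicOrderAt_congr (k1.filter_mono nhdsWithin_le_nhds),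
      (hL s hs).1.meromorphicOrderAt_eq, (hL s hs).1.analyticOrderAt_eq_zero.2 (hL s hs).2]
    rfl
  have hne : ∀ s : ℂ, meromorphicOrderAt G s ≠ ⊤ := by
    intro s
    have hm : MeromorphicOn G univ := fun z _ => hG z
    refine hm.meromorphicOrderAt_ne_top_of_isPreconnected
      isPreconnected_univ (x := ((σ + 1 : ℝ) : ℂ)) (mem_univ _) (mem_univ _) ?_
    rw [h0 _ (by rw [Complex.ofReal_re]; linarith)]
    simp
  refine ⟨hfin.toFinset.filter fun s => s ∈ Rb b c₀, fun s => (meromorphicOrderAt G s).untop₀,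
    fun β hβ => (Finset.mem_filter.1 hβ).2, fun s hs => ?_⟩
  by_cases hs2 : σ < s.re
  · simp only [h0 s hs2]
    split_ifs <;> simp
  · have hsK := hmem s hs hs2
    have hcoe := WithTop.coe_untop₀_of_ne_top (hne s)
    split_ifs with h
    · exact hcoe.symm
    · have h1 : s ∉ (MeromorphicOn.divisor G K).support := fun h2 =>
        h (Finset.mem_filter.2 ⟨hfin.mem_toFinset.2 h2, hs⟩)
      rw [Function.mem_support, not_not, MeromorphicOn.divisor_apply hKm hsK] at h1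
      rw [← hcoe, h1]
      rfl

/-- large `b` -/
lemma mem_Rb {κ : ℝ} (hκ : κ < 1) (s : ℂ) :
    ∃ b₀ : ℝ, ∀ b : ℝ, b₀ ≤ b → s ∈ Rb b (κ * b ^ 2) := by
  have hκ' : 0 < 1 - κ := by linarith
  refine ⟨(2 * |s.re| + s.im ^ 2 + 1) / (1 - κ) + |s.re| + 1, fun b hb => ?_⟩
  have h0 : 0 ≤ (2 * |s.re| + s.im ^ 2 + 1) / (1 - κ) := by positivity
  have h1 := neg_abs_le s.re
  have h1' := abs_nonneg s.re
  have h2 : 1 ≤ b := by linarith
  have h3 : 2 * |s.re| + s.im ^ 2 + 1 ≤ (1 - κ) * b := by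
    have : (2 * |s.re| + s.im ^ 2 + 1) / (1 - κ) ≤ b := by linarith
    rw [div_le_iff₀ hκ'] at this
    linarith
  refine ⟨?_, ?_⟩
  · rw [Complex.add_re, Complex.ofReal_re]
    linarith
  · rw [sq_re, Complex.add_re, Complex.add_im, Complex.ofReal_re, Complex.ofReal_im, add_zero]
    have h4 : (2 * |s.re| + s.im ^ 2 + 1) * b ≤ (1 - κ) * b * b :=
      mul_le_mul_of_nonneg_right h3 (by linarith)
    have h5 : s.im ^ 2 ≤ s.im ^ 2 * b := le_mul_of_one_le_right (sq_nonneg _) h2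
    nlinarith [sq_nonneg s.re]

end Pool.Agent.R765.Ga
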