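import Pool.Agent.R765.Ga6
import Pool.Agent.W715.VC.TrPow

/-!
# General Euler products
-/

set_option autoImplicit false

open MeasureTheory Filter Topology Set Complex

namespace Pool.Agent.R765.Ga

section deriv

variable {ι : Type*} {lam : ι → ℝ} {c : ι → ℂ} {l₀ σ : ℝ}

/-- the primitive of a Dirichlet series -/
lemma ser_prim (D : DD lam c l₀ σ) {s : ℂ} (hs : σ < s.re) :
    (Summable fun i => c i / lam i * exp (-(s * lam i))) ∧
    HasDerivAt (ser lam fun i => c i / lam i) (-ser lam c s) s := by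
  set a : ℝ := (σ + s.re) / 2 with ha
  have haσ : σ < a := by rw [ha]; linarith
  have has : a < s.re := by rw [ha]; linarith
  set U : Set ℂ := {w | a < w.re} with hU
  have hUo : IsOpen U := isOpen_lt continuous_const Complex.continuous_re
  have hUc : IsPreconnected U := (convex_halfSpace_re_gt a).isPreconnected
  have hl := D.pos
  have hb : ∀ i (w : ℂ), w ∈ U → ‖c i * exp (-(w * lam i))‖ ≤ ‖c i‖ * Real.exp (-(a * lam i)) := by
    intro i w hw
    have hw' : a < w.re := hw
    rw [norm_mul, Complex.norm_exp, Complex.neg_re, Complex.re_mul_ofReal]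
    have := D.lam_pos i
    gcongr
  have hsum : ∀ w ∈ U, Summable fun i => c i / lam i * exp (-(w * lam i)) := by
    intro w hw
    refine Summable.of_norm_bounded ((D.sum a haσ).mul_left l₀⁻¹) fun i => ?_
    have h1 := hb i w hw
    have h2 := D.low i
    have h3 := D.lam_pos i
    rw [div_mul_eq_mul_div, norm_div, Complex.norm_real, Real.norm_of_nonneg h3.le, div_eq_inv_mul]
    have h4 : (lam i)⁻¹ ≤ l₀⁻¹ := inv_anti₀ hl h2
    exact mul_le_mul h4 h1 (norm_nonneg _) (by positivity)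
  refine ⟨hsum s has, ?_⟩
  have h := hasDerivAt_tsum_of_isPreconnected (D.sum a haσ) hUo hUc
    (g := fun i (w : ℂ) => c i / lam i * exp (-(w * lam i)))
    (g' := fun i (w : ℂ) => -(c i * exp (-(w * lam i))))
    (fun i w _ => ?_) (fun i w hw => by rw [norm_neg]; exact hb i w hw) (y₀ := s) has
    (hsum s has) has
  · rw [tsum_neg] at h
    exact h
  · have h3 := D.lam_pos i
    have h4 : (lam i : ℂ) ≠ 0 := by exact_mod_cast h3.ne'
    have d1 : HasDerivAt (fun w : ℂ => -(w * (lam i : ℂ))) (-(lam i : ℂ)) w := by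
      refine (((hasDerivAt_id w).mul_const (lam i : ℂ)).neg).congr_deriv ?_
      simp
    refine (d1.cexp.const_mul (c i / lam i)).congr_deriv ?_
    field_simp

end deriv

/-- the primes outside `S` -/
abbrev PrS (S : Finset ℕ) : Type := {p : ℕ // p.Prime ∧ p ∉ S}

variable {S : Finset ℕ} {d : ℕ} {M : ℕ → Matrix (Fin d) (Fin d) ℂ} {θ : ℝ}

/-- the frequencies -/
noncomputable def lamE (S : Finset ℕ) (x : PrS S × ℕ) : ℝ := ((x.2 : ℝ) + 1) * Real.log (x.1 : ℕ)

/-- the coefficients -/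
noncomputable def cE (S : Finset ℕ) (M : ℕ → Matrix (Fin d) (Fin d) ℂ) (x : PrS S × ℕ) : ℂ :=
  (M x.1 ^ (x.2 + 1)).trace * (Real.log (x.1 : ℕ) : ℂ)

lemma two_le_p (p : PrS S) : (2 : ℝ) ≤ ((p : ℕ) : ℝ) := by exact_mod_cast p.2.1.two_le

lemma log_pos_p (p : PrS S) : 0 < Real.log ((p : ℕ) : ℝ) :=
  Real.log_pos (by have := two_le_p p; linarith)

lemma log2_le (p : PrS S) : Real.log 2 ≤ Real.log ((p : ℕ) : ℝ) :=
  Real.log_le_log (by norm_num) (two_le_p p)

/-- the bound for the eigenvalues -/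
def Bd (S : Finset ℕ) (M : ℕ → Matrix (Fin d) (Fin d) ℂ) (θ : ℝ) : Prop :=
  ∀ p : ℕ, p.Prime → p ∉ S → ∀ a ∈ (M p).charpoly.roots, ‖a‖ ≤ (p : ℝ) ^ θ

lemma trace_norm (hM : Bd S M θ) (p : PrS S) (k : ℕ) :
    ‖(M p ^ (k + 1)).trace‖ ≤ d * Real.exp (((k : ℝ) + 1) * θ * Real.log (p : ℕ)) := by
  rw [Pool.Agent.W715.VC.trace_pow (M p) (Nat.succ_ne_zero k)]
  have h1 : ∀ x ∈ ((M p).charpoly.roots.map fun a => a ^ (k + 1)),
      ‖x‖ ≤ Real.exp (((k : ℝ) + 1) * θ * Real.log (p : ℕ)) := by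
    intro x hx
    obtain ⟨a, ha, rfl⟩ := Multiset.mem_map.1 hx
    have h2 := hM p p.2.1 p.2.2 a ha
    have hp : (0 : ℝ) < ((p : ℕ) : ℝ) := by linarith [two_le_p p]
    rw [norm_pow]
    calc ‖a‖ ^ (k + 1) ≤ (((p : ℕ) : ℝ) ^ θ) ^ (k + 1) := pow_le_pow_left₀ (norm_nonneg _) h2 _
      _ = _ := by
        rw [Real.rpow_def_of_pos hp, ← Real.exp_nat_mul]
        congr 1
        push_cast
        ring
  have h2 : ((M p).charpoly.roots.map fun a => a ^ (k + 1)).card ≤ d := by
    rw [Multiset.card_map]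
    have := Polynomial.card_roots' (M p).charpoly
    rwa [Matrix.charpoly_natDegree_eq_dim, Fintype.card_fin] at this
  refine (norm_multiset_sum_le _).trans ?_
  have h3 := Multiset.sum_le_card_nsmul
    (((M p).charpoly.roots.map fun a => a ^ (k + 1)).map fun x => ‖x‖)
    (Real.exp (((k : ℝ) + 1) * θ * Real.log (p : ℕ))) (fun x hx => by
      obtain ⟨y, hy, rfl⟩ := Multiset.mem_map.1 hx
      exact h1 y hy)
  refine h3.trans ?_
  rw [Multiset.card_map, nsmul_eq_mul]
  refine mul_le_mul_of_nonneg_right ?_ (Real.exp_pos _).le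
  exact_mod_cast h2

/-- `∑ log n n^{-η} < ∞` -/
lemma sum_log {η : ℝ} (hη : 1 < η) :
    Summable fun p : PrS S => Real.log (p : ℕ) * Real.exp (-(η * Real.log (p : ℕ))) := by
  set δ : ℝ := (η - 1) / 2 with hδ
  have hδ0 : 0 < δ := by rw [hδ]; linarith
  have h1 : Summable fun n : ℕ => (n : ℝ) ^ (-(1 + δ)) :=
    Real.summable_nat_rpow.2 (by linarith)
  have h2 : Summable fun p : PrS S => δ⁻¹ * ((p : ℕ) : ℝ) ^ (-(1 + δ)) :=
    (h1.comp_injective Subtype.val_injective).mul_left _
  refine Summable.of_nonneg_of_le (fun p => mul_nonneg (log_pos_p p).le (Real.exp_pos _).le)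
    (fun p => ?_) h2
  have hp : (0 : ℝ) < ((p : ℕ) : ℝ) := by linarith [two_le_p p]
  have h3 := Real.log_le_rpow_div hp.le hδ0
  have e1 : Real.exp (-(η * Real.log (p : ℕ))) = ((p : ℕ) : ℝ) ^ (-η) := by
    rw [Real.rpow_def_of_pos hp]
    congr 1
    ring
  rw [e1]
  calc Real.log (p : ℕ) * ((p : ℕ) : ℝ) ^ (-η) ≤
        (((p : ℕ) : ℝ) ^ δ / δ) * ((p : ℕ) : ℝ) ^ (-η) := by gcongr
    _ = δ⁻¹ * (((p : ℕ) : ℝ) ^ δ * ((p : ℕ) : ℝ) ^ (-η)) := by ring
    _ = _ := by
      rw [← Real.rpow_add hp]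
      congr 2
      rw [hδ]
      ring

/-- the data of the logarithmic derivative -/
lemma DD_E (hM : Bd S M θ) : DD (lamE S) (cE S M) (Real.log 2) (1 + θ) where
  pos := Real.log_pos (by norm_num)
  low := fun x => by
    unfold lamE
    have h1 := log2_le x.1
    have h2 : 0 < Real.log 2 := Real.log_pos (by norm_num)
    have h3 : (0 : ℝ) ≤ x.2 := Nat.cast_nonneg _
    nlinarith
  sum := fun a ha => by
    set η : ℝ := a - θ with hη
    have hη1 : 1 < η := by rw [hη]; linarith
    have h2 : 0 < Real.log 2 := Real.log_pos (by norm_num)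
    have s1 := sum_log (S := S) hη1
    have s2 : Summable fun k : ℕ => (Real.exp (-(η * Real.log 2))) ^ k :=
      summable_geometric_of_lt_one (Real.exp_pos _).le (by
        rw [← Real.exp_zero]
        exact Real.exp_lt_exp.2 (by nlinarith))
    have s3 := s1.mul_of_nonneg s2 (fun p => mul_nonneg (log_pos_p p).le (Real.exp_pos _).le)
      (fun k => by positivity)
    refine Summable.of_nonneg_of_le (fun x => by positivity) (fun x => ?_) (s3.mul_left (d : ℝ))
    have h4 := trace_norm hM x.1 x.2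
    have h5 := log_pos_p x.1
    have h6 := log2_le x.1
    have h7 : (0 : ℝ) ≤ x.2 := Nat.cast_nonneg _
    unfold cE lamE
    rw [norm_mul, Complex.norm_real, Real.norm_of_nonneg h5.le]
    have h8 : Real.exp (((x.2 : ℝ) + 1) * θ * Real.log (x.1 : ℕ)) *
        Real.exp (-(a * (((x.2 : ℝ) + 1) * Real.log (x.1 : ℕ)))) ≤
        Real.exp (-(η * Real.log (x.1 : ℕ))) * Real.exp (-(η * Real.log 2)) ^ x.2 := by
      rw [← Real.exp_add, ← Real.exp_nat_mul, ← Real.exp_add]
      refine Real.exp_le_exp.2 ?_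
      have e1 : ((x.2 : ℝ) + 1) * θ * Real.log (x.1 : ℕ) +
          -(a * (((x.2 : ℝ) + 1) * Real.log (x.1 : ℕ))) =
          -(η * Real.log (x.1 : ℕ)) - (x.2 : ℝ) * (η * Real.log (x.1 : ℕ)) := by
        rw [hη]
        ring
      rw [e1]
      have e2 : (x.2 : ℝ) * (η * Real.log 2) ≤ (x.2 : ℝ) * (η * Real.log (x.1 : ℕ)) := by
        gcongr
      linarith
    calc ‖(M x.1 ^ (x.2 + 1)).trace‖ * Real.log (x.1 : ℕ) *
          Real.exp (-(a * (((x.2 : ℝ) + 1) * Real.log (x.1 : ℕ)))) ≤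
          (d * Real.exp (((x.2 : ℝ) + 1) * θ * Real.log (x.1 : ℕ))) * Real.log (x.1 : ℕ) *
          Real.exp (-(a * (((x.2 : ℝ) + 1) * Real.log (x.1 : ℕ)))) := by gcongr
      _ = d * (Real.log (x.1 : ℕ) * (Real.exp (((x.2 : ℝ) + 1) * θ * Real.log (x.1 : ℕ)) *
          Real.exp (-(a * (((x.2 : ℝ) + 1) * Real.log (x.1 : ℕ)))))) := by ring
      _ ≤ d * (Real.log (x.1 : ℕ) * (Real.exp (-(η * Real.log (x.1 : ℕ))) *
          Real.exp (-(η * Real.log 2)) ^ x.2)) := by gcongr
      _ = _ := by ring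

/-- the Euler product -/
noncomputable def LEu (S : Finset ℕ) (M : ℕ → Matrix (Fin d) (Fin d) ℂ) (s : ℂ) : ℂ :=
  ∏' p : PrS S, ((1 - ((p : ℕ) : ℂ) ^ (-s) • M p).det)⁻¹

lemma det_roots (B : Matrix (Fin d) (Fin d) ℂ) (z : ℂ) :
    (1 - z • B).det = (B.charpoly.roots.map fun a => 1 - a * z).prod := by
  have h1 : ∀ w : ℂ, (Matrix.scalar (Fin d) w - B).det = (B.charpoly.roots.map fun a => w - a).prod := by
    intro w
    rw [← Matrix.eval_charpoly]
    have h3 : B.charpoly = (Multiset.map (fun a => Polynomial.X - Polynomial.C a)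
        B.charpoly.roots).prod :=
      ((IsAlgClosed.splits B.charpoly).eq_prod_roots_of_monic (Matrix.charpoly_monic B))
    conv_lhs => rw [h3]
    rw [Polynomial.eval_multiset_prod, Multiset.map_map]
    congr 1
    refine Multiset.map_congr rfl fun a _ => ?_
    simp
  by_cases hz : z = 0
  · simp [hz]
  · have h2 : (1 - z • B) = z • (Matrix.scalar (Fin d) z⁻¹ - B) := by
      rw [smul_sub]
      congr 1
      ext i j
      simp only [Matrix.scalar_apply, Matrix.smul_apply, Matrix.diagonal_apply, smul_eq_mul,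
        Matrix.one_apply]
      split_ifs
      · rw [mul_inv_cancel₀ hz]
      · rw [mul_zero]
    have hcard : B.charpoly.roots.card = d := by
      have := (IsAlgClosed.splits B.charpoly).natDegree_eq_card_roots
      rw [Matrix.charpoly_natDegree_eq_dim, Fintype.card_fin] at this
      exact this.symm
    have e : z ^ d = (B.charpoly.roots.map fun _ => z).prod := by
      rw [Multiset.map_const', Multiset.prod_replicate, hcard]
    rw [h2, Matrix.det_smul, h1, Fintype.card_fin, e, ← Multiset.prod_map_mul]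
    congr 1
    refine Multiset.map_congr rfl fun a _ => ?_
    field_simp

/-- **The Euler product is the exponential of the Dirichlet series.** -/
theorem LEu_eq (hM : Bd S M θ) {s : ℂ} (hs : 1 + θ < s.re) :
    LEu S M s = exp (ser (lamE S) (fun x => cE S M x / lamE S x) s) := by
  have hsum := (ser_prim (DD_E hM) hs).1
  have hloc : ∀ p : PrS S, HasSum (fun k : ℕ => cE S M (p, k) / lamE S (p, k) *
      exp (-(s * lamE S (p, k))))
      ((M p).charpoly.roots.map fun a => -Complex.log (1 - a * ((p : ℕ) : ℂ) ^ (-s))).sum := by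
    intro p
    have hp : (0 : ℝ) < ((p : ℕ) : ℝ) := by linarith [two_le_p p]
    have hpc : ((p : ℕ) : ℂ) ≠ 0 := by exact_mod_cast hp.ne'
    have hlog := log_pos_p p
    set z : ℂ := ((p : ℕ) : ℂ) ^ (-s) with hz
    have hzn : ‖z‖ = ((p : ℕ) : ℝ) ^ (-s.re) := by
      rw [hz, Complex.norm_natCast_cpow_of_pos (by exact_mod_cast hp), Complex.neg_re]
    have hsm : ∀ a ∈ (M p).charpoly.roots, ‖a * z‖ < 1 := by
      intro a ha
      have h1 := hM p p.2.1 p.2.2 a ha
      rw [norm_mul, hzn]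
      calc ‖a‖ * ((p : ℕ) : ℝ) ^ (-s.re) ≤ ((p : ℕ) : ℝ) ^ θ * ((p : ℕ) : ℝ) ^ (-s.re) := by gcongr
        _ = ((p : ℕ) : ℝ) ^ (θ - s.re) := by
          rw [← Real.rpow_add hp]
          rfl
        _ < 1 := Real.rpow_lt_one_of_one_lt_of_neg (by linarith [two_le_p p]) (by linarith)
    have hterm : ∀ k : ℕ, cE S M (p, k) / lamE S (p, k) * exp (-(s * lamE S (p, k))) =
        ((M p).charpoly.roots.map fun a => (a * z) ^ (k + 1) / ((k + 1 : ℕ) : ℂ)).sum := by
      intro k
      unfold cE lamE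
      simp only
      rw [Pool.Agent.W715.VC.trace_pow (M p) (Nat.succ_ne_zero k)]
      have hlc : ((Real.log (p : ℕ) : ℝ) : ℂ) ≠ 0 := by exact_mod_cast hlog.ne'
      have hk : ((k : ℂ) + 1) ≠ 0 := by exact_mod_cast Nat.succ_ne_zero k
      have e1 : exp (-(s * ((((k : ℝ) + 1) * Real.log (p : ℕ) : ℝ) : ℂ))) = z ^ (k + 1) := by
        rw [hz, Complex.cpow_def_of_ne_zero hpc, ← Complex.exp_nat_mul]
        congr 1
        have : Complex.log ((p : ℕ) : ℂ) = ((Real.log (p : ℕ) : ℝ) : ℂ) := by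
          rw [Complex.ofReal_log hp.le]
          rfl
        rw [this]
        push_cast
        ring
      rw [e1]
      have e2 : ((M p).charpoly.roots.map fun a => (a * z) ^ (k + 1) / ((k + 1 : ℕ) : ℂ)) =
          (M p).charpoly.roots.map fun a => a ^ (k + 1) * (z ^ (k + 1) / ((k + 1 : ℕ) : ℂ)) := by
        refine Multiset.map_congr rfl fun a _ => ?_
        rw [mul_pow]
        ring
      rw [e2, Multiset.sum_map_mul_right]
      obtain ⟨w, hw⟩ : ∃ w : ℝ, w = Real.log (p : ℕ) := ⟨_, rfl⟩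
      rw [← hw] at hlc ⊢
      push_cast
      field_simp
    simp only [hterm]
    have key : ∀ R : Multiset ℂ, (∀ a ∈ R, ‖a * z‖ < 1) →
        HasSum (fun k : ℕ => (R.map fun a => (a * z) ^ (k + 1) / ((k + 1 : ℕ) : ℂ)).sum)
          (R.map fun a => -Complex.log (1 - a * z)).sum := by
      intro R
      induction R using Multiset.induction_on with
      | empty => intro _; simp
      | cons a R ih =>
        intro hR
        have h1 : HasSum (fun k : ℕ => (a * z) ^ (k + 1) / ((k + 1 : ℕ) : ℂ))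
            (-Complex.log (1 - a * z)) := by
          have h2 := Complex.hasSum_taylorSeries_neg_log (hR a (Multiset.mem_cons_self a R))
          rw [← hasSum_nat_add_iff' 1] at h2
          simpa only [Finset.range_one, Finset.sum_singleton, pow_zero, CharP.cast_eq_zero,
            div_zero, sub_zero] using h2
        have h3 := h1.add (ih fun b hb => hR b (Multiset.mem_cons_of_mem hb))
        simpa only [Multiset.map_cons, Multiset.sum_cons] using h3
    exact key _ hsm
  have h1 : HasSum (fun p : PrS S =>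
      ((M p).charpoly.roots.map fun a => -Complex.log (1 - a * ((p : ℕ) : ℂ) ^ (-s))).sum)
      (ser (lamE S) (fun x => cE S M x / lamE S x) s) :=
    hsum.hasSum.prod_fiberwise hloc
  have h2 := h1.cexp
  unfold LEu
  rw [← h2.tprod_eq]
  refine tprod_congr fun p => ?_
  simp only [Function.comp_apply]
  have hp : (0 : ℝ) < ((p : ℕ) : ℝ) := by linarith [two_le_p p]
  set z : ℂ := ((p : ℕ) : ℂ) ^ (-s) with hz
  have hzn : ‖z‖ = ((p : ℕ) : ℝ) ^ (-s.re) := by
    rw [hz, Complex.norm_natCast_cpow_of_pos (by exact_mod_cast hp), Complex.neg_re]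
  have hsm : ∀ a ∈ (M p).charpoly.roots, 1 - a * z ≠ 0 := by
    intro a ha h
    have h1 := hM p p.2.1 p.2.2 a ha
    have h2 : ‖a * z‖ < 1 := by
      rw [norm_mul, hzn]
      calc ‖a‖ * ((p : ℕ) : ℝ) ^ (-s.re) ≤ ((p : ℕ) : ℝ) ^ θ * ((p : ℕ) : ℝ) ^ (-s.re) := by gcongr
        _ = ((p : ℕ) : ℝ) ^ (θ - s.re) := by
          rw [← Real.rpow_add hp]
          rfl
        _ < 1 := Real.rpow_lt_one_of_one_lt_of_neg (by linarith [two_le_p p]) (by linarith)
    rw [← sub_eq_zero.1 h, norm_one] at h2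
    exact lt_irrefl _ h2
  rw [det_roots]
  have key : ∀ R : Multiset ℂ, (∀ a ∈ R, 1 - a * z ≠ 0) →
      ((R.map fun a => 1 - a * z).prod)⁻¹ = exp (R.map fun a => -Complex.log (1 - a * z)).sum := by
    intro R
    induction R using Multiset.induction_on with
    | empty => intro _; simp
    | cons a R ih =>
      intro hR
      rw [Multiset.map_cons, Multiset.prod_cons, Multiset.map_cons, Multiset.sum_cons,
        Complex.exp_add, Complex.exp_neg, Complex.exp_log (hR a (Multiset.mem_cons_self a R)),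
        mul_inv, ih fun b hb => hR b (Multiset.mem_cons_of_mem hb)]
  exact key _ hsm

/-- the logarithmic derivative -/
theorem LEu_deriv (hM : Bd S M θ) {s : ℂ} (hs : 1 + θ < s.re) :
    HasDerivAt (LEu S M) (-(ser (lamE S) (cE S M) s * LEu S M s)) s ∧ LEu S M s ≠ 0 := by
  have ho : IsOpen {z : ℂ | 1 + θ < z.re} := isOpen_lt continuous_const Complex.continuous_re
  have h1 := (ser_prim (DD_E hM) hs).2.cexp
  have h2 : LEu S M =ᶠ[𝓝 s] fun z => exp (ser (lamE S) (fun x => cE S M x / lamE S x) z) := by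
    filter_upwards [ho.mem_nhds hs] with z hz
    exact LEu_eq hM hz
  refine ⟨(h1.congr_of_eventuallyEq h2).congr_deriv ?_, ?_⟩
  · rw [LEu_eq hM hs]
    ring
  · rw [LEu_eq hM hs]
    exact Complex.exp_ne_zero _

end Pool.Agent.R765.Ga
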