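import Pool.Agent.TH942.SL.Ext2

/-!
# The entire exponential integral and its Laplace transform
-/

set_option autoImplicit false

open MeasureTheory Filter Topology Set Complex

namespace Pool.Agent.R765.Mer

open Pool.Agent.TH942.SL

/-- `(e^z - 1)/z` -/
noncomputable def E1 (z : ℂ) : ℂ := dslope exp 0 z

lemma E1_of_ne {z : ℂ} (hz : z ≠ 0) : E1 z = (exp z - 1) / z := by
  unfold E1
  rw [dslope_of_ne _ hz, slope_def_field, exp_zero, sub_zero]

lemma E1_cont : Continuous E1 := by
  rw [← continuousOn_univ]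
  exact (continuousOn_dslope univ_mem).2 ⟨Complex.continuous_exp.continuousOn,
    Complex.differentiableAt_exp⟩

lemma E1_norm (z : ℂ) : ‖E1 z‖ ≤ Real.exp ‖z‖ := by
  by_cases hz : z = 0
  · subst hz
    unfold E1
    rw [dslope_same, Complex.deriv_exp]
    simp
  · rw [E1_of_ne hz, norm_div, div_le_iff₀ (norm_pos_iff.2 hz)]
    have := Complex.norm_exp_sub_sum_le_norm_mul_exp z 1
    simp only [Finset.range_one, Finset.sum_singleton, pow_zero, Nat.factorial_zero, Nat.cast_one,
      div_one, pow_one] at this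
    rwa [mul_comm]

/-- `∫_0^1 (e^{t w y} - 1)/t dt` -/
noncomputable def Ein (w : ℂ) (y : ℝ) : ℂ := w * y * ∫ t in (0 : ℝ)..1, E1 (t * w * y)

lemma Ein_cont (w : ℂ) : Continuous (Ein w) := by
  unfold Ein
  refine (continuous_const.mul Complex.continuous_ofReal).mul ?_
  exact intervalIntegral.continuous_parametric_intervalIntegral_of_continuous'
    (f := fun (y t : ℝ) => E1 (t * w * y)) (E1_cont.comp (by fun_prop)) 0 1

lemma Ein_norm (w : ℂ) {y : ℝ} (hy : 0 ≤ y) : ‖Ein w y‖ ≤ ‖w‖ * y * Real.exp (‖w‖ * y) := by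
  unfold Ein
  rw [norm_mul, norm_mul, Complex.norm_real, Real.norm_of_nonneg hy]
  refine mul_le_mul_of_nonneg_left ?_ (by positivity)
  have h := intervalIntegral.norm_integral_le_of_norm_le_const (a := (0 : ℝ)) (b := 1)
    (f := fun t : ℝ => E1 (t * w * y)) (C := Real.exp (‖w‖ * y)) fun t ht => by
      rw [uIoc_of_le zero_le_one] at ht
      refine (E1_norm _).trans (Real.exp_le_exp.2 ?_)
      rw [norm_mul, norm_mul, Complex.norm_real, Complex.norm_real, Real.norm_of_nonneg ht.1.le,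
        Real.norm_of_nonneg hy]
      have := ht.2
      have h1 : 0 ≤ ‖w‖ * y := by positivity
      nlinarith
  simpa using h

/-- the comparison function -/
noncomputable def gE (w : ℂ) (y : ℝ) : ℂ := (max y 0 : ℝ) * Ein w (max y 0)

lemma gE_cont (w : ℂ) : Continuous (gE w) := by
  unfold gE
  exact (Complex.continuous_ofReal.comp (by fun_prop)).mul ((Ein_cont w).comp (by fun_prop))

lemma gE_pos (w : ℂ) {y : ℝ} (hy : 0 ≤ y) : gE w y = y * Ein w y := by
  unfold gE
  rw [max_eq_left hy]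

lemma gE_neg (w : ℂ) {y : ℝ} (hy : y ≤ 0) : gE w y = 0 := by
  unfold gE
  rw [max_eq_right hy]
  simp

/-- `∫ y e^{-zy} dy = z⁻²` -/
lemma lap_id {z : ℂ} (hz : 0 < z.re) :
    IntegrableOn (fun y : ℝ => (y : ℂ) * exp (-(z * y))) (Ioi 0) ∧
      ∫ y in Ioi (0 : ℝ), (y : ℂ) * exp (-(z * y)) = (z ^ 2)⁻¹ := by
  have hz0 : z ≠ 0 := fun h => by rw [h] at hz; simp at hz
  obtain ⟨⟨k1, -⟩, ⟨k2, -⟩, -⟩ := exp_ints hz
  have hnorm : ∀ y : ℝ, ‖exp (-(z * y))‖ = Real.exp (-(z.re * y)) := fun y => by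
    rw [Complex.norm_exp, Complex.neg_re, Complex.re_mul_ofReal]
  have hi : IntegrableOn (fun y : ℝ => (y : ℂ) * exp (-(z * y))) (Ioi 0) := by
    refine Integrable.mono' k2 (Continuous.aestronglyMeasurable (by fun_prop)) ?_
    filter_upwards [ae_restrict_mem measurableSet_Ioi] with y hy
    have hy' : 0 < y := hy
    rw [norm_mul, hnorm, Complex.norm_real, Real.norm_of_nonneg hy'.le]
  refine ⟨hi, ?_⟩
  set F : ℝ → ℂ := fun y => -((y / z + (z ^ 2)⁻¹) * exp (-(z * y))) with hF
  have hd : ∀ y ∈ Ioi (0 : ℝ), HasDerivAt F ((y : ℂ) * exp (-(z * y))) y := by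
    intro y _
    have d1 : HasDerivAt (fun y : ℝ => (y : ℂ) / z + (z ^ 2)⁻¹) (1 / z) y :=
      ((hasDerivAt_id y).ofReal_comp.div_const z).add_const _
    have d2 : HasDerivAt (fun y : ℝ => -(z * (y : ℂ))) (-z) y := by
      refine (((hasDerivAt_id y).ofReal_comp.const_mul z).neg).congr_deriv ?_
      simp
    refine ((d1.mul d2.cexp).neg).congr_deriv ?_
    field_simp
    ring
  have hlim : Tendsto F atTop (𝓝 0) := by
    have h1 : Tendsto (fun y : ℝ => y * Real.exp (-(z.re * y))) atTop (𝓝 0) := by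
      have e1 := Real.tendsto_pow_mul_exp_neg_atTop_nhds_zero 1
      have e2 : Tendsto (fun y : ℝ => z.re * y) atTop atTop := tendsto_id.const_mul_atTop hz
      have e3 := (e1.comp e2).const_mul (z.re)⁻¹
      rw [mul_zero] at e3
      refine e3.congr fun y => ?_
      simp only [Function.comp_apply, pow_one]
      field_simp
    have h2 : Tendsto (fun y : ℝ => Real.exp (-(z.re * y))) atTop (𝓝 0) := by
      have e2 : Tendsto (fun y : ℝ => z.re * y) atTop atTop := tendsto_id.const_mul_atTop hz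
      exact Real.tendsto_exp_neg_atTop_nhds_zero.comp e2
    have h3 := (h1.const_mul ‖z‖⁻¹).add (h2.const_mul ‖(z ^ 2)⁻¹‖)
    rw [mul_zero, mul_zero, add_zero] at h3
    refine squeeze_zero_norm' ?_ h3
    filter_upwards [eventually_ge_atTop 0] with y hy
    rw [hF]
    simp only
    rw [norm_neg, norm_mul, hnorm]
    have h4 : ‖(y : ℂ) / z + (z ^ 2)⁻¹‖ ≤ y * ‖z‖⁻¹ + ‖(z ^ 2)⁻¹‖ := by
      refine (norm_add_le _ _).trans (le_of_eq ?_)
      rw [norm_div, Complex.norm_real, Real.norm_of_nonneg hy, div_eq_mul_inv]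
    calc _ ≤ (y * ‖z‖⁻¹ + ‖(z ^ 2)⁻¹‖) * Real.exp (-(z.re * y)) :=
          mul_le_mul_of_nonneg_right h4 (Real.exp_pos _).le
      _ = _ := by ring
  have h5 := integral_Ioi_of_hasDerivAt_of_tendsto (a := 0) (f := F)
    (f' := fun y : ℝ => (y : ℂ) * exp (-(z * y))) (by
      refine Continuous.continuousWithinAt ?_
      rw [hF]
      fun_prop) hd hi hlim
  rw [h5, hF]
  simp

/-- the Laplace transform of `y (e^{t w y} - 1)/t` -/
lemma lap_t {w v : ℂ} (hv : ‖w‖ < v.re) {t : ℝ} (ht : t ∈ Ioc (0 : ℝ) 1) :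
    ∫ y in Ioi (0 : ℝ), exp (-(v * y)) * (y * (w * y * E1 (t * w * y))) =
      w * (2 * v - t * w) / (v ^ 2 * (v - t * w) ^ 2) := by
  have hw := norm_nonneg w
  have hv0 : 0 < v.re := hw.trans_lt hv
  have hvt : 0 < (v - t * w).re := by
    rw [Complex.sub_re, Complex.re_ofReal_mul]
    have h1 := Complex.re_le_norm w
    have h2 : t * w.re ≤ ‖w‖ := by
      have h3 := ht.1
      have h4 := ht.2
      nlinarith
    linarith
  have htc : (t : ℂ) ≠ 0 := by exact_mod_cast ht.1.ne'
  obtain ⟨i1, e1⟩ := lap_id hvt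
  obtain ⟨i2, e2⟩ := lap_id hv0
  have hne1 : v ≠ 0 := fun h => by rw [h] at hv0; simp at hv0
  have hne2 : v - t * w ≠ 0 := fun h => by rw [h] at hvt; simp at hvt
  have h3 : ∀ y ∈ Ioi (0 : ℝ), exp (-(v * y)) * (y * (w * y * E1 (t * w * y))) =
      (t : ℂ)⁻¹ * ((y : ℂ) * exp (-((v - t * w) * y)) - (y : ℂ) * exp (-(v * y))) := by
    intro y hy
    have hy0 : (y : ℂ) ≠ 0 := by
      have : (0 : ℝ) < y := hy
      exact_mod_cast this.ne'
    have h4 : exp (-((v - t * w) * y)) = exp (-(v * y)) * exp (t * w * y) := by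
      rw [← Complex.exp_add]
      congr 1
      ring
    rw [h4]
    by_cases hw0 : w = 0
    · rw [hw0]
      simp
    · rw [E1_of_ne (mul_ne_zero (mul_ne_zero htc hw0) hy0)]
      field_simp
  rw [setIntegral_congr_fun measurableSet_Ioi h3, integral_const_mul, integral_sub i1 i2, e1, e2]
  field_simp
  ring

/-- **The Laplace transform of `y Ein(w, y)`.** -/
theorem lap_gE {w v : ℂ} (hv : ‖w‖ < v.re) :
    ∫ y in Ioi (0 : ℝ), exp (-(v * y)) * gE w y =
      -log (1 - w / v) / v ^ 2 + w / (v ^ 2 * (v - w)) := by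
  have hw := norm_nonneg w
  have hv0 : 0 < v.re := hw.trans_lt hv
  have hne1 : v ≠ 0 := fun h => by rw [h] at hv0; simp at hv0
  set F : ℝ → ℝ → ℂ := fun y t => exp (-(v * y)) * (y * (w * y * E1 (t * w * y))) with hF
  have hFc : Continuous (Function.uncurry F) := by
    rw [hF]
    have h1 : Continuous fun p : ℝ × ℝ => E1 (p.2 * w * p.1) := E1_cont.comp (by fun_prop)
    unfold Function.uncurry
    fun_prop
  -- integrability
  have hdom : Integrable (fun p : ℝ × ℝ => ‖w‖ * (p.1 ^ 2 * Real.exp (-((v.re - ‖w‖) * p.1))))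
      ((volume.restrict (Ioi (0 : ℝ))).prod (volume.restrict (Ioc (0 : ℝ) 1))) := by
    obtain ⟨-, -, ⟨h1, -⟩⟩ := exp_ints (x := v.re - ‖w‖) (by linarith)
    exact (Integrable.comp_fst h1 _).const_mul _
  have hint : Integrable (Function.uncurry F)
      ((volume.restrict (Ioi (0 : ℝ))).prod (volume.restrict (Ioc (0 : ℝ) 1))) := by
    refine hdom.mono' hFc.aestronglyMeasurable ?_
    rw [Measure.prod_restrict]
    refine (ae_restrict_iff' (measurableSet_Ioi.prod measurableSet_Ioc)).2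
      (ae_of_all _ fun p hp => ?_)
    obtain ⟨hp1, hp2⟩ := hp
    have hp1' : 0 < p.1 := hp1
    simp only [Function.uncurry, hF]
    rw [norm_mul, Complex.norm_exp, norm_mul, norm_mul, norm_mul, Complex.norm_real,
      Real.norm_of_nonneg hp1'.le]
    have h1 : (-(v * (p.1 : ℂ))).re = -(v.re * p.1) := by
      rw [Complex.neg_re, Complex.re_mul_ofReal]
    have h2 : ‖E1 (p.2 * w * p.1)‖ ≤ Real.exp (‖w‖ * p.1) := by
      refine (E1_norm _).trans (Real.exp_le_exp.2 ?_)
      rw [norm_mul, norm_mul, Complex.norm_real, Complex.norm_real, Real.norm_of_nonneg hp2.1.le,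
        Real.norm_of_nonneg hp1'.le]
      have := hp2.2
      have h3 : 0 ≤ ‖w‖ * p.1 := by positivity
      nlinarith
    rw [h1]
    calc Real.exp (-(v.re * p.1)) * (p.1 * (‖w‖ * p.1 * ‖E1 (p.2 * w * p.1)‖)) ≤
          Real.exp (-(v.re * p.1)) * (p.1 * (‖w‖ * p.1 * Real.exp (‖w‖ * p.1))) := by gcongr
      _ = ‖w‖ * (p.1 ^ 2 * (Real.exp (-(v.re * p.1)) * Real.exp (‖w‖ * p.1))) := by ring
      _ = _ := by
        rw [← Real.exp_add]
        congr 3
        ring
  have hsw := integral_integral_swap hint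
  have h1 : ∀ y ∈ Ioi (0 : ℝ), exp (-(v * y)) * gE w y = ∫ t in Ioc (0 : ℝ) 1, F y t := by
    intro y hy
    rw [gE_pos w (le_of_lt hy)]
    unfold Ein
    rw [intervalIntegral.integral_of_le zero_le_one, hF]
    simp only
    rw [integral_const_mul, integral_const_mul, integral_const_mul]
  rw [setIntegral_congr_fun measurableSet_Ioi h1, hsw]
  rw [setIntegral_congr_fun measurableSet_Ioc fun t ht => lap_t hv ht,
    ← intervalIntegral.integral_of_le zero_le_one]
  -- the elementary integral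
  have hvt : ∀ t : ℝ, t ∈ Icc (0 : ℝ) 1 → 0 < (v - t * w).re := by
    intro t ht
    rw [Complex.sub_re, Complex.re_ofReal_mul]
    have h1 := Complex.re_le_norm w
    have h2 : t * w.re ≤ ‖w‖ := by
      have h3 := ht.1
      have h4 := ht.2
      nlinarith
    linarith
  have hne : ∀ t : ℝ, t ∈ Icc (0 : ℝ) 1 → v - t * w ≠ 0 := fun t ht h => by
    have := hvt t ht
    rw [h] at this
    simp at this
  have hvn : ‖w‖ < ‖v‖ := hv.trans_le (Complex.re_le_norm v)
  have hslit : ∀ t : ℝ, t ∈ Icc (0 : ℝ) 1 → 1 - t * w / v ∈ slitPlane := by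
    intro t ht
    left
    have h3 : ‖(t : ℂ) * w / v‖ < 1 := by
      rw [norm_div, norm_mul, Complex.norm_real, Real.norm_of_nonneg ht.1,
        div_lt_one (hw.trans_lt hvn)]
      have := ht.2
      nlinarith
    have h4 := (Complex.re_le_norm ((t : ℂ) * w / v)).trans_lt h3
    rw [Complex.sub_re, Complex.one_re]
    linarith
  have hder : ∀ t ∈ uIcc (0 : ℝ) 1, HasDerivAt
      (fun t : ℝ => -log (1 - t * w / v) / v ^ 2 + t * w / (v ^ 2 * (v - t * w)))
      (w * (2 * v - t * w) / (v ^ 2 * (v - t * w) ^ 2)) t := by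
    intro t ht
    rw [uIcc_of_le zero_le_one] at ht
    have d1 : HasDerivAt (fun t : ℝ => (t : ℂ) * w) w t := by
      have := (hasDerivAt_id t).ofReal_comp.mul_const w
      simpa using this
    have d2 : HasDerivAt (fun t : ℝ => 1 - (t : ℂ) * w / v) (-(w / v)) t := (d1.div_const v).const_sub 1
    have d3 := (d2.clog_real (hslit t ht)).neg.div_const (v ^ 2)
    have d4 : HasDerivAt (fun t : ℝ => v ^ 2 * (v - (t : ℂ) * w)) (v ^ 2 * (-w)) t :=
      (d1.const_sub v).const_mul _
    have h5 := hne t ht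
    have h6 : v ^ 2 * (v - t * w) ≠ 0 := mul_ne_zero (pow_ne_zero 2 hne1) h5
    have d5 := d1.div d4 h6
    refine (d3.add d5).congr_deriv ?_
    have h7 : 1 - (t : ℂ) * w / v = (v - t * w) / v := by field_simp
    rw [h7]
    field_simp
    ring
  have hci : ContinuousOn (fun t : ℝ => w * (2 * v - t * w) / (v ^ 2 * (v - t * w) ^ 2))
      (uIcc (0 : ℝ) 1) := by
    refine ContinuousOn.div (by fun_prop) (by fun_prop) fun t ht => ?_
    rw [uIcc_of_le zero_le_one] at ht
    exact mul_ne_zero (pow_ne_zero 2 hne1) (pow_ne_zero 2 (hne t ht))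
  rw [intervalIntegral.integral_eq_sub_of_hasDerivAt hder hci.intervalIntegrable]
  simp

/-- **Laplace inversion** for continuous functions -/
theorem inv_lap {H : ℂ → ℂ} {c : ℝ} {g : ℝ → ℂ} (hg : Continuous g)
    (hgi : Integrable fun y : ℝ => exp (-(c * y)) * g y)
    (hH : ∀ t : ℝ, ∫ y : ℝ, exp (-((c + t * I) * y)) * g y = H (c + t * I))
    (hi : Integrable fun t : ℝ => H (c + t * I)) (y : ℝ) :
    g y = V c (fun z => exp (z * y) * H z) := by
  have hpi := Real.pi_pos
  have h2pi : (0 : ℝ) < 2 * Real.pi := by positivity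
  set f : ℝ → ℂ := fun y => exp (-(c * y)) * g y with hf
  have hfc : Continuous f := by rw [hf]; fun_prop
  have hF : ∀ ξ : ℝ, FourierTransform.fourier f ξ = H (c + ((2 * Real.pi * ξ : ℝ) : ℂ) * I) := by
    intro ξ
    rw [Real.fourier_eq', ← hH]
    refine integral_congr_ae (ae_of_all _ fun y => ?_)
    simp only [hf, smul_eq_mul, RCLike.inner_apply, conj_trivial]
    rw [← mul_assoc, ← Complex.exp_add]
    congr 2
    push_cast
    ring
  have hFi : Integrable (FourierTransform.fourier f) := by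
    have h1 : Integrable fun ξ : ℝ => H (c + ((2 * Real.pi * ξ : ℝ) : ℂ) * I) :=
      hi.comp_mul_left' (R := 2 * Real.pi) (by linarith)
    exact h1.congr (ae_of_all _ fun ξ => (hF ξ).symm)
  have h1 := hgi.fourierInv_fourier_eq hFi (v := y) hfc.continuousAt
  rw [Real.fourierInv_eq'] at h1
  simp only [hF] at h1
  have h2 := Measure.integral_comp_mul_left
    (fun t : ℝ => exp ((t * y : ℝ) * I) * H (c + t * I)) (2 * Real.pi)
  have e1 : ∀ ξ : ℝ, exp ((2 * Real.pi * inner ℝ ξ y : ℝ) * I) •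
      H (c + ((2 * Real.pi * ξ : ℝ) : ℂ) * I) =
      exp (((2 * Real.pi * ξ) * y : ℝ) * I) * H (c + ((2 * Real.pi * ξ : ℝ) : ℂ) * I) := by
    intro ξ
    rw [smul_eq_mul]
    congr 3
    simp only [RCLike.inner_apply, conj_trivial]
    push_cast
    ring
  simp only [e1] at h1
  rw [h2, abs_of_pos (by positivity), Complex.real_smul] at h1
  have h3 : g y = exp (c * y) * f y := by
    rw [hf]
    simp only
    rw [← mul_assoc, ← Complex.exp_add]
    simp
  rw [h3, ← h1]
  unfold V
  rw [mul_left_comm, ← integral_const_mul]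
  congr 1
  refine integral_congr_ae (ae_of_all _ fun t => ?_)
  simp only
  rw [← mul_assoc, ← Complex.exp_add]
  congr 2
  push_cast
  ring

end Pool.Agent.R765.Mer
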