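import Pool.Agent.R765.Mer1

/-!
# Laplace transforms: continuation and growth, abstract form
-/

set_option autoImplicit false

open MeasureTheory Filter Topology Set Complex

namespace Pool.Agent.R765.Mer

open Pool.Agent.TH942.SL

/-- **growth to continuation** -/
theorem ext_abs {a : ℝ} (ha : 0 ≤ a) {g : ℝ → ℂ} (hgc : Continuous g)
    (hsm : ∀ ε : ℝ, 0 < ε → ∃ C : ℝ, ∀ y : ℝ, 0 < y → ‖g y‖ ≤ C * Real.exp ((a + ε) * y))
    {F₀ F₁ : ℂ → ℂ} {x₀ : ℝ} (hx : a < x₀)
    (hF : ∀ v : ℂ, x₀ < v.re → HasDerivAt F₀ (F₁ v) v)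
    (hL : ∀ v : ℂ, x₀ < v.re → ∫ y in Ioi (0 : ℝ), exp (-(v * y)) * g y = hh F₀ F₁ v) :
    ∃ fh : ℂ → ℂ, (∀ v : ℂ, a < v.re → DifferentiableAt ℂ fh v) ∧
      ∀ v : ℂ, x₀ < v.re → fh v = F₀ v := by
  set U : Set ℂ := {v | a < v.re} with hU
  have hUo : IsOpen U := isOpen_lt continuous_const Complex.continuous_re
  have hUc : Convex ℝ U := convex_halfSpace_re_gt a
  have hUpos : ∀ v ∈ U, 0 < v.re := fun v hv => lt_of_le_of_lt ha hv
  set W : Set ℂ := {v | x₀ < v.re} with hW
  have hWo : IsOpen W := isOpen_lt continuous_const Complex.continuous_re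
  have hWc : Convex ℝ W := convex_halfSpace_re_gt x₀
  have hWU : W ⊆ U := fun v hv => lt_trans hx hv
  set G : ℂ → ℂ := fun v => ∫ y in Ioi (0 : ℝ), exp (-(v * y)) * g y with hG
  have hGd : DifferentiableOn ℂ G U := by
    intro t ht
    have ht' : a < t.re := ht
    set ε : ℝ := (t.re - a) / 3 with hε
    have hε0 : 0 < ε := by rw [hε]; linarith
    obtain ⟨C', hbd⟩ := hsm ε hε0
    set O : Set ℂ := {v | a + 2 * ε < v.re} with hO
    have hOo : IsOpen O := isOpen_lt continuous_const Complex.continuous_re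
    have hexp : Integrable (fun T : ℝ => C' * Real.exp (-(ε * T))) (volume.restrict (Ioi 0)) := by
      have := integrableOn_exp_mul_Ioi (a := -ε) (by linarith) 0
      refine Integrable.const_mul ?_ _
      refine this.congr_fun (fun T _ => ?_) measurableSet_Ioi
      simp only
      congr 1
      ring
    have h2 := Pool.Agent.HP.differentiableOn_integral (volume.restrict (Ioi (0 : ℝ)))
      (fun (y : ℝ) (v : ℂ) => if 0 < y then exp (-(v * y)) * g y else 0) O hOo
      (fun v _ => ?_) (fun y => ?_) (fun y => if 0 < y then C' * Real.exp (-(ε * y)) else 0) ?_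
      (fun y v hv => ?_)
    · have h3 : (fun v : ℂ => ∫ y in Ioi (0 : ℝ),
          (if 0 < y then exp (-(v * y)) * g y else 0)) = G := by
        funext v
        rw [hG]
        refine setIntegral_congr_fun measurableSet_Ioi fun y hy => ?_
        rw [if_pos (show 0 < y from hy)]
      rw [h3] at h2
      exact (h2.differentiableAt (hOo.mem_nhds
        (show a + 2 * ε < t.re by rw [hε]; linarith))).differentiableWithinAt
    · have h3 : AEStronglyMeasurable (fun y : ℝ => exp (-(v * y)) * g y)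
          (volume.restrict (Ioi 0)) := Continuous.aestronglyMeasurable (by fun_prop)
      refine h3.congr ?_
      filter_upwards [ae_restrict_mem measurableSet_Ioi] with y hy
      rw [if_pos (show 0 < y from hy)]
    · by_cases hy : 0 < y
      · simp only [hy, if_true]
        exact Differentiable.differentiableOn (by fun_prop)
      · simp only [hy, if_false]
        exact differentiableOn_const _
    · refine hexp.congr ?_
      filter_upwards [ae_restrict_mem measurableSet_Ioi] with y hy
      rw [if_pos (show 0 < y from hy)]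
    · split_ifs with hy
      · have hv' : a + 2 * ε < v.re := hv
        rw [norm_mul, Complex.norm_exp]
        have e1 : (-(v * (y : ℂ))).re = -(v.re * y) := by
          rw [Complex.neg_re, Complex.re_mul_ofReal]
        rw [e1]
        calc Real.exp (-(v.re * y)) * ‖g y‖ ≤
              Real.exp (-((a + 2 * ε) * y)) * (C' * Real.exp ((a + ε) * y)) := by
              refine mul_le_mul (Real.exp_le_exp.2 ?_) (hbd y hy) (norm_nonneg _) (Real.exp_pos _).le
              nlinarith
          _ = C' * (Real.exp (-((a + 2 * ε) * y)) * Real.exp ((a + ε) * y)) := by ring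
          _ = _ := by
            rw [← Real.exp_add]
            congr 2
            ring
      · simp
  obtain ⟨GG, hGG⟩ := convex_primitive hUo hUc hGd
  set w₀ : ℂ := ((x₀ + 1 : ℝ) : ℂ) with hw₀
  have hw₀W : w₀ ∈ W := by
    change x₀ < w₀.re
    rw [hw₀, Complex.ofReal_re]
    linarith
  set k : ℂ := F₀ w₀ / w₀ + GG w₀ with hk
  have hconst : ∀ v ∈ W, F₀ v / v + GG v = k := by
    have hd : ∀ v ∈ W, HasDerivAt (fun v => F₀ v / v + GG v) 0 v := by
      intro v hv
      have e1 : 0 < v.re := hUpos v (hWU hv)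
      have e4 := (hF v hv).div (hasDerivAt_id v) (ne_zero' e1)
      refine (e4.add (hGG v (hWU hv))).congr_deriv ?_
      rw [hG]
      simp only
      rw [hL v hv]
      have := ne_zero' e1
      simp only [hh, id]
      field_simp
      ring
    intro v hv
    refine hWc.is_const_of_fderivWithin_eq_zero (𝕜 := ℂ)
      (fun z hz => (hd z hz).differentiableAt.differentiableWithinAt) (fun z hz => ?_) hv hw₀W
    rw [fderivWithin_of_isOpen hWo hz]
    ext
    simp [(hd z hz).deriv]
  refine ⟨fun v => v * (k - GG v), fun v hv => ?_, fun v hv => ?_⟩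
  · exact differentiableAt_id.mul ((differentiableAt_const k).sub (hGG v hv).differentiableAt)
  · have e1 : v ≠ 0 := ne_zero' (hUpos v (hWU hv))
    simp only
    rw [← hconst v hv]
    field_simp
    ring

/-- **continuation to growth** -/
theorem up_abs {g : ℝ → ℂ} (hgc : Continuous g) {x₁ K : ℝ} (hneg : ∀ y < 0, g y = 0)
    (hgK : ∀ y, 0 ≤ y → ‖g y‖ ≤ K * Real.exp (x₁ * y)) {h : ℂ → ℂ} {c₀ p B x₂ : ℝ} (hp1 : 1 < p)
    (hc₀ : 0 < c₀) (hd : ∀ z : ℂ, c₀ ≤ z.re → DifferentiableAt ℂ h z)
    (hB : ∀ z : ℂ, c₀ ≤ z.re → x₂ ≤ ‖z‖ → ‖h z‖ ≤ B * ‖z‖ ^ (-p))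
    (hL : ∀ x : ℝ, x₁ < x → ∀ t : ℝ, ∫ y : ℝ, exp (-((x + t * I) * y)) * g y = h (x + t * I)) :
    ∃ C : ℝ, ∀ y : ℝ, ‖g y‖ ≤ C * Real.exp (c₀ * y) := by
  set X : ℝ := max (max (x₁ + 1) c₀) (max x₂ 1) with hX
  have hX1 : x₁ < X := by
    have : x₁ + 1 ≤ X := (le_max_left _ _).trans (le_max_left _ _)
    linarith
  have hXc : c₀ ≤ X := (le_max_right _ _).trans (le_max_left _ _)
  have hX2 : x₂ ≤ X := (le_max_left _ _).trans (le_max_right _ _)
  have hX0 : 1 ≤ X := (le_max_right _ _).trans (le_max_right _ _)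
  have hX00 : 0 < X := by linarith
  have hp0 : 0 ≤ p := by linarith
  set K' : Set ℂ := {v : ℂ | c₀ ≤ v.re ∧ ‖v‖ ≤ X} with hK'
  have hKc : IsCompact K' := by
    have hcl : IsClosed K' := by
      have e1 : IsClosed {v : ℂ | c₀ ≤ v.re} := isClosed_le continuous_const Complex.continuous_re
      have e3 : IsClosed {v : ℂ | ‖v‖ ≤ X} := isClosed_le continuous_norm continuous_const
      exact e1.inter e3
    refine (isCompact_closedBall (0 : ℂ) X).of_isClosed_subset hcl ?_
    rintro v ⟨-, h⟩
    rwa [Metric.mem_closedBall, dist_zero_right]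
  obtain ⟨C₁, hC₁⟩ := hKc.exists_bound_of_continuousOn (f := h) fun v hv =>
    (hd v hv.1).continuousAt.continuousWithinAt
  set B' : ℝ := |B| * (1 + 1 / X) ^ p + |C₁| * (1 + X) ^ p with hB'
  have hB'0 : 0 ≤ B' := by positivity
  have hhb : ∀ z : ℂ, c₀ ≤ z.re → ‖h z‖ ≤ B' * (1 + |z.im|) ^ (-p) := by
    intro z hz
    have ht : 0 < 1 + |z.im| := by positivity
    rcases le_total X ‖z‖ with h2 | h2
    · have e5 := hB z hz (hX2.trans h2)
      have e6 := nb hX00 hp0 h2
      have e7 : 0 ≤ ‖z‖ ^ (-p) := by positivity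
      calc _ ≤ B * ‖z‖ ^ (-p) := e5
        _ ≤ |B| * ‖z‖ ^ (-p) := mul_le_mul_of_nonneg_right (le_abs_self B) e7
        _ ≤ |B| * ((1 + 1 / X) ^ p * (1 + |z.im|) ^ (-p)) := by gcongr
        _ = (|B| * (1 + 1 / X) ^ p) * (1 + |z.im|) ^ (-p) := by ring
        _ ≤ _ := by
          refine mul_le_mul_of_nonneg_right ?_ (by positivity)
          have : 0 ≤ |C₁| * (1 + X) ^ p := by positivity
          linarith
    · have e6 : 1 ≤ (1 + X) ^ p * (1 + |z.im|) ^ (-p) := by
        have e7 : 1 + |z.im| ≤ 1 + X := by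
          have := abs_im_le_norm z
          linarith
        rw [Real.rpow_neg ht.le, ← div_eq_mul_inv, le_div_iff₀ (by positivity), one_mul]
        exact Real.rpow_le_rpow ht.le e7 hp0
      have e7 := (hC₁ z ⟨hz, h2⟩).trans (le_abs_self _)
      calc ‖h z‖ ≤ |C₁| * 1 := by linarith
        _ ≤ |C₁| * ((1 + X) ^ p * (1 + |z.im|) ^ (-p)) := by gcongr
        _ = (|C₁| * (1 + X) ^ p) * (1 + |z.im|) ^ (-p) := by ring
        _ ≤ _ := by
          refine mul_le_mul_of_nonneg_right ?_ (by positivity)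
          have : 0 ≤ |B| * (1 + 1 / X) ^ p := by positivity
          linarith
  -- inversion
  have hgi : Integrable fun y : ℝ => exp (-(X * y)) * g y := by
    have h1 : IntegrableOn (fun y : ℝ => K * Real.exp ((x₁ - X) * y)) (Ioi 0) :=
      (integrableOn_exp_mul_Ioi (by linarith) 0).const_mul K
    have h2 : Integrable ((Ici (0 : ℝ)).indicator fun y : ℝ => K * Real.exp ((x₁ - X) * y)) := by
      rw [integrable_indicator_iff measurableSet_Ici, integrableOn_Ici_iff_integrableOn_Ioi]
      exact h1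
    refine h2.mono' (Continuous.aestronglyMeasurable (by fun_prop)) (ae_of_all _ fun y => ?_)
    rcases lt_or_ge y 0 with hy | hy
    · rw [hneg y hy, mul_zero, norm_zero, indicator_of_notMem (by simpa using hy)]
    · rw [indicator_of_mem (by simpa using hy), norm_mul, Complex.norm_exp]
      have e1 : (-((X : ℂ) * y)).re = -(X * y) := by simp
      rw [e1]
      calc Real.exp (-(X * y)) * ‖g y‖ ≤ Real.exp (-(X * y)) * (K * Real.exp (x₁ * y)) :=
            mul_le_mul_of_nonneg_left (hgK y hy) (Real.exp_pos _).le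
        _ = K * (Real.exp (-(X * y)) * Real.exp (x₁ * y)) := by ring
        _ = _ := by
          rw [← Real.exp_add]
          congr 2
          ring
  have hli : Integrable fun t : ℝ => h (X + t * I) :=
    line_int hp1 (fun s hs => (hd s (by rw [hs]; exact hXc)).continuousAt)
      fun s hs => hhb s (by rw [hs]; exact hXc)
  have hre : ∀ x t : ℝ, ((x : ℂ) + t * I).re = x := fun x t => by simp
  have him : ∀ x t : ℝ, ((x : ℂ) + t * I).im = t := fun x t => by simp
  set Ip : ℝ := ∫ t : ℝ, (1 + |t|) ^ (-p) with hIp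
  refine ⟨(2 * Real.pi)⁻¹ * (B' * Ip), fun y => ?_⟩
  have a1 := inv_lap hgc hgi (hL X hX1) hli y
  have a2 : V X (fun z => exp (z * y) * h z) = V c₀ (fun z => exp (z * y) * h z) := by
    refine (shift hp1 hXc (B := Real.exp (X * |y|) * B') (fun s hs _ => ?_)
      fun s hs hs2 => ?_).symm
    · exact DifferentiableAt.mul (by fun_prop) (hd s hs)
    · rw [norm_mul, Complex.norm_exp, Complex.re_mul_ofReal, mul_assoc]
      refine mul_le_mul (Real.exp_le_exp.2 ?_) (hhb s hs) (norm_nonneg _) (Real.exp_pos _).le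
      have e1 : s.re * y ≤ s.re * |y| := mul_le_mul_of_nonneg_left (le_abs_self y) (by linarith)
      have e2 : s.re * |y| ≤ X * |y| := mul_le_mul_of_nonneg_right hs2 (abs_nonneg y)
      linarith
  have a3 := norm_V_le (H := fun z => exp (z * y) * h z) (c := c₀)
    (g := fun t => (Real.exp (c₀ * y) * B') * (1 + |t|) ^ (-p)) ((decay_int hp1).const_mul _)
    fun t => by
      have e1 := hhb (c₀ + t * I) (by rw [hre])
      rw [him] at e1
      rw [norm_mul, Complex.norm_exp, Complex.re_mul_ofReal, hre, mul_assoc]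
      exact mul_le_mul_of_nonneg_left e1 (Real.exp_pos _).le
  rw [← a2, ← a1, integral_const_mul] at a3
  refine a3.trans (le_of_eq ?_)
  rw [hIp]
  ring

end Pool.Agent.R765.Mer
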