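import Pool.Agent.R765.Mer2

/-!
# Finite sums of exponential integrals, and the means of Dirichlet series
-/

set_option autoImplicit false

open MeasureTheory Filter Topology Set Complex
open Pool.Agent.TH942.LS (Dat P P_le Cont)

namespace Pool.Agent.R765.Mer

open Pool.Agent.TH942.SL

variable {J : Finset ℂ} {m : ℂ → ℤ} {R : ℝ}

/-- the logarithmic singularities -/
noncomputable def Qm (J : Finset ℂ) (m : ℂ → ℤ) (v : ℂ) : ℂ := -∑ w ∈ J, (m w : ℂ) * log (1 - w / v)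

/-- the derivative of `Qm` -/
noncomputable def Qd (J : Finset ℂ) (m : ℂ → ℤ) (v : ℂ) : ℂ :=
  -∑ w ∈ J, (m w : ℂ) * (w / (v * (v - w)))

/-- the comparison function -/
noncomputable def gS (J : Finset ℂ) (m : ℂ → ℤ) (y : ℝ) : ℂ := ∑ w ∈ J, (m w : ℂ) * gE w y

/-- the sum of exponential integrals -/
noncomputable def ES (J : Finset ℂ) (m : ℂ → ℤ) (y : ℝ) : ℂ := ∑ w ∈ J, (m w : ℂ) * Ein w y

lemma gS_cont (J : Finset ℂ) (m : ℂ → ℤ) : Continuous (gS J m) := by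
  unfold gS
  exact continuous_finsetSum _ fun w _ => continuous_const.mul (gE_cont w)

lemma gS_pos {y : ℝ} (hy : 0 ≤ y) : gS J m y = y * ES J m y := by
  unfold gS ES
  rw [Finset.mul_sum]
  refine Finset.sum_congr rfl fun w _ => ?_
  rw [gE_pos w hy]
  ring

lemma gS_neg {y : ℝ} (hy : y ≤ 0) : gS J m y = 0 := by
  unfold gS
  refine Finset.sum_eq_zero fun w _ => ?_
  rw [gE_neg w hy, mul_zero]

lemma gE_norm (w : ℂ) {y : ℝ} (hy : 0 ≤ y) : ‖gE w y‖ ≤ ‖w‖ * (y ^ 2 * Real.exp (‖w‖ * y)) := by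
  rw [gE_pos w hy, norm_mul, Complex.norm_real, Real.norm_of_nonneg hy]
  calc y * ‖Ein w y‖ ≤ y * (‖w‖ * y * Real.exp (‖w‖ * y)) :=
        mul_le_mul_of_nonneg_left (Ein_norm w hy) hy
    _ = _ := by ring

/-- exponential bound for `gS` -/
lemma gS_norm (hR : ∀ w ∈ J, ‖w‖ ≤ R) (hR0 : 0 ≤ R) : ∃ K : ℝ, 0 ≤ K ∧ ∀ y : ℝ, 0 ≤ y →
    ‖gS J m y‖ ≤ K * Real.exp ((R + 1) * y) := by
  refine ⟨∑ w ∈ J, ‖(m w : ℂ)‖ * (R * 2), Finset.sum_nonneg fun w _ => by positivity, fun y hy => ?_⟩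
  unfold gS
  refine (norm_sum_le _ _).trans ?_
  rw [Finset.sum_mul]
  refine Finset.sum_le_sum fun w hw => ?_
  rw [norm_mul, mul_assoc]
  refine mul_le_mul_of_nonneg_left ?_ (norm_nonneg _)
  refine (gE_norm w hy).trans ?_
  have h1 : y ^ 2 ≤ 2 * Real.exp y := by
    have := Real.quadratic_le_exp_of_nonneg hy
    nlinarith
  have h2 := hR w hw
  calc ‖w‖ * (y ^ 2 * Real.exp (‖w‖ * y)) ≤ R * ((2 * Real.exp y) * Real.exp (R * y)) := by gcongr
    _ = R * 2 * (Real.exp y * Real.exp (R * y)) := by ring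
    _ = _ := by
      rw [← Real.exp_add]
      congr 2
      ring

lemma one_sub_slit {w v : ℂ} (h : ‖w‖ < ‖v‖) : 1 - w / v ∈ slitPlane := by
  left
  have h3 : ‖w / v‖ < 1 := by
    rw [norm_div, div_lt_one ((norm_nonneg w).trans_lt h)]
    exact h
  have h4 := (Complex.re_le_norm (w / v)).trans_lt h3
  rw [Complex.sub_re, Complex.one_re]
  linarith

lemma log_quot_deriv {w v : ℂ} (h : ‖w‖ < ‖v‖) :
    HasDerivAt (fun v : ℂ => log (1 - w / v)) (w / (v * (v - w))) v := by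
  have hv : v ≠ 0 := fun h0 => by
    rw [h0, norm_zero] at h
    linarith [norm_nonneg w]
  have hvw : v - w ≠ 0 := fun h0 => by
    rw [sub_eq_zero.1 h0] at h
    exact lt_irrefl _ h
  have d1 : HasDerivAt (fun v : ℂ => 1 - w / v) (w / v ^ 2) v := by
    have := ((hasDerivAt_inv hv).const_mul w).const_sub 1
    refine (this.congr_deriv ?_).congr_of_eventuallyEq ?_
    · field_simp
    · exact Eventually.of_forall fun z => by
        simp only [div_eq_mul_inv]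
  refine (d1.clog (one_sub_slit h)).congr_deriv ?_
  have h7 : 1 - w / v = (v - w) / v := by field_simp
  rw [h7]
  field_simp

lemma Qm_deriv {v : ℂ} (h : ∀ w ∈ J, ‖w‖ < ‖v‖) : HasDerivAt (Qm J m) (Qd J m v) v := by
  unfold Qm Qd
  exact (HasDerivAt.fun_sum fun w hw => (log_quot_deriv (h w hw)).const_mul _).neg

lemma lap_gE_int {w v : ℂ} (hv : ‖w‖ < v.re) :
    IntegrableOn (fun y : ℝ => exp (-(v * y)) * gE w y) (Ioi 0) := by
  have hc : Continuous fun y : ℝ => exp (-(v * y)) * gE w y := by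
    have := gE_cont w
    fun_prop
  obtain ⟨-, -, ⟨h1, -⟩⟩ := exp_ints (x := v.re - ‖w‖) (by linarith)
  refine Integrable.mono' (h1.const_mul ‖w‖) hc.aestronglyMeasurable ?_
  filter_upwards [ae_restrict_mem measurableSet_Ioi] with y hy
  have hy' : 0 < y := hy
  rw [norm_mul, Complex.norm_exp]
  have e1 : (-(v * (y : ℂ))).re = -(v.re * y) := by
    rw [Complex.neg_re, Complex.re_mul_ofReal]
  rw [e1]
  calc Real.exp (-(v.re * y)) * ‖gE w y‖ ≤
        Real.exp (-(v.re * y)) * (‖w‖ * (y ^ 2 * Real.exp (‖w‖ * y))) :=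
        mul_le_mul_of_nonneg_left (gE_norm w hy'.le) (Real.exp_pos _).le
    _ = ‖w‖ * (y ^ 2 * (Real.exp (-(v.re * y)) * Real.exp (‖w‖ * y))) := by ring
    _ = _ := by
      rw [← Real.exp_add]
      congr 3
      ring

/-- the Laplace transform of the comparison function -/
theorem lap_gS {v : ℂ} (h : ∀ w ∈ J, ‖w‖ < v.re) :
    IntegrableOn (fun y : ℝ => exp (-(v * y)) * gS J m y) (Ioi 0) ∧
    ∫ y in Ioi (0 : ℝ), exp (-(v * y)) * gS J m y = hh (Qm J m) (Qd J m) v := by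
  have hi : ∀ w ∈ J, IntegrableOn (fun y : ℝ => (m w : ℂ) * (exp (-(v * y)) * gE w y)) (Ioi 0) :=
    fun w hw => (lap_gE_int (h w hw)).const_mul _
  have he : (fun y : ℝ => exp (-(v * y)) * gS J m y) =
      fun y : ℝ => ∑ w ∈ J, (m w : ℂ) * (exp (-(v * y)) * gE w y) := by
    funext y
    unfold gS
    rw [Finset.mul_sum]
    refine Finset.sum_congr rfl fun w _ => ?_
    ring
  rw [he]
  refine ⟨integrable_finsetSum _ hi, ?_⟩
  rw [integral_finsetSum _ hi]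
  have h1 : ∀ w ∈ J, ∫ y in Ioi (0 : ℝ), (m w : ℂ) * (exp (-(v * y)) * gE w y) =
      (m w : ℂ) * (-log (1 - w / v) / v ^ 2 + w / (v ^ 2 * (v - w))) := fun w hw => by
    rw [integral_const_mul, lap_gE (h w hw)]
  rw [Finset.sum_congr rfl h1]
  by_cases hJ : J = ∅
  · subst hJ
    simp [hh, Qm, Qd]
  · obtain ⟨w₀, hw₀⟩ := Finset.nonempty_iff_ne_empty.2 hJ
    have hv0 : v ≠ 0 := fun h0 => by
      have := h w₀ hw₀
      rw [h0] at this
      simp only [Complex.zero_re] at this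
      linarith [norm_nonneg w₀]
    unfold hh Qm Qd
    rw [neg_div, neg_div, Finset.sum_div, Finset.sum_div, sub_neg_eq_add, ← Finset.sum_neg_distrib,
      ← Finset.sum_add_distrib]
    refine Finset.sum_congr rfl fun w hw => ?_
    have hvw : v - w ≠ 0 := fun h0 => by
      have h2 := h w hw
      rw [sub_eq_zero.1 h0] at h2
      linarith [Complex.re_le_norm w]
    field_simp

/-- the decay of the transform -/
lemma hhQ_bound (hR : ∀ w ∈ J, ‖w‖ ≤ R) (hR0 : 0 ≤ R) : ∃ B : ℝ, 0 ≤ B ∧ ∀ v : ℂ, 1 ≤ ‖v‖ →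
    2 * R ≤ ‖v‖ → ‖hh (Qm J m) (Qd J m) v‖ ≤ B * ‖v‖ ^ (-(2 : ℝ)) := by
  refine ⟨(∑ w ∈ J, ‖(m w : ℂ)‖ * (3 / 2 * R)) + ∑ w ∈ J, ‖(m w : ℂ)‖ * (2 * R),
    add_nonneg (Finset.sum_nonneg fun w _ => by positivity)
      (Finset.sum_nonneg fun w _ => by positivity), fun v hv1 hv => ?_⟩
  have hv0 : 0 < ‖v‖ := by linarith
  have e1 : ‖Qm J m v‖ ≤ ∑ w ∈ J, ‖(m w : ℂ)‖ * (3 / 2 * R) := by
    unfold Qm
    rw [norm_neg]
    refine (norm_sum_le _ _).trans (Finset.sum_le_sum fun w hw => ?_)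
    rw [norm_mul]
    refine mul_le_mul_of_nonneg_left ?_ (norm_nonneg _)
    have h2 := hR w hw
    have h3 : ‖-(w / v)‖ ≤ 1 / 2 := by
      rw [norm_neg, norm_div, div_le_iff₀ hv0]
      linarith
    have h4 := Complex.norm_log_one_add_half_le_self h3
    rw [← sub_eq_add_neg] at h4
    refine h4.trans ?_
    rw [norm_neg, norm_div]
    have h5 : ‖w‖ / ‖v‖ ≤ R := by
      rw [div_le_iff₀ hv0]
      nlinarith
    linarith
  have e2 : ‖Qd J m v‖ ≤ (∑ w ∈ J, ‖(m w : ℂ)‖ * (2 * R)) * ‖v‖⁻¹ := by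
    unfold Qd
    rw [norm_neg, Finset.sum_mul]
    refine (norm_sum_le _ _).trans (Finset.sum_le_sum fun w hw => ?_)
    rw [norm_mul, mul_assoc]
    refine mul_le_mul_of_nonneg_left ?_ (norm_nonneg _)
    have h2 := hR w hw
    have h3 : ‖v‖ / 2 ≤ ‖v - w‖ := by
      have := norm_sub_norm_le v w
      linarith
    have h4 : 0 < ‖v - w‖ := by linarith
    rw [norm_div, norm_mul]
    rw [div_le_iff₀ (by positivity)]
    have h5 : ‖v‖⁻¹ * (‖v‖ * ‖v - w‖) = ‖v - w‖ := by field_simp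
    have h6 : 2 * R * ‖v‖⁻¹ * (‖v‖ * ‖v - w‖) = 2 * R * ‖v - w‖ := by
      rw [mul_assoc, h5]
    rw [h6]
    have h7 : 1 ≤ 2 * ‖v - w‖ := by linarith
    nlinarith
  have e3 : ‖v‖ ^ (-(2 : ℝ)) = (‖v‖ ^ 2)⁻¹ := by
    rw [Real.rpow_neg hv0.le]
    norm_num
  unfold hh
  rw [e3]
  refine (norm_sub_le _ _).trans ?_
  rw [norm_div, norm_div, norm_pow, add_mul, div_eq_mul_inv]
  refine add_le_add (mul_le_mul_of_nonneg_right e1 (by positivity)) ?_
  rw [div_le_iff₀ hv0]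
  refine e2.trans (le_of_eq ?_)
  generalize (∑ w ∈ J, ‖(m w : ℂ)‖ * (2 * R)) = S
  field_simp

end Pool.Agent.R765.Mer
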