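import Pool.Agent.R765.Mer3

/-!
# Logarithmic singularities of Dirichlet series and their means
-/

set_option autoImplicit false

open MeasureTheory Filter Topology Set Complex
open Pool.Agent.TH942.LS (Dat P P_le Cont)

namespace Pool.Agent.R765.Mer

open Pool.Agent.TH942.SL

variable {J : Finset ℂ} {m : ℂ → ℤ} {α : ℝ} {lam c : ℕ → ℝ} {δ σ : ℝ}

lemma hh_sub (f f' q q' : ℂ → ℂ) (z : ℂ) :
    hh (fun v => f v - q v) (fun v => f' v - q' v) z = hh f f' z - hh q q' z := by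
  unfold hh
  ring

/-- the combined function and its transform -/
theorem comb (D : Dat lam c δ σ) (h0 : 0 < α) (h1 : α < 1) (J : Finset ℂ) (m : ℂ → ℤ) :
    ∃ (g : ℝ → ℂ) (K x₁ : ℝ), 1 ≤ x₁ ∧ 0 ≤ K ∧ Continuous g ∧ (∀ y, y < 0 → g y = 0) ∧
      (∀ y, 0 < y → g y = y * ((M lam c α y : ℂ) - ES J m y)) ∧
      (∀ y, 0 ≤ y → ‖g y‖ ≤ K * Real.exp (x₁ * y)) ∧
      (∀ v : ℂ, 0 < v.re → x₁ ≤ ‖v‖ → (∀ w ∈ J, 2 * ‖w‖ < ‖v‖) ∧ σ + 1 ≤ kap α * ‖v‖ ^ α) ∧
      ∀ v : ℂ, x₁ < v.re → (∫ y in Ioi (0 : ℝ), exp (-(v * y)) * g y =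
        hh (fun v => f₀ lam c α v - Qm J m v) (fun v => f₁ lam c α v - Qd J m v) v) ∧
        ∫ y : ℝ, exp (-(v * y)) * g y =
        hh (fun v => f₀ lam c α v - Qm J m v) (fun v => f₁ lam c α v - Qd J m v) v := by
  obtain ⟨x₀, hx1, hx₀⟩ := exists_abscissa h0 h1 σ
  obtain ⟨g, K, hK, hgc, hneg, hgpos, hgb, hinv⟩ := lines D h0 h1 hx1 hx₀
  set R : ℝ := ∑ w ∈ J, ‖w‖ with hRdef
  have hR0 : 0 ≤ R := Finset.sum_nonneg fun w _ => norm_nonneg w
  have hR : ∀ w ∈ J, ‖w‖ ≤ R := fun w hw =>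
    Finset.single_le_sum (f := fun w : ℂ => ‖w‖) (fun w _ => norm_nonneg w) hw
  obtain ⟨K₂, hK₂, hgS⟩ := gS_norm (m := m) hR hR0
  set x₁ : ℝ := x₀ + 2 * R + 1 with hx₁
  set G : ℝ → ℂ := fun y => g y - gS J m y with hG
  have hGc : Continuous G := hgc.sub (gS_cont J m)
  refine ⟨G, K + K₂, x₁, by rw [hx₁]; linarith, by positivity, hGc, fun y hy => ?_, fun y hy => ?_,
    fun y hy => ?_, fun v hv hvn => ⟨fun w hw => ?_, ?_⟩, fun v hv => ?_⟩
  · rw [hG]
    simp only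
    rw [hneg y hy, gS_neg hy.le, sub_zero]
  · rw [hG]
    simp only
    rw [hgpos y hy, gS_pos hy.le]
    push_cast
    ring
  · rw [hG]
    simp only
    refine (norm_sub_le _ _).trans ?_
    rw [add_mul]
    refine add_le_add ((hgb y).trans ?_) ((hgS y hy).trans ?_)
    · refine mul_le_mul_of_nonneg_left (Real.exp_le_exp.2 ?_) hK
      refine mul_le_mul_of_nonneg_right ?_ hy
      rw [hx₁]
      linarith
    · refine mul_le_mul_of_nonneg_left (Real.exp_le_exp.2 ?_) hK₂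
      refine mul_le_mul_of_nonneg_right ?_ hy
      rw [hx₁]
      linarith
  · have := hR w hw
    have h3 : 2 * R + 1 ≤ x₁ := by rw [hx₁]; linarith
    linarith
  · exact hx₀ v hv (by
      have : x₀ ≤ x₁ := by rw [hx₁]; linarith
      linarith)
  · have hvx : x₀ < v.re := by
      have : x₀ ≤ x₁ := by rw [hx₁]; linarith
      linarith
    have hi1 : IntegrableOn (fun y : ℝ => exp (-(v * y)) * g y) (Ioi 0) := by
      have hcc : Continuous fun y : ℝ => exp (-(v * y)) * g y := by fun_prop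
      have h1 : IntegrableOn (fun y : ℝ => K * Real.exp ((x₀ - v.re) * y)) (Ioi 0) :=
        (integrableOn_exp_mul_Ioi (by linarith) 0).const_mul K
      refine Integrable.mono' h1 hcc.aestronglyMeasurable ?_
      filter_upwards [ae_restrict_mem measurableSet_Ioi] with y hy
      have hy' : 0 < y := hy
      rw [norm_mul, Complex.norm_exp]
      have e1 : (-(v * (y : ℂ))).re = -(v.re * y) := by
        rw [Complex.neg_re, Complex.re_mul_ofReal]
      rw [e1]
      calc Real.exp (-(v.re * y)) * ‖g y‖ ≤ Real.exp (-(v.re * y)) * (K * Real.exp (x₀ * y)) :=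
            mul_le_mul_of_nonneg_left (hgb y) (Real.exp_pos _).le
        _ = K * (Real.exp (-(v.re * y)) * Real.exp (x₀ * y)) := by ring
        _ = _ := by
          rw [← Real.exp_add]
          congr 2
          ring
    have hw : ∀ w ∈ J, ‖w‖ < v.re := fun w hw => by
      have := hR w hw
      have h3 : R < x₁ := by rw [hx₁]; linarith
      linarith
    obtain ⟨hi2, e2⟩ := lap_gS (m := m) hw
    have hfull : ∀ f : ℝ → ℂ, (∀ y, y < 0 → f y = 0) →
        ∫ y : ℝ, exp (-(v * y)) * f y = ∫ y in Ioi (0 : ℝ), exp (-(v * y)) * f y := by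
      intro f hf
      rw [← integral_indicator measurableSet_Ioi]
      refine integral_congr_ae ?_
      have e2 : ∀ᵐ y : ℝ, y ≠ 0 := by
        rw [ae_iff]
        simp
      filter_upwards [e2] with y hy
      by_cases hy2 : y ∈ Ioi (0 : ℝ)
      · rw [indicator_of_mem hy2]
      · rw [indicator_of_notMem hy2]
        have : y < 0 := lt_of_le_of_ne (not_lt.1 hy2) hy
        rw [hf y this, mul_zero]
    have e1 := hinv v.re hvx v.im
    rw [Complex.re_add_im, hfull g hneg] at e1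
    have key : ∫ y in Ioi (0 : ℝ), exp (-(v * y)) * G y =
        hh (fun v => f₀ lam c α v - Qm J m v) (fun v => f₁ lam c α v - Qd J m v) v := by
      rw [hh_sub, ← e1, ← e2, ← integral_sub hi1 hi2]
      refine setIntegral_congr_fun measurableSet_Ioi fun y _ => ?_
      rw [hG]
      simp only
      ring
    refine ⟨key, ?_⟩
    rw [hfull G fun y hy => by
      rw [hG]
      simp only
      rw [hneg y hy, gS_neg hy.le, sub_zero]]
    exact key

lemma comb_deriv (D : Dat lam c δ σ) (h0 : 0 < α) (h1 : α < 1) {v : ℂ} (hv : 0 < v.re)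
    (hw : ∀ w ∈ J, 2 * ‖w‖ < ‖v‖) (hk : σ + 1 ≤ kap α * ‖v‖ ^ α) :
    HasDerivAt (fun v => f₀ lam c α v - Qm J m v) (f₁ lam c α v - Qd J m v) v := by
  have e4 := re_pow_ge h0 h1 hv
  exact (f₀_deriv D hv (by linarith)).sub (Qm_deriv fun w h => by
    have := hw w h
    have := norm_nonneg w
    linarith)

/-- **slow growth of the difference gives the continuation** -/
theorem ext_mer (D : Dat lam c δ σ) (h0 : 0 < α) (h1 : α < 1) {a : ℝ} (ha : 0 ≤ a)
    (hM : ∀ ε : ℝ, 0 < ε → ∃ C y₀ : ℝ, ∀ y, y₀ ≤ y →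
      ‖(M lam c α y : ℂ) - ES J m y‖ ≤ C * Real.exp ((a + ε) * y)) :
    ∃ (fh : ℂ → ℂ) (x₁ : ℝ), (∀ v : ℂ, a < v.re → DifferentiableAt ℂ fh v) ∧
      ∀ v : ℂ, x₁ < v.re → fh v = f₀ lam c α v - Qm J m v := by
  obtain ⟨g, K, x₁, hx1, hK, hgc, hneg, hgpos, hgb, hfar, hL⟩ := comb D h0 h1 J m
  set x₀ : ℝ := max x₁ (a + 1) with hx₀
  have hx01 : x₁ ≤ x₀ := le_max_left _ _
  have hx02 : a + 1 ≤ x₀ := le_max_right _ _
  obtain ⟨fh, hf1, hf2⟩ := ext_abs (a := a) ha hgc (fun ε hε => by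
    obtain ⟨C, y₀, hC⟩ := hM (ε / 2) (by linarith)
    obtain ⟨B, hB⟩ := (isCompact_Icc (a := (0 : ℝ)) (b := |y₀|)).exists_bound_of_continuousOn
      (f := g) hgc.continuousOn
    refine ⟨|B| + |C| / (ε / 2), fun y hy => ?_⟩
    have e0 : 1 ≤ Real.exp ((a + ε) * y) := Real.one_le_exp (by positivity)
    rw [add_mul]
    rcases le_total y₀ y with h | h
    · rw [hgpos y hy, norm_mul, Complex.norm_real, Real.norm_of_nonneg hy.le]
      have e1 := hC y h
      have e2 : y ≤ Real.exp (ε / 2 * y) / (ε / 2) := by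
        rw [le_div_iff₀ (by linarith)]
        have := Real.add_one_le_exp (ε / 2 * y)
        linarith
      have e3 : C * Real.exp ((a + ε / 2) * y) ≤ |C| * Real.exp ((a + ε / 2) * y) :=
        mul_le_mul_of_nonneg_right (le_abs_self C) (Real.exp_pos _).le
      have e4 : 0 ≤ |B| * Real.exp ((a + ε) * y) := by positivity
      calc y * ‖(M lam c α y : ℂ) - ES J m y‖ ≤ (Real.exp (ε / 2 * y) / (ε / 2)) *
            (|C| * Real.exp ((a + ε / 2) * y)) :=
            mul_le_mul e2 (e1.trans e3) (norm_nonneg _) (by positivity)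
        _ = |C| / (ε / 2) * (Real.exp (ε / 2 * y) * Real.exp ((a + ε / 2) * y)) := by ring
        _ = |C| / (ε / 2) * Real.exp ((a + ε) * y) := by
          rw [← Real.exp_add]
          congr 2
          ring
        _ ≤ _ := by linarith
    · have e1 := hB y ⟨hy.le, h.trans (le_abs_self _)⟩
      have e2 : B ≤ |B| := le_abs_self B
      have e3 : |B| ≤ |B| * Real.exp ((a + ε) * y) := le_mul_of_one_le_right (abs_nonneg _) e0
      have e4 : 0 ≤ |C| / (ε / 2) * Real.exp ((a + ε) * y) := by positivity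
      linarith)
    (F₀ := fun v => f₀ lam c α v - Qm J m v) (F₁ := fun v => f₁ lam c α v - Qd J m v)
    (x₀ := x₀) (by linarith) (fun v hv => by
      have hv0 : 0 < v.re := by linarith
      obtain ⟨e1, e2⟩ := hfar v hv0 ((hx01.trans hv.le).trans (re_le_norm v))
      exact comb_deriv D h0 h1 hv0 e1 e2) (fun v hv => (hL v (by linarith)).1)
  exact ⟨fh, x₀, hf1, hf2⟩

/-- **the continuation gives slow growth of the difference** -/
theorem up_mer (D : Dat lam c δ σ) (h0 : 0 < α) (h1 : α < 1) {a c₀ : ℝ} (ha : 0 ≤ a) (hc : a < c₀)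
    {fh : ℂ → ℂ} (hf : ∀ v : ℂ, a < v.re → DifferentiableAt ℂ fh v) {x₂ : ℝ}
    (hff : ∀ v : ℂ, a < v.re → x₂ < ‖v‖ → fh v = f₀ lam c α v - Qm J m v) :
    ∃ C : ℝ, ∀ y : ℝ, 1 ≤ y → ‖(M lam c α y : ℂ) - ES J m y‖ ≤ C * Real.exp (c₀ * y) := by
  obtain ⟨g, K, x₁, hx1, hK, hgc, hneg, hgpos, hgb, hfar, hL⟩ := comb D h0 h1 J m
  have hc00 : 0 < c₀ := lt_of_le_of_lt ha hc
  have hUo : IsOpen {v : ℂ | a < v.re} := isOpen_lt continuous_const Complex.continuous_re
  have hNo : IsOpen {v : ℂ | x₂ < ‖v‖} := isOpen_lt continuous_const continuous_norm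
  have hfd' : ∀ v : ℂ, a < v.re → DifferentiableAt ℂ (deriv fh) v := fun v hv => by
    have h2 : DifferentiableOn ℂ fh {v : ℂ | a < v.re} := fun z hz =>
      (hf z hz).differentiableWithinAt
    exact (h2.analyticAt (hUo.mem_nhds hv)).deriv.differentiableAt
  set R : ℝ := ∑ w ∈ J, ‖w‖ with hRdef
  have hR0 : 0 ≤ R := Finset.sum_nonneg fun w _ => norm_nonneg w
  have hR : ∀ w ∈ J, ‖w‖ ≤ R := fun w hw =>
    Finset.single_le_sum (f := fun w : ℂ => ‖w‖) (fun w _ => norm_nonneg w) hw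
  obtain ⟨B₂, hB₂, hQ⟩ := hhQ_bound (m := m) hR hR0
  set x₃ : ℝ := max (max x₁ (|x₂| + 1)) (max (2 * R) c₀) with hx₃
  have k1 : x₁ ≤ x₃ := (le_max_left _ _).trans (le_max_left _ _)
  have k2 : |x₂| + 1 ≤ x₃ := (le_max_right _ _).trans (le_max_left _ _)
  have k3 : 2 * R ≤ x₃ := (le_max_left _ _).trans (le_max_right _ _)
  have k4 : c₀ ≤ x₃ := (le_max_right _ _).trans (le_max_right _ _)
  have k5 : x₂ < x₃ := by have := le_abs_self x₂; linarith
  -- the function far out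
  have hfe : ∀ v : ℂ, a < v.re → x₃ ≤ ‖v‖ → hh fh (deriv fh) v =
      hh (fun v => f₀ lam c α v - Qm J m v) (fun v => f₁ lam c α v - Qd J m v) v := by
    intro v hv hvn
    have hv0 : 0 < v.re := lt_of_le_of_lt ha hv
    obtain ⟨e1, e2⟩ := hfar v hv0 (k1.trans hvn)
    have e3 : fh =ᶠ[𝓝 v] fun v => f₀ lam c α v - Qm J m v := by
      filter_upwards [hUo.mem_nhds hv, hNo.mem_nhds (show x₂ < ‖v‖ by linarith)] with z hz hz2
      exact hff z hz hz2
    unfold hh
    rw [e3.deriv_eq, (comb_deriv D h0 h1 hv0 e1 e2).deriv, e3.eq_of_nhds]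
  have hre : ∀ x t : ℝ, ((x : ℂ) + t * I).re = x := fun x t => by simp
  obtain ⟨C, hC⟩ := up_abs (g := g) hgc (x₁ := x₃) (K := K) hneg (fun y hy => (hgb y hy).trans
      (mul_le_mul_of_nonneg_left (Real.exp_le_exp.2 (mul_le_mul_of_nonneg_right k1 hy)) hK))
    (h := hh fh (deriv fh)) (c₀ := c₀) (p := 2 - α)
    (B := (S₀ lam c σ + α * (2 / δ * S₀ lam c σ)) + B₂) (x₂ := x₃) (by linarith) hc00
    (fun z hz => hh_diff (lt_of_le_of_lt ha (lt_of_lt_of_le hc hz)) (hf z (lt_of_lt_of_le hc hz))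
      (hfd' z (lt_of_lt_of_le hc hz)))
    (fun z hz hzn => by
      have hz0 : 0 < z.re := hc00.trans_le hz
      obtain ⟨e1, e2⟩ := hfar z hz0 (k1.trans hzn)
      have hz1 : 1 ≤ ‖z‖ := hx1.trans (k1.trans hzn)
      rw [hfe z (lt_of_lt_of_le hc hz) hzn, hh_sub]
      refine (norm_sub_le _ _).trans ?_
      rw [add_mul]
      refine add_le_add (hh_bound D h0 h1 hz0 hz1 e2) ((hQ z hz1 (k3.trans hzn)).trans ?_)
      refine mul_le_mul_of_nonneg_left ?_ hB₂
      exact Real.rpow_le_rpow_of_exponent_le hz1 (by linarith))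
    (fun x hx t => by
      have e1 : x ≤ ‖(x : ℂ) + t * I‖ := by
        have := re_le_norm ((x : ℂ) + t * I)
        rwa [hre] at this
      rw [hfe _ (by rw [hre]; linarith) (by linarith)]
      exact (hL _ (by rw [hre]; linarith)).2)
  refine ⟨C, fun y hy => ?_⟩
  have hy0 : 0 < y := by linarith
  have e1 := hC y
  rw [hgpos y hy0, norm_mul, Complex.norm_real, Real.norm_of_nonneg hy0.le] at e1
  have e2 : ‖(M lam c α y : ℂ) - ES J m y‖ ≤ y * ‖(M lam c α y : ℂ) - ES J m y‖ :=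
    le_mul_of_one_le_left (norm_nonneg _) hy
  linarith

end Pool.Agent.R765.Mer
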