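import Pool.Agent.R849.RF.Base
import Pool.Agent.Y849.LW.Fin
import Pool.Agent.H633R5.FS.Fin

/-!
# Expansion of sets of integers by sums and by products with arbitrary sets
-/

set_option autoImplicit false

namespace Pool.Agent.R765.SP

open Finset Pool.Agent.Y359.PE Pool.Agent.R849.RF
open scoped Pointwise

/-- from iterated product (or sum) sets to arbitrary sets, the computation -/
theorem arb_real {ε c : ℝ} (hε : 0 < ε) (hε1 : ε ≤ 1) (hc : 0 < c) (k : ℕ) (hk : 1 / ε ≤ k)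
    {N M x y : ℝ} (hN : 1 ≤ N) (hM : 1 ≤ M) (hx : 0 ≤ x)
    (h1 : c * N ^ ((k : ℝ) - ε) ≤ y) (h2 : y * M ^ k ≤ x ^ k * M) :
    c ^ (1 / (k : ℝ)) * (M * N) ^ (1 - ε) ≤ x := by
  have hkr : (1 : ℝ) ≤ k := le_trans (by rw [le_div_iff₀ hε]; linarith) hk
  have hk0 : (0 : ℝ) < k := by linarith
  have hM0 : (0 : ℝ) < M := by linarith
  have hN0 : (0 : ℝ) < N := by linarith
  have h3 : c * N ^ ((k : ℝ) - ε) * M ^ ((k : ℝ) - 1) ≤ x ^ k := by
    have h3 : c * N ^ ((k : ℝ) - ε) * M ^ k ≤ x ^ k * M :=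
      (mul_le_mul_of_nonneg_right h1 (by positivity)).trans h2
    have h4 : M ^ k = M ^ ((k : ℝ) - 1) * M := by
      rw [Real.rpow_sub_one hM0.ne', Real.rpow_natCast]
      field_simp
    rw [h4] at h3
    have h5 : (c * N ^ ((k : ℝ) - ε) * M ^ ((k : ℝ) - 1)) * M ≤ (x ^ k) * M := by linarith
    exact le_of_mul_le_mul_right h5 hM0
  have h7 : (c * N ^ ((k : ℝ) - ε) * M ^ ((k : ℝ) - 1)) ^ (1 / (k : ℝ)) ≤ x := by
    have h8 := Real.rpow_le_rpow (by positivity) h3 (show 0 ≤ 1 / (k : ℝ) by positivity)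
    refine h8.trans (le_of_eq ?_)
    rw [← Real.rpow_natCast, ← Real.rpow_mul hx, mul_one_div_cancel hk0.ne', Real.rpow_one]
  refine le_trans ?_ h7
  have e0 : (c * N ^ ((k : ℝ) - ε) * M ^ ((k : ℝ) - 1)) ^ (1 / (k : ℝ)) =
      c ^ (1 / (k : ℝ)) * N ^ (((k : ℝ) - ε) * (1 / (k : ℝ))) *
        M ^ (((k : ℝ) - 1) * (1 / (k : ℝ))) := by
    rw [Real.mul_rpow (by positivity) (by positivity),
      Real.mul_rpow (by positivity) (by positivity), ← Real.rpow_mul hN0.le, ← Real.rpow_mul hM0.le]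
  rw [e0, Real.mul_rpow hM0.le hN0.le]
  have e1 : N ^ (1 - ε) ≤ N ^ (((k : ℝ) - ε) * (1 / (k : ℝ))) := by
    refine Real.rpow_le_rpow_of_exponent_le hN ?_
    rw [mul_one_div, le_div_iff₀ hk0]
    nlinarith
  have e2 : M ^ (1 - ε) ≤ M ^ (((k : ℝ) - 1) * (1 / (k : ℝ))) := by
    refine Real.rpow_le_rpow_of_exponent_le hM ?_
    rw [mul_one_div, le_div_iff₀ hk0]
    have : 1 ≤ ε * k := by
      rw [div_le_iff₀ hε] at hk
      linarith
    nlinarith
  calc c ^ (1 / (k : ℝ)) * (M ^ (1 - ε) * N ^ (1 - ε))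
      ≤ c ^ (1 / (k : ℝ)) * (M ^ (((k : ℝ) - 1) * (1 / (k : ℝ))) *
        N ^ (((k : ℝ) - ε) * (1 / (k : ℝ)))) := by gcongr
    _ = _ := by ring

/-- sums of an integer of `A` and an element of `B` -/
noncomputable def SB (A : Finset ℤ) (B : Finset ℂ) : Finset ℂ :=
  (A ×ˢ B).image fun s => (s.1 : ℂ) + s.2

/-! ### Few sums with one set -/

theorem prod_of_few_sums (ε D : ℝ) (hε : 0 < ε) (hD : 0 < D) (k : ℕ) (hk : 1 ≤ k) :
    ∃ δ c : ℝ, 0 < δ ∧ 0 < c ∧ ∀ A P : Finset ℤ, (∃ a ∈ A, a ≠ 0) → P.Nonempty →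
      (P.card : ℝ) ≤ (A.card : ℝ) ^ D → ((A + P).card : ℝ) ≤ (A.card : ℝ) ^ δ * P.card →
      c * (A.card : ℝ) ^ ((k : ℝ) - ε) ≤ ((pk k A).card : ℝ) := by
  have hk0 : (0 : ℝ) < k := by exact_mod_cast hk
  obtain ⟨C, hC, h⟩ := H633R5.FS.tuple k hk (ε / (4 * k)) (by positivity)
  set e : ℝ := min 1 (ε / (4 * k * D)) with he
  have he0 : 0 < e := by positivity
  have he1 : e ≤ 1 := min_le_left _ _
  set E : ℝ := Real.exp (C / e) with hE
  have hE0 : 0 < E := Real.exp_pos _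
  set δ : ℝ := ε / (8 * k * E) with hδ
  have hδ0 : 0 < δ := by positivity
  set c₀ : ℝ := 3 + D / δ with hc₀
  have hc₀0 : 0 < c₀ := by positivity
  refine ⟨δ, ((c₀ ^ E) ^ k)⁻¹, hδ0, by positivity, ?_⟩
  intro A P hA hP hPc hAP
  have hAne : A.Nonempty := by
    obtain ⟨a, ha, _⟩ := hA
    exact ⟨a, ha⟩
  have hN1 : (1 : ℝ) ≤ A.card := by exact_mod_cast hAne.card_pos
  have hP1 : (1 : ℝ) ≤ P.card := by exact_mod_cast hP.card_pos
  obtain ⟨N, hN⟩ : ∃ N : ℝ, N = A.card := ⟨_, rfl⟩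
  rw [← hN] at hN1 hPc hAP ⊢
  have hN0 : 0 < N := by linarith
  have hNδ : 1 ≤ N ^ δ := Real.one_le_rpow hN1 hδ0.le
  have hX : (3 + Real.log P.card) * (((A + P).card : ℝ) / P.card) ≤ c₀ * N ^ (2 * δ) := by
    have h1 : Real.log P.card ≤ D * Real.log N := by
      have := Real.log_le_log (by linarith) hPc
      rwa [Real.log_rpow hN0] at this
    have h2 : Real.log N ≤ N ^ δ / δ := Real.log_le_rpow_div hN0.le hδ0
    have h3 : 3 + Real.log P.card ≤ c₀ * N ^ δ := by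
      have h4 : D * Real.log N ≤ D * (N ^ δ / δ) := mul_le_mul_of_nonneg_left h2 hD.le
      have h5 : c₀ * N ^ δ = 3 * N ^ δ + D * (N ^ δ / δ) := by
        rw [hc₀]; ring
      rw [h5]
      linarith
    have h4 : ((A + P).card : ℝ) / P.card ≤ N ^ δ := by
      rw [div_le_iff₀ (by linarith)]
      exact hAP
    have h5 : N ^ (2 * δ) = N ^ δ * N ^ δ := by
      rw [← Real.rpow_add hN0]; ring_nf
    rw [h5, ← mul_assoc]
    exact mul_le_mul h3 h4 (by positivity) (by positivity)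
  have hX0 : 0 ≤ (3 + Real.log P.card) * (((A + P).card : ℝ) / P.card) := by
    have : 0 ≤ Real.log P.card := Real.log_nonneg hP1
    positivity
  have h1 := h e he0 he1 (fun _ => A) (fun _ => P) (fun _ => hA) (fun _ => hP)
  rw [Finset.prod_const, Finset.prod_const, Finset.card_univ, Fintype.card_fin, ← hN] at h1
  have hpk : H633R5.FS.PS (fun _ : Fin k => A) = pk k A := rfl
  rw [hpk] at h1
  have h2 : (P.card : ℝ) ^ e * ((3 + Real.log P.card) * (((A + P).card : ℝ) / P.card)) ^ E ≤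
      c₀ ^ E * N ^ (D * e + 2 * δ * E) := by
    have h3 : (P.card : ℝ) ^ e ≤ N ^ (D * e) := by
      rw [Real.rpow_mul hN0.le]
      exact Real.rpow_le_rpow (by linarith) hPc he0.le
    have h4 : ((3 + Real.log P.card) * (((A + P).card : ℝ) / P.card)) ^ E ≤
        c₀ ^ E * N ^ (2 * δ * E) := by
      have := Real.rpow_le_rpow hX0 hX hE0.le
      rwa [Real.mul_rpow hc₀0.le (by positivity), ← Real.rpow_mul hN0.le] at this
    calc (P.card : ℝ) ^ e * ((3 + Real.log P.card) * (((A + P).card : ℝ) / P.card)) ^ E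
        ≤ N ^ (D * e) * (c₀ ^ E * N ^ (2 * δ * E)) :=
          mul_le_mul h3 h4 (Real.rpow_nonneg hX0 _) (by positivity)
      _ = c₀ ^ E * (N ^ (D * e) * N ^ (2 * δ * E)) := by ring
      _ = _ := by rw [← Real.rpow_add hN0]
  have h3 : (N ^ (1 - ε / (4 * k))) ^ k ≤
      (pk k A).card * ((c₀ ^ E) ^ k * N ^ ((D * e + 2 * δ * E) * k)) := by
    refine h1.trans ?_
    refine mul_le_mul_of_nonneg_left ?_ (by positivity)
    have h4 := pow_le_pow_left₀ (by positivity) h2 k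
    refine h4.trans (le_of_eq ?_)
    rw [mul_pow, Real.rpow_mul_natCast hN0.le]
  rw [← Real.rpow_mul_natCast hN0.le] at h3
  have hexp : (k : ℝ) - ε ≤ (1 - ε / (4 * k)) * k - (D * e + 2 * δ * E) * k := by
    have h4 : D * e ≤ ε / (4 * k) := by
      have : e ≤ ε / (4 * k * D) := min_le_right _ _
      calc D * e ≤ D * (ε / (4 * k * D)) := mul_le_mul_of_nonneg_left this hD.le
        _ = ε / (4 * k) := by field_simp
    have h5 : 2 * δ * E = ε / (4 * k) := by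
      rw [hδ]; field_simp; ring
    have h6 : ε / (4 * k) * k = ε / 4 := by field_simp
    rw [h5]
    nlinarith
  have h4 : N ^ ((k : ℝ) - ε) * N ^ ((D * e + 2 * δ * E) * k) ≤ N ^ ((1 - ε / (4 * k)) * k) := by
    rw [← Real.rpow_add hN0]
    exact Real.rpow_le_rpow_of_exponent_le hN1 (by linarith)
  rw [inv_mul_le_iff₀ (by positivity)]
  have h5 : 0 < N ^ ((D * e + 2 * δ * E) * k) := by positivity
  refine le_of_mul_le_mul_right ?_ h5
  calc N ^ ((k : ℝ) - ε) * N ^ ((D * e + 2 * δ * E) * k)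
      ≤ (pk k A).card * ((c₀ ^ E) ^ k * N ^ ((D * e + 2 * δ * E) * k)) := h4.trans h3
    _ = _ := by ring

/-- reduction of a set of complex numbers to a set of integers -/
theorem reduce_coset (A : Finset ℤ) (P : Finset ℂ) (hP : P.Nonempty) {K : ℝ}
    (h : ((SB A P).card : ℝ) ≤ K * P.card) :
    ∃ P' : Finset ℤ, P'.Nonempty ∧ P'.card ≤ P.card ∧ ((A + P').card : ℝ) ≤ K * P'.card := by
  classical
  let q : ℂ → ℂ ⧸ (Int.castAddHom ℂ).range := fun z => (z : ℂ ⧸ (Int.castAddHom ℂ).range)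
  have hq : ∀ (a : ℤ) (z : ℂ), q ((a : ℂ) + z) = q z := by
    intro a z
    change ((((a : ℂ) + z : ℂ)) : ℂ ⧸ (Int.castAddHom ℂ).range) = (z : ℂ ⧸ _)
    rw [QuotientAddGroup.eq]
    refine ⟨-a, ?_⟩
    simp
  -- the fibres
  have h1 : (SB A P).card = ∑ t ∈ P.image q, (SB A (P.filter fun z => q z = t)).card := by
    rw [Finset.card_eq_sum_card_fiberwise (f := q) (t := P.image q)]
    · refine Finset.sum_congr rfl fun t _ => ?_
      congr 1
      ext w
      simp only [SB, mem_filter, mem_image, mem_product, Prod.exists]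
      constructor
      · rintro ⟨⟨a, z, ⟨ha, hz⟩, rfl⟩, hw⟩
        exact ⟨a, z, ⟨ha, hz, by rw [← hw, hq]⟩, rfl⟩
      · rintro ⟨a, z, ⟨ha, hz, hzt⟩, rfl⟩
        exact ⟨⟨a, z, ⟨ha, hz⟩, rfl⟩, by rw [hq, hzt]⟩
    · intro w hw
      obtain ⟨⟨a, z⟩, hs, rfl⟩ := mem_image.1 (Finset.mem_coe.1 hw)
      rw [Finset.mem_coe]
      change q ((a : ℂ) + z) ∈ _
      rw [hq]
      exact mem_image_of_mem _ (mem_product.1 hs).2
  have h2 : P.card = ∑ t ∈ P.image q, (P.filter fun z => q z = t).card :=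
    Finset.card_eq_sum_card_image q P
  have h3 : ∃ t ∈ P.image q, ((SB A (P.filter fun z => q z = t)).card : ℝ) ≤
      K * (P.filter fun z => q z = t).card := by
    refine Finset.exists_le_of_sum_le (hP.image q) ?_
    rw [← Finset.mul_sum, ← Nat.cast_sum, ← Nat.cast_sum, ← h1, ← h2]
    exact h
  obtain ⟨t, ht, h4⟩ := h3
  obtain ⟨z₀, hz₀, hz₀t⟩ := mem_image.1 ht
  set Q := P.filter fun z => q z = t with hQ
  have hinj : Function.Injective fun n : ℤ => z₀ + (n : ℂ) := by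
    intro m n hmn
    exact_mod_cast add_left_cancel hmn
  let P' : Finset ℤ := Q.preimage (fun n : ℤ => z₀ + (n : ℂ)) hinj.injOn
  have hmem : ∀ {n : ℤ}, n ∈ P' ↔ z₀ + (n : ℂ) ∈ Q := by
    intro n
    exact Finset.mem_preimage (f := fun n : ℤ => z₀ + (n : ℂ)) (hf := hinj.injOn)
  have hP' : P'.image (fun n : ℤ => z₀ + (n : ℂ)) = Q := by
    ext z
    rw [mem_image]
    constructor
    · rintro ⟨n, hn, rfl⟩
      exact hmem.1 hn
    · intro hz
      have h5 : q z = q z₀ := by rw [(mem_filter.1 hz).2, hz₀t]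
      have h6 : (z₀ : ℂ ⧸ (Int.castAddHom ℂ).range) = (z : ℂ ⧸ _) := h5.symm
      rw [QuotientAddGroup.eq] at h6
      obtain ⟨n, hn⟩ := h6
      have h7 : z₀ + (n : ℂ) = z := by
        have h8 : ((n : ℤ) : ℂ) = -z₀ + z := hn
        rw [h8]; ring
      exact ⟨n, hmem.2 (by rw [h7]; exact hz), h7⟩
  have hc : P'.card = Q.card := by rw [← hP', card_image_of_injective _ hinj]
  refine ⟨P', ?_, ?_, ?_⟩
  · rw [← card_pos, hc, card_pos]
    exact ⟨z₀, mem_filter.2 ⟨hz₀, hz₀t⟩⟩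
  · rw [hc]
    exact card_le_card (filter_subset _ _)
  · rw [hc]
    refine le_trans ?_ h4
    have h5 : (A + P').image (fun n : ℤ => z₀ + (n : ℂ)) ⊆ SB A Q := by
      intro w hw
      obtain ⟨n, hn, rfl⟩ := mem_image.1 hw
      obtain ⟨a, ha, p, hp, rfl⟩ := mem_add.1 hn
      refine mem_image.2 ⟨(a, z₀ + (p : ℂ)), mem_product.2 ⟨ha, hmem.1 hp⟩, ?_⟩
      push_cast
      ring
    have h6 := card_le_card h5
    rw [card_image_of_injective _ hinj] at h6
    exact_mod_cast h6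

end Pool.Agent.R765.SP
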