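import Pool.Agent.R765.SPa

/-!
# Expansion of sets of integers by sums and by products with arbitrary sets, second part
-/

set_option autoImplicit false

namespace Pool.Agent.R765.SP

open Finset Pool.Agent.Y359.PE Pool.Agent.R849.RF Pool.Agent.H384R3.SPk
open scoped Pointwise

theorem pk_eq (m : ℕ) (A : Finset ℤ) : pk m A = A ^ m := by
  ext x
  rw [mem_pow]
  constructor
  · intro hx
    obtain ⟨f, hf, rfl⟩ := mem_image.1 hx
    rw [Fintype.mem_piFinset] at hf
    exact ⟨fun i => ⟨f i, hf i⟩, by rw [List.prod_ofFn]⟩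
  · rintro ⟨f, rfl⟩
    exact mem_image.2 ⟨fun i => f i, Fintype.mem_piFinset.2 fun i => (f i).2, by rw [List.prod_ofFn]⟩

/-- absolute values -/
def ab (A : Finset ℤ) : Finset ℤ := A.image fun a => |a|

theorem ab_pow_card (A : Finset ℤ) (m : ℕ) : ((ab A) ^ m).card ≤ (A ^ m).card := by
  have h : (ab A) ^ m ⊆ (A ^ m).image fun a => |a| := by
    intro x hx
    rw [mem_pow] at hx
    obtain ⟨f, rfl⟩ := hx
    have h1 : ∀ i, ∃ a ∈ A, |a| = (f i : ℤ) := fun i => mem_image.1 (f i).2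
    choose g hg hgf using h1
    refine mem_image.2 ⟨∏ i, g i, ?_, ?_⟩
    · rw [mem_pow]
      exact ⟨fun i => ⟨g i, hg i⟩, by rw [List.prod_ofFn]⟩
    · rw [List.prod_ofFn, Finset.abs_prod]
      exact Finset.prod_congr rfl fun i _ => hgf i
  exact (card_le_card h).trans card_image_le

theorem ab_pos {A : Finset ℤ} (h0 : (0 : ℤ) ∉ A) {x : ℤ} (hx : x ∈ ab A) : 0 < x := by
  obtain ⟨a, ha, rfl⟩ := mem_image.1 hx
  exact abs_pos.2 fun h => h0 (h ▸ ha)

theorem pow_pos_mem {A : Finset ℤ} (h : ∀ x ∈ A, 0 < x) (m : ℕ) : ∀ x ∈ A ^ m, 0 < x := by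
  intro x hx
  rw [mem_pow] at hx
  obtain ⟨f, rfl⟩ := hx
  rw [List.prod_ofFn]
  exact Finset.prod_pos fun i _ => h _ (f i).2

theorem card_le_mul {S T : Finset ℤ} {y : ℤ} (hy : y ∈ T) (h0 : y ≠ 0) : S.card ≤ (S * T).card := by
  have h : S.image (fun x => x * y) ⊆ S * T := by
    intro z hz
    obtain ⟨x, hx, rfl⟩ := mem_image.1 hz
    exact mul_mem_mul hx hy
  have h1 := card_le_card h
  rwa [card_image_of_injective _ (mul_left_injective₀ h0)] at h1

theorem card_pow_mono' {A : Finset ℤ} (hA : A.Nonempty) (h : ∀ x ∈ A, 0 < x) {m m' : ℕ}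
    (hm : m ≤ m') : (A ^ m).card ≤ (A ^ m').card := by
  obtain ⟨r, rfl⟩ := Nat.exists_eq_add_of_le hm
  rw [pow_add]
  obtain ⟨y, hy⟩ := hA.pow (n := r)
  exact card_le_mul hy (pow_pos_mem h r y hy).ne'

theorem card_mul_ab (A B : Finset ℤ) : (A * B).card ≤ 2 * (ab A * B).card := by
  have h : A * B ⊆ (ab A * B) ∪ (ab A * B).image fun x => -x := by
    intro z hz
    obtain ⟨a, ha, b, hb, rfl⟩ := mem_mul.1 hz
    rw [mem_union]
    rcases abs_choice a with h | h
    · left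
      exact mem_mul.2 ⟨|a|, mem_image_of_mem _ ha, b, hb, by rw [h]⟩
    · right
      refine mem_image.2 ⟨|a| * b, mul_mem_mul (mem_image_of_mem _ ha) hb, ?_⟩
      rw [h]; ring
  have h1 := (card_le_card h).trans (card_union_le _ _)
  have h2 : ((ab A * B).image fun x : ℤ => -x).card ≤ (ab A * B).card := card_image_le
  omega

theorem dilsum_one (k : ℕ) (A : Finset ℤ) :
    dilsum (fun _ : Fin k => (1 : ℤ)) (fun _ => A) = sumset k A := by
  unfold dilsum sumset
  congr 1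
  funext f
  simp

/-! ### Few products with one set -/

theorem sum_of_few_products (ε D : ℝ) (hε : 0 < ε) (hD : 0 < D) (k : ℕ) (hk : 2 ≤ k) :
    ∃ δ : ℝ, 0 < δ ∧ ∀ (A : Finset ℤ) (P : Finset ℂ), A.Nonempty → (0 : ℤ) ∉ A → P.Nonempty →
      (0 : ℂ) ∉ P → (P.card : ℝ) ≤ (A.card : ℝ) ^ D →
      ((AB P A).card : ℝ) ≤ (A.card : ℝ) ^ δ * P.card →
      (A.card : ℝ) ^ k ≤ 2 ^ k * (A.card : ℝ) ^ ε * ((sumset k A).card : ℝ) := by
  classical
  have hk0 : (0 : ℝ) < k := by positivity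
  set n : ℕ := 2 * k with hn
  have hn2 : 2 ≤ n := by omega
  set J : ℕ := ⌈2 * k * (D + 1) / ε⌉₊ with hJ
  set I : ℕ := J + 1 with hI
  have hI0 : (0 : ℝ) < I := by rw [hI]; positivity
  have hnI : (0 : ℝ) < (n : ℝ) ^ I := by positivity
  refine ⟨((n : ℝ) ^ I)⁻¹, by positivity, ?_⟩
  intro A P hA h0A hP h0P hPc hAP
  obtain ⟨N, hN⟩ : ∃ N : ℝ, N = A.card := ⟨_, rfl⟩
  have hN1 : (1 : ℝ) ≤ N := by rw [hN]; exact_mod_cast hA.card_pos
  have hN0 : 0 < N := by linarith
  have hP1 : (1 : ℝ) ≤ P.card := by exact_mod_cast hP.card_pos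
  rw [← hN] at hPc hAP ⊢
  have habne : (ab A).Nonempty := hA.image _
  have habpos : ∀ x ∈ ab A, 0 < x := fun x hx => ab_pos h0A hx
  set q : ℝ := N ^ ((D + 1) / I) with hq
  have hq1 : 1 ≤ q := Real.one_le_rpow hN1 (by positivity)
  have hqI : q ^ I = N ^ (D + 1) := by
    rw [hq, ← Real.rpow_mul_natCast hN0.le]
    congr 1
    field_simp
  -- the iterated product sets
  let b : ℕ → ℝ := fun i => (((ab A) ^ (n ^ i)).card : ℝ)
  have hb1 : ∀ i, 1 ≤ b i := fun i => by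
    change (1 : ℝ) ≤ (((ab A) ^ (n ^ i)).card : ℝ)
    exact_mod_cast (habne.pow (n := n ^ i)).card_pos
  have hbI : b I ≤ N ^ (D + 1) := by
    have h1 := plun P hP h0P A h0A (n ^ I)
    have h2 : ((AB P A).card : ℝ) ^ (n ^ I) ≤ N * (P.card : ℝ) ^ (n ^ I) := by
      have h3 := pow_le_pow_left₀ (by positivity) hAP (n ^ I)
      refine h3.trans (le_of_eq ?_)
      rw [mul_pow, ← Real.rpow_mul_natCast hN0.le]
      push_cast
      rw [inv_mul_cancel₀ hnI.ne', Real.rpow_one]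
    have h4 : ((pk (n ^ I) A).card : ℝ) * (P.card : ℝ) ^ (n ^ I) ≤
        (N * P.card) * (P.card : ℝ) ^ (n ^ I) := by
      refine h1.trans ?_
      calc ((AB P A).card : ℝ) ^ (n ^ I) * P.card ≤ (N * (P.card : ℝ) ^ (n ^ I)) * P.card := by
            gcongr
        _ = _ := by ring
    have h5 := le_of_mul_le_mul_right h4 (by positivity)
    rw [pk_eq] at h5
    have h6 : b I ≤ ((A ^ (n ^ I)).card : ℝ) := by
      change (((ab A) ^ (n ^ I)).card : ℝ) ≤ _
      exact_mod_cast ab_pow_card A (n ^ I)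
    refine h6.trans (h5.trans ?_)
    rw [Real.rpow_add hN0, Real.rpow_one, mul_comm]
    gcongr
  have hpig : ∃ i, i < I ∧ b (i + 1) ≤ q * b i := by
    by_contra hcon
    push Not at hcon
    have h1 : ∀ j, j ≤ I → q ^ j ≤ b j := by
      intro j
      induction j with
      | zero => intro _; rw [pow_zero]; exact hb1 0
      | succ j ih =>
        intro hj
        have h2 := ih (by omega)
        have h3 := hcon j (by omega)
        rw [pow_succ, mul_comm]
        exact (mul_le_mul_of_nonneg_left h2 (by linarith)).trans h3.le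
    have h2 := h1 J (by omega)
    have h3 := hcon J (by omega)
    have h4 : q ^ I ≤ q * b J := by
      rw [hI, pow_succ, mul_comm]
      exact mul_le_mul_of_nonneg_left h2 (by linarith)
    rw [hqI] at h4
    have h5 : b (J + 1) = b I := rfl
    linarith
  obtain ⟨i, -, hi⟩ := hpig
  obtain ⟨m, hm⟩ : ∃ m, m = n ^ i := ⟨_, rfl⟩
  have hm1 : 1 ≤ m := by rw [hm]; exact Nat.one_le_pow _ _ (by omega)
  set B : Finset ℤ := (ab A) ^ m with hB
  have hBne : B.Nonempty := habne.pow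
  have hBpos : ∀ x ∈ B, 0 < x := pow_pos_mem habpos m
  have hBc : (0 : ℝ) < B.card := by exact_mod_cast hBne.card_pos
  have hbi : b i = B.card := by
    change (((ab A) ^ (n ^ i)).card : ℝ) = _
    rw [hB, hm]
  have hbi1 : b (i + 1) = (((ab A) ^ (m * n)).card : ℝ) := by
    change (((ab A) ^ (n ^ (i + 1))).card : ℝ) = _
    rw [pow_succ, hm]
  have hcond : Pool.Agent.Y849.LW.Cond k n 1 := by
    have h2k : (0 : ℝ) < 2 * k - 1 := by
      have : (2 : ℝ) ≤ k := by exact_mod_cast hk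
      linarith
    unfold Pool.Agent.Y849.LW.Cond
    rw [Real.rpow_one, hn]
    push_cast
    rw [div_self h2k.ne']
  have h1 := (Pool.Agent.Y849.LW.fin hk hn2 hcond).2 (fun _ => A) (fun _ => B) (fun _ => h0A)
    (fun _ => hBne) (fun _ => hBpos) (fun _ => 1) (fun _ => one_ne_zero)
  rw [dilsum_one, Finset.prod_const, Finset.prod_const, Finset.card_univ, Fintype.card_fin,
    Real.rpow_one, ← hN] at h1
  have h2 : (prodset fun _ : Fin n => B) = (ab A) ^ (m * n) := by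
    have : (prodset fun _ : Fin n => B) = pk n B := rfl
    rw [this, pk_eq, hB, ← pow_mul]
  have h3 : (((prodset fun _ : Fin n => B).card : ℝ) / B.card) ≤ q := by
    rw [div_le_iff₀ hBc, h2, ← hbi1, ← hbi]
    exact hi
  have h4 : ((A * B).card : ℝ) / B.card ≤ 2 * q := by
    rw [div_le_iff₀ hBc]
    have h5 : (A * B).card ≤ 2 * ((ab A) ^ (m * n)).card := by
      refine (card_mul_ab A B).trans (Nat.mul_le_mul_left 2 ?_)
      rw [hB, ← pow_succ']
      refine card_pow_mono' habne habpos ?_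
      nlinarith
    have h6 : ((A * B).card : ℝ) ≤ 2 * b (i + 1) := by
      rw [hbi1]
      exact_mod_cast h5
    rw [← hbi]
    linarith
  have h5 : (((A * B).card : ℝ) / B.card * (((prodset fun _ : Fin n => B).card : ℝ) / B.card)) ^ k ≤
      2 ^ k * N ^ ε := by
    have h6 : ((A * B).card : ℝ) / B.card * (((prodset fun _ : Fin n => B).card : ℝ) / B.card) ≤
        2 * q * q := mul_le_mul h4 h3 (by positivity) (by positivity)
    refine (pow_le_pow_left₀ (by positivity) h6 k).trans ?_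
    have h7 : (2 * q * q) ^ k = 2 ^ k * q ^ (2 * k) := by
      rw [mul_assoc, mul_pow, ← pow_two, ← pow_mul]
    rw [h7]
    refine mul_le_mul_of_nonneg_left ?_ (by positivity)
    rw [hq, ← Real.rpow_mul_natCast hN0.le]
    refine Real.rpow_le_rpow_of_exponent_le hN1 ?_
    push_cast
    rw [div_mul_eq_mul_div, div_le_iff₀ hI0]
    have h8 : 2 * k * (D + 1) / ε ≤ J := Nat.le_ceil _
    rw [div_le_iff₀ hε] at h8
    have h9 : (I : ℝ) = J + 1 := by rw [hI]; push_cast; ring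
    rw [h9]
    nlinarith
  exact h1.trans (mul_le_mul_of_nonneg_right h5 (by positivity))

/-- Plünnecke, additive -/
theorem plunS (A : Finset ℤ) (B : Finset ℂ) (hB : B.Nonempty) (k : ℕ) :
    ((sumset k A).card : ℝ) * (B.card : ℝ) ^ k ≤ ((SB A B).card : ℝ) ^ k * B.card := by
  classical
  have h1 := pluennecke_ruzsa_inequality_nsmul_add hB (ci A) k
  have hB0 : (0 : ℝ) < B.card := by exact_mod_cast hB.card_pos
  have hSB : B + ci A = SB A B := by
    ext z
    rw [mem_add]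
    constructor
    · rintro ⟨x, hx, y, hy, rfl⟩
      obtain ⟨a, ha, rfl⟩ := mem_image.1 hy
      exact mem_image.2 ⟨(a, x), mem_product.2 ⟨ha, hx⟩, by ring⟩
    · intro hz
      obtain ⟨⟨a, x⟩, hs, rfl⟩ := mem_image.1 hz
      exact ⟨x, (mem_product.1 hs).2, a, mem_image_of_mem _ (mem_product.1 hs).1, by ring⟩
  rw [hSB] at h1
  have h2 : ((k • ci A).card : ℝ) ≤ (((SB A B).card : ℝ) / B.card) ^ k * B.card := by
    have h2 := (NNRat.cast_le (K := ℝ)).2 h1
    push_cast at h2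
    exact h2
  have h3 : (sumset k A).card ≤ (k • ci A).card := by
    rw [← card_image_of_injective (sumset k A) (Int.cast_injective (α := ℂ))]
    refine card_le_card fun z hz => ?_
    obtain ⟨v, hv, rfl⟩ := mem_image.1 hz
    obtain ⟨f, hf, rfl⟩ := mem_image.1 hv
    rw [Fintype.mem_piFinset] at hf
    rw [mem_nsmul]
    refine ⟨fun i => ⟨(f i : ℂ), mem_image_of_mem _ (hf i)⟩, ?_⟩
    rw [List.sum_ofFn]
    push_cast
    rfl
  have h4 : ((sumset k A).card : ℝ) ≤ (((SB A B).card : ℝ) / B.card) ^ k * B.card :=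
    le_trans (by exact_mod_cast h3) h2
  have h5 := mul_le_mul_of_nonneg_right h4 (show 0 ≤ (B.card : ℝ) ^ k by positivity)
  refine h5.trans (le_of_eq ?_)
  rw [div_pow]
  field_simp

theorem final (ε D : ℝ) (hε : 0 < ε) (hε1 : ε ≤ 1) (hD : 0 < D) : ∃ δ c : ℝ, 0 < δ ∧ 0 < c ∧
    ∀ A : Finset ℤ, A.Nonempty → (0 : ℤ) ∉ A →
      (∀ P : Finset ℂ, P.Nonempty → (P.card : ℝ) ≤ (A.card : ℝ) ^ D →
        ((SB A P).card : ℝ) ≤ (A.card : ℝ) ^ δ * P.card →
        ∀ B : Finset ℂ, B.Nonempty → (0 : ℂ) ∉ B →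
          c * ((A.card : ℝ) * B.card) ^ (1 - ε) ≤ (AB B A).card) ∧
      (∀ P : Finset ℂ, P.Nonempty → (0 : ℂ) ∉ P → (P.card : ℝ) ≤ (A.card : ℝ) ^ D →
        ((AB P A).card : ℝ) ≤ (A.card : ℝ) ^ δ * P.card →
        ∀ B : Finset ℂ, B.Nonempty →
          c * ((A.card : ℝ) * B.card) ^ (1 - ε) ≤ (SB A B).card) := by
  obtain ⟨k, hk2, hkε⟩ : ∃ k : ℕ, 2 ≤ k ∧ 1 / ε ≤ k :=
    ⟨max 2 ⌈1 / ε⌉₊, le_max_left _ _, (Nat.le_ceil _).trans (by exact_mod_cast le_max_right _ _)⟩
  obtain ⟨δ₁, c₁, hδ₁, hc₁, h1⟩ := prod_of_few_sums ε D hε hD k (by omega)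
  obtain ⟨δ₂, hδ₂, h2⟩ := sum_of_few_products ε D hε hD k hk2
  refine ⟨min δ₁ δ₂, min ((c₁ / 2) ^ (1 / (k : ℝ))) (((2 : ℝ) ^ k)⁻¹ ^ (1 / (k : ℝ))), by positivity,
    by positivity, ?_⟩
  intro A hA h0A
  obtain ⟨a₀, ha₀⟩ := hA
  have hA : A.Nonempty := ⟨a₀, ha₀⟩
  have hne : ∃ a ∈ A, a ≠ 0 := ⟨a₀, ha₀, fun h => h0A (h ▸ ha₀)⟩
  have hN1 : (1 : ℝ) ≤ A.card := by exact_mod_cast hA.card_pos
  constructor
  · intro P hP hPc hAP B hB h0B
    have h3 : ((SB A P).card : ℝ) ≤ (A.card : ℝ) ^ δ₁ * P.card := by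
      refine hAP.trans (mul_le_mul_of_nonneg_right ?_ (by positivity))
      exact Real.rpow_le_rpow_of_exponent_le hN1 (min_le_left _ _)
    obtain ⟨P', hP', hc', hAP'⟩ := reduce_coset A P hP h3
    have h4 := h1 A P' hne hP' (le_trans (by exact_mod_cast hc') hPc) hAP'
    have h5 := arb hε hε1 hc₁ k hkε A hne h4 B hB h0B
    rw [mul_comm (A.card : ℝ)]
    exact le_trans (mul_le_mul_of_nonneg_right (min_le_left _ _) (by positivity)) h5
  · intro P hP h0P hPc hAP B hB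
    have h3 : ((AB P A).card : ℝ) ≤ (A.card : ℝ) ^ δ₂ * P.card := by
      refine hAP.trans (mul_le_mul_of_nonneg_right ?_ (by positivity))
      exact Real.rpow_le_rpow_of_exponent_le hN1 (min_le_right _ _)
    have h4 := h2 A P hA h0A hP h0P hPc h3
    have hN0 : (0 : ℝ) < A.card := by linarith
    have h5 : ((2 : ℝ) ^ k)⁻¹ * (A.card : ℝ) ^ ((k : ℝ) - ε) ≤ ((sumset k A).card : ℝ) := by
      rw [inv_mul_le_iff₀ (by positivity), Real.rpow_sub hN0, Real.rpow_natCast,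
        div_le_iff₀ (by positivity)]
      calc (A.card : ℝ) ^ k ≤ 2 ^ k * (A.card : ℝ) ^ ε * ((sumset k A).card : ℝ) := h4
        _ = _ := by ring
    have h6 := arb_real hε hε1 (by positivity) k hkε hN1
      (show (1 : ℝ) ≤ B.card by exact_mod_cast hB.card_pos) (by positivity) h5 (plunS A B hB k)
    rw [mul_comm (A.card : ℝ)]
    exact le_trans (mul_le_mul_of_nonneg_right (min_le_right _ _) (by positivity)) h6

end Pool.Agent.R765.SP
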